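import Pool.Agent.Lib.MP_8eabdf_an.CE7

/-! the Levi form of `rb β`; `0` is an isolated weakly pseudoconvex point -/

namespace MP8eabdf

open Complex Filter Topology Asymptotics Set
open scoped ComplexConjugate ContDiff

/-- second order jet at `0` of a function of a real variable -/
def Jet (φ : ℝ → ℂ) (A B C : ℂ) : Prop :=
  ∃ R : ℝ → ℂ, Continuous R ∧ ∀ s : ℝ, φ s = A + B * s + C * s ^ 2 + s ^ 3 * R s

lemma Jet.mul {φ ψ : ℝ → ℂ} {A B C A' B' C' : ℂ} (h : Jet φ A B C) (h' : Jet ψ A' B' C') :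
    Jet (fun s => φ s * ψ s) (A * A') (A * B' + B * A') (A * C' + B * B' + C * A') := by
  obtain ⟨R, hR, h⟩ := h
  obtain ⟨R', hR', h'⟩ := h'
  refine ⟨fun s => B * C' + C * B' + (s : ℂ) * (C * C') + R s * (A' + B' * s + C' * s ^ 2)
    + R' s * (A + B * s + C * s ^ 2) + (s : ℂ) ^ 3 * R s * R' s, by fun_prop, ?_⟩
  intro s
  simp only [h, h']
  ring

lemma Jet.add {φ ψ : ℝ → ℂ} {A B C A' B' C' : ℂ} (h : Jet φ A B C) (h' : Jet ψ A' B' C') :
    Jet (fun s => φ s + ψ s) (A + A') (B + B') (C + C') := by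
  obtain ⟨R, hR, h⟩ := h
  obtain ⟨R', hR', h'⟩ := h'
  refine ⟨fun s => R s + R' s, by fun_prop, ?_⟩
  intro s
  simp only [h, h']
  ring

lemma Jet.sub {φ ψ : ℝ → ℂ} {A B C A' B' C' : ℂ} (h : Jet φ A B C) (h' : Jet ψ A' B' C') :
    Jet (fun s => φ s - ψ s) (A - A') (B - B') (C - C') := by
  obtain ⟨R, hR, h⟩ := h
  obtain ⟨R', hR', h'⟩ := h'
  refine ⟨fun s => R s - R' s, by fun_prop, ?_⟩
  intro s
  simp only [h, h']
  ring

lemma Jet.const_mul {φ : ℝ → ℂ} {A B C : ℂ} (c : ℂ) (h : Jet φ A B C) :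
    Jet (fun s => c * φ s) (c * A) (c * B) (c * C) := by
  obtain ⟨R, hR, h⟩ := h
  refine ⟨fun s => c * R s, by fun_prop, ?_⟩
  intro s
  simp only [h]
  ring

lemma Jet.lin (a b : ℂ) : Jet (fun s => a + b * s) a b 0 :=
  ⟨fun _ => 0, by fun_prop, fun s => by ring⟩

lemma Jet.deriv2 {φ : ℝ → ℝ} {A B C : ℂ} (hφ : AnalyticAt ℝ φ 0)
    (h : Jet (fun s => (φ s : ℂ)) A B C) :
    deriv φ 0 = B.re ∧ iteratedDeriv 2 φ 0 = 2 * C.re := by
  obtain ⟨R, hR, h⟩ := h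
  have ht := taylor_real hφ
  simp only [zero_add] at ht
  have h1 : (fun s : ℝ => (s : ℂ) ^ 3 * R s) =O[𝓝 0] fun s : ℝ => s ^ 3 := by
    have h2 : (fun s : ℝ => R s) =O[𝓝 0] (fun _ => (1 : ℝ)) :=
      (hR.continuousAt (x := (0 : ℝ))).tendsto.isBigO_one ℝ
    have h3 : (fun s : ℝ => (s : ℂ) ^ 3) =O[𝓝 0] fun s : ℝ => s ^ 3 := by
      refine IsBigO.of_bound 1 (Eventually.of_forall fun s => ?_)
      rw [norm_pow, norm_pow, one_mul, Complex.norm_real]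
    simpa using h3.mul h2
  have h2 : (fun s : ℝ => ((φ s : ℝ) : ℂ) - ((φ 0 : ℝ) + (s : ℂ) * ((deriv φ 0 : ℝ) : ℂ)
      + (s : ℂ) ^ 2 * ((1 / 2) * ((iteratedDeriv 2 φ 0 : ℝ) : ℂ)))) =O[𝓝 0]
      fun s : ℝ => s ^ 3 := by
    refine IsBigO.of_norm_left ?_
    refine ht.norm_left.congr_left ?_
    intro s
    rw [← Complex.norm_real]
    congr 1
    simp only [smul_eq_mul]
    push_cast
    ring
  have hall : (fun s : ℝ => (((φ 0 : ℝ) : ℂ) - A) + s • (((deriv φ 0 : ℝ) : ℂ) - B)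
      + s ^ 2 • ((1 / 2) * ((iteratedDeriv 2 φ 0 : ℝ) : ℂ) - C)) =O[𝓝 0]
      fun s : ℝ => s ^ 3 := by
    refine (h1.sub h2).congr_left ?_
    intro s
    have hs : ((φ s : ℝ) : ℂ) = A + B * s + C * s ^ 2 + s ^ 3 * R s := h s
    rw [hs]
    simp only [Complex.real_smul]
    push_cast
    ring
  obtain ⟨u1, u2⟩ := quad_unique hall
  constructor
  · have := congrArg Complex.re u1
    simp only [Complex.sub_re, Complex.ofReal_re, Complex.zero_re] at this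
    linarith
  · have := congrArg Complex.re u2
    have e : ((1 / 2 : ℂ) * ((iteratedDeriv 2 φ 0 : ℝ) : ℂ)).re = (1 / 2) * iteratedDeriv 2 φ 0 := by
      have : ((1 / 2 : ℂ) * ((iteratedDeriv 2 φ 0 : ℝ) : ℂ))
          = (((1 / 2) * iteratedDeriv 2 φ 0 : ℝ) : ℂ) := by push_cast; ring
      rw [this, Complex.ofReal_re]
    rw [Complex.sub_re, e, Complex.zero_re] at this
    linarith

lemma rb_cast (β : ℝ) (p : ℂ × ℂ) : ((rb β p : ℝ) : ℂ) =
    (p.1 * conj p.1) * (p.1 * conj p.1) - (p.1 * conj p.1) * ((p.1 * conj p.1) * (p.1 * conj p.1))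
    + (p.2 * conj p.2) * ((p.1 + β * (p.1 * p.1)) * (conj p.1 + β * (conj p.1 * conj p.1)))
    - (-(I / 2)) * (p.2 - conj p.2) := by
  simp only [rb]
  have a1 : ((‖p.1‖ : ℂ)) ^ 2 = p.1 * conj p.1 := (Complex.mul_conj' p.1).symm
  have a2 : ((‖p.2‖ : ℂ)) ^ 2 = p.2 * conj p.2 := (Complex.mul_conj' p.2).symm
  have a3 : ((‖p.1 + β * p.1 ^ 2‖ : ℂ)) ^ 2 = (p.1 + β * p.1 ^ 2) * (conj p.1 + β * conj p.1 ^ 2) := by
    rw [← Complex.mul_conj']
    simp
  have a4 : p.2 - conj p.2 = 2 * I * (p.2.im : ℂ) := by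
    rw [Complex.sub_conj]; push_cast; ring
  push_cast
  have e4 : ((‖p.1‖ : ℂ)) ^ 4 = (p.1 * conj p.1) ^ 2 := by rw [← a1]; ring
  have e6 : ((‖p.1‖ : ℂ)) ^ 6 = (p.1 * conj p.1) ^ 3 := by rw [← a1]; ring
  have hI : (I : ℂ) ^ 2 = -1 := I_sq
  rw [e4, e6, a2, a3, a4]
  linear_combination (-(p.2.im : ℂ)) * hI

lemma rb_analytic (β : ℝ) (q : ℂ × ℂ) : AnalyticAt ℝ (rb β) q := by
  have h1 : AnalyticAt ℝ (fun p : ℂ × ℂ => p.1.re) q :=
    (Complex.reCLM.comp (ContinuousLinearMap.fst ℝ ℂ ℂ)).analyticAt q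
  have h2 : AnalyticAt ℝ (fun p : ℂ × ℂ => p.1.im) q :=
    (Complex.imCLM.comp (ContinuousLinearMap.fst ℝ ℂ ℂ)).analyticAt q
  have h3 : AnalyticAt ℝ (fun p : ℂ × ℂ => p.2.re) q :=
    (Complex.reCLM.comp (ContinuousLinearMap.snd ℝ ℂ ℂ)).analyticAt q
  have h4 : AnalyticAt ℝ (fun p : ℂ × ℂ => p.2.im) q :=
    (Complex.imCLM.comp (ContinuousLinearMap.snd ℝ ℂ ℂ)).analyticAt q
  have h : rb β = fun p : ℂ × ℂ => (p.1.re ^ 2 + p.1.im ^ 2) ^ 2 - (p.1.re ^ 2 + p.1.im ^ 2) ^ 3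
      + (p.2.re ^ 2 + p.2.im ^ 2) * ((p.1.re + β * (p.1.re ^ 2 - p.1.im ^ 2)) ^ 2
        + (p.1.im + β * (2 * p.1.re * p.1.im)) ^ 2) - p.2.im := by
    funext p
    have n : ∀ z : ℂ, ‖z‖ ^ 2 = z.re ^ 2 + z.im ^ 2 := by
      intro z
      rw [← Complex.normSq_eq_norm_sq, Complex.normSq_apply]; ring
    simp only [rb]
    have e4 : ‖p.1‖ ^ 4 = (‖p.1‖ ^ 2) ^ 2 := by ring
    have e6 : ‖p.1‖ ^ 6 = (‖p.1‖ ^ 2) ^ 3 := by ring
    rw [e4, e6, n, n, n]
    have r1 : (p.1 + β * p.1 ^ 2).re = p.1.re + β * (p.1.re ^ 2 - p.1.im ^ 2) := by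
      simp [pow_two]
    have r2 : (p.1 + β * p.1 ^ 2).im = p.1.im + β * (2 * p.1.re * p.1.im) := by
      rw [pow_two, Complex.add_im, Complex.mul_im, Complex.mul_im, Complex.ofReal_re,
        Complex.ofReal_im]
      ring
    rw [r1, r2]
  rw [h]
  fun_prop

lemma Jet.congr {φ ψ : ℝ → ℂ} {A B C B' C' : ℂ} (h : Jet φ A B C) (hφ : ψ = φ) (hB : B' = B)
    (hC : C' = C) : ∃ A, Jet ψ A B' C' := by
  subst hφ hB hC; exact ⟨A, h⟩

/-- the linear term of `s ↦ rb β (q + s X)` -/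
noncomputable def Bq (β z z' w w' a a' b b' : ℂ) : ℂ :=
  2 * (z * z') * (z * a' + a * z') - 3 * (z * z') ^ 2 * (z * a' + a * z')
    + ((w * w') * ((z + β * z ^ 2) * (a' * (1 + 2 * β * z'))
        + (a * (1 + 2 * β * z)) * (z' + β * z' ^ 2))
      + (w * b' + b * w') * ((z + β * z ^ 2) * (z' + β * z' ^ 2)))
    + (I / 2) * (b - b')

/-- the quadratic term of `s ↦ rb β (q + s X)` -/
def Cq (β z z' w w' a a' b b' : ℂ) : ℂ :=
  (z * a' + a * z') ^ 2 + 2 * (z * z') * (a * a') - 3 * (z * z') * (z * a' + a * z') ^ 2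
    - 3 * (z * z') ^ 2 * (a * a')
    + ((w * w') * ((z + β * z ^ 2) * (β * a' ^ 2) + (a * (1 + 2 * β * z)) * (a' * (1 + 2 * β * z'))
          + (β * a ^ 2) * (z' + β * z' ^ 2))
      + (w * b' + b * w') * ((z + β * z ^ 2) * (a' * (1 + 2 * β * z'))
          + (a * (1 + 2 * β * z)) * (z' + β * z' ^ 2))
      + (b * b') * ((z + β * z ^ 2) * (z' + β * z' ^ 2)))

lemma Cq_I (i β z z' w w' a a' b b' : ℂ) :
    Cq β z z' w w' (i * a) (-i * a') (i * b) (-i * b') = i ^ 2 * Cq β z z' w w' a (-a') b (-b') := by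
  simp only [Cq]; ring

lemma Cq_sub (β z z' w w' a a' b b' : ℂ) :
    Cq β z z' w w' a a' b b' - Cq β z z' w w' a (-a') b (-b') =
      2 * ((a * a') * (z * z') * (4 - 9 * (z * z')) + (b * (z + β * z ^ 2)
        + w * (a * (1 + 2 * β * z))) * (b' * (z' + β * z' ^ 2) + w' * (a' * (1 + 2 * β * z')))) := by
  simp only [Cq]; ring

lemma jet_rb (β : ℝ) (q X : ℂ × ℂ) : ∃ A : ℂ,
    Jet (fun s : ℝ => ((rb β (q + (s : ℂ) • X) : ℝ) : ℂ)) A
      (Bq β q.1 (conj q.1) q.2 (conj q.2) X.1 (conj X.1) X.2 (conj X.2))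
      (Cq β q.1 (conj q.1) q.2 (conj q.2) X.1 (conj X.1) X.2 (conj X.2)) := by
  have z1 := Jet.lin q.1 X.1
  have z2 := Jet.lin (conj q.1) (conj X.1)
  have w1 := Jet.lin q.2 X.2
  have w2 := Jet.lin (conj q.2) (conj X.2)
  have N := z1.mul z2
  have W := w1.mul w2
  have f1 := z1.add ((z1.mul z1).const_mul (β : ℂ))
  have f2 := z2.add ((z2.mul z2).const_mul (β : ℂ))
  have J := (((N.mul N).sub (N.mul (N.mul N))).add (W.mul (f1.mul f2))).sub
    ((w1.sub w2).const_mul (-(I / 2)))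
  refine J.congr ?_ (by simp only [Bq]; ring) (by simp only [Cq]; ring)
  funext s
  rw [rb_cast]
  have c1 : (q + (s : ℂ) • X).1 = q.1 + X.1 * s := by simp [mul_comm]
  have c2 : (q + (s : ℂ) • X).2 = q.2 + X.2 * s := by simp [mul_comm]
  rw [c1, c2]
  simp only [map_add, map_mul, Complex.conj_ofReal]

lemma line_analytic (β : ℝ) (q X : ℂ × ℂ) (c : ℂ) :
    AnalyticAt ℝ (fun s : ℝ => rb β (q + ((s : ℂ) * c) • X)) 0 := by
  have h1 : AnalyticAt ℝ (fun s : ℝ => q + ((s : ℂ) * c) • X) 0 := by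
    have h2 : AnalyticAt ℝ (fun s : ℝ => (s : ℂ)) 0 := Complex.ofRealCLM.analyticAt 0
    have h3 : AnalyticAt ℝ (fun s : ℝ => ((s : ℂ) * c)) 0 := h2.mul analyticAt_const
    have h4 : AnalyticAt ℝ (fun s : ℝ => ((s : ℂ) * c) • X) 0 := by
      have h5 : AnalyticAt ℝ (fun s : ℝ => (((s : ℂ) * c) * X.1, ((s : ℂ) * c) * X.2)) 0 :=
        (h3.mul analyticAt_const).prod (h3.mul analyticAt_const)
      exact h5
    exact analyticAt_const.add h4
  exact AnalyticAt.comp (g := rb β) (f := fun s : ℝ => q + ((s : ℂ) * c) • X)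
    (rb_analytic β _) h1

theorem levi_rb (β : ℝ) (q X : ℂ × ℂ) : leviForm (rb β) q X =
    ‖X.1‖ ^ 2 * ‖q.1‖ ^ 2 * (4 - 9 * ‖q.1‖ ^ 2)
      + ‖X.2 * (q.1 + β * q.1 ^ 2) + q.2 * (X.1 * (1 + 2 * β * q.1))‖ ^ 2 := by
  obtain ⟨A, hJ⟩ := jet_rb β q X
  obtain ⟨A', hJ'⟩ := jet_rb β q (I • X)
  have a1 : AnalyticAt ℝ (fun s : ℝ => rb β (q + (s : ℂ) • X)) 0 := by
    simpa using line_analytic β q X 1
  have a2 : AnalyticAt ℝ (fun s : ℝ => rb β (q + ((s : ℂ) * I) • X)) 0 := line_analytic β q X I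
  have e : (fun s : ℝ => rb β (q + (s : ℂ) • I • X)) = fun s : ℝ => rb β (q + ((s : ℂ) * I) • X) := by
    funext s; rw [smul_smul]
  have d1 := (Jet.deriv2 a1 hJ).2
  have d2 := (Jet.deriv2 (φ := fun s : ℝ => rb β (q + (s : ℂ) • I • X)) (by rw [e]; exact a2) hJ').2
  rw [e] at d2
  rw [leviForm, d1, d2]
  have key : ∀ C1 C2 : ℂ, ∀ v : ℝ, C1 + C2 = 2 * (v : ℂ) →
      (1 / 4 : ℝ) * (2 * C1.re + 2 * C2.re) = v := by
    intro C1 C2 v h
    have := congrArg Complex.re h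
    have e2 : (2 * (v : ℂ)).re = 2 * v := by simp
    rw [Complex.add_re, e2] at this
    linarith
  apply key
  have n : ∀ z : ℂ, ((‖z‖ : ℂ)) ^ 2 = z * conj z := fun z => (Complex.mul_conj' z).symm
  push_cast
  rw [n, n, n]
  have c1 : (I • X).1 = I * X.1 := rfl
  have c2 : (I • X).2 = I * X.2 := rfl
  rw [c1, c2]
  simp only [map_add, map_mul, map_pow, Complex.conj_I, Complex.conj_ofReal, map_one, map_ofNat]
  rw [Cq_I, I_sq]
  linear_combination Cq_sub β q.1 (conj q.1) q.2 (conj q.2) X.1 (conj X.1) X.2 (conj X.2)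

lemma fderiv_rb (β : ℝ) (q X : ℂ × ℂ) : fderiv ℝ (rb β) q X =
    (Bq β q.1 (conj q.1) q.2 (conj q.2) X.1 (conj X.1) X.2 (conj X.2)).re := by
  obtain ⟨A, hJ⟩ := jet_rb β q X
  have a1 : AnalyticAt ℝ (fun s : ℝ => rb β (q + (s : ℂ) • X)) 0 := by
    simpa using line_analytic β q X 1
  have d1 := (Jet.deriv2 a1 hJ).1
  rw [← d1]
  have h1 : HasDerivAt (fun s : ℝ => q + (s : ℂ) • X) X 0 := by
    have h2 : HasDerivAt (fun s : ℝ => s • X) ((1 : ℝ) • X) 0 := (hasDerivAt_id (0 : ℝ)).smul_const X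
    rw [one_smul] at h2
    have h3 := h2.const_add q
    refine h3.congr_of_eventuallyEq (Eventually.of_forall fun s => ?_)
    simp only
    rw [Complex.coe_smul]
  have h2 : HasFDerivAt (rb β) (fderiv ℝ (rb β) q) (q + ((0 : ℝ) : ℂ) • X) := by
    have : q + ((0 : ℝ) : ℂ) • X = q := by simp
    rw [this]
    exact (rb_analytic β q).differentiableAt.hasFDerivAt
  exact (h2.comp_hasDerivAt (0 : ℝ) h1).deriv.symm

theorem rb_isolated (β : ℝ) : IsIsolatedWeaklyPseudoconvex (rb β) 0 := by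
  refine ⟨rb_analytic β 0, by simp [rb], ?_, ?_, ?_⟩
  · intro h
    have h1 := fderiv_rb β 0 (0, I)
    rw [h] at h1
    simp [Bq] at h1
  · intro X _
    rw [levi_rb]
    simp
  · -- positivity
    have hcont : ContinuousAt (fun q : ℂ × ℂ => ‖q.2‖ * ‖q.1 + (β : ℂ) * q.1 ^ 2‖ ^ 2) 0 := by fun_prop
    have hev1 : ∀ᶠ q in 𝓝 (0 : ℂ × ℂ), ‖q.2‖ * ‖q.1 + (β : ℂ) * q.1 ^ 2‖ ^ 2 < 1 / 2 := by
      refine hcont.eventually (gt_mem_nhds ?_)
      simp
    have hcont2 : ContinuousAt (fun q : ℂ × ℂ => 9 * ‖q.1‖ ^ 2) 0 := by fun_prop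
    have hev2 : ∀ᶠ q in 𝓝 (0 : ℂ × ℂ), 9 * ‖q.1‖ ^ 2 < 4 := by
      refine hcont2.eventually (gt_mem_nhds ?_)
      simp
    filter_upwards [nhdsWithin_le_nhds hev1, nhdsWithin_le_nhds hev2, self_mem_nhdsWithin]
      with q h1 h2 hq _ X hX hX0
    have ha : X.1 ≠ 0 := by
      intro ha
      apply hX0
      have t1 := hX.1
      have t2 := hX.2
      rw [fderiv_rb] at t1 t2
      set F : ℝ := ‖q.1 + (β : ℂ) * q.1 ^ 2‖ ^ 2 with hF
      have hFc : (F : ℂ) = (q.1 + β * q.1 ^ 2) * (conj q.1 + β * (conj q.1) ^ 2) := by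
        rw [hF]; push_cast
        rw [← Complex.mul_conj']
        simp
      have hc1 : (I • X).1 = 0 := by
        have : (I • X).1 = I * X.1 := rfl
        rw [this, ha, mul_zero]
      have hc2 : (I • X).2 = I * X.2 := rfl
      have s1 : ∀ b : ℂ, (Bq β q.1 (conj q.1) q.2 (conj q.2) 0 (conj 0) b (conj b)).re
          = 2 * F * (q.2.re * b.re + q.2.im * b.im) - b.im := by
        intro b
        have : Bq β q.1 (conj q.1) q.2 (conj q.2) 0 (conj 0) b (conj b)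
            = (q.2 * conj b + b * conj q.2) * F + (I / 2) * (b - conj b) := by
          rw [hFc]; simp only [Bq, map_zero]; ring
        rw [this]
        simp
        ring
      rw [ha, s1] at t1
      rw [hc1, hc2, s1] at t2
      simp only [Complex.mul_re, Complex.mul_im, Complex.I_re, Complex.I_im, zero_mul, one_mul,
        zero_sub, zero_add] at t2
      have hF0 : 0 ≤ F := by positivity
      have e1 : X.2.im = 2 * F * (q.2.re * X.2.re + q.2.im * X.2.im) := by linarith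
      have e2 : X.2.re = 2 * F * (q.2.im * X.2.re - q.2.re * X.2.im) := by linarith
      have e3 : X.2.re ^ 2 + X.2.im ^ 2 = 4 * F ^ 2 * (q.2.re ^ 2 + q.2.im ^ 2)
          * (X.2.re ^ 2 + X.2.im ^ 2) := by
        calc X.2.re ^ 2 + X.2.im ^ 2 = (2 * F * (q.2.im * X.2.re - q.2.re * X.2.im)) ^ 2
            + (2 * F * (q.2.re * X.2.re + q.2.im * X.2.im)) ^ 2 := by rw [← e1, ← e2]
          _ = _ := by ring
      have hn : ‖q.2‖ ^ 2 = q.2.re ^ 2 + q.2.im ^ 2 := by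
        rw [← Complex.normSq_eq_norm_sq, Complex.normSq_apply]; ring
      have hlt : 4 * F ^ 2 * (q.2.re ^ 2 + q.2.im ^ 2) < 1 := by
        rw [← hn]
        have h3 : 0 ≤ ‖q.2‖ * F := by positivity
        have h4 : ‖q.2‖ * F < 1 / 2 := h1
        nlinarith
      have hz : X.2.re ^ 2 + X.2.im ^ 2 = 0 := by
        have h5 : 0 ≤ X.2.re ^ 2 + X.2.im ^ 2 := by positivity
        by_contra hne
        have h6 : 0 < X.2.re ^ 2 + X.2.im ^ 2 := lt_of_le_of_ne h5 (Ne.symm hne)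
        nlinarith
      have hr0 : X.2.re = 0 := by nlinarith [sq_nonneg X.2.re, sq_nonneg X.2.im]
      have hi0 : X.2.im = 0 := by nlinarith [sq_nonneg X.2.re, sq_nonneg X.2.im]
      ext
      · exact ha
      · exact Complex.ext hr0 hi0
    rw [levi_rb]
    have hpa : 0 < ‖X.1‖ ^ 2 := pow_pos (norm_pos_iff.2 ha) 2
    by_cases hz : q.1 = 0
    · have hw : q.2 ≠ 0 := by
        intro hw
        apply hq
        exact Prod.ext hz hw
      rw [hz]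
      simp only [norm_zero, ne_eq, OfNat.ofNat_ne_zero, not_false_eq_true, zero_pow, mul_zero,
        add_zero, zero_mul, mul_one, zero_add]
      have : q.2 * X.1 ≠ 0 := mul_ne_zero hw ha
      positivity
    · have hpz : 0 < ‖q.1‖ ^ 2 := pow_pos (norm_pos_iff.2 hz) 2
      have h4 : 0 < 4 - 9 * ‖q.1‖ ^ 2 := by linarith
      have h5 : 0 < ‖X.1‖ ^ 2 * ‖q.1‖ ^ 2 * (4 - 9 * ‖q.1‖ ^ 2) := by positivity
      positivity

end MP8eabdf
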