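import Pool.Agent.Lib.MP_8eabdf_an.F3

/-! F4: uniqueness of the formal solution; the contraction step -/

namespace MP8eabdf

open PowerSeries

section general
variable {R S : Type*} [CommRing R] [CommRing S]

/-- `SP` is functorial for jointly injective pairs: membership version -/
theorem SP_mem (D : Subring R) {i u b ζ η T g e₁ e₂ T₁ T₂ : R} (hi : i ∈ D) (hu : u ∈ D)
    (hb : b ∈ D) (hζ : ζ ∈ D) (hη : η ∈ D) (hT : T ∈ D) (hg : g ∈ D) (h1 : e₁ ∈ D) (h2 : e₂ ∈ D)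
    (h3 : T₁ ∈ D) (h4 : T₂ ∈ D) : SP i u b ζ η T g e₁ e₂ T₁ T₂ ∈ D := by
  have h := SP_map D.subtype ⟨i, hi⟩ ⟨u, hu⟩ ⟨b, hb⟩ ⟨ζ, hζ⟩ ⟨η, hη⟩ ⟨T, hT⟩ ⟨g, hg⟩ ⟨e₁, h1⟩
    ⟨e₂, h2⟩ ⟨T₁, h3⟩ ⟨T₂, h4⟩
  simp only [Subring.subtype_apply] at h
  rw [← h]
  exact SetLike.coe_mem _

/-- the four unknowns -/
@[ext] structure V4 (R : Type*) where
  z : R
  e : R
  n : R
  g : R

def V4.map {R S : Type*} (f : R → S) (v : V4 R) : V4 S := ⟨f v.z, f v.e, f v.n, f v.g⟩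

/-- first equation -/
noncomputable def FF (i u b : R) (θ : R → R) (ζ η ν g : R) : R :=
  SP i u b ζ η (1 - i * u ^ 3 * ν) g (η + θ η) (θ (η + θ η))
    ((1 - i * u ^ 3 * ν) + θ (1 - i * u ^ 3 * ν))
    (θ ((1 - i * u ^ 3 * ν) + θ (1 - i * u ^ 3 * ν)))

theorem FF_map (f : R →+* S) {θ : R → R} {θ' : S → S} (hθ : ∀ x, f (θ x) = θ' (f x))
    (i u b ζ η ν g : R) :
    f (FF i u b θ ζ η ν g) = FF (f i) (f u) (f b) θ' (f ζ) (f η) (f ν) (f g) := by
  unfold FF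
  rw [SP_map]
  simp only [map_sub, map_add, map_mul, map_one, map_pow, hθ]

/-- the contraction: `v ↦ v - Λ⁻¹ F v` -/
noncomputable def Ph (κ i u b : R) (θ : R → R) (v : V4 R) : V4 R :=
  ⟨v.z - κ * FF (-i) u b θ v.e v.z v.n v.g, v.e + κ * FF i u b θ v.z v.e v.n v.g,
   Sa u v.z v.e + Bb b v.z v.e * (1 + u ^ 6 * v.n ^ 2), 1 + v.g - v.g * Sd u b v.z v.e⟩

theorem Ph_map (f : R →+* S) {θ : R → R} {θ' : S → S} (hθ : ∀ x, f (θ x) = θ' (f x))
    (κ i u b : R) (v : V4 R) :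
    (Ph κ i u b θ v).map f = Ph (f κ) (f i) (f u) (f b) θ' (v.map f) := by
  unfold Ph V4.map
  simp only [map_sub, map_add, map_mul, map_one, map_pow, FF_map f hθ, map_neg, Sa, Bb, Sd,
    map_ofNat]

/-- solution = fixed point -/
theorem Sol.fix {κ i u b : R} {θ : R → R} {ζ η ν g : R} (h : Sol i u b θ ζ η ν g) :
    Ph κ i u b θ ⟨ζ, η, ν, g⟩ = ⟨ζ, η, ν, g⟩ := by
  have h1 : FF i u b θ ζ η ν g = 0 := h.e1
  have h2 : FF (-i) u b θ η ζ ν g = 0 := by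
    have := h.e2
    unfold FF
    simpa only [neg_mul, sub_neg_eq_add] using this
  unfold Ph
  simp only [h1, h2]
  ext
  · simp
  · simp
  · exact h.e3.symm
  · simp [h.e4]

/-- fixed point = solution, if `κ` is a unit -/
theorem Sol.of_fix {κ i u b : R} (hκ : IsUnit κ) {θ : R → R} {ζ η ν g : R}
    (h : Ph κ i u b θ ⟨ζ, η, ν, g⟩ = ⟨ζ, η, ν, g⟩) : Sol i u b θ ζ η ν g := by
  unfold Ph at h
  simp only [V4.mk.injEq, sub_eq_self, add_eq_left, hκ.mul_right_eq_zero] at h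
  obtain ⟨h2, h1, h3, h4⟩ := h
  refine ⟨h1, ?_, h3.symm, ?_⟩
  · unfold FF at h2
    simpa only [neg_mul, sub_neg_eq_add] using h2
  · linear_combination -h4

theorem FF_zero (i : R) {θ : R → R} (h1 : θ 1 = 0) (ζ η ν g : R) :
    FF i 0 0 θ ζ η ν g = -64 * i ^ 3 * g ^ 3 * η := by
  unfold FF
  rw [SP_zero']
  simp [h1]

/-- the contraction at the origin -/
theorem Ph_zero {κ i : R} (hi : i ^ 2 = -1) (hκ : 64 * κ = i) {θ : R → R} (h1 : θ 1 = 0)
    {v : V4 R} (hze : v.z * v.e = 0) (hgz : (v.g - 1) * v.z = 0)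
    (hge : (v.g - 1) * v.e = 0) :
    Ph κ i 0 0 θ v = ⟨0, 0, 0, 1⟩ := by
  unfold Ph
  rw [FF_zero _ h1, FF_zero _ h1]
  ext
  · simp only
    linear_combination (-(v.g ^ 2 + v.g + 1)) * hgz - i ^ 3 * v.g ^ 3 * v.z * hκ
      - (i ^ 2 - 1) * v.g ^ 3 * v.z * hi
  · simp only
    linear_combination (-(v.g ^ 2 + v.g + 1)) * hge - i ^ 3 * v.g ^ 3 * v.e * hκ
      - (i ^ 2 - 1) * v.g ^ 3 * v.e * hi
  · simp only [Sa, Bb]
    linear_combination (v.z * v.e + 1) * hze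
  · simp [Sd]

/-- the constant terms of a solution -/
theorem sol_zero {i : R} (hi : i ^ 2 = -1) (h2 : IsUnit (2 : R)) {θ : R → R} (h1 : θ 1 = 0)
    {ζ η ν g : R} (h : Sol i 0 0 θ ζ η ν g) : ζ = 0 ∧ η = 0 ∧ ν = 0 ∧ g = 1 := by
  have hg : g = 1 := by simpa [Sd] using h.e4
  subst hg
  have h64 : IsUnit (64 : R) := by
    have : (64 : R) = 2 ^ 6 := by norm_num
    rw [this]
    exact h2.pow 6
  have hη : η = 0 := by
    have h' : FF i 0 0 θ ζ η ν 1 = 0 := h.e1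
    rw [FF_zero _ h1] at h'
    have : 64 * η = 0 := by linear_combination (-i) * h' - 64 * (i ^ 2 - 1) * η * hi
    exact h64.mul_right_eq_zero.mp this
  have hζ : ζ = 0 := by
    have h' : FF (-i) 0 0 θ η ζ ν 1 = 0 := by
      have := h.e2
      unfold FF
      simpa only [neg_mul, sub_neg_eq_add] using this
    rw [FF_zero _ h1] at h'
    have : 64 * ζ = 0 := by linear_combination i * h' - 64 * (i ^ 2 - 1) * ζ * hi
    exact h64.mul_right_eq_zero.mp this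
  refine ⟨hζ, hη, ?_, rfl⟩
  have := h.e3
  simpa [Sa, Bb, hη, hζ] using this

end general

/-! ### The pair ring -/

section pair
variable {A : Type*} [CommRing A]

/-- pairs of power series which agree mod `X ^ k` -/
def pairRing (A : Type*) [CommRing A] (k : ℕ) : Subring (A⟦X⟧ × A⟦X⟧) where
  carrier := {p | X ^ k ∣ p.2 - p.1}
  mul_mem' := by
    rintro ⟨a, a'⟩ ⟨b, b'⟩ ⟨x, hx⟩ ⟨y, hy⟩
    simp only [Prod.mk_mul_mk, Set.mem_ofPred_eq] at hx hy ⊢
    exact ⟨a' * y + x * b, by linear_combination a' * hy + b * hx⟩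
  one_mem' := by simp
  add_mem' := by
    rintro ⟨a, a'⟩ ⟨b, b'⟩ ⟨x, hx⟩ ⟨y, hy⟩
    simp only [Prod.mk_add_mk, Set.mem_ofPred_eq] at hx hy ⊢
    exact ⟨x + y, by linear_combination hy + hx⟩
  zero_mem' := by simp
  neg_mem' := by
    rintro ⟨a, a'⟩ ⟨x, hx⟩
    simp only [Prod.neg_mk, Set.mem_ofPred_eq] at hx ⊢
    exact ⟨-x, by linear_combination -hx⟩

theorem mem_pairRing {k : ℕ} {p : A⟦X⟧ × A⟦X⟧} : p ∈ pairRing A k ↔ X ^ k ∣ p.2 - p.1 := Iff.rfl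

theorem coeff_k_mul {k : ℕ} {a b : A⟦X⟧} (h : X ^ k ∣ b) :
    coeff k (a * b) = constantCoeff a * coeff k b := by
  obtain ⟨y, rfl⟩ := h
  have e1 : a * (X ^ k * y) = X ^ k * (a * y) := by ring
  rw [e1, coeff_X_pow_mul', coeff_X_pow_mul', if_pos le_rfl, if_pos le_rfl]
  simp

/-- the ring hom to the dual numbers -/
noncomputable def pairHom (A : Type*) [CommRing A] {k : ℕ} (hk : 1 ≤ k) :
    pairRing A k →+* DualNumber A where
  toFun p := TrivSqZeroExt.inl (constantCoeff p.1.1) + TrivSqZeroExt.inr (coeff k (p.1.2 - p.1.1))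
  map_one' := by simp
  map_zero' := by simp
  map_add' := by
    rintro ⟨⟨a, a'⟩, h⟩ ⟨⟨b, b'⟩, h'⟩
    ext
    · simp
    · simp
      ring
  map_mul' := by
    rintro ⟨⟨a, a'⟩, h⟩ ⟨⟨b, b'⟩, h'⟩
    rw [mem_pairRing] at h h'
    simp only at h h'
    have hc : constantCoeff a' = constantCoeff a := by
      obtain ⟨y, hy⟩ := h
      have : constantCoeff (a' - a) = 0 := by
        rw [hy]
        simp [show k ≠ 0 by omega]
      rw [map_sub] at this
      linear_combination this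
    have e : a' * b' - a * b = a' * (b' - b) + b * (a' - a) := by ring
    ext
    · simp
    · simp only [MulMemClass.mk_mul_mk, Prod.mk_mul_mk, e, map_add (coeff k), coeff_k_mul h,
        coeff_k_mul h', hc]
      simp
      ring

theorem thetaS_sub (c : ℕ → A) (f g : A⟦X⟧) : thetaS c (f - g) = thetaS c f - thetaS c g := by
  ext n
  simp [thetaS, mul_sub]

theorem coeff_thetaS (c : ℕ → A) (n : ℕ) (f : A⟦X⟧) :
    coeff n (thetaS c f) = c n * coeff n f := by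
  simp [thetaS]

theorem thetaS_dvd (c : ℕ → A) {k : ℕ} {f : A⟦X⟧} (h : X ^ k ∣ f) : X ^ k ∣ thetaS c f := by
  rw [X_pow_dvd_iff] at h ⊢
  intro m hm
  rw [coeff_thetaS, h m hm, mul_zero]

theorem constantCoeff_thetaS (c : ℕ → A) (f : A⟦X⟧) :
    constantCoeff (thetaS c f) = c 0 * constantCoeff f := by
  rw [← coeff_zero_eq_constantCoeff_apply, coeff_thetaS, coeff_zero_eq_constantCoeff_apply]

/-- `θ` on the pair ring -/
noncomputable def pairTheta (c : ℕ → A) (k : ℕ) (p : pairRing A k) : pairRing A k :=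
  ⟨(thetaS c p.1.1, thetaS c p.1.2), by
    rw [mem_pairRing]
    simp only
    rw [← thetaS_sub]
    exact thetaS_dvd c p.2⟩

/-- `θ` on the dual numbers -/
noncomputable def dualTheta (c : ℕ → A) (k : ℕ) (x : DualNumber A) : DualNumber A :=
  TrivSqZeroExt.inl (c 0 * TrivSqZeroExt.fst x) + TrivSqZeroExt.inr (c k * TrivSqZeroExt.snd x)

theorem pairHom_theta (c : ℕ → A) {k : ℕ} (hk : 1 ≤ k) (p : pairRing A k) :
    pairHom A hk (pairTheta c k p) = dualTheta c k (pairHom A hk p) := by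
  ext
  · simp [pairHom, pairTheta, dualTheta, constantCoeff_thetaS]
  · simp [pairHom, pairTheta, dualTheta, coeff_thetaS, mul_sub]

/-- congruence of 4-tuples mod `X ^ k` -/
def Cong (k : ℕ) (v w : V4 A⟦X⟧) : Prop :=
  X ^ k ∣ w.z - v.z ∧ X ^ k ∣ w.e - v.e ∧ X ^ k ∣ w.n - v.n ∧ X ^ k ∣ w.g - v.g

theorem dvd_succ {k : ℕ} (hk : 1 ≤ k) {x : pairRing A k} {y : A}
    (h : pairHom A hk x = TrivSqZeroExt.inl y) : X ^ (k + 1) ∣ x.1.2 - x.1.1 := by
  have h1 : coeff k (x.1.2 - x.1.1) = 0 := by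
    have := congrArg TrivSqZeroExt.snd h
    simpa [pairHom] using this
  have h2 : X ^ k ∣ x.1.2 - x.1.1 := x.2
  rw [X_pow_dvd_iff] at h2 ⊢
  intro m hm
  rcases Nat.lt_succ_iff_lt_or_eq.mp hm with h | h
  · exact h2 m h
  · rw [h, h1]

theorem contract {c : ℕ → A} (hc : c 0 = 0) {κ i : A} (hi : i ^ 2 = -1) (hκ : 64 * κ = i)
    {u b : A⟦X⟧} (hu : constantCoeff u = 0) (hb : constantCoeff b = 0) {k : ℕ} (hk : 1 ≤ k)
    {v w : V4 A⟦X⟧} (hv : v.map (constantCoeff (R := A)) = ⟨0, 0, 0, 1⟩) (hvw : Cong k v w) :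
    Cong (k + 1) (Ph (C κ) (C i) u b (thetaS c) v) (Ph (C κ) (C i) u b (thetaS c) w) := by
  obtain ⟨hz, he, hn, hg⟩ := hvw
  let dg : A⟦X⟧ → pairRing A k := fun x => ⟨(x, x), by simp [mem_pairRing]⟩
  let p : V4 (pairRing A k) := ⟨⟨(v.z, w.z), hz⟩, ⟨(v.e, w.e), he⟩, ⟨(v.n, w.n), hn⟩,
    ⟨(v.g, w.g), hg⟩⟩
  set P := Ph (dg (C κ)) (dg (C i)) (dg u) (dg b) (pairTheta c k) p with hP
  have h1 := Ph_map ((RingHom.fst A⟦X⟧ A⟦X⟧).comp (pairRing A k).subtype)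
    (θ := pairTheta c k) (θ' := thetaS c) (fun x => rfl) (dg (C κ)) (dg (C i)) (dg u) (dg b) p
  have h2 := Ph_map ((RingHom.snd A⟦X⟧ A⟦X⟧).comp (pairRing A k).subtype)
    (θ := pairTheta c k) (θ' := thetaS c) (fun x => rfl) (dg (C κ)) (dg (C i)) (dg u) (dg b) p
  have h3 := Ph_map (pairHom A hk) (θ := pairTheta c k) (θ' := dualTheta c k)
    (pairHom_theta c hk) (dg (C κ)) (dg (C i)) (dg u) (dg b) p
  have e1 : pairHom A hk (dg u) = 0 := by
    ext <;> simp [pairHom, dg, hu]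
  have e2 : pairHom A hk (dg b) = 0 := by
    ext <;> simp [pairHom, dg, hb]
  have e3 : pairHom A hk (dg (C i)) = TrivSqZeroExt.inl i := by
    ext <;> simp [pairHom, dg]
  have e4 : pairHom A hk (dg (C κ)) = TrivSqZeroExt.inl κ := by
    ext <;> simp [pairHom, dg]
  have hv' := V4.ext_iff.mp hv
  simp only [V4.map] at hv'
  obtain ⟨vz, ve, vn, vg⟩ := hv'
  rw [e1, e2, e3, e4, Ph_zero] at h3
  · -- conclusion
    have hPz : (Ph (C κ) (C i) u b (thetaS c) v) = P.map fun x => x.1.1 := h1.symm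
    have hPw : (Ph (C κ) (C i) u b (thetaS c) w) = P.map fun x => x.1.2 := h2.symm
    rw [hPz, hPw]
    have h3' := V4.ext_iff.mp h3
    simp only [V4.map] at h3'
    obtain ⟨a1, a2, a3, a4⟩ := h3'
    refine ⟨dvd_succ hk (y := 0) ?_, dvd_succ hk (y := 0) ?_, dvd_succ hk (y := 0) ?_,
      dvd_succ hk (y := 1) ?_⟩
    · rw [a1, TrivSqZeroExt.inl_zero]
    · rw [a2, TrivSqZeroExt.inl_zero]
    · rw [a3, TrivSqZeroExt.inl_zero]
    · rw [a4, TrivSqZeroExt.inl_one]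
  · have := congrArg (TrivSqZeroExt.inlHom A A) hi
    simpa using this
  · have := congrArg (TrivSqZeroExt.inlHom A A) hκ
    rw [map_mul, map_ofNat] at this
    exact this
  · ext <;> simp [dualTheta, hc]
  · ext <;> simp [V4.map, pairHom, p, vz, ve]
  · ext <;> simp [V4.map, pairHom, p, vz, vg]
  · ext <;> simp [V4.map, pairHom, p, ve, vg]

theorem Cong.eq {v w : V4 A⟦X⟧} (h : ∀ k, 1 ≤ k → Cong k v w) : v = w := by
  have key : ∀ f : A⟦X⟧, (∀ k, 1 ≤ k → X ^ k ∣ f) → f = 0 := by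
    intro f hf
    ext n
    have := X_pow_dvd_iff.mp (hf (n + 1) (by omega)) n (by omega)
    simpa using this
  ext1
  · exact (sub_eq_zero.mp (key _ fun k hk => (h k hk).1)).symm
  · exact (sub_eq_zero.mp (key _ fun k hk => (h k hk).2.1)).symm
  · exact (sub_eq_zero.mp (key _ fun k hk => (h k hk).2.2.1)).symm
  · exact (sub_eq_zero.mp (key _ fun k hk => (h k hk).2.2.2)).symm

theorem Cong.symm {k : ℕ} {v w : V4 A⟦X⟧} (h : Cong k v w) : Cong k w v :=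
  ⟨by rw [dvd_sub_comm]; exact h.1, by rw [dvd_sub_comm]; exact h.2.1,
    by rw [dvd_sub_comm]; exact h.2.2.1, by rw [dvd_sub_comm]; exact h.2.2.2⟩

theorem Cong.trans {k : ℕ} {v w x : V4 A⟦X⟧} (h : Cong k v w) (h' : Cong k w x) : Cong k v x := by
  refine ⟨?_, ?_, ?_, ?_⟩
  · simpa using dvd_add h.1 h'.1
  · simpa using dvd_add h.2.1 h'.2.1
  · simpa using dvd_add h.2.2.1 h'.2.2.1
  · simpa using dvd_add h.2.2.2 h'.2.2.2

theorem Cong.mono {k l : ℕ} (hkl : k ≤ l) {v w : V4 A⟦X⟧} (h : Cong l v w) : Cong k v w :=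
  ⟨(pow_dvd_pow X hkl).trans h.1, (pow_dvd_pow X hkl).trans h.2.1,
    (pow_dvd_pow X hkl).trans h.2.2.1, (pow_dvd_pow X hkl).trans h.2.2.2⟩

theorem cong_one {v w : V4 A⟦X⟧} (h : v.map (constantCoeff (R := A)) = w.map constantCoeff) :
    Cong 1 v w := by
  have h' := V4.ext_iff.mp h
  simp only [V4.map] at h'
  obtain ⟨h1, h2, h3, h4⟩ := h'
  refine ⟨?_, ?_, ?_, ?_⟩ <;> rw [pow_one, X_dvd_iff, map_sub, sub_eq_zero] <;> simp [*]

/-- constant terms under `Ph` -/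
theorem Ph_const {c : ℕ → A} (hc : c 0 = 0) {κ i : A} (hi : i ^ 2 = -1) (hκ : 64 * κ = i)
    {u b : A⟦X⟧} (hu : constantCoeff u = 0) (hb : constantCoeff b = 0)
    {v : V4 A⟦X⟧} (hv : v.map (constantCoeff (R := A)) = ⟨0, 0, 0, 1⟩) :
    (Ph (C κ) (C i) u b (thetaS c) v).map (constantCoeff (R := A)) = ⟨0, 0, 0, 1⟩ := by
  rw [Ph_map (constantCoeff (R := A)) (constantCoeff_thetaS c), hu, hb, hv, constantCoeff_C,
    constantCoeff_C]
  exact Ph_zero hi hκ (by simp [hc]) (by simp) (by simp) (by simp)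

/-- F4: uniqueness -/
theorem sol_unique {i : A} (hi : i ^ 2 = -1) (h2 : IsUnit (2 : A))
    {c : ℕ → A} (hc : c 0 = 0) {u b ζ η ν g ζ' η' ν' g' : A⟦X⟧}
    (hu : constantCoeff u = 0) (hb : constantCoeff b = 0)
    (h : Sol (C i) u b (thetaS c) ζ η ν g)
    (h' : Sol (C i) u b (thetaS c) ζ' η' ν' g') :
    ζ = ζ' ∧ η = η' ∧ ν = ν' ∧ g = g' := by
  obtain ⟨κ, hκ⟩ : ∃ κ : A, 64 * κ = i := by
    have : IsUnit (64 : A) := by
      have : (64 : A) = 2 ^ 6 := by norm_num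
      rw [this]
      exact h2.pow 6
    obtain ⟨y, hy⟩ := this.exists_right_inv
    exact ⟨y * i, by rw [← mul_assoc, hy, one_mul]⟩
  have hconst : ∀ {ζ η ν g : A⟦X⟧}, Sol (C i) u b (thetaS c) ζ η ν g →
      V4.map (constantCoeff (R := A)) ⟨ζ, η, ν, g⟩ = ⟨0, 0, 0, 1⟩ := by
    intro ζ η ν g h
    have h1 := h.map (constantCoeff (R := A)) (constantCoeff_thetaS c)
    rw [hu, hb, constantCoeff_C] at h1
    obtain ⟨a1, a2, a3, a4⟩ := sol_zero hi h2 (by simp [hc]) h1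
    simp [V4.map, a1, a2, a3, a4]
  have key : ∀ k, 1 ≤ k → Cong k (⟨ζ, η, ν, g⟩ : V4 A⟦X⟧) ⟨ζ', η', ν', g'⟩ := by
    intro k hk
    induction k, hk using Nat.le_induction with
    | base => exact cong_one (by rw [hconst h, hconst h'])
    | succ k hk ih =>
      have := contract hc hi hκ hu hb hk (hconst h) ih
      rwa [h.fix, h'.fix] at this
  have := V4.ext_iff.mp (Cong.eq key)
  simpa using this

end pair

end MP8eabdf
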