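import Pool.Agent.Lib.MP_8eabdf_an.FDefs
import Pool.Agent.Lib.MP_8eabdf_an.F4

/-!
# MP_8eabdf_an: job F6, linearisation over dual numbers
-/

namespace MP8eabdf

open Complex

section Nilp

variable {S : Type*} [CommRing S] {E : S}

private theorem f6_Sa (hE : E ^ 2 = 0) (u z e ξ : S) : Sa u (E * z + ξ) (E * e) = 0 := by
  unfold Sa
  linear_combination (e ^ 2 * (E * z + ξ) ^ 2 - u ^ 2 * (E * z + ξ) ^ 3 * (E * e ^ 3)) * hE

private theorem f6_Sa1 (hE : E ^ 2 = 0) (u z e ξ : S) :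
    Sa1 u (E * z + ξ) (E * e) = 2 * ξ ^ 2 * (E * e) := by
  unfold Sa1
  linear_combination (2 * e * (E * z ^ 2 + 2 * z * ξ) - 3 * u ^ 2 * (E * z + ξ) ^ 3 * e ^ 2) * hE

private theorem f6_Sa2 (hE : E ^ 2 = 0) (u z e ξ : S) :
    Sa2 u (E * z + ξ) (E * e) = 2 * ξ ^ 2 + 4 * ξ * (E * z) - 6 * u ^ 2 * ξ ^ 3 * (E * e) := by
  unfold Sa2
  linear_combination (2 * z ^ 2 - 6 * u ^ 2 * e * z * ((E * z + ξ) ^ 2 + (E * z + ξ) * ξ + ξ ^ 2))
    * hE

private theorem f6_Bb (hE : E ^ 2 = 0) (b z e ξ : S) :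
    Bb (E * b) (E * z + ξ) (E * e) = ξ * (E * e) := by
  unfold Bb
  linear_combination ((z + b * (E * z + ξ) ^ 2) * e +
    E * b * e ^ 2 * (E * z + ξ + E * b * (E * z + ξ) ^ 2)) * hE

private theorem f6_Bb1 (hE : E ^ 2 = 0) (b z e ξ : S) :
    Bb1 (E * b) (E * z + ξ) (E * e) = ξ + E * z + E * b * ξ ^ 2 := by
  unfold Bb1
  linear_combination (b * (E * z ^ 2 + 2 * z * ξ) + 2 * b * e * (E * z + ξ + E * b * (E * z + ξ) ^ 2))
    * hE

private theorem f6_Bb2 (hE : E ^ 2 = 0) (b z ξ : S) :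
    Bb2 (E * b) (E * z + ξ) = 2 * (E * b) * ξ := by
  unfold Bb2
  linear_combination (2 * b * (z + b * (E * z + ξ) ^ 2)) * hE

private theorem f6_Sd (hE : E ^ 2 = 0) (u b z e ξ : S) :
    Sd u (E * b) (E * z + ξ) (E * e) = 1 := by
  unfold Sd
  rw [f6_Sa hE]
  ring

private theorem f6_Sh (hE : E ^ 2 = 0) (i u b z e ξ : S) :
    Sh i u (E * b) (E * z + ξ) (E * e) 1 =
      -2 * i * (ξ + E * z + (2 * (E * e) + E * b) * ξ ^ 2) := by
  unfold Sh
  rw [f6_Sa hE, f6_Sa1 hE, f6_Bb hE, f6_Bb1 hE]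
  linear_combination (-2 * i * (2 * ξ ^ 2 * e * (- 2 * i * u ^ 3 * ξ * e))) * hE

private theorem f6_Sh1 (hE : E ^ 2 = 0) (i u b z e ξ : S) :
    Sh1 i u (E * b) (E * z + ξ) (E * e) 1 =
      -2 * i * (2 * ξ ^ 2 + 4 * ξ * (E * z) - (4 * i * u ^ 3 + 6 * u ^ 2) * ξ ^ 3 * (E * e)
        + 2 * (E * b) * ξ) := by
  unfold Sh1
  rw [f6_Sa hE, f6_Sa2 hE, f6_Bb hE, f6_Bb2 hE]
  linear_combination (-2 * i * ((4 * ξ * z - 6 * u ^ 2 * ξ ^ 3 * e) *
    (- 2 * i * u ^ 3 * ξ * e))) * hE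

private theorem f6_Sk (hE : E ^ 2 = 0) (i u b z e ξ : S) :
    Sk i u (E * b) (E * z + ξ) (E * e) 1 1 =
      -2 * i * (2 * ξ ^ 2 + 4 * ξ * (E * z) - (4 * i * u ^ 3 + 6 * u ^ 2) * ξ ^ 3 * (E * e)
        + 2 * (E * b) * ξ) + 8 * i ^ 2 * u ^ 3 *
        (ξ ^ 2 + 2 * ξ * (E * z) + (2 * (E * e) + 2 * (E * b)) * ξ ^ 3) := by
  unfold Sk
  rw [f6_Sh1 hE, f6_Sh hE, f6_Bb1 hE, f6_Sa hE]
  linear_combination (8 * i ^ 2 * u ^ 3 * (z ^ 2 + z * (2 * e + b) * ξ ^ 2 + b * z * ξ ^ 2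
    + b * (2 * e + b) * ξ ^ 4)) * hE

end Nilp

section NilpPoly

open Polynomial

variable {R : Type*} [CommRing R] {ε : R}

private theorem f6_xx (ζ : R) : xx (ε * ζ) = C ε * C ζ + Polynomial.X := by
  rw [xx, map_mul]

private theorem f6_SGP (hε : ε ^ 2 = 0) (u b ζ η : R) :
    SGP u (ε * b) (ε * ζ) (ε * η) 1 = 1 := by
  have hE : (C ε : R[X]) ^ 2 = 0 := by rw [← map_pow, hε, map_zero]
  have h1 : Sd (C u : R[X]) (C (ε * b)) (xx (ε * ζ)) (C (ε * η)) = 1 := by
    rw [f6_xx, map_mul, map_mul, f6_Sd hE]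
  have h2 : Sd u (ε * b) (ε * ζ) (ε * η) = 1 := by
    have := f6_Sd hε u b ζ η 0
    rwa [add_zero] at this
  unfold SGP
  simp only [h1, h2, map_one]
  ring

private theorem f6_ShP (hε : ε ^ 2 = 0) (i u b ζ η : R) :
    ShP i u (ε * b) (ε * ζ) (ε * η) 1 1 = C (-2 * i * (ε * ζ)) + C (-2 * i) * Polynomial.X +
      C (-2 * i * (2 * (ε * η) + ε * b)) * Polynomial.X ^ 2 := by
  have hE : (C ε : R[X]) ^ 2 = 0 := by rw [← map_pow, hε, map_zero]
  unfold ShP
  rw [f6_SGP hε, mul_one, f6_xx, map_mul C ε b, map_mul C ε η, map_one, f6_Sh hE]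
  simp only [map_mul, map_neg, map_add, map_ofNat]
  ring

private theorem f6_SKP (hε : ε ^ 2 = 0) (i u b ζ η : R) :
    SKP i u (ε * b) (ε * ζ) (ε * η) 1 1 =
      C (-8 * i * (ε * ζ) - 4 * i * (ε * b) + 16 * i ^ 2 * u ^ 3 * (ε * ζ)) * Polynomial.X +
      C (-4 * i + 8 * i ^ 2 * u ^ 3) * Polynomial.X ^ 2 +
      C ((8 * i ^ 2 * u ^ 3 + 12 * i * u ^ 2) * (ε * η) +
        16 * i ^ 2 * u ^ 3 * (ε * η + ε * b)) * Polynomial.X ^ 3 := by
  have hE : (C ε : R[X]) ^ 2 = 0 := by rw [← map_pow, hε, map_zero]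
  unfold SKP
  rw [f6_SGP hε, f6_xx, map_mul C ε b, map_mul C ε η, map_one, f6_Sk hE]
  simp only [map_mul, map_neg, map_add, map_sub, map_ofNat, map_pow]
  ring

/-- F6a -/
theorem SP_nilp {i u b ζ η e₁ e₂ : R} (hi : i ^ 2 = -1)
    (hε : ε ^ 2 = 0) :
    SP i u (ε * b) (ε * ζ) (ε * η) 1 1 (ε * e₁) (ε * e₂) 1 0 =
      ε * (16 * i * (2 * u ^ 6 * e₂ + (2 * i * u ^ 3 + 4 * u ^ 6) * e₁
        + (3 * u ^ 2 - 2 * i * u ^ 3 + 4) * η + 2 * b)) := by
  have h0 : (ShP i u (ε * b) (ε * ζ) (ε * η) 1 1).coeff 0 = -2 * i * (ε * ζ) := by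
    rw [f6_ShP hε]; simp
  have h1 : (ShP i u (ε * b) (ε * ζ) (ε * η) 1 1).coeff 1 = -2 * i := by
    rw [f6_ShP hε]
    simp only [coeff_add, coeff_C_mul, coeff_X_pow, coeff_X, coeff_C]; norm_num
  have h2 : (ShP i u (ε * b) (ε * ζ) (ε * η) 1 1).coeff 2 = -2 * i * (2 * (ε * η) + ε * b) := by
    rw [f6_ShP hε]
    simp only [coeff_add, coeff_C_mul, coeff_X_pow, coeff_X, coeff_C]; norm_num
  have h3 : (ShP i u (ε * b) (ε * ζ) (ε * η) 1 1).coeff 3 = 0 := by
    rw [f6_ShP hε]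
    simp only [coeff_add, coeff_C_mul, coeff_X_pow, coeff_X, coeff_C]; norm_num
  have k0 : (SKP i u (ε * b) (ε * ζ) (ε * η) 1 1).coeff 0 = 0 := by
    rw [f6_SKP hε]; simp
  have k1 : (SKP i u (ε * b) (ε * ζ) (ε * η) 1 1).coeff 1 =
      -8 * i * (ε * ζ) - 4 * i * (ε * b) + 16 * i ^ 2 * u ^ 3 * (ε * ζ) := by
    rw [f6_SKP hε]
    simp only [coeff_add, coeff_C_mul, coeff_X_pow, coeff_X]; norm_num
  have k2 : (SKP i u (ε * b) (ε * ζ) (ε * η) 1 1).coeff 2 = -4 * i + 8 * i ^ 2 * u ^ 3 := by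
    rw [f6_SKP hε]
    simp only [coeff_add, coeff_C_mul, coeff_X_pow, coeff_X]; norm_num
  have k3 : (SKP i u (ε * b) (ε * ζ) (ε * η) 1 1).coeff 3 =
      (8 * i ^ 2 * u ^ 3 + 12 * i * u ^ 2) * (ε * η) + 16 * i ^ 2 * u ^ 3 * (ε * η + ε * b) := by
    rw [f6_SKP hε]
    simp only [coeff_add, coeff_C_mul, coeff_X_pow, coeff_X]; norm_num
  unfold SP
  simp only [h0, h1, h2, h3, k0, k1, k2, k3]
  grind

end NilpPoly

section Linear

open Polynomial

/-- the specialisation of the parameter to the dual number `ε` -/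
private noncomputable def f6phi : ℂ[X] →+* DualNumber ℂ :=
  (Polynomial.aeval (DualNumber.eps : DualNumber ℂ)).toRingHom

private theorem f6phi_apply (q : ℂ[X]) :
    f6phi q = TrivSqZeroExt.inl (q.coeff 0) + TrivSqZeroExt.inr (q.coeff 1) := by
  induction q using Polynomial.induction_on' with
  | add p q hp hq =>
    rw [map_add, hp, hq, Polynomial.coeff_add, Polynomial.coeff_add, TrivSqZeroExt.inl_add,
      TrivSqZeroExt.inr_add]
    ring
  | monomial n a =>
    have h : f6phi (Polynomial.monomial n a) = TrivSqZeroExt.inl a * DualNumber.eps ^ n := by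
      change Polynomial.aeval (DualNumber.eps : DualNumber ℂ) (Polynomial.monomial n a) = _
      rw [Polynomial.aeval_monomial]
      rfl
    rw [h]
    rcases n with _ | _ | n
    · simp
    · rw [zero_add, pow_one, Polynomial.coeff_monomial, Polynomial.coeff_monomial]
      rw [if_neg one_ne_zero, if_pos rfl]
      apply TrivSqZeroExt.ext
      · simp
      · simp
    · have h0 : (DualNumber.eps : DualNumber ℂ) ^ (n + 1 + 1) = 0 := by
        rw [pow_add, pow_one, pow_add, pow_one, mul_assoc, DualNumber.eps_mul_eps, mul_zero]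
      rw [h0, mul_zero, Polynomial.coeff_monomial, Polynomial.coeff_monomial]
      simp

private theorem f6_theta_map {A B : Type*} [CommRing A] [CommRing B] (f : A →+* B)
    (x : PowerSeries A) : PowerSeries.map f (thetaS (fun n => (n : A)) x) =
      thetaS (fun n => (n : B)) (PowerSeries.map f x) := by
  ext n
  simp [thetaS]

private theorem f6_trivial {A : Type*} [CommRing A] {i : A} (hi : i ^ 2 = -1) (u : PowerSeries A) :
    Sol (PowerSeries.C i) u 0 (thetaS (fun n => (n : A))) 0 0 0 1 := by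
  have hi' : (PowerSeries.C i : PowerSeries A) ^ 2 = -1 := by
    rw [← map_pow, hi, map_neg, map_one]
  have hi'' : (-(PowerSeries.C i) : PowerSeries A) ^ 2 = -1 := by
    rw [neg_sq, hi']
  have h0 : thetaS (fun n => (n : A)) (0 : PowerSeries A) = 0 := by
    ext n; simp [thetaS]
  have h1 : thetaS (fun n => (n : A)) (1 : PowerSeries A) = 0 := by
    ext n
    rcases n with _ | n
    · simp [thetaS]
    · simp [thetaS, PowerSeries.coeff_one]
  have hz : (0 : PowerSeries A) ^ 2 = 0 := by ring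
  refine ⟨?_, ?_, ?_, ?_⟩
  · have := SP_nilp (ε := (0 : PowerSeries A)) (u := u) (b := 0) (ζ := 0) (η := 0) (e₁ := 0)
      (e₂ := 0) hi' hz
    simp only [mul_zero, sub_zero, h0, h1, add_zero]
    simpa using this
  · have := SP_nilp (ε := (0 : PowerSeries A)) (u := u) (b := 0) (ζ := 0) (η := 0) (e₁ := 0)
      (e₂ := 0) hi'' hz
    simp only [mul_zero, h0, h1, add_zero]
    simpa using this
  · simp [Sa, Bb]
  · simp [Sd, Sa]

private theorem f6_eps_sq : (PowerSeries.C (DualNumber.eps : DualNumber ℂ)) ^ 2 = 0 := by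
  rw [← map_pow, pow_two, DualNumber.eps_mul_eps, map_zero]

/-- the embedding of the constants -/
private noncomputable def f6psi : ℂ →+* DualNumber ℂ := TrivSqZeroExt.inlHom ℂ ℂ

/-- the linear part -/
private noncomputable def f6lin (f : PowerSeries ℂ[X]) : PowerSeries ℂ :=
  PowerSeries.mk fun k => (PowerSeries.coeff k f).coeff 1

private theorem f6_lift {f : PowerSeries ℂ[X]}
    (hf : PowerSeries.map (Polynomial.constantCoeff (R := ℂ)) f = 0) :
    PowerSeries.map f6phi f =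
      PowerSeries.C (DualNumber.eps : DualNumber ℂ) * PowerSeries.map f6psi (f6lin f) := by
  ext k
  · have h := congrArg (PowerSeries.coeff k) hf
    simp only [PowerSeries.coeff_map, Polynomial.constantCoeff_apply, map_zero] at h
    simp [f6phi_apply, h, f6psi, f6lin, PowerSeries.coeff_C_mul]
  · simp [f6phi_apply, f6psi, f6lin, PowerSeries.coeff_C_mul]

private theorem f6_eps_inj {f : PowerSeries ℂ}
    (hf : PowerSeries.C (DualNumber.eps : DualNumber ℂ) * PowerSeries.map f6psi f = 0) : f = 0 := by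
  ext k
  have h := congrArg (fun g => TrivSqZeroExt.snd (PowerSeries.coeff k g)) hf
  simpa [f6psi, PowerSeries.coeff_C_mul] using h

private theorem f6_theta_C {A : Type*} [CommRing A] (a : A) (f : PowerSeries A) :
    thetaS (fun n => (n : A)) (PowerSeries.C a * f) =
      PowerSeries.C a * thetaS (fun n => (n : A)) f := by
  ext n
  simp only [thetaS, PowerSeries.coeff_mk, PowerSeries.coeff_C_mul]
  ring

private theorem f6_theta_one {A : Type*} [CommRing A] :
    thetaS (fun n => (n : A)) (1 : PowerSeries A) = 0 := by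
  ext n
  rcases n with _ | n
  · simp [thetaS]
  · simp [thetaS, PowerSeries.coeff_one]

/-- the linearised equation as an identity of power series -/
private theorem f6_eq {ζ η ν g : PowerSeries ℂ[X]}
    (h : Sol (PowerSeries.C (Polynomial.C I)) PowerSeries.X
      (PowerSeries.C Polynomial.X * PowerSeries.X)
      (thetaS fun n => (n : Polynomial ℂ)) ζ η ν g) :
    2 * PowerSeries.X ^ 6 * thetaS (fun n => (n : ℂ)) (f6lin η + thetaS (fun n => (n : ℂ)) (f6lin η))
      + (2 * PowerSeries.C I * PowerSeries.X ^ 3 + 4 * PowerSeries.X ^ 6) *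
        (f6lin η + thetaS (fun n => (n : ℂ)) (f6lin η))
      + (3 * PowerSeries.X ^ 2 - 2 * PowerSeries.C I * PowerSeries.X ^ 3 + 4) * f6lin η
      + 2 * PowerSeries.X = 0 := by
  have hI : (I : ℂ) ^ 2 = -1 := I_sq
  -- specialisation at 0
  have h0 := h.map (PowerSeries.map (Polynomial.constantCoeff (R := ℂ)))
    (θ' := thetaS (fun n => (n : ℂ))) (f6_theta_map _)
  rw [PowerSeries.map_C, Polynomial.constantCoeff_apply, Polynomial.coeff_C_zero,
    PowerSeries.map_X, map_mul, PowerSeries.map_C, Polynomial.constantCoeff_apply,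
    Polynomial.coeff_X_zero, map_zero, zero_mul] at h0
  obtain ⟨hζ0, hη0, -, -⟩ := sol_unique hI (IsUnit.mk0 _ two_ne_zero) (by simp) (by simp) (by simp)
    h0 (f6_trivial hI PowerSeries.X)
  -- dual numbers
  set ε : PowerSeries (DualNumber ℂ) := PowerSeries.C (DualNumber.eps : DualNumber ℂ) with hε
  have hε2 : ε ^ 2 = 0 := f6_eps_sq
  have h1 := h.map (PowerSeries.map f6phi) (θ' := thetaS (fun n => (n : DualNumber ℂ)))
    (f6_theta_map _)
  have hCI : PowerSeries.map f6phi (PowerSeries.C (Polynomial.C I)) =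
      PowerSeries.map f6psi (PowerSeries.C I) := by
    rw [PowerSeries.map_C, PowerSeries.map_C]
    congr 1
    rw [f6phi_apply]
    simp [f6psi]
  have hb : PowerSeries.map f6phi (PowerSeries.C Polynomial.X * PowerSeries.X) =
      ε * PowerSeries.X := by
    have hX : f6phi Polynomial.X = DualNumber.eps := Polynomial.aeval_X _
    rw [map_mul, PowerSeries.map_C, PowerSeries.map_X, hX]
  rw [hCI, hb, PowerSeries.map_X, f6_lift hζ0, f6_lift hη0, ← hε] at h1
  set i' := PowerSeries.map f6psi (PowerSeries.C I) with hi'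
  have hi2 : i' ^ 2 = -1 := by
    rw [hi', ← map_pow, ← map_pow, hI]
    simp
  obtain ⟨e1, -, e3, e4⟩ := h1
  have hν : PowerSeries.map f6phi ν = 0 := by
    rw [e3]
    have h2 := f6_Sa hε2 (PowerSeries.X) (PowerSeries.map f6psi (f6lin ζ))
      (PowerSeries.map f6psi (f6lin η)) 0
    have h3 := f6_Bb hε2 (PowerSeries.X) (PowerSeries.map f6psi (f6lin ζ))
      (PowerSeries.map f6psi (f6lin η)) 0
    rw [add_zero] at h2 h3
    rw [h2, h3]
    ring
  have hg : PowerSeries.map f6phi g = 1 := by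
    have h2 := f6_Sd hε2 (PowerSeries.X) (PowerSeries.X) (PowerSeries.map f6psi (f6lin ζ))
      (PowerSeries.map f6psi (f6lin η)) 0
    rw [add_zero] at h2
    rw [h2, mul_one] at e4
    exact e4
  rw [hν, hg, mul_zero, sub_zero, f6_theta_one, add_zero, f6_theta_one, hε, f6_theta_C,
    ← mul_add, f6_theta_C, ← hε, SP_nilp hi2 hε2] at e1
  have h4 : (16 * PowerSeries.C I : PowerSeries ℂ) * (2 * PowerSeries.X ^ 6 * thetaS (fun n => (n : ℂ)) (f6lin η + thetaS (fun n => (n : ℂ)) (f6lin η))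
      + (2 * PowerSeries.C I * PowerSeries.X ^ 3 + 4 * PowerSeries.X ^ 6) *
        (f6lin η + thetaS (fun n => (n : ℂ)) (f6lin η))
      + (3 * PowerSeries.X ^ 2 - 2 * PowerSeries.C I * PowerSeries.X ^ 3 + 4) * f6lin η
      + 2 * PowerSeries.X) = 0 := by
    apply f6_eps_inj
    rw [← hε]
    rw [← e1]
    simp only [map_mul, map_add, map_sub, map_pow, map_ofNat, PowerSeries.map_X, f6_theta_map, ← hi']
  rcases mul_eq_zero.1 h4 with h5 | h5
  · exfalso
    have h6 := congrArg (PowerSeries.constantCoeff) h5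
    rw [map_mul, map_ofNat, PowerSeries.constantCoeff_C, map_zero] at h6
    exact (mul_ne_zero (by norm_num) I_ne_zero) h6
  · exact h5

/-- F6b: linear coefficients of the universal solution -/
theorem sol_linear {ζ η ν g : PowerSeries (Polynomial ℂ)}
    (h : Sol (PowerSeries.C (Polynomial.C I)) PowerSeries.X
      (PowerSeries.C Polynomial.X * PowerSeries.X)
      (thetaS fun n => (n : Polynomial ℂ)) ζ η ν g) :
    ∃ p : ℕ → ℂ, p 0 = 0 ∧ (∀ k, p (k + 1) = (PowerSeries.coeff k η).coeff 1) ∧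
      p 1 = 0 ∧ 4 * p 2 = -2 ∧
      ∀ k, 4 * p (k + 3) = -3 * p (k + 1) - 2 * I * ((k : ℂ) - 1) * p k
        - 2 * ((k : ℂ) - 3) * ((k : ℂ) - 2) * (if 3 ≤ k then p (k - 3) else 0) := by
  have he := f6_eq h
  set a : ℕ → ℂ := fun k => (PowerSeries.coeff k η).coeff 1 with ha
  have hco : ∀ n, 2 * (if 6 ≤ n then ((n - 6 : ℕ) : ℂ) * ((1 + ((n - 6 : ℕ) : ℂ)) * a (n - 6)) else 0)
      + 2 * I * (if 3 ≤ n then (1 + ((n - 3 : ℕ) : ℂ)) * a (n - 3) else 0)
      + 4 * (if 6 ≤ n then (1 + ((n - 6 : ℕ) : ℂ)) * a (n - 6) else 0)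
      + 3 * (if 2 ≤ n then a (n - 2) else 0)
      - 2 * I * (if 3 ≤ n then a (n - 3) else 0) + 4 * a n + 2 * (if n = 1 then 1 else 0) = 0 := by
    intro n
    have h1 : PowerSeries.coeff n (PowerSeries.C 2 * (PowerSeries.X ^ 6 *
        thetaS (fun n => (n : ℂ)) (f6lin η + thetaS (fun n => (n : ℂ)) (f6lin η)))
        + PowerSeries.C (2 * I) * (PowerSeries.X ^ 3 *
          (f6lin η + thetaS (fun n => (n : ℂ)) (f6lin η)))
        + PowerSeries.C 4 * (PowerSeries.X ^ 6 *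
          (f6lin η + thetaS (fun n => (n : ℂ)) (f6lin η)))
        + PowerSeries.C 3 * (PowerSeries.X ^ 2 * f6lin η)
        - PowerSeries.C (2 * I) * (PowerSeries.X ^ 3 * f6lin η)
        + PowerSeries.C 4 * f6lin η + PowerSeries.C 2 * PowerSeries.X) = 0 := by
      rw [show (PowerSeries.C 2 * (PowerSeries.X ^ 6 *
        thetaS (fun n => (n : ℂ)) (f6lin η + thetaS (fun n => (n : ℂ)) (f6lin η)))
        + PowerSeries.C (2 * I) * (PowerSeries.X ^ 3 *
          (f6lin η + thetaS (fun n => (n : ℂ)) (f6lin η)))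
        + PowerSeries.C 4 * (PowerSeries.X ^ 6 *
          (f6lin η + thetaS (fun n => (n : ℂ)) (f6lin η)))
        + PowerSeries.C 3 * (PowerSeries.X ^ 2 * f6lin η)
        - PowerSeries.C (2 * I) * (PowerSeries.X ^ 3 * f6lin η)
        + PowerSeries.C 4 * f6lin η + PowerSeries.C 2 * PowerSeries.X : PowerSeries ℂ) = 0 from ?_]
      · simp
      · rw [← he]
        simp only [map_mul, map_ofNat]
        ring
    simp only [map_add, map_sub, PowerSeries.coeff_C_mul, PowerSeries.coeff_X_pow_mul',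
      PowerSeries.coeff_X, thetaS, f6lin, PowerSeries.coeff_mk] at h1
    refine Eq.trans ?_ h1
    simp only [ha]
    split_ifs <;> ring
  refine ⟨fun k => if k = 0 then 0 else a (k - 1), by simp, fun k => by simp [ha], ?_, ?_, ?_⟩
  · have := hco 0
    simp at this
    simpa using this
  · have := hco 1
    simp at this
    simp
    linear_combination this
  · intro k
    have h1 := hco (k + 2)
    rcases k with _ | _ | _ | _ | k
    · simp at h1 ⊢
      linear_combination h1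
    · simp at h1 ⊢
      linear_combination h1
    · simp at h1 ⊢
      linear_combination h1
    · simp at h1 ⊢
      linear_combination h1
    · have h6 : 6 ≤ k + 1 + 1 + 1 + 1 + 2 := by omega
      have h3 : 3 ≤ k + 1 + 1 + 1 + 1 + 2 := by omega
      have h2 : 2 ≤ k + 1 + 1 + 1 + 1 + 2 := by omega
      have h1' : ¬ (k + 1 + 1 + 1 + 1 + 2 = 1) := by omega
      rw [if_pos h6, if_pos h3, if_pos h6, if_pos h2, if_pos h3, if_neg h1'] at h1
      have e1 : k + 1 + 1 + 1 + 1 + 2 - 6 = k := by omega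
      have e2 : k + 1 + 1 + 1 + 1 + 2 - 3 = k + 3 := by omega
      have e3 : k + 1 + 1 + 1 + 1 + 2 - 2 = k + 4 := by omega
      rw [e1, e2, e3] at h1
      have g3 : 3 ≤ k + 1 + 1 + 1 + 1 := by omega
      simp only [if_pos g3]
      have f1 : k + 1 + 1 + 1 + 1 + 3 - 1 = k + 6 := by omega
      have f2 : k + 1 + 1 + 1 + 1 + 1 - 1 = k + 4 := by omega
      have f3 : k + 1 + 1 + 1 + 1 - 1 = k + 3 := by omega
      have f4 : k + 1 + 1 + 1 + 1 - 3 - 1 = k := by omega
      have f5 : k + 1 + 1 + 1 + 1 - 3 ≠ 0 := by omega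
      rw [if_neg (by omega), if_neg (by omega), if_neg (by omega), if_neg f5, f1, f2, f3, f4]
      push_cast at h1 ⊢
      linear_combination h1

end Linear

end MP8eabdf
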