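import Mathlib

/-!
# MP_8eabdf_an, F7: factorial growth of the linear recursion at `β = 0`
-/

namespace MP8eabdf

open Complex Filter Topology Asymptotics Set
open scoped ComplexConjugate

theorem growth_real {p : ℕ → ℂ} (h0 : p 0 = 0) (h1 : p 1 = 0) (h2 : 4 * p 2 = -2)
    (h : ∀ k, 4 * p (k + 3) = -3 * p (k + 1) - 2 * I * ((k : ℂ) - 1) * p k
      - 2 * ((k : ℂ) - 3) * ((k : ℂ) - 2) * (if 3 ≤ k then p (k - 3) else 0)) :
    ∀ k, ∃ x : ℝ, 0 ≤ x ∧ p k = I ^ k * x := by
  intro k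
  induction k using Nat.strong_induction_on with
  | _ k ih =>
    match k, ih with
    | 0, _ => exact ⟨0, le_rfl, by simp [h0]⟩
    | 1, _ => exact ⟨0, le_rfl, by simp [h1]⟩
    | 2, _ =>
      refine ⟨1 / 2, by norm_num, ?_⟩
      have : p 2 = -1 / 2 := by linear_combination h2 / 4
      rw [this]; push_cast; rw [I_sq]; ring
    | k + 3, ih =>
      obtain ⟨x1, hx1, e1⟩ := ih (k + 1) (by omega)
      obtain ⟨x0, hx0, e0⟩ := ih k (by omega)
      by_cases hk : 3 ≤ k
      · obtain ⟨j, rfl⟩ : ∃ j, k = j + 3 := ⟨k - 3, by omega⟩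
        obtain ⟨x3, hx3, e3⟩ := ih j (by omega)
        refine ⟨(3 * x1 + 2 * ((j : ℝ) + 2) * x0 + 2 * (j : ℝ) * ((j : ℝ) + 1) * x3) / 4,
          by positivity, ?_⟩
        have hh := h (j + 3)
        rw [if_pos (by omega), Nat.add_sub_cancel, e3, e0, e1] at hh
        have h4 : p (j + 3 + 3) = (4 * p (j + 3 + 3)) / 4 := by ring
        rw [h4, hh]
        push_cast
        have hI2 : (I : ℂ) ^ 2 = -1 := I_sq
        have hI3 : (I : ℂ) ^ 3 = -I := by rw [pow_succ, I_sq]; ring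
        have hI6 : (I : ℂ) ^ 6 = -1 := by
          rw [show (6 : ℕ) = 2 * 3 by norm_num, pow_mul, I_sq]; norm_num
        have hI4 : (I : ℂ) ^ 4 = 1 := by
          rw [show (4 : ℕ) = 2 * 2 by norm_num, pow_mul, I_sq]; norm_num
        have e6 : (I : ℂ) ^ (j + 3 + 3) = - I ^ j := by
          rw [add_assoc, pow_add]; norm_num [hI6]
        have e4 : (I : ℂ) ^ (j + 3 + 1) = I ^ j := by
          rw [add_assoc, pow_add]; norm_num [hI4]
        have e3' : (I : ℂ) ^ (j + 3) = - I ^ j * I := by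
          rw [pow_add, hI3]; ring
        rw [e6, e4, e3']
        linear_combination (((j : ℂ) + 2) * I ^ j * x0 / 2) * hI2
      · have hh := h k
        rw [if_neg hk, e0, e1] at hh
        have hI2 : (I : ℂ) ^ 2 = -1 := I_sq
        have hI3 : (I : ℂ) ^ 3 = -I := by rw [pow_succ, I_sq]; ring
        rcases Nat.eq_zero_or_pos k with rfl | hk0
        · have hx00 : (x0 : ℂ) = 0 := by
            have := e0; rw [h0] at this; simpa using this.symm
          have hx10 : (x1 : ℂ) = 0 := by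
            have := e1
            rw [show (0 : ℕ) + 1 = 1 from rfl, h1] at this
            simpa using this.symm
          refine ⟨0, le_rfl, ?_⟩
          rw [hx00, hx10] at hh
          have : p (0 + 3) = 0 := by
            have h4 : p (0 + 3) = (4 * p (0 + 3)) / 4 := by ring
            rw [h4, hh]; ring
          rw [this]; simp
        · obtain ⟨j, rfl⟩ : ∃ j, k = j + 1 := ⟨k - 1, by omega⟩
          refine ⟨(3 * x1 + 2 * (j : ℝ) * x0) / 4, by positivity, ?_⟩
          have h4 : p (j + 1 + 3) = (4 * p (j + 1 + 3)) / 4 := by ring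
          rw [h4, hh]
          push_cast
          have hI4 : (I : ℂ) ^ 4 = 1 := by
            rw [show (4 : ℕ) = 2 * 2 by norm_num, pow_mul, I_sq]; norm_num
          have e4 : (I : ℂ) ^ (j + 1 + 3) = I ^ j := by
            rw [add_assoc, pow_add]; norm_num [hI4]
          have e2 : (I : ℂ) ^ (j + 1 + 1) = - I ^ j := by
            rw [add_assoc, pow_add]; norm_num [hI2]
          have e1' : (I : ℂ) ^ (j + 1) = I ^ j * I := by
            rw [pow_succ]
          rw [e4, e2, e1']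
          linear_combination (-((j : ℂ)) * I ^ j * x0 / 2) * hI2

theorem growth {p : ℕ → ℂ} (h0 : p 0 = 0) (h1 : p 1 = 0) (h2 : 4 * p 2 = -2)
    (h : ∀ k, 4 * p (k + 3) = -3 * p (k + 1) - 2 * I * ((k : ℂ) - 1) * p k
      - 2 * ((k : ℂ) - 3) * ((k : ℂ) - 2) * (if 3 ≤ k then p (k - 3) else 0)) :
    ¬ ∃ C : ℝ, ∀ k, ‖p (k + 1)‖ ≤ C ^ (k + 1) := by
  rintro ⟨C, hC⟩
  choose x hx0 hx using growth_real h0 h1 h2 h
  have hnorm : ∀ k, ‖p k‖ = x k := by
    intro k
    rw [hx k, norm_mul, norm_pow, norm_I, one_pow, one_mul, norm_real,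
      Real.norm_of_nonneg (hx0 k)]
  -- the lower bound recursion
  have hrec : ∀ k : ℕ, 1 ≤ k → ((k : ℝ) - 1) / 2 * x k ≤ x (k + 3) := by
    intro k hk
    have hkR : (1 : ℝ) ≤ k := by exact_mod_cast hk
    have hh := h k
    have hI2 : (I : ℂ) ^ 2 = -1 := I_sq
    by_cases hk3 : 3 ≤ k
    · obtain ⟨j, rfl⟩ : ∃ j, k = j + 3 := ⟨k - 3, by omega⟩
      rw [if_pos (by omega), Nat.add_sub_cancel, hx j, hx (j + 3), hx (j + 3 + 1),
        hx (j + 3 + 3)] at hh
      have hI3 : (I : ℂ) ^ 3 = -I := by rw [pow_succ, I_sq]; ring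
      have hI6 : (I : ℂ) ^ 6 = -1 := by
        rw [show (6 : ℕ) = 2 * 3 by norm_num, pow_mul, I_sq]; norm_num
      have hI4 : (I : ℂ) ^ 4 = 1 := by
        rw [show (4 : ℕ) = 2 * 2 by norm_num, pow_mul, I_sq]; norm_num
      have e6 : (I : ℂ) ^ (j + 3 + 3) = - I ^ j := by
        rw [add_assoc, pow_add]; norm_num [hI6]
      have e4 : (I : ℂ) ^ (j + 3 + 1) = I ^ j := by
        rw [add_assoc, pow_add]; norm_num [hI4]
      have e3' : (I : ℂ) ^ (j + 3) = - I ^ j * I := by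
        rw [pow_add, hI3]; ring
      rw [e6, e4, e3'] at hh
      push_cast at hh
      have hIj : (I : ℂ) ^ j ≠ 0 := pow_ne_zero _ I_ne_zero
      have key : (4 : ℂ) * x (j + 3 + 3) = 3 * x (j + 3 + 1) + 2 * ((j : ℂ) + 2) * x (j + 3)
          + 2 * (j : ℂ) * ((j : ℂ) + 1) * x j := by
        apply mul_left_cancel₀ hIj
        linear_combination -hh + (-2 * ((j : ℂ) + 2) * I ^ j * x (j + 3)) * hI2
      have keyR : (4 : ℝ) * x (j + 3 + 3) = 3 * x (j + 3 + 1) + 2 * ((j : ℝ) + 2) * x (j + 3)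
          + 2 * (j : ℝ) * ((j : ℝ) + 1) * x j := by exact_mod_cast key
      have a1 := hx0 (j + 3 + 1)
      have a2 : 0 ≤ (j : ℝ) * ((j : ℝ) + 1) * x j := by
        have := hx0 j; positivity
      push_cast
      linarith
    · rw [if_neg hk3] at hh
      obtain ⟨j, rfl⟩ : ∃ j, k = j + 1 := ⟨k - 1, by omega⟩
      rw [hx (j + 1), hx (j + 1 + 1), hx (j + 1 + 3)] at hh
      have hI4 : (I : ℂ) ^ 4 = 1 := by
        rw [show (4 : ℕ) = 2 * 2 by norm_num, pow_mul, I_sq]; norm_num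
      have e4 : (I : ℂ) ^ (j + 1 + 3) = I ^ j := by
        rw [add_assoc, pow_add]; norm_num [hI4]
      have e2 : (I : ℂ) ^ (j + 1 + 1) = - I ^ j := by
        rw [add_assoc, pow_add]; norm_num [hI2]
      have e1' : (I : ℂ) ^ (j + 1) = I ^ j * I := by
        rw [pow_succ]
      rw [e4, e2, e1'] at hh
      push_cast at hh
      have hIj : (I : ℂ) ^ j ≠ 0 := pow_ne_zero _ I_ne_zero
      have key : (4 : ℂ) * x (j + 1 + 3) = 3 * x (j + 1 + 1) + 2 * (j : ℂ) * x (j + 1) := by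
        apply mul_left_cancel₀ hIj
        linear_combination hh + (-2 * (j : ℂ) * I ^ j * x (j + 1)) * hI2
      have keyR : (4 : ℝ) * x (j + 1 + 3) = 3 * x (j + 1 + 1) + 2 * (j : ℝ) * x (j + 1) := by
        exact_mod_cast key
      have a1 := hx0 (j + 1 + 1)
      push_cast
      linarith
  have hx2 : x 2 = 1 / 2 := by
    have := hnorm 2
    rw [← this]
    have e : p 2 = -1 / 2 := by linear_combination h2 / 4
    rw [e]; norm_num
  have hlow : ∀ m : ℕ, (1 / 2 : ℝ) * (m.factorial / 2 ^ m) ≤ x (3 * m + 2) := by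
    intro m
    induction m with
    | zero => simp [hx2]
    | succ m ih =>
      have h3 := hrec (3 * m + 2) (by omega)
      have e : 3 * (m + 1) + 2 = 3 * m + 2 + 3 := by ring
      rw [e]
      refine le_trans ?_ h3
      have : ((m : ℝ) + 1) / 2 * ((1 / 2 : ℝ) * (m.factorial / 2 ^ m))
          ≤ ((m : ℝ) + 1) / 2 * x (3 * m + 2) := by
        apply mul_le_mul_of_nonneg_left ih; positivity
      rw [Nat.factorial_succ, pow_succ]
      push_cast
      have hm : (0 : ℝ) ≤ m := Nat.cast_nonneg m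
      have h5 : ((m : ℝ) + 1) / 2 * x (3 * m + 2) ≤ (3 * (m : ℝ) + 2 - 1) / 2 * x (3 * m + 2) := by
        apply mul_le_mul_of_nonneg_right _ (hx0 _); linarith
      calc (1 / 2 : ℝ) * (((m : ℝ) + 1) * m.factorial / (2 ^ m * 2))
          = ((m : ℝ) + 1) / 2 * ((1 / 2 : ℝ) * (m.factorial / 2 ^ m)) := by
            field_simp
        _ ≤ _ := this.trans h5
  set D : ℝ := |C| with hD
  have hD0 : 0 ≤ D := abs_nonneg C
  have hup : ∀ m : ℕ, x (3 * m + 2) ≤ D ^ 2 * (D ^ 3) ^ m := by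
    intro m
    have := hC (3 * m + 1)
    rw [hnorm] at this
    calc x (3 * m + 2) ≤ C ^ (3 * m + 2) := this
      _ ≤ |C ^ (3 * m + 2)| := le_abs_self _
      _ = D ^ (3 * m + 2) := by rw [abs_pow]
      _ = D ^ 2 * (D ^ 3) ^ m := by rw [← pow_mul]; ring
  have hle : ∀ m : ℕ, (1 : ℝ) ≤ 2 * D ^ 2 * ((2 * D ^ 3) ^ m / m.factorial) := by
    intro m
    have h6 := (hlow m).trans (hup m)
    have hf : (0 : ℝ) < m.factorial := by exact_mod_cast m.factorial_pos
    have h2m : (0 : ℝ) < 2 ^ m := by positivity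
    rw [mul_pow, ← mul_div_assoc, le_div_iff₀ hf]
    have h7 : (1 / 2 : ℝ) * (m.factorial / 2 ^ m) * (2 * 2 ^ m)
        ≤ D ^ 2 * (D ^ 3) ^ m * (2 * 2 ^ m) :=
      mul_le_mul_of_nonneg_right h6 (by positivity)
    have h8 : (1 / 2 : ℝ) * (m.factorial / 2 ^ m) * (2 * 2 ^ m) = m.factorial := by
      field_simp
    rw [h8] at h7
    calc (1 : ℝ) * m.factorial = m.factorial := one_mul _
      _ ≤ D ^ 2 * (D ^ 3) ^ m * (2 * 2 ^ m) := h7
      _ = _ := by ring
  have hlim : Tendsto (fun m : ℕ => 2 * D ^ 2 * ((2 * D ^ 3) ^ m / m.factorial)) atTop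
      (𝓝 (2 * D ^ 2 * 0)) :=
    (FloorSemiring.tendsto_pow_div_factorial_atTop (2 * D ^ 3)).const_mul _
  have := ge_of_tendsto' hlim hle
  norm_num at this

end MP8eabdf
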