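import Mathlib

/-!
# A polynomial bounded on an interval has controlled coefficients
-/

namespace MP8eabdf

open Polynomial Finset

theorem coeff_mul_X_sub_C_bound {P : ℂ[X]} {S : ℝ} {b c : ℂ} (hP : ∀ i, ‖P.coeff i‖ ≤ S) (i : ℕ) :
    ‖(P * (C c * (X - C b))).coeff i‖ ≤ S * (‖c‖ * (1 + ‖b‖)) := by
  have hS : 0 ≤ S := (norm_nonneg _).trans (hP 0)
  have h1 : P * (C c * (X - C b)) = C c * (P * X - C b * P) := by ring
  rw [h1, coeff_C_mul, coeff_sub, coeff_C_mul, norm_mul]
  have h2 : ‖(P * X).coeff i‖ ≤ S := by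
    rcases i with _ | i
    · simpa using hS
    · rw [coeff_mul_X]; exact hP i
  have h3 : ‖(P * X).coeff i - b * P.coeff i‖ ≤ S + ‖b‖ * S := by
    refine (norm_sub_le _ _).trans (add_le_add h2 ?_)
    rw [norm_mul]
    exact mul_le_mul_of_nonneg_left (hP i) (norm_nonneg _)
  calc ‖c‖ * ‖(P * X).coeff i - b * P.coeff i‖ ≤ ‖c‖ * (S + ‖b‖ * S) :=
        mul_le_mul_of_nonneg_left h3 (norm_nonneg _)
    _ = S * (‖c‖ * (1 + ‖b‖)) := by ring

theorem coeff_prod_bound {ι : Type*} [DecidableEq ι] (s : Finset ι) (v : ι → ℂ) (x : ℂ) (i : ℕ) :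
    ‖(∏ j ∈ s, Lagrange.basisDivisor x (v j)).coeff i‖
      ≤ ∏ j ∈ s, (‖(x - v j)⁻¹‖ * (1 + ‖v j‖)) := by
  induction s using Finset.induction_on generalizing i with
  | empty =>
    simp only [Finset.prod_empty, coeff_one]
    split_ifs <;> simp
  | insert a s ha ih =>
    rw [Finset.prod_insert ha, Finset.prod_insert ha, mul_comm]
    unfold Lagrange.basisDivisor at ih ⊢
    have := coeff_mul_X_sub_C_bound (b := v a) (c := (x - v a)⁻¹) ih i
    rw [mul_comm (‖(x - v a)⁻¹‖ * (1 + ‖v a‖))]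
    exact this

theorem prod_abs_sub (k i : ℕ) (hi : i ≤ k) :
    ∏ j ∈ (range (k + 1)).erase i, |(i : ℝ) - j| = (i.factorial : ℝ) * ((k - i).factorial : ℝ) := by
  have hsplit : (range (k + 1)).erase i = range i ∪ Finset.Ico (i + 1) (k + 1) := by
    ext j; simp only [Finset.mem_erase, Finset.mem_range, Finset.mem_union, Finset.mem_Ico]; omega
  have hdisj : Disjoint (range i) (Finset.Ico (i + 1) (k + 1)) := by
    rw [Finset.disjoint_left]; intro j; simp only [Finset.mem_range, Finset.mem_Ico]; omega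
  rw [hsplit, Finset.prod_union hdisj]
  congr 1
  · -- i!
    have h1 : ∀ m : ℕ, ∏ j ∈ range m, |(m : ℝ) - j| = (m.factorial : ℝ) := by
      intro m
      rw [← Finset.prod_range_reflect, ← Finset.prod_range_add_one_eq_factorial]
      push_cast
      refine Finset.prod_congr rfl fun j hj => ?_
      rw [Finset.mem_range] at hj
      have h3 : ((m - 1 - j : ℕ) : ℝ) = (m : ℝ) - 1 - j := by
        rw [Nat.sub_sub, Nat.cast_sub (by omega)]; push_cast; ring
      rw [h3, abs_of_nonneg (by linarith [show (0:ℝ) ≤ j from Nat.cast_nonneg j])]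
      ring
    exact h1 i
  · rw [Finset.prod_Ico_eq_prod_range, ← Finset.prod_range_add_one_eq_factorial]
    push_cast
    try rw [show k + 1 - (i + 1) = k - i by omega]
    refine Finset.prod_congr rfl fun j hj => ?_
    rw [abs_sub_comm, abs_of_nonneg]
    · push_cast; ring
    · push_cast
      have : (0 : ℝ) ≤ j := Nat.cast_nonneg j
      linarith

theorem fact_mul_fact_ge (k i : ℕ) (hi : i ≤ k) :
    (k.factorial : ℝ) / 2 ^ k ≤ (i.factorial : ℝ) * ((k - i).factorial : ℝ) := by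
  rw [div_le_iff₀ (by positivity)]
  have h1 : k.choose i * i.factorial * (k - i).factorial = k.factorial :=
    Nat.choose_mul_factorial_mul_factorial hi
  have h2 : k.choose i ≤ 2 ^ k := Nat.choose_le_two_pow k i
  have h3 : k.factorial ≤ i.factorial * (k - i).factorial * 2 ^ k := by
    rw [← h1]
    calc k.choose i * i.factorial * (k - i).factorial
        = i.factorial * (k - i).factorial * k.choose i := by ring
      _ ≤ _ := Nat.mul_le_mul_left _ h2
  exact_mod_cast h3

/-- A polynomial of degree `≤ k` bounded by `M^k` on `[a₁, a₂]` has coefficients `≤ (C M)^k`. -/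
theorem coeff_bound_of_interval {a₁ a₂ : ℝ} (h : a₁ < a₂) :
    ∃ C : ℝ, 0 < C ∧ ∀ (k : ℕ) (P : ℂ[X]) (M : ℝ), 0 ≤ M → P.natDegree ≤ k →
      (∀ b : ℝ, a₁ ≤ b → b ≤ a₂ → ‖P.eval (b : ℂ)‖ ≤ M ^ k) →
      ∀ i, ‖P.coeff i‖ ≤ (C * M) ^ k := by
  set B : ℝ := max |a₁| |a₂| with hB
  have hB0 : 0 ≤ B := (abs_nonneg a₁).trans (le_max_left _ _)
  refine ⟨4 * (1 + B) * Real.exp 1 / (a₂ - a₁), by
    have : 0 < a₂ - a₁ := by linarith
    positivity, ?_⟩
  intro k P M hM hdeg hbd i
  rcases Nat.eq_zero_or_pos k with rfl | hk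
  · -- constant polynomial
    have h1 := eq_C_of_natDegree_le_zero hdeg
    have h2 := hbd a₁ le_rfl h.le
    rw [h1] at h2 ⊢
    rw [eval_C, pow_zero] at h2
    rw [coeff_C, pow_zero]
    split_ifs
    · exact h2
    · simp
  have hd : 0 < a₂ - a₁ := by linarith
  have hkr : (0 : ℝ) < k := by exact_mod_cast hk
  set hh : ℝ := (a₂ - a₁) / k with hhh
  have hh0 : 0 < hh := by positivity
  set v : ℕ → ℂ := fun j => ((a₁ + j * hh : ℝ) : ℂ) with hv
  have hinj : Set.InjOn v (range (k + 1) : Finset ℕ) := by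
    intro j _ l _ hjl
    simp only [hv] at hjl
    have h3 : a₁ + (j : ℝ) * hh = a₁ + l * hh := by exact_mod_cast hjl
    have h4 : (j : ℝ) = l := by
      have : ((j : ℝ) - l) * hh = 0 := by linarith
      rcases mul_eq_zero.1 this with h5 | h5
      · linarith
      · exact absurd h5 hh0.ne'
    exact_mod_cast h4
  have hPdeg : P.degree < (range (k + 1)).card := by
    rw [card_range]
    exact (degree_le_of_natDegree_le hdeg).trans_lt (by exact_mod_cast Nat.lt_succ_self k)
  have hPi := Lagrange.eq_interpolate hinj hPdeg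
  have hnode : ∀ j ∈ range (k + 1), a₁ ≤ a₁ + (j : ℝ) * hh ∧ a₁ + (j : ℝ) * hh ≤ a₂ := by
    intro j hj
    rw [Finset.mem_range] at hj
    have h1 : (j : ℝ) ≤ k := by exact_mod_cast Nat.lt_succ_iff.1 hj
    have h2 : (0 : ℝ) ≤ j := Nat.cast_nonneg j
    have h3 : (j : ℝ) * hh ≤ k * hh := mul_le_mul_of_nonneg_right h1 hh0.le
    have h4 : (k : ℝ) * hh = a₂ - a₁ := by rw [hhh]; field_simp
    constructor
    · have := mul_nonneg h2 hh0.le; linarith
    · linarith
  have hvn : ∀ j ∈ range (k + 1), ‖v j‖ ≤ B := by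
    intro j hj
    obtain ⟨h1, h2⟩ := hnode j hj
    rw [hv, Complex.norm_real, Real.norm_eq_abs]
    exact abs_le_max_abs_abs h1 h2
  -- bound of the basis coefficients
  have hbasis : ∀ j ∈ range (k + 1), ‖(Lagrange.basis (range (k + 1)) v j).coeff i‖ ≤
      (1 + B) ^ k * (2 ^ k / (hh ^ k * k.factorial)) := by
    intro j hj
    have hjk : j ≤ k := Nat.lt_succ_iff.1 (Finset.mem_range.1 hj)
    refine (coeff_prod_bound _ v (v j) i).trans ?_
    rw [Finset.prod_mul_distrib]
    have h1 : ∏ l ∈ (range (k + 1)).erase j, (1 + ‖v l‖) ≤ (1 + B) ^ k := by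
      calc ∏ l ∈ (range (k + 1)).erase j, (1 + ‖v l‖)
          ≤ ∏ _l ∈ (range (k + 1)).erase j, (1 + B) :=
            Finset.prod_le_prod (fun _ _ => by positivity)
              fun l hl => by linarith [hvn l (Finset.mem_of_mem_erase hl)]
        _ = (1 + B) ^ k := by
            rw [Finset.prod_const, Finset.card_erase_of_mem hj, card_range, Nat.add_sub_cancel]
    have h2 : ∏ l ∈ (range (k + 1)).erase j, ‖(v j - v l)⁻¹‖ ≤ 2 ^ k / (hh ^ k * k.factorial) := by
      have h3 : ∀ l ∈ (range (k + 1)).erase j, ‖(v j - v l)⁻¹‖ = (hh * |(j : ℝ) - l|)⁻¹ := by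
        intro l _
        rw [norm_inv, hv]
        simp only
        rw [← Complex.ofReal_sub, Complex.norm_real, Real.norm_eq_abs]
        have : a₁ + (j : ℝ) * hh - (a₁ + l * hh) = hh * ((j : ℝ) - l) := by ring
        rw [this, abs_mul, abs_of_pos hh0]
      rw [Finset.prod_congr rfl h3, Finset.prod_inv_distrib, Finset.prod_mul_distrib,
        Finset.prod_const, Finset.card_erase_of_mem hj, card_range, Nat.add_sub_cancel,
        prod_abs_sub k j hjk]
      have h5 := fact_mul_fact_ge k j hjk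
      have h6 : (0 : ℝ) < k.factorial := by exact_mod_cast Nat.factorial_pos k
      rw [inv_eq_one_div, div_le_div_iff₀ (by positivity) (by positivity)]
      rw [div_le_iff₀ (by positivity)] at h5
      calc 1 * (hh ^ k * (k.factorial : ℝ)) ≤ hh ^ k * (j.factorial * (k - j).factorial * 2 ^ k) := by
            rw [one_mul]; exact mul_le_mul_of_nonneg_left h5 (by positivity)
        _ = 2 ^ k * (hh ^ k * (j.factorial * (k - j).factorial)) := by ring
    calc (∏ l ∈ (range (k + 1)).erase j, ‖(v j - v l)⁻¹‖) *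
          ∏ l ∈ (range (k + 1)).erase j, (1 + ‖v l‖)
        ≤ (2 ^ k / (hh ^ k * k.factorial)) * (1 + B) ^ k :=
          mul_le_mul h2 h1 (Finset.prod_nonneg fun _ _ => by positivity) (by positivity)
      _ = _ := by ring
  -- sum
  have hcoef : P.coeff i = ∑ j ∈ range (k + 1), P.eval (v j) *
      (Lagrange.basis (range (k + 1)) v j).coeff i := by
    conv_lhs => rw [hPi]
    rw [Lagrange.interpolate_apply, finsetSum_coeff]
    simp only [coeff_C_mul]
  rw [hcoef]
  have hterm : ∀ j ∈ range (k + 1), ‖P.eval (v j) *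
      (Lagrange.basis (range (k + 1)) v j).coeff i‖ ≤
      M ^ k * ((1 + B) ^ k * (2 ^ k / (hh ^ k * k.factorial))) := by
    intro j hj
    rw [norm_mul]
    obtain ⟨h1, h2⟩ := hnode j hj
    exact mul_le_mul (hbd _ h1 h2) (hbasis j hj) (norm_nonneg _) (by positivity)
  refine (norm_sum_le _ _).trans ((Finset.sum_le_sum hterm).trans ?_)
  rw [Finset.sum_const, card_range, nsmul_eq_mul]
  have h7 : ((k + 1 : ℕ) : ℝ) ≤ 2 ^ k := by
    have : k + 1 ≤ 2 ^ k := Nat.succ_le_of_lt Nat.lt_two_pow_self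
    exact_mod_cast this
  have h8 : (k : ℝ) ^ k / k.factorial ≤ Real.exp 1 ^ k := by
    rw [← Real.exp_nat_mul, mul_one]
    exact Real.pow_div_factorial_le_exp k hkr.le k
  have h9 : (2 : ℝ) ^ k / (hh ^ k * k.factorial) = (2 / (a₂ - a₁)) ^ k * ((k : ℝ) ^ k / k.factorial) := by
    have e1 : (2 / (a₂ - a₁)) ^ k = 2 ^ k / (a₂ - a₁) ^ k := div_pow _ _ _
    have e2 : hh ^ k = (a₂ - a₁) ^ k / (k : ℝ) ^ k := by rw [hhh, div_pow]
    have e3 : (0 : ℝ) < (k.factorial : ℝ) := by exact_mod_cast Nat.factorial_pos k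
    have e4 : (0 : ℝ) < (k : ℝ) ^ k := by positivity
    have e5 : (0 : ℝ) < (a₂ - a₁) ^ k := by positivity
    rw [e1, e2]
    field_simp
  rw [h9]
  have hM' : (0:ℝ) ≤ M ^ k := by positivity
  calc ((k + 1 : ℕ) : ℝ) * (M ^ k * ((1 + B) ^ k * ((2 / (a₂ - a₁)) ^ k * ((k : ℝ) ^ k / k.factorial))))
      ≤ 2 ^ k * (M ^ k * ((1 + B) ^ k * ((2 / (a₂ - a₁)) ^ k * (Real.exp 1 ^ k)))) := by
        gcongr
    _ = (4 * (1 + B) * Real.exp 1 / (a₂ - a₁) * M) ^ k := by
        rw [← mul_pow, ← mul_pow, ← mul_pow, ← mul_pow]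
        congr 1
        ring

end MP8eabdf
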