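import Mathlib
import Pool.Agent.Lib.MP_8eabdf_an.Lagr

/-!
# MP_8eabdf_an, F8: Baire and Lagrange
-/

namespace MP8eabdf

open Complex Filter Topology Asymptotics Set
open scoped ComplexConjugate

theorem baire_lagrange {Y : ℕ → Polynomial ℂ} (hdeg : ∀ k, (Y k).natDegree ≤ k)
    (hconv : ∀ β ∈ Icc (1 : ℝ) 2, ∃ M : ℝ, ∀ k, ‖(Y k).eval (β : ℂ)‖ ≤ M ^ (k + 1)) :
    ∃ C : ℝ, ∀ k, ‖(Y k).coeff 1‖ ≤ C ^ (k + 1) := by
  -- the closed sets
  set E : ℕ → Set (Icc (1 : ℝ) 2) := fun n =>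
    {β | ∀ k, ‖(Y k).eval ((β : ℝ) : ℂ)‖ ≤ (n : ℝ) ^ (k + 1)} with hE
  have hclosed : ∀ n, IsClosed (E n) := by
    intro n
    rw [hE]
    simp only [Set.ofPred_forall]
    refine isClosed_iInter fun k => ?_
    refine isClosed_le ?_ continuous_const
    exact ((Y k).continuous.comp (Complex.continuous_ofReal.comp continuous_subtype_val)).norm
  have hcover : (⋃ n, E n) = Set.univ := by
    refine Set.eq_univ_of_forall fun β => ?_
    obtain ⟨M, hM⟩ := hconv β.1 β.2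
    obtain ⟨n, hn⟩ := exists_nat_ge |M|
    refine Set.mem_iUnion.2 ⟨n, fun k => ?_⟩
    calc ‖(Y k).eval ((β : ℝ) : ℂ)‖ ≤ M ^ (k + 1) := hM k
      _ ≤ |M ^ (k + 1)| := le_abs_self _
      _ = |M| ^ (k + 1) := abs_pow _ _
      _ ≤ (n : ℝ) ^ (k + 1) := pow_le_pow_left₀ (abs_nonneg _) hn _
  have : Nonempty (Icc (1 : ℝ) 2) := ⟨⟨1, by norm_num⟩⟩
  obtain ⟨n, β₀, hβ₀⟩ := nonempty_interior_of_iUnion_of_closed hclosed hcover
  obtain ⟨ε, hε, hball⟩ := Metric.isOpen_iff.1 isOpen_interior β₀ hβ₀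
  have hball' := hball.trans interior_subset
  set a₁ : ℝ := max 1 ((β₀ : ℝ) - ε / 2) with ha₁
  set a₂ : ℝ := min 2 ((β₀ : ℝ) + ε / 2) with ha₂
  have hβ1 : (1 : ℝ) ≤ β₀ := β₀.2.1
  have hβ2 : (β₀ : ℝ) ≤ 2 := β₀.2.2
  have h12 : a₁ < a₂ := by
    rw [ha₁, ha₂]
    refine max_lt (lt_min (by norm_num) (by linarith)) (lt_min (by linarith) (by linarith))
  obtain ⟨C, hC, hbound⟩ := coeff_bound_of_interval h12
  set N : ℝ := max (n : ℝ) 1 with hN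
  have hN1 : 1 ≤ N := le_max_right _ _
  have hN0 : 0 ≤ N := by linarith
  have hY : ∀ k, ∀ b ∈ Set.Icc a₁ a₂, ‖(Y k).eval (b : ℂ)‖ ≤ N ^ (k + 1) := by
    intro k b hb
    have hb1 : (1 : ℝ) ≤ b := (le_max_left _ _).trans hb.1
    have hb2 : b ≤ 2 := hb.2.trans (min_le_left _ _)
    have hb3 : (β₀ : ℝ) - ε / 2 ≤ b := (le_max_right _ _).trans hb.1
    have hb4 : b ≤ (β₀ : ℝ) + ε / 2 := hb.2.trans (min_le_right _ _)
    have hmem : (⟨b, hb1, hb2⟩ : Icc (1 : ℝ) 2) ∈ Metric.ball β₀ ε := by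
      rw [Metric.mem_ball, Subtype.dist_eq, Real.dist_eq, abs_lt]
      constructor <;> simp only <;> linarith
    have := hball' hmem k
    refine this.trans (pow_le_pow_left₀ (Nat.cast_nonneg n) (le_max_left _ _) _)
  refine ⟨max (C * N ^ 2) 1, fun k => ?_⟩
  have hm1 : 1 ≤ max (C * N ^ 2) 1 := le_max_right _ _
  rcases Nat.eq_zero_or_pos k with rfl | hk
  · have : (Y 0).coeff 1 = 0 :=
      Polynomial.coeff_eq_zero_of_natDegree_lt (lt_of_le_of_lt (hdeg 0) one_pos)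
    rw [this, norm_zero]
    positivity
  · have hk2 : ∀ b ∈ Set.Icc a₁ a₂, ‖(Y k).eval (b : ℂ)‖ ≤ (N ^ 2) ^ k := by
      intro b hb
      refine (hY k b hb).trans ?_
      rw [← pow_mul]
      exact pow_le_pow_right₀ hN1 (by omega)
    have := hbound k (Y k) (N ^ 2) (by positivity) (hdeg k)
      (fun b h1 h2 => hk2 b ⟨h1, h2⟩) 1
    calc ‖(Y k).coeff 1‖ ≤ (C * N ^ 2) ^ k := this
      _ ≤ (max (C * N ^ 2) 1) ^ k :=
          pow_le_pow_left₀ (by positivity) (le_max_left _ _) _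
      _ ≤ (max (C * N ^ 2) 1) ^ (k + 1) := pow_le_pow_right₀ hm1 (by omega)

end MP8eabdf
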