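import Pool.Agent.Lib.MP_8eabdf_an.F1

/-! F9: specialisation of the universal solution -/

namespace MP8eabdf

open Complex

theorem rescale_C' (ε a : ℂ) :
    PowerSeries.rescale ε (PowerSeries.C a) = PowerSeries.C a := by
  ext n
  rw [PowerSeries.coeff_rescale, PowerSeries.coeff_C]
  split_ifs with h
  · simp [h]
  · simp

theorem sol_subst {ζ η ν g : PowerSeries (Polynomial ℂ)}
    (h : Sol (PowerSeries.C (Polynomial.C I)) PowerSeries.X
      (PowerSeries.C Polynomial.X * PowerSeries.X)
      (thetaS fun n => (n : Polynomial ℂ)) ζ η ν g) (β ε : ℂ) {b : ℕ} (hb : 0 < b) :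
    ∃ ζ' η' ν' g' : PowerSeries ℂ,
      Sol (PowerSeries.C I) (PowerSeries.C ε * PowerSeries.X ^ b)
        (PowerSeries.C (β * ε) * PowerSeries.X ^ b)
        (thetaS fun n => (n : ℂ) / b) ζ' η' ν' g' ∧
      ∀ k, PowerSeries.coeff (b * k) η' = ε ^ k * (PowerSeries.coeff k η).eval β := by
  classical
  set f : PowerSeries (Polynomial ℂ) →+* PowerSeries ℂ :=
    ((PowerSeries.expand b hb.ne' : PowerSeries ℂ →ₐ[ℂ] PowerSeries ℂ).toRingHom.comp
      (PowerSeries.rescale ε)).comp (PowerSeries.map (Polynomial.evalRingHom β)) with hf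
  have hfa : ∀ a, f a = PowerSeries.expand b hb.ne' (PowerSeries.rescale ε
      (PowerSeries.map (Polynomial.evalRingHom β) a)) := fun a => rfl
  have hcoef : ∀ (a : PowerSeries (Polynomial ℂ)) (n : ℕ), PowerSeries.coeff n (f a)
      = if b ∣ n then ε ^ (n / b) * (PowerSeries.coeff (n / b) a).eval β else 0 := by
    intro a n
    rw [hfa, PowerSeries.coeff_expand]
    simp [PowerSeries.coeff_rescale]
  have hθ : ∀ a, f (thetaS (fun n => (n : Polynomial ℂ)) a)
      = thetaS (fun n => (n : ℂ) / b) (f a) := by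
    intro a
    ext n
    rw [hcoef, thetaS, thetaS, PowerSeries.coeff_mk, PowerSeries.coeff_mk, hcoef]
    split_ifs with hd
    · obtain ⟨q, rfl⟩ := hd
      have hb' : (b : ℂ) ≠ 0 := by exact_mod_cast hb.ne'
      rw [Nat.mul_div_cancel_left _ hb]
      simp only [Polynomial.eval_mul, Polynomial.eval_natCast]
      push_cast
      field_simp
    · simp
  have h1 := h.map f hθ
  have e1 : f (PowerSeries.C (Polynomial.C I)) = PowerSeries.C I := by
    rw [hfa]
    simp [PowerSeries.expand_C, PowerSeries.map_C, rescale_C']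
  have e2 : f PowerSeries.X = PowerSeries.C ε * PowerSeries.X ^ b := by
    rw [hfa]
    simp [PowerSeries.expand_C, PowerSeries.map_X, PowerSeries.rescale_X, map_mul]
  have e3 : f (PowerSeries.C Polynomial.X * PowerSeries.X)
      = PowerSeries.C (β * ε) * PowerSeries.X ^ b := by
    rw [map_mul, e2, hfa]
    simp [PowerSeries.expand_C, PowerSeries.map_C, rescale_C', map_mul, mul_assoc]
  rw [e1, e2, e3] at h1
  refine ⟨f ζ, f η, f ν, f g, h1, fun k => ?_⟩
  rw [hcoef, if_pos (Dvd.intro _ rfl), Nat.mul_div_cancel_left _ hb]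

end MP8eabdf
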