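import Pool.Agent.Lib.MP_8eabdf_an.F5
import Pool.Agent.Lib.MP_8eabdf_an.F6
import Pool.Agent.Lib.MP_8eabdf_an.F7
import Pool.Agent.Lib.MP_8eabdf_an.F8
import Pool.Agent.Lib.MP_8eabdf_an.F9

/-! assembly of the formal part: a parameter `β` for which the formal solution diverges -/

namespace MP8eabdf

open Complex Set

theorem exists_bad_beta : ∃ β ∈ Icc (1 : ℝ) 2, ∀ (b : ℕ) (_ : 0 < b) (ε : ℝ)
    (_ : ε = 1 ∨ ε = -1) (ζ η ν g : PowerSeries ℂ),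
    Sol (PowerSeries.C I) (PowerSeries.C (ε : ℂ) * PowerSeries.X ^ b)
        (PowerSeries.C ((β : ℂ) * ε) * PowerSeries.X ^ b)
        (thetaS fun n => (n : ℂ) / b) ζ η ν g →
      ¬ ∃ M : ℝ, ∀ n, ‖PowerSeries.coeff n η‖ ≤ M ^ (n + 1) := by
  obtain ⟨ζ, η, ν, g, hsol, hdeg⟩ := sol_exists
  obtain ⟨p, p0, pk, p1, p2, prec⟩ := sol_linear hsol
  by_contra! hcon
  have hgr := growth p0 p1 p2 prec
  apply hgr
  obtain ⟨C, hC⟩ := baire_lagrange (Y := fun k => PowerSeries.coeff k η) hdeg (by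
    intro β hβ
    obtain ⟨b, hb, ε, hε, ζ₁, η₁, ν₁, g₁, h₁, M, hM⟩ := hcon β hβ
    obtain ⟨ζ₂, η₂, ν₂, g₂, h₂, hc₂⟩ := sol_subst hsol (β : ℂ) (ε : ℂ) hb
    have hη : η₁ = η₂ := by
      refine (sol_unique (c := fun n => (n : ℂ) / b) I_sq ?_ (by simp) ?_ ?_ h₁ h₂).2.1
      · exact isUnit_iff_ne_zero.mpr two_ne_zero
      · simp [hb.ne']
      · simp [hb.ne']
    have hε' : ‖(ε : ℂ)‖ = 1 := by
      rcases hε with h | h <;> simp [h]
    refine ⟨(max M 1) ^ b, fun k => ?_⟩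
    have e1 : ‖((PowerSeries.coeff k) η).eval (β : ℂ)‖ = ‖PowerSeries.coeff (b * k) η₁‖ := by
      rw [hη, hc₂, norm_mul, norm_pow, hε', one_pow, one_mul]
    have h1 : (1 : ℝ) ≤ max M 1 := le_max_right _ _
    have hM0 : 0 ≤ M := by
      have := hM 0
      simpa using (norm_nonneg _).trans this
    rw [e1]
    calc ‖PowerSeries.coeff (b * k) η₁‖ ≤ M ^ (b * k + 1) := hM _
      _ ≤ (max M 1) ^ (b * k + 1) := pow_le_pow_left₀ hM0 (le_max_left _ _) _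
      _ ≤ (max M 1) ^ (b * (k + 1)) := pow_le_pow_right₀ h1 (by nlinarith)
      _ = ((max M 1) ^ b) ^ (k + 1) := pow_mul _ _ _)
  exact ⟨C, fun k => by rw [pk]; exact hC k⟩

end MP8eabdf
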