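import Pool.Agent.Lib.MP_8eabdf_an.RegIII

/-!
# The outer region: no analytic curve with `w = o(z)` satisfies the chain equation
-/

namespace MP8eabdf
namespace Reg

open Filter Asymptotics Topology Set
open scoped ComplexConjugate

theorem analytic_fo_euler {v : ℝ → ℂ} {n : ℕ} (hv : AnalyticAt ℝ v 0) (hn : FO v n) :
    FO (fun t => (t : ℂ) * deriv v t) n := by
  by_cases h0 : ∀ᶠ t in 𝓝 (0 : ℝ), v t = 0
  · refine (FO.zero n).congr' ?_
    filter_upwards [h0.eventually_nhds.filter_mono nhdsWithin_le_nhds] with t ht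
    have : v =ᶠ[𝓝 t] fun _ => (0 : ℂ) := ht
    rw [this.deriv_eq]; simp
  · obtain ⟨m, φ, hφ, hφ0, hf⟩ := hv.exists_eventuallyEq_pow_smul_nonzero_iff.2 h0
    have hf' : ∀ᶠ t : ℝ in 𝓝 (0 : ℝ), v t = (t : ℂ) ^ m * φ t := by
      filter_upwards [hf] with t ht
      rw [ht, sub_zero, Complex.real_smul]; push_cast; ring
    have h1 := ae_of_analytic hφ hf'
    have hmn : n ≤ m := by
      by_contra hcon
      push Not at hcon
      exact hφ0 (AE.unique h1 (AE.of_fo hn hcon))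
    exact (ae_euler hφ hf').fo.mono hmn

theorem conj_analytic {f : ℝ → ℂ} (hf : AnalyticAt ℝ f 0) :
    AnalyticAt ℝ (fun t => conj (f t)) 0 :=
  (Complex.conjCLE.toContinuousLinearMap.analyticAt (f 0)).comp hf

theorem im_analytic {f : ℝ → ℂ} (hf : AnalyticAt ℝ f 0) :
    AnalyticAt ℝ (fun t => ((f t).im : ℂ)) 0 := by
  have h1 : AnalyticAt ℝ (fun t => (f t).im) 0 := (Complex.imCLM.analyticAt (f 0)).comp hf
  exact (Complex.ofRealCLM.analyticAt _).comp h1

theorem deriv_im {f : ℝ → ℂ} {t : ℝ} (hf : DifferentiableAt ℝ f t) :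
    deriv (fun s => ((f s).im : ℂ)) t = ((deriv f t).im : ℂ) := by
  have h1 : HasDerivAt (fun s => (f s).im) (deriv f t).im t :=
    (Complex.imCLM.hasFDerivAt.comp_hasDerivAt t hf.hasDerivAt)
  exact (h1.ofReal_comp).deriv

end Reg

open Filter Asymptotics Topology Set Reg
open scoped ComplexConjugate

/-- No analytic curve in `M_β` with `w = o(z)` satisfies the chain equation. -/
theorem reg_out (β : ℝ) {c : ℝ → ℂ × ℂ} (hc : AnalyticAt ℝ c 0) (h0 : c 0 = 0)
    (hM : ∀ᶠ t in 𝓝 (0 : ℝ), rb β (c t) = 0) (hz : ¬ ∀ᶠ t in 𝓝 (0 : ℝ), (c t).1 = 0)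
    (hord : (fun t => (c t).2) =o[𝓝[>] (0 : ℝ)] (fun t => (c t).1))
    (hE : ∀ᶠ t in 𝓝[>] (0 : ℝ), ChainEq Complex.I (β : ℂ) (c t).1 (conj (c t).1)
      (conj (c t).2) (Dd (β : ℂ) (c t).1 (conj (c t).1))⁻¹
      (deriv (fun s => conj (c s).1) t) (iteratedDeriv 2 (fun s => conj (c s).1) t)
      (deriv (fun s => conj (c s).2) t) (iteratedDeriv 2 (fun s => conj (c s).2) t)) :
    False := by
  have hza : AnalyticAt ℝ (fun t => (c t).1) 0 :=
    ((ContinuousLinearMap.fst ℝ ℂ ℂ).analyticAt (c 0)).comp hc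
  have hwa : AnalyticAt ℝ (fun t => (c t).2) 0 :=
    ((ContinuousLinearMap.snd ℝ ℂ ℂ).analyticAt (c 0)).comp hc
  -- factor `z`
  obtain ⟨a, Z, hZ, hZ0, hzf⟩ := hza.exists_eventuallyEq_pow_smul_nonzero_iff.2 hz
  have hzf' : ∀ᶠ t : ℝ in 𝓝 (0 : ℝ), (c t).1 = (t : ℂ) ^ a * Z t := by
    filter_upwards [hzf] with t ht
    rw [ht, sub_zero, Complex.real_smul]; push_cast; ring
  have ha : 1 ≤ a := by
    rcases Nat.eq_zero_or_pos a with rfl | h
    · exfalso
      have := hzf'.self_of_nhds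
      rw [h0] at this
      simp only [pow_zero, one_mul, Prod.fst_zero] at this
      exact hZ0 this.symm
    · exact h
  have hx : AE (fun t => (c t).1) (Z 0) a := ae_of_analytic hZ hzf'
  have hYa := conj_analytic hZ
  have hχf : ∀ᶠ t : ℝ in 𝓝 (0 : ℝ), conj (c t).1 = (t : ℂ) ^ a * conj (Z t) := by
    filter_upwards [hzf'] with t ht
    rw [ht, map_mul, map_pow, Complex.conj_ofReal]
  have hχ : AE (fun t => conj (c t).1) (conj (Z 0)) a := ae_of_analytic hYa hχf
  have hY0 : conj (Z 0) ≠ 0 := by simpa using hZ0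
  have hXY : Z 0 * conj (Z 0) = ((‖Z 0‖ ^ 2 : ℝ) : ℂ) := by
    rw [Complex.mul_conj']; push_cast; ring
  have hXY0 : 0 < ‖Z 0‖ ^ 2 := by positivity
  have hXYne : Z 0 * conj (Z 0) ≠ 0 := mul_ne_zero hZ0 hY0
  -- the equation of `M`
  have hMc : ∀ᶠ t in L0, ((c t).2.im : ℂ) = ((c t).1 * conj (c t).1) ^ 2
      - ((c t).1 * conj (c t).1) ^ 3
      + ((c t).2 * conj (c t).2) * (((c t).1 * conj (c t).1) *
        ((1 + β * (c t).1) * (1 + β * conj (c t).1))) := by
    filter_upwards [hM.filter_mono nhdsWithin_le_nhds] with t ht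
    unfold rb at ht
    have h1 : (c t).2.im = ‖(c t).1‖ ^ 4 - ‖(c t).1‖ ^ 6
        + ‖(c t).2‖ ^ 2 * ‖(c t).1 + β * (c t).1 ^ 2‖ ^ 2 := by linarith
    rw [h1]
    push_cast
    have e1 : ((‖(c t).1‖ : ℂ)) ^ 2 = (c t).1 * conj (c t).1 := (Complex.mul_conj' _).symm
    have e2 : ((‖(c t).2‖ : ℂ)) ^ 2 = (c t).2 * conj (c t).2 := (Complex.mul_conj' _).symm
    have e3 : ((‖(c t).1 + β * (c t).1 ^ 2‖ : ℂ)) ^ 2
        = ((c t).1 + β * (c t).1 ^ 2) * conj ((c t).1 + β * (c t).1 ^ 2) :=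
      (Complex.mul_conj' _).symm
    have e4 : ((‖(c t).1‖ : ℂ)) ^ 4 = ((c t).1 * conj (c t).1) ^ 2 := by rw [← e1]; ring
    have e5 : ((‖(c t).1‖ : ℂ)) ^ 6 = ((c t).1 * conj (c t).1) ^ 3 := by rw [← e1]; ring
    rw [e4, e5, e2, e3, map_add, map_mul, map_pow, Complex.conj_ofReal]
    ring
  -- `w` is not identically zero
  have hρ : AE (fun t => (c t).1 * conj (c t).1) (Z 0 * conj (Z 0)) (a + a) := hx.mul hχ
  have hcorr : FO (fun t => ((1 + β * (c t).1) * (1 + β * conj (c t).1))) 0 := by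
    have h1 : FO (fun t => 1 + (β : ℂ) * (c t).1) 0 :=
      (FO.const 1).add ((hx.fo.const_mul (β : ℂ)).mono (Nat.zero_le _))
    have h2 : FO (fun t => 1 + (β : ℂ) * conj (c t).1) 0 :=
      (FO.const 1).add ((hχ.fo.const_mul (β : ℂ)).mono (Nat.zero_le _))
    exact h1.mul h2
  have hw0 : ¬ ∀ᶠ t in 𝓝 (0 : ℝ), (c t).2 = 0 := by
    intro hw
    have h1 : FO (fun t => ((c t).1 * conj (c t).1) ^ 2) (4 * a + 1) := by
      refine ((hρ.fo.pow 3).mono (n := 4 * a + 1) (by omega)).congr' ?_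
      filter_upwards [hMc, hw.filter_mono nhdsWithin_le_nhds] with t ht hwt
      rw [hwt] at ht
      simp only [Complex.zero_im, Complex.ofReal_zero, zero_mul, add_zero, map_zero,
        mul_zero] at ht
      linear_combination ht
    have h2 := (hρ.pow 2).cast (k' := 4 * a) rfl (by omega)
    have := AE.unique h2 (AE.of_fo h1 le_rfl)
    exact pow_ne_zero _ hXYne this
  obtain ⟨ω, W, hW, hW0, hwf⟩ := hwa.exists_eventuallyEq_pow_smul_nonzero_iff.2 hw0
  have hwf' : ∀ᶠ t : ℝ in 𝓝 (0 : ℝ), (c t).2 = (t : ℂ) ^ ω * W t := by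
    filter_upwards [hwf] with t ht
    rw [ht, sub_zero, Complex.real_smul]; push_cast; ring
  have hw : AE (fun t => (c t).2) (W 0) ω := ae_of_analytic hW hwf'
  -- `ω > a`
  have hωa : a < ω := by
    by_contra hcon
    push Not at hcon
    have h1 : (fun t : ℝ => t ^ ω) =O[L0] (fun t => (c t).2) := by
      refine IsBigO.of_bound (2 / ‖W 0‖) ?_
      filter_upwards [hw.lower hW0, pos_L0] with t ht ht0
      have hWn : 0 < ‖W 0‖ := norm_pos_iff.2 hW0
      rw [Real.norm_of_nonneg (by positivity), div_mul_eq_mul_div, le_div_iff₀ hWn]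
      linarith
    have h2 : (fun t : ℝ => t ^ ω) =o[L0] (fun t : ℝ => t ^ a) :=
      (h1.trans_isLittleO hord).trans_isBigO hx.fo
    have h3 : (fun t : ℝ => t ^ ω) =o[L0] (fun t : ℝ => t ^ ω) :=
      h2.trans_isBigO (pow_isBigO hcon)
    have h4 : ∀ᶠ t : ℝ in L0, (t : ℝ) ^ ω = 0 := by
      have := h3.bound (c := 1 / 2) (by norm_num)
      filter_upwards [this] with t ht
      have h5 : ‖t ^ ω‖ = 0 := by
        have := norm_nonneg (t ^ ω)
        linarith
      exact norm_eq_zero.1 h5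
    obtain ⟨t, ht1, ht2⟩ := (h4.and pos_L0).exists
    exact (pow_pos ht2 ω).ne' ht1
  obtain ⟨d, rfl⟩ : ∃ d, ω = a + d := ⟨ω - a, by omega⟩
  have hd : 1 ≤ d := by omega
  have hTa := conj_analytic hW
  have hτf : ∀ᶠ t : ℝ in 𝓝 (0 : ℝ), conj (c t).2 = (t : ℂ) ^ (a + d) * conj (W t) := by
    filter_upwards [hwf'] with t ht
    rw [ht, map_mul, map_pow, Complex.conj_ofReal]
  have hτ : AE (fun t => conj (c t).2) (conj (W 0)) (a + d) := ae_of_analytic hTa hτf
  have hT0 : conj (W 0) ≠ 0 := by simpa using hW0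
  -- the imaginary part of `w`
  have him : FO (fun t => ((c t).2.im : ℂ) - ((c t).1 * conj (c t).1) ^ 2) (6 * a - 2 * a + 2 * min a d) := by
    have h1 := ((hρ.fo.pow 3).mono (n := 6 * a - 2 * a + 2 * min a d) (by omega)).neg
    have h2 := ((hw.fo.mul hτ.fo).mul (hρ.fo.mul hcorr)).mono
      (n := 6 * a - 2 * a + 2 * min a d) (by omega)
    refine (h1.add h2).congr' ?_
    filter_upwards [hMc] with t ht
    rw [ht]; ring
  have him1 : AE (fun t => ((c t).2.im : ℂ)) ((Z 0 * conj (Z 0)) ^ 2) (4 * a) := by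
    have h2 := (hρ.pow 2).cast (k' := 4 * a) rfl (by omega)
    refine (h2.add_fo him (by omega)).congr fun t => ?_
    ring
  have hd3 : d ≤ 3 * a := by
    by_contra hcon
    push Not at hcon
    have h1 : AE (fun t => ((c t).2.im : ℂ)) 0 (4 * a) := AE.of_fo hw.fo.im (by omega)
    exact pow_ne_zero _ hXYne (AE.unique him1 h1)
  -- `g`
  have hD := FO_Dd (β := (β : ℂ)) hx.fo hχ.fo
  have hg : FO (fun t => (Dd (β : ℂ) (c t).1 (conj (c t).1))⁻¹ - 1) (6 * a) := by
    have h1 : Tendsto (fun t => Dd (β : ℂ) (c t).1 (conj (c t).1)) L0 (𝓝 1) := by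
      have h2 : Tendsto (fun t : ℝ => t ^ (6 * a)) L0 (𝓝 0) := by
        have : Tendsto (fun t : ℝ => t ^ (6 * a)) (𝓝 0) (𝓝 (0 ^ (6 * a))) :=
          (continuous_pow _).tendsto 0
        rw [zero_pow (by omega)] at this
        exact this.mono_left nhdsWithin_le_nhds
      have h3 := (IsBigO.trans_tendsto hD h2).add_const 1
      simpa using h3
    have h4 := h1.inv₀ one_ne_zero
    have h5 : FO (fun t => (Dd (β : ℂ) (c t).1 (conj (c t).1))⁻¹) 0 := by
      unfold FO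
      simp only [pow_zero]
      exact h4.isBigO_one ℝ
    have h6 := (h5.mul' hD.neg (by omega : 6 * a ≤ 0 + 6 * a))
    refine h6.congr' ?_
    filter_upwards [h1.eventually_ne one_ne_zero] with t ht
    field_simp
    ring
  have hχan := conj_analytic hza
  have hτan := conj_analytic hwa
  have hy1 := ae_euler hYa hχf
  have hy2 := ae_euler2 hYa hχf hχan
  have hs1 := ae_euler hTa hτf
  have hs2 := ae_euler2 hTa hτf hτan
  have hSE := scaledEq_of_chainEq hE
  rcases lt_trichotomy d a with hlt | heq | hgt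
  · exact regimeII ha hd hZ0 hY0 hT0 hx hχ hτ hg hy1 hy2 hs1 hs2 hSE hlt
  · subst heq
    refine regimeIII ha hZ0 hY0 hT0 hx hχ hτ hg hy1 hy2 hs1 hs2 hSE ?_ ?_ ?_
    · exact Eventually.of_forall fun t => by simp
    · refine ((him.mono (n := 6 * d) (by omega)).neg).congr fun t => ?_
      rw [Complex.conj_im]; push_cast; ring
    · have h1 : FO (fun t => ((conj (c t).2).im : ℂ)) (4 * d) := by
        refine (him1.fo.neg).congr fun t => ?_
        rw [Complex.conj_im]; push_cast; ring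
      have h2 := analytic_fo_euler (im_analytic hτan) h1
      refine h2.congr' ?_
      filter_upwards [hτan.eventually_analyticAt.filter_mono nhdsWithin_le_nhds] with t ht
      rw [deriv_im ht.differentiableAt, Complex.im_ofReal_mul]
      push_cast; ring
  · rcases lt_trichotomy d (2 * a) with hlt2 | heq2 | hgt2
    · exact regimeIVa ha hd hZ0 hY0 hT0 hx hχ hτ hg hy1 hy2 hs1 hs2 hSE hgt hlt2
    · have hreal : (W 0).im = 0 := by
        have h1 := FO.im (f := fun t => (c t).2 - W 0 * (t : ℂ) ^ (a + d)) hw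
        have h2 : FO (fun t => ((W 0).im : ℂ) * (t : ℂ) ^ (a + d)) (a + d + 1) := by
          refine ((him1.fo.mono (by omega : a + d + 1 ≤ 4 * a)).sub h1).congr fun t => ?_
          have : ((t : ℂ)) ^ (a + d) = ((t ^ (a + d) : ℝ) : ℂ) := by push_cast; ring
          rw [this, Complex.sub_im, Complex.im_mul_ofReal]
          push_cast; ring
        exact_mod_cast const_zero_of_fo h2
      have hT0r : conj (W 0) = (((W 0).re : ℝ) : ℂ) := by
        apply Complex.ext <;> simp [hreal]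
      exact regimeIVb ha hd hZ0 hY0 hT0 hx hχ hτ hg hy1 hy2 hs1 hs2 hSE heq2 hXY hXY0 hT0r
    · exact regimeIVc ha hd hZ0 hY0 hT0 hx hχ hτ hg hy1 hy2 hs1 hs2 hSE hgt2 hd3

end MP8eabdf
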