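import Pool.Agent.Lib.MP_8eabdf_an.F10b
import Pool.Agent.Lib.MP_8eabdf_an.NoRegI
import Pool.Agent.Lib.MP_8eabdf_an.RegOut
import Pool.Agent.Lib.MP_8eabdf_an.LV

/-! final assembly -/

namespace MP8eabdf

open Complex Filter Topology Asymptotics Set
open scoped ComplexConjugate ContDiff

/-- the chain equation near `0` along an analytic curve -/
lemma chain_on {β : ℝ} {c : ℝ → ℂ × ℂ} {γ : Set (ℂ × ℂ)} (hc : AnalyticAt ℝ c 0) (h0 : c 0 = 0)
    (hγ : ∀ᶠ s in 𝓝 (0 : ℝ), c s ∈ γ) (hr : ∀ᶠ s in 𝓝 (0 : ℝ), rb β (c s) = 0)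
    (hch : ∀ᶠ s in 𝓝[≠] (0 : ℝ), IsChainAt {p | rb β p = 0} γ (c s)) :
    ∀ᶠ s in 𝓝[≠] (0 : ℝ), ChainEq I (β : ℂ) (c s).1 (conj (c s).1) (conj (c s).2)
      (Dd (β : ℂ) (c s).1 (conj (c s).1))⁻¹
      (deriv (fun s => conj (c s).1) s) (iteratedDeriv 2 (fun s => conj (c s).1) s)
      (deriv (fun s => conj (c s).2) s) (iteratedDeriv 2 (fun s => conj (c s).2) s) := by
  have hD : ∀ᶠ s in 𝓝 (0 : ℝ), Dd (β : ℂ) (c s).1 (conj (c s).1) ≠ 0 := by
    have hcc : ContinuousAt c 0 := hc.continuousAt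
    have h1 : ContinuousAt (fun s => (c s).1) 0 := hcc.fst
    have h2 : ContinuousAt (fun s => conj (c s).1) 0 := h1.star
    have h3 : ContinuousAt (fun s => Dd (β : ℂ) (c s).1 (conj (c s).1)) 0 := by
      simp only [Dd, Aa, Bb]; fun_prop
    refine h3.eventually_ne ?_
    simp [h0, Dd, Aa]
  filter_upwards [hch, nhdsWithin_le_nhds hγ.eventually_nhds, nhdsWithin_le_nhds hr.eventually_nhds,
    nhdsWithin_le_nhds hD, nhdsWithin_le_nhds hc.eventually_analyticAt] with s h1 h2 h3 h4 h5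
  exact chain_eq β h5 h2 h3 h4 h1

/-- analytic `b`-th root reparametrisation: `u(s) = s^b v(s)`, `v(0) ≠ 0`; there is an analytic
`ψ` with `ψ 0 = 0` and `u (ψ s) = ± s^b`. -/
lemma exists_repar {u v : ℝ → ℝ} {b : ℕ} (hb : 0 < b) (hv : AnalyticAt ℝ v 0) (hv0 : v 0 ≠ 0)
    (hu : ∀ᶠ s in 𝓝 (0 : ℝ), u s = s ^ b * v s) :
    ∃ (ε : ℝ) (ψ : ℝ → ℝ), (ε = 1 ∨ ε = -1) ∧ AnalyticAt ℝ ψ 0 ∧ ψ 0 = 0 ∧
      ∀ᶠ s in 𝓝 (0 : ℝ), u (ψ s) = ε * s ^ b := by
  obtain ⟨ε, hε, hεv⟩ : ∃ ε : ℝ, (ε = 1 ∨ ε = -1) ∧ 0 < ε * v 0 := by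
    rcases lt_or_gt_of_ne hv0 with h | h
    · exact ⟨-1, Or.inr rfl, by linarith⟩
    · exact ⟨1, Or.inl rfl, by linarith⟩
  have hεε : ε * ε = 1 := by rcases hε with h | h <;> rw [h] <;> norm_num
  have hw : AnalyticAt ℝ (fun s => ε * v s) 0 := analyticAt_const.mul hv
  have hlog : AnalyticAt ℝ (fun s => Real.log (ε * v s)) 0 := hw.log hεv
  set m : ℝ → ℝ := fun s => Real.exp ((b : ℝ)⁻¹ * Real.log (ε * v s)) with hm
  have hma : AnalyticAt ℝ m 0 := (analyticAt_const.mul hlog).rexp'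
  have hm0 : 0 < m 0 := Real.exp_pos _
  set φ : ℝ → ℝ := fun s => s * m s with hφ
  have hφa : AnalyticAt ℝ φ 0 := analyticAt_id.mul hma
  have hφ0 : φ 0 = 0 := by simp [hφ]
  have hφd : HasDerivAt φ (m 0) 0 := by
    have h1 := (hasDerivAt_id (0 : ℝ)).mul hma.differentiableAt.hasDerivAt
    simp only [id_eq, one_mul, zero_mul, add_zero] at h1
    exact h1
  have hpow : ∀ᶠ s in 𝓝 (0 : ℝ), (φ s) ^ b = s ^ b * (ε * v s) := by
    have hpos : ∀ᶠ s in 𝓝 (0 : ℝ), 0 < ε * v s := hw.continuousAt.eventually (lt_mem_nhds hεv)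
    filter_upwards [hpos] with s hs
    simp only [hφ, hm]
    rw [mul_pow, ← Real.exp_nat_mul, ← mul_assoc, mul_inv_cancel₀ (by exact_mod_cast hb.ne'),
      one_mul, Real.exp_log hs]
  -- inverse function
  have hne : (ω : WithTop ℕ∞) ≠ 0 := by simp
  have hcd : ContDiffAt ℝ ω φ 0 := hφa.contDiffAt
  set e : ℝ ≃L[ℝ] ℝ := ContinuousLinearEquiv.unitsEquivAut ℝ (Units.mk0 (m 0) hm0.ne') with he
  have hf' : HasFDerivAt φ (e : ℝ →L[ℝ] ℝ) 0 := by
    have h1 : (e : ℝ →L[ℝ] ℝ) = ContinuousLinearMap.toSpanSingleton ℝ (m 0) := by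
      ext
      simp [he]
    rw [h1]
    exact hφd.hasFDerivAt
  set ψ := hcd.localInverse hf' hne with hψ
  have hψa : AnalyticAt ℝ ψ 0 := by
    have := (hcd.to_localInverse hf' hne).analyticAt
    rwa [hφ0] at this
  have hψ0 : ψ 0 = 0 := by
    have := hcd.localInverse_apply_image hf' hne
    rwa [hφ0] at this
  have hri : ∀ᶠ y in 𝓝 (0 : ℝ), φ (ψ y) = y := by
    have := (hcd.hasStrictFDerivAt' hf' hne).eventually_right_inverse
    rwa [hφ0] at this
  have hψt : Tendsto ψ (𝓝 0) (𝓝 0) := by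
    have := hψa.continuousAt.tendsto
    rwa [hψ0] at this
  refine ⟨ε, ψ, hε, hψa, hψ0, ?_⟩
  filter_upwards [hri, hψt.eventually hpow, hψt.eventually hu] with s h1 h2 h3
  rw [h1] at h2
  rw [h3, h2]
  calc (ψ s) ^ b * v (ψ s) = (ε * ε) * ((ψ s) ^ b * v (ψ s)) := by rw [hεε, one_mul]
    _ = ε * ((ψ s) ^ b * (ε * v (ψ s))) := by ring

theorem no_curve {β : ℝ} (hbad : ∀ (b : ℕ) (_ : 0 < b) (ε : ℝ) (_ : ε = 1 ∨ ε = -1)
      (ζ η ν g : PowerSeries ℂ),
      Sol (PowerSeries.C I) (PowerSeries.C (ε : ℂ) * PowerSeries.X ^ b)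
        (PowerSeries.C ((β : ℂ) * ε) * PowerSeries.X ^ b)
        (thetaS fun n => (n : ℂ) / b) ζ η ν g →
      ¬ ∃ M : ℝ, ∀ n, ‖PowerSeries.coeff n η‖ ≤ M ^ (n + 1)) :
    ¬ ∃ (ε : ℝ) (c : ℝ → ℂ × ℂ), 0 < ε ∧ (∀ t ∈ Ioo (-ε) ε, AnalyticAt ℝ c t) ∧ c 0 = 0 ∧
      (∃ t ∈ Ioo (-ε) ε, c t ≠ 0) ∧ (∀ t ∈ Ioo (-ε) ε, rb β (c t) = 0) ∧
      ∀ t ∈ Ioo (-ε) ε, c t ≠ 0 → IsChainAt {p | rb β p = 0} (c '' Ioo (-ε) ε) (c t) := by
  rintro ⟨r, c, hr, hcan, h0, ⟨t₁, ht₁, hct₁⟩, hrb, hch⟩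
  set γ : Set (ℂ × ℂ) := c '' Ioo (-r) r with hγ
  have hJ : Ioo (-r) r ∈ 𝓝 (0 : ℝ) := Ioo_mem_nhds (by linarith) hr
  have hc : AnalyticAt ℝ c 0 := hcan 0 ⟨by linarith, hr⟩
  have hrb' : ∀ᶠ s in 𝓝 (0 : ℝ), rb β (c s) = 0 := by
    filter_upwards [hJ] with s hs using hrb s hs
  -- `c` is not locally zero
  have hne0 : ¬ ∀ᶠ s in 𝓝 (0 : ℝ), c s = 0 := by
    intro h
    have h1 : AnalyticOnNhd ℝ c (Ioo (-r) r) := fun t ht => hcan t ht
    have h2 := h1.eqOn_zero_of_preconnected_of_eventuallyEq_zero isPreconnected_Ioo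
      (⟨by linarith, hr⟩ : (0 : ℝ) ∈ Ioo (-r) r) h
    exact hct₁ (h2 ht₁)
  have hne : ∀ᶠ s in 𝓝[≠] (0 : ℝ), c s ≠ 0 :=
    (hc.eventually_eq_zero_or_eventually_ne_zero).resolve_left hne0
  have hγ0 : ∀ᶠ s in 𝓝 (0 : ℝ), c s ∈ γ := by
    filter_upwards [hJ] with s hs using ⟨s, hs, rfl⟩
  have hch0 : ∀ᶠ s in 𝓝[≠] (0 : ℝ), IsChainAt {p | rb β p = 0} γ (c s) := by
    filter_upwards [hne, nhdsWithin_le_nhds hJ] with s h1 h2 using hch s h2 h1
  have hE := chain_on hc h0 hγ0 hrb' hch0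
  have hza : AnalyticAt ℝ (fun s => (c s).1) 0 := analyticAt_fst.comp hc
  have hwa : AnalyticAt ℝ (fun s => (c s).2) 0 := analyticAt_snd.comp hc
  -- the order of `w` is at most the order of `z`
  obtain ⟨b, W, hW, hW0, hwf, hzO⟩ : ∃ (b : ℕ) (W : ℝ → ℂ), AnalyticAt ℝ W 0 ∧ W 0 ≠ 0 ∧
      (∀ᶠ s in 𝓝 (0 : ℝ), (c s).2 = (s : ℂ) ^ b * W s) ∧
      (fun s => (c s).1) =O[𝓝 0] fun s : ℝ => s ^ b := by
    by_cases hz0 : ∀ᶠ s in 𝓝 (0 : ℝ), (c s).1 = 0
    · have hw0 : ¬ ∀ᶠ s in 𝓝 (0 : ℝ), (c s).2 = 0 := by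
        intro hw
        apply hne0
        filter_upwards [hz0, hw] with s h1 h2
        exact Prod.ext h1 h2
      obtain ⟨b, W, hW, hW0, hwf⟩ := hwa.exists_eventuallyEq_pow_smul_nonzero_iff.2 hw0
      refine ⟨b, W, hW, hW0, ?_, ?_⟩
      · filter_upwards [hwf] with t ht
        rw [ht, sub_zero, Complex.real_smul]; push_cast; ring
      · refine IsBigO.of_bound 0 ?_
        filter_upwards [hz0] with s hs
        simp [hs]
    · obtain ⟨a, Z, hZ, hZ0, hzf⟩ := hza.exists_eventuallyEq_pow_smul_nonzero_iff.2 hz0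
      have hzf' : ∀ᶠ t : ℝ in 𝓝 (0 : ℝ), (c t).1 = (t : ℂ) ^ a * Z t := by
        filter_upwards [hzf] with t ht
        rw [ht, sub_zero, Complex.real_smul]; push_cast; ring
      have hZlow : ∀ᶠ t : ℝ in 𝓝 (0 : ℝ), ‖Z 0‖ / 2 < ‖Z t‖ :=
        hZ.continuousAt.norm.eventually (lt_mem_nhds (by
          have := norm_pos_iff.2 hZ0; linarith))
      -- not `w = o(z)`
      have hnot : ¬ (fun s => (c s).2) =o[𝓝[>] (0 : ℝ)] (fun s => (c s).1) := fun ho =>
        reg_out β hc h0 hrb' hz0 ho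
          (hE.filter_mono (nhdsWithin_mono _ fun x hx => ne_of_gt hx))
      have hlittle : ∀ {f : ℝ → ℂ} {k : ℕ} (F : ℝ → ℂ), AnalyticAt ℝ F 0 → a < k →
          (∀ᶠ t in 𝓝 (0 : ℝ), f t = (t : ℂ) ^ k * F t) →
          f =o[𝓝[>] (0 : ℝ)] (fun s => (c s).1) := by
        intro f k F hF hk hf
        obtain ⟨d, rfl⟩ : ∃ d, k = a + d := ⟨k - a, by omega⟩
        have hd : d ≠ 0 := by omega
        have h1 : Tendsto (fun t : ℝ => (t : ℂ) ^ d * F t * (Z t)⁻¹) (𝓝 0) (𝓝 0) := by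
          have h2 : ContinuousAt (fun t : ℝ => (t : ℂ) ^ d * F t * (Z t)⁻¹) 0 := by
            have hFc := hF.continuousAt
            have hZc := hZ.continuousAt.inv₀ hZ0
            have : ContinuousAt (fun t : ℝ => (t : ℂ) ^ d) 0 := by fun_prop
            exact (this.mul hFc).mul hZc
          have h3 := h2.tendsto
          simpa [hd] using h3
        rw [isLittleO_iff]
        intro δ hδ
        have h4 : ∀ᶠ t : ℝ in 𝓝 0, ‖(t : ℂ) ^ d * F t * (Z t)⁻¹‖ < δ := by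
          have := h1.norm
          rw [norm_zero] at this
          exact this.eventually (gt_mem_nhds hδ)
        filter_upwards [nhdsWithin_le_nhds h4, nhdsWithin_le_nhds hf, nhdsWithin_le_nhds hzf',
          nhdsWithin_le_nhds (hZ.continuousAt.eventually_ne hZ0)] with t h5 h6 h7 h8
        rw [h6, h7]
        have e : (t : ℂ) ^ (a + d) * F t
            = ((t : ℂ) ^ d * F t * (Z t)⁻¹) * ((t : ℂ) ^ a * Z t) := by
          rw [pow_add]; field_simp
        rw [e, norm_mul]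
        gcongr
      have hw0 : ¬ ∀ᶠ s in 𝓝 (0 : ℝ), (c s).2 = 0 := by
        intro hw
        apply hnot
        refine hlittle (k := a + 1) (fun _ => 0) analyticAt_const (Nat.lt_succ_self a) ?_
        filter_upwards [hw] with t ht
        rw [ht, mul_zero]
      obtain ⟨b, W, hW, hW0, hwf⟩ := hwa.exists_eventuallyEq_pow_smul_nonzero_iff.2 hw0
      have hwf' : ∀ᶠ t : ℝ in 𝓝 (0 : ℝ), (c t).2 = (t : ℂ) ^ b * W t := by
        filter_upwards [hwf] with t ht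
        rw [ht, sub_zero, Complex.real_smul]; push_cast; ring
      have hba : b ≤ a := by
        by_contra hcon
        push Not at hcon
        exact hnot (hlittle W hW hcon hwf')
      refine ⟨b, W, hW, hW0, hwf', ?_⟩
      have h1 : (fun s => (c s).1) =O[𝓝 0] fun s : ℝ => s ^ a := by
        have h2 : Z =O[𝓝 0] (fun _ => (1 : ℝ)) := hZ.continuousAt.tendsto.isBigO_one ℝ
        have h3 : (fun t : ℝ => (t : ℂ) ^ a) =O[𝓝 0] fun t : ℝ => t ^ a := by
          refine IsBigO.of_bound 1 (Eventually.of_forall fun s => ?_)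
          rw [norm_pow, norm_pow, one_mul, Complex.norm_real]
        have h4 := h3.mul h2
        simp only [mul_one] at h4
        exact h4.congr' (hzf'.mono fun t ht => ht.symm) EventuallyEq.rfl
      refine h1.trans ?_
      refine IsBigO.of_bound 1 ?_
      filter_upwards [Metric.ball_mem_nhds (0 : ℝ) one_pos] with s hs
      rw [mem_ball_zero_iff] at hs
      rw [norm_pow, norm_pow, one_mul]
      exact pow_le_pow_of_le_one (norm_nonneg _) hs.le hba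
  have hb : 0 < b := by
    rcases Nat.eq_zero_or_pos b with rfl | h
    · exfalso
      have := hwf.self_of_nhds
      rw [h0] at this
      simp only [pow_zero, one_mul, Prod.snd_zero] at this
      exact hW0 this.symm
    · exact h
  -- `Im W 0 = 0`
  have hwO : (fun s => (c s).2) =O[𝓝 0] fun s : ℝ => s ^ b := by
    have h2 : W =O[𝓝 0] (fun _ => (1 : ℝ)) := hW.continuousAt.tendsto.isBigO_one ℝ
    have h3 : (fun t : ℝ => (t : ℂ) ^ b) =O[𝓝 0] fun t : ℝ => t ^ b := by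
      refine IsBigO.of_bound 1 (Eventually.of_forall fun s => ?_)
      rw [norm_pow, norm_pow, one_mul, Complex.norm_real]
    have h4 := h3.mul h2
    simp only [mul_one] at h4
    exact h4.congr' (hwf.mono fun t ht => ht.symm) EventuallyEq.rfl
  have hImW : (W 0).im = 0 := by
    -- `Im w = O(s^(b+1))`
    have hzc : ContinuousAt (fun s => (c s).1) 0 := hza.continuousAt
    have hwc : ContinuousAt (fun s => (c s).2) 0 := hwa.continuousAt
    have e : (fun s => (c s).2.im) =O[𝓝 0] fun s : ℝ => s ^ (b + 1) := by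
      have z1 : (fun s => ‖(c s).1‖) =O[𝓝 0] fun s : ℝ => s ^ b := hzO.norm_left
      have w1 : (fun s => ‖(c s).2‖) =O[𝓝 0] fun s : ℝ => s ^ b := hwO.norm_left
      have b1 : ∀ {f : ℝ → ℝ}, ContinuousAt f 0 → f =O[𝓝 0] (fun _ => (1 : ℝ)) :=
        fun hf => hf.tendsto.isBigO_one ℝ
      have t1 : (fun s => ‖(c s).1‖ * ‖(c s).1‖ * (‖(c s).1‖ ^ 2 - ‖(c s).1‖ ^ 4)) =O[𝓝 0]
          fun s : ℝ => s ^ b * s ^ b * 1 := (z1.mul z1).mul (b1 (by fun_prop))
      have t2 : (fun s => ‖(c s).2‖ * ‖(c s).2‖ * ‖(c s).1 + (β : ℂ) * (c s).1 ^ 2‖ ^ 2) =O[𝓝 0]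
          fun s : ℝ => s ^ b * s ^ b * 1 := (w1.mul w1).mul (b1 (by fun_prop))
      have t3 : (fun s : ℝ => s ^ b * s ^ b * 1) =O[𝓝 0] fun s : ℝ => s ^ (b + 1) := by
        refine IsBigO.of_bound 1 ?_
        filter_upwards [Metric.ball_mem_nhds (0 : ℝ) one_pos] with s hs
        rw [mem_ball_zero_iff] at hs
        rw [mul_one, ← pow_add, norm_pow, norm_pow, one_mul]
        exact pow_le_pow_of_le_one (norm_nonneg _) hs.le (by omega)
      refine ((t1.trans t3).add (t2.trans t3)).congr' ?_ EventuallyEq.rfl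
      filter_upwards [hrb'] with s hs
      unfold rb at hs
      linear_combination hs
    have h1 : (fun s : ℝ => s ^ b * (W s).im) =O[𝓝 0] fun s : ℝ => s ^ (b + 1) := by
      refine e.congr' ?_ EventuallyEq.rfl
      filter_upwards [hwf] with s hs
      rw [hs]
      have : ((s : ℂ)) ^ b = ((s ^ b : ℝ) : ℂ) := by push_cast; ring
      rw [this, Complex.im_ofReal_mul]
    obtain ⟨C, hC⟩ := h1.bound
    have h2 : Tendsto (fun s : ℝ => |(W s).im|) (𝓝[≠] 0) (𝓝 |(W 0).im|) := by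
      have h3 : ContinuousAt (fun s : ℝ => |(W s).im|) 0 := by
        have := hW.continuousAt
        fun_prop
      exact h3.tendsto.mono_left nhdsWithin_le_nhds
    have h4 : Tendsto (fun s : ℝ => C * |s|) (𝓝[≠] 0) (𝓝 0) := by
      have : Continuous (fun s : ℝ => C * |s|) := by fun_prop
      exact (this.tendsto' 0 _ (by simp)).mono_left nhdsWithin_le_nhds
    have h5 : |(W 0).im| ≤ 0 := by
      refine le_of_tendsto_of_tendsto h2 h4 ?_
      filter_upwards [nhdsWithin_le_nhds hC, self_mem_nhdsWithin] with s hs hs0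
      have hp : 0 < |s| ^ b := pow_pos (abs_pos.2 hs0) b
      rw [norm_mul, norm_pow, norm_pow, Real.norm_eq_abs, Real.norm_eq_abs, pow_succ] at hs
      have : |s| ^ b * |(W s).im| ≤ |s| ^ b * (C * |s|) := by linarith
      exact le_of_mul_le_mul_left this hp
    exact abs_eq_zero.1 (le_antisymm h5 (abs_nonneg _))
  have hReW : (W 0).re ≠ 0 := by
    intro h
    exact hW0 (Complex.ext h hImW)
  have hva : AnalyticAt ℝ (fun s => (W s).re) 0 := (Complex.reCLM.analyticAt _).comp hW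
  obtain ⟨ε, ψ, hε, hψa, hψ0, hψu⟩ := exists_repar (u := fun s => (c s).2.re)
    (v := fun s => (W s).re) hb hva hReW (by
      filter_upwards [hwf] with s hs
      rw [hs]
      have : ((s : ℂ)) ^ b = ((s ^ b : ℝ) : ℂ) := by push_cast; ring
      rw [this, Complex.re_ofReal_mul])
  have hψt : Tendsto ψ (𝓝 0) (𝓝 0) := by
    have := hψa.continuousAt.tendsto
    rwa [hψ0] at this
  -- the new curve
  have hca : AnalyticAt ℝ (fun s => c (ψ s)) 0 := by
    have : AnalyticAt ℝ c (ψ 0) := by rw [hψ0]; exact hc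
    exact this.comp hψa
  have hε0 : ε ≠ 0 := by rcases hε with h | h <;> rw [h] <;> norm_num
  have hne' : ∀ᶠ s in 𝓝[≠] (0 : ℝ), c (ψ s) ≠ 0 := by
    filter_upwards [nhdsWithin_le_nhds hψu, self_mem_nhdsWithin] with s h1 h2 h3
    rw [h3] at h1
    simp only [Prod.snd_zero, Complex.zero_re] at h1
    exact mul_ne_zero hε0 (pow_ne_zero b h2) h1.symm
  have hE' := chain_on (c := fun s => c (ψ s)) (γ := γ) hca (by simp [hψ0, h0])
    (hψt.eventually hγ0) (hψt.eventually hrb') (by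
      filter_upwards [hne', nhdsWithin_le_nhds (hψt.eventually hJ)] with s h1 h2
      exact hch _ h2 h1)
  have hψO : ψ =O[𝓝 0] fun s : ℝ => s := by
    have := hψa.differentiableAt.isBigO_sub
    simpa [hψ0] using this
  have hz' : (fun s => (c (ψ s)).1) =O[𝓝 0] fun s : ℝ => s ^ b :=
    (hzO.comp_tendsto hψt).trans (hψO.pow b)
  obtain ⟨ζ, η, ν, g, hsol, hgrow⟩ := curve_to_sol hb hε hca (hψt.eventually hrb') hψu hz' hE'
  exact hbad b hb ε hε ζ η ν g hsol hgrow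

theorem disproof : Disproof := by
  obtain ⟨β, _, hbad⟩ := exists_bad_beta
  exact ⟨rb β, rb_isolated β, no_curve hbad⟩

end MP8eabdf
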