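import Pool.Agent.Lib.MP_8eabdf_an.Stmt

/-!
# MP_8eabdf_an: the chain equation as a polynomial identity over an arbitrary commutative ring
(the geometric definitions are in `Stmt.lean`)
-/

namespace MP8eabdf

open Complex Filter Topology Asymptotics Set
open scoped ComplexConjugate

/-- The final statement: `0` is an isolated weakly pseudoconvex point of `{r = 0}`, but no
real-analytic curve through `0` is a chain at all of its points other than `0`. -/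
def Disproof : Prop :=
  ∃ r : ℂ × ℂ → ℝ, IsIsolatedWeaklyPseudoconvex r 0 ∧
    ¬ ∃ (ε : ℝ) (c : ℝ → ℂ × ℂ), 0 < ε ∧ (∀ t ∈ Ioo (-ε) ε, AnalyticAt ℝ c t) ∧ c 0 = 0 ∧
      (∃ t ∈ Ioo (-ε) ε, c t ≠ 0) ∧ (∀ t ∈ Ioo (-ε) ε, r (c t) = 0) ∧
      ∀ t ∈ Ioo (-ε) ε, c t ≠ 0 → IsChainAt {p | r p = 0} (c '' Ioo (-ε) ε) (c t)

/-! ## The chain equation over a commutative ring

`i` plays the role of the imaginary unit, `x, χ, τ` of `z, z̄, w̄`; `g` is an inverse of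
`1 - 4 A B` at `(x, χ)`.  `hP`, `KP` are the Taylor polynomials (mod `ξ⁴`) in `ξ` of
`h̄(x + ξ, χ, τ)` and `K(x + ξ, χ, τ)`. -/

section Ring
open Polynomial
variable {R : Type*} [CommRing R]

/-- `A = X²χ² - X³χ³` -/
def Aa (X χ : R) : R := X ^ 2 * χ ^ 2 - X ^ 3 * χ ^ 3
/-- `A_χ` -/
def Aa1 (X χ : R) : R := 2 * X ^ 2 * χ - 3 * X ^ 3 * χ ^ 2
/-- `A_χχ` -/
def Aa2 (X χ : R) : R := 2 * X ^ 2 - 6 * X ^ 3 * χ
/-- `B = (X+βX²)(χ+βχ²)` -/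
def Bb (β X χ : R) : R := (X + β * X ^ 2) * (χ + β * χ ^ 2)
/-- `B_χ` -/
def Bb1 (β X χ : R) : R := (X + β * X ^ 2) * (1 + 2 * β * χ)
/-- `B_χχ` -/
def Bb2 (β X : R) : R := (X + β * X ^ 2) * (2 * β)
/-- `D = 1 - 4AB` -/
def Dd (β X χ : R) : R := 1 - 4 * Aa X χ * Bb β X χ
/-- numerator `H` of `h̄` -/
def Hh (i β X χ τ : R) : R :=
  -2 * i * (Aa1 X χ * (1 - 2 * i * Bb β X χ * τ) + Bb1 β X χ * τ * (τ + 2 * i * Aa X χ))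
/-- `H_χ` (total) -/
def Hh1 (i β X χ τ : R) : R :=
  -2 * i * (Aa2 X χ * (1 - 2 * i * Bb β X χ * τ) + Bb2 β X * τ * (τ + 2 * i * Aa X χ))
/-- `K = G H_χ - 4 i B_χ (τ + 2 i A) G² H`, `G = 1/D` -/
def Kk (i β X χ τ G : R) : R :=
  G * Hh1 i β X χ τ - 4 * i * Bb1 β X χ * (τ + 2 * i * Aa X χ) * G ^ 2 * Hh i β X χ τ

/-- `X = x + ξ` -/
noncomputable def xx (x : R) : R[X] := C x + Polynomial.X
/-- `G(x+ξ) = 1/D(x+ξ)` mod `ξ⁴`, `g = 1/D(x)` -/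
noncomputable def GP (β x χ g : R) : R[X] :=
  let δ : R[X] := C g * (Dd (C β) (xx x) (C χ) - C (Dd β x χ))
  C g * (1 - δ + δ ^ 2 - δ ^ 3)
/-- Taylor polynomial of `h̄(x+ξ,χ,τ)` -/
noncomputable def hP (i β x χ τ g : R) : R[X] :=
  Hh (C i) (C β) (xx x) (C χ) (C τ) * GP β x χ g
/-- Taylor polynomial of `K(x+ξ,χ,τ)` -/
noncomputable def KP (i β x χ τ g : R) : R[X] :=
  Kk (C i) (C β) (xx x) (C χ) (C τ) (GP β x χ g)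

/-- The chain equation (multiplied by `h₁⁵`): `χ₁ = χ'`, `χ₂ = χ''`, ... -/
def ChainEq (i β x χ τ g χ₁ χ₂ τ₁ τ₂ : R) : Prop :=
  let h : ℕ → R := fun j => (hP i β x χ τ g).coeff j
  let K : ℕ → R := fun j => (KP i β x χ τ g).coeff j
  let Δ : R := τ₁ - h 0 * χ₁
  h 1 ^ 5 * (χ₁ * τ₂ - τ₁ * χ₂) =
    h 1 ^ 5 * K 0 * χ₁ ^ 3 + h 1 ^ 4 * K 1 * χ₁ ^ 2 * Δ
    + h 1 ^ 2 * (K 2 * h 1 - K 1 * h 2) * χ₁ * Δ ^ 2
    + (K 3 * h 1 ^ 2 - K 1 * h 1 * h 3 - 2 * K 2 * h 1 * h 2 + 2 * K 1 * h 2 ^ 2) * Δ ^ 3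

end Ring

end MP8eabdf
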