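import Pool.Agent.Lib.MP_8eabdf_an.CDefs

/-! identity theorem on the totally real space `{(z, z̄, u)}` and second order Taylor formulas -/

namespace MP8eabdf

open Complex Filter Topology Asymptotics Set
open scoped ComplexConjugate

lemma zero_of_real {f : ℂ → ℂ} {ρ : ℝ} (hρ : 0 < ρ)
    (hf : DifferentiableOn ℂ f (Metric.ball 0 ρ)) (h0 : ∀ x : ℝ, |x| < ρ → f x = 0) :
    ∀ s ∈ Metric.ball (0 : ℂ) ρ, f s = 0 := by
  have hA : AnalyticOnNhd ℂ f (Metric.ball 0 ρ) := hf.analyticOnNhd Metric.isOpen_ball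
  have hfr : ∃ᶠ z in 𝓝[≠] (0 : ℂ), f z = 0 := by
    have ht : Tendsto (fun x : ℝ => (x : ℂ)) (𝓝[≠] 0) (𝓝[≠] (0 : ℂ)) := by
      refine tendsto_nhdsWithin_iff.2 ⟨?_, ?_⟩
      · have : Tendsto (fun x : ℝ => (x : ℂ)) (𝓝 0) (𝓝 ((0 : ℝ) : ℂ)) :=
          Complex.continuous_ofReal.tendsto 0
        simpa using this.mono_left nhdsWithin_le_nhds
      · filter_upwards [self_mem_nhdsWithin] with x hx
        simpa using hx
    refine ht.frequently ?_
    have : ∀ᶠ x : ℝ in 𝓝[≠] 0, f x = 0 := by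
      filter_upwards [nhdsWithin_le_nhds (Metric.ball_mem_nhds (0 : ℝ) hρ)] with x hx
      exact h0 x (by simpa using hx)
    exact this.frequently
  have := hA.eqOn_zero_of_preconnected_of_frequently_eq_zero
    (convex_ball (0 : ℂ) ρ).isPreconnected (Metric.mem_ball_self hρ) hfr
  intro s hs
  simpa using this hs

lemma zero_of_real3 {g : ℂ → ℂ → ℂ → ℂ} {ρ : ℝ} (hρ : 0 < ρ)
    (h1 : ∀ t ∈ Metric.ball (0 : ℂ) ρ, ∀ u ∈ Metric.ball (0 : ℂ) ρ,
      DifferentiableOn ℂ (fun s => g s t u) (Metric.ball 0 ρ))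
    (h2 : ∀ s ∈ Metric.ball (0 : ℂ) ρ, ∀ u ∈ Metric.ball (0 : ℂ) ρ,
      DifferentiableOn ℂ (fun t => g s t u) (Metric.ball 0 ρ))
    (h3 : ∀ s ∈ Metric.ball (0 : ℂ) ρ, ∀ t ∈ Metric.ball (0 : ℂ) ρ,
      DifferentiableOn ℂ (fun u => g s t u) (Metric.ball 0 ρ))
    (h0 : ∀ x y u : ℝ, |x| < ρ → |y| < ρ → |u| < ρ → g x y u = 0) :
    ∀ s ∈ Metric.ball (0 : ℂ) ρ, ∀ t ∈ Metric.ball (0 : ℂ) ρ, ∀ u ∈ Metric.ball (0 : ℂ) ρ,
      g s t u = 0 := by
  have hm : ∀ x : ℝ, |x| < ρ → (x : ℂ) ∈ Metric.ball (0 : ℂ) ρ := by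
    intro x hx; simpa using hx
  have a1 : ∀ s ∈ Metric.ball (0 : ℂ) ρ, ∀ y u : ℝ, |y| < ρ → |u| < ρ → g s y u = 0 := by
    intro s hs y u hy hu
    exact zero_of_real hρ (h1 y (hm y hy) u (hm u hu)) (fun x hx => h0 x y u hx hy hu) s hs
  have a2 : ∀ s ∈ Metric.ball (0 : ℂ) ρ, ∀ t ∈ Metric.ball (0 : ℂ) ρ, ∀ u : ℝ, |u| < ρ →
      g s t u = 0 := by
    intro s hs t ht u hu
    exact zero_of_real hρ (h2 s hs u (hm u hu)) (fun y hy => a1 s hs y u hy hu) t ht
  intro s hs t ht u hu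
  exact zero_of_real hρ (h3 s hs t ht) (fun v hv => a2 s hs t ht v hv) u hu

/-- identity theorem on the totally real space `{(z, z̄, u)}` -/
lemma tot_real {f : ℂ × ℂ × ℂ → ℂ} (hf : ∀ᶠ p in 𝓝 (0 : ℂ × ℂ × ℂ), DifferentiableAt ℂ f p)
    (h0 : ∀ᶠ p in 𝓝 (0 : ℂ × ℝ), f (p.1, conj p.1, (p.2 : ℂ)) = 0) :
    ∀ᶠ p in 𝓝 (0 : ℂ × ℂ × ℂ), f p = 0 := by
  -- linear change of variables
  set L : ℂ × ℂ × ℂ → ℂ × ℂ × ℂ := fun p => (p.1 + I * p.2.1, p.1 - I * p.2.1, p.2.2) with hL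
  set L' : ℂ × ℂ × ℂ → ℂ × ℂ × ℂ :=
    fun p => ((p.1 + p.2.1) / 2, (p.1 - p.2.1) / (2 * I), p.2.2) with hL'
  have hLc : Continuous L := by rw [hL]; fun_prop
  have hL'c : Continuous L' := by
    rw [hL']
    refine Continuous.prodMk (by fun_prop) (Continuous.prodMk ?_ (by fun_prop))
    exact (by fun_prop : Continuous fun p : ℂ × ℂ × ℂ => (p.1 - p.2.1)).div_const _
  have hLd : Differentiable ℂ L := by rw [hL]; fun_prop
  have hLL' : ∀ p, L (L' p) = p := by
    intro p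
    simp only [hL, hL']
    have hI : (I : ℂ) ≠ 0 := I_ne_zero
    ext <;> simp <;> field_simp <;> ring
  have hL0 : L 0 = 0 := by simp [hL]
  have hL'0 : L' 0 = 0 := by simp [hL']
  -- differentiability near 0
  have hfd : ∀ᶠ p in 𝓝 (0 : ℂ × ℂ × ℂ), DifferentiableAt ℂ f (L p) := by
    have : Tendsto L (𝓝 0) (𝓝 0) := by simpa [hL0] using hLc.tendsto 0
    exact this.eventually hf
  obtain ⟨ρ₁, hρ₁, hb₁⟩ := Metric.eventually_nhds_iff_ball.1 hfd
  obtain ⟨ρ₂, hρ₂, hb₂⟩ := Metric.eventually_nhds_iff_ball.1 h0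
  set ρ := min ρ₁ (ρ₂ / 2) with hρd
  have hρ : 0 < ρ := lt_min hρ₁ (by positivity)
  have hmem : ∀ s ∈ Metric.ball (0 : ℂ) ρ, ∀ t ∈ Metric.ball (0 : ℂ) ρ,
      ∀ u ∈ Metric.ball (0 : ℂ) ρ, (s, t, u) ∈ Metric.ball (0 : ℂ × ℂ × ℂ) ρ₁ := by
    intro s hs t ht u hu
    rw [mem_ball_zero_iff] at *
    simp only [Prod.norm_def, sup_lt_iff]
    have : ρ ≤ ρ₁ := min_le_left _ _
    exact ⟨hs.trans_le this, ht.trans_le this, hu.trans_le this⟩
  have key := zero_of_real3 (g := fun s t u => f (L (s, t, u))) hρ ?_ ?_ ?_ ?_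
  · -- conclusion
    have : Tendsto L' (𝓝 0) (𝓝 0) := by simpa [hL'0] using hL'c.tendsto 0
    have hB := this.eventually (Metric.ball_mem_nhds (0 : ℂ × ℂ × ℂ) hρ)
    filter_upwards [hB] with p hp
    rw [dist_zero_right] at hp
    simp only [Prod.norm_def, sup_lt_iff] at hp
    have := key (L' p).1 (by rw [mem_ball_zero_iff]; exact hp.1) (L' p).2.1
      (by rw [mem_ball_zero_iff]; exact hp.2.1) (L' p).2.2
      (by rw [mem_ball_zero_iff]; exact hp.2.2)
    have h2 : ((L' p).1, (L' p).2.1, (L' p).2.2) = L' p := rfl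
    rw [h2, hLL'] at this
    exact this
  · intro t ht u hu s hs
    refine DifferentiableAt.differentiableWithinAt ?_
    exact DifferentiableAt.comp (g := f) (f := fun s => L (s, t, u)) s
      (hb₁ _ (hmem s hs t ht u hu)) (hLd.differentiableAt.comp s (by fun_prop))
  · intro s hs u hu t ht
    refine DifferentiableAt.differentiableWithinAt ?_
    exact DifferentiableAt.comp (g := f) (f := fun t => L (s, t, u)) t
      (hb₁ _ (hmem s hs t ht u hu)) (hLd.differentiableAt.comp t (by fun_prop))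
  · intro s hs t ht u hu
    refine DifferentiableAt.differentiableWithinAt ?_
    exact DifferentiableAt.comp (g := f) (f := fun u => L (s, t, u)) u
      (hb₁ _ (hmem s hs t ht u hu)) (hLd.differentiableAt.comp u (by fun_prop))
  · intro x y u hx hy hu
    have hz : ((x : ℂ) + I * y, u) ∈ Metric.ball (0 : ℂ × ℝ) ρ₂ := by
      rw [mem_ball_zero_iff]
      simp only [Prod.norm_def, sup_lt_iff]
      have h2 : ρ ≤ ρ₂ / 2 := min_le_right _ _
      constructor
      · calc ‖(x : ℂ) + I * y‖ ≤ ‖(x : ℂ)‖ + ‖I * (y : ℂ)‖ := norm_add_le _ _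
          _ = |x| + |y| := by simp
          _ < ρ₂ := by linarith
      · have : |u| < ρ₂ := by linarith
        simpa using this
    have := hb₂ _ hz
    simp only at this
    have hc : conj ((x : ℂ) + I * y) = (x : ℂ) - I * y := by
      simp [sub_eq_add_neg]
    rw [hc] at this
    simpa [hL] using this

/-- second order Taylor formula in two variables -/
lemma taylor2 {f : ℂ × ℂ → ℂ} (hf : AnalyticAt ℂ f 0) : ∃ a10 a01 a20 a11 a02 : ℂ,
    (fun p : ℂ × ℂ => f p - (f 0 + a10 * p.1 + a01 * p.2 + a20 * p.1 ^ 2 + a11 * (p.1 * p.2)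
      + a02 * p.2 ^ 2)) =O[𝓝 0] (fun p => ‖p‖ ^ 3) := by
  obtain ⟨P, hP⟩ := hf
  have h := hP.isBigO_sub_partialSum_pow 3
  have h0 : P 0 (fun _ => 0) = f 0 := by
    have := hP.coeff_zero (fun _ => 0)
    simpa using this
  set e1 : ℂ × ℂ := (1, 0) with he1
  set e2 : ℂ × ℂ := (0, 1) with he2
  have hy : ∀ y : ℂ × ℂ, y = y.1 • e1 + y.2 • e2 := by
    intro y; ext <;> simp [he1, he2]
  have p0 : ∀ y : ℂ × ℂ, P 0 (fun _ => y) = f 0 := by
    intro y
    rw [← h0]; congr 1; funext i; exact i.elim0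
  have p1 : ∀ y : ℂ × ℂ, P 1 (fun _ => y) = P 1 (fun _ => e1) * y.1 + P 1 (fun _ => e2) * y.2 := by
    intro y
    have h1 : (fun _ : Fin 1 => y) = fun i => (fun _ => y.1 • e1) i + (fun _ => y.2 • e2) i := by
      funext i; exact hy y
    have := (P 1).toMultilinearMap.map_add_univ (fun _ => y.1 • e1) (fun _ => y.2 • e2)
    have h2 : (Finset.univ : Finset (Finset (Fin 1))) = {∅, {0}} := by decide
    rw [h2, Finset.sum_pair (by decide)] at this
    have h3 : (P 1) (fun _ => y) = (P 1) (fun _ : Fin 1 => y.2 • e2) + (P 1) (fun _ => y.1 • e1) := by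
      rw [h1]
      simp only [ContinuousMultilinearMap.coe_coe] at this
      refine Eq.trans ?_ (this.trans ?_)
      · rfl
      · congr 1
        congr 1; funext i; fin_cases i; simp
    rw [h3]
    have s1 := (P 1).map_smul_univ (fun _ => y.1) (fun _ => e1)
    have s2 := (P 1).map_smul_univ (fun _ => y.2) (fun _ => e2)
    simp only [Finset.univ_unique, Finset.prod_const, Finset.card_singleton, pow_one,
      smul_eq_mul] at s1 s2
    rw [s1, s2]; ring
  have p2 : ∀ y : ℂ × ℂ, P 2 (fun _ => y) = P 2 ![e1, e1] * y.1 ^ 2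
      + (P 2 ![e1, e2] + P 2 ![e2, e1]) * (y.1 * y.2) + P 2 ![e2, e2] * y.2 ^ 2 := by
    intro y
    have h1 : (fun _ : Fin 2 => y) = fun i => (fun _ => y.1 • e1) i + (fun _ => y.2 • e2) i := by
      funext i; exact hy y
    have := (P 2).toMultilinearMap.map_add_univ (fun _ => y.1 • e1) (fun _ => y.2 • e2)
    have h2 : (Finset.univ : Finset (Finset (Fin 2))) = {∅, {0}, {1}, {0, 1}} := by decide
    rw [h2, Finset.sum_insert (by decide), Finset.sum_insert (by decide),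
      Finset.sum_pair (by decide)] at this
    have h3 : (P 2) (fun _ => y) = (P 2) (fun i => (![y.2, y.2] i) • (![e2, e2] i))
        + ((P 2) (fun i => (![y.1, y.2] i) • (![e1, e2] i))
        + ((P 2) (fun i => (![y.2, y.1] i) • (![e2, e1] i))
        + (P 2) (fun i => (![y.1, y.1] i) • (![e1, e1] i)))) := by
      rw [h1]
      simp only [ContinuousMultilinearMap.coe_coe] at this
      refine Eq.trans ?_ (this.trans ?_)
      · rfl
      · congr 1
        · congr 1; funext i; fin_cases i <;> simp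
        congr 1
        · congr 1; funext i; fin_cases i <;> simp
        congr 1
        · congr 1; funext i; fin_cases i <;> simp
        · congr 1; funext i; fin_cases i <;> simp
    rw [h3, (P 2).map_smul_univ, (P 2).map_smul_univ, (P 2).map_smul_univ, (P 2).map_smul_univ]
    simp only [Fin.prod_univ_two, Matrix.cons_val_zero, Matrix.cons_val_one, smul_eq_mul]
    ring
  refine ⟨P 1 (fun _ => e1), P 1 (fun _ => e2), P 2 ![e1, e1], P 2 ![e1, e2] + P 2 ![e2, e1],
    P 2 ![e2, e2], ?_⟩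
  refine (h.congr_left ?_)
  intro y
  rw [zero_add, FormalMultilinearSeries.partialSum, Finset.sum_range_succ, Finset.sum_range_succ,
    Finset.sum_range_one, p0, p1, p2]
  ring

end MP8eabdf
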