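import Pool.Agent.Lib.MP_8eabdf_an.CE1

/-! complexification of the identity (normal coordinates map `v = N` to `M_β`) -/

namespace MP8eabdf

open Complex Filter Topology Asymptotics Set
open scoped ComplexConjugate

/-- complexified defining equation, `p = (x,y)`, `q = (χ,τ)` -/
noncomputable def RR (β : ℂ) (p q : ℂ × ℂ) : ℂ :=
  p.2 - q.2 - 2 * I * (Aa p.1 q.1 + Bb β p.1 q.1 * p.2 * q.2)

lemma RR_star (β : ℝ) (p : ℂ × ℂ) : RR β p (star p) = -2 * I * (rb β p : ℂ) := by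
  have h1 : (star p).1 = conj p.1 := rfl
  have h2 : (star p).2 = conj p.2 := rfl
  simp only [RR, rb, h1, h2, Aa, Bb]
  have a1 : ((‖p.1‖ : ℂ)) ^ 2 = p.1 * conj p.1 := (Complex.mul_conj' p.1).symm
  have a2 : ((‖p.2‖ : ℂ)) ^ 2 = p.2 * conj p.2 := (Complex.mul_conj' p.2).symm
  have a3 : ((‖p.1 + β * p.1 ^ 2‖ : ℂ)) ^ 2 = (p.1 + β * p.1 ^ 2) * (conj p.1 + β * conj p.1 ^ 2) := by
    rw [← Complex.mul_conj']
    simp
  have a4 : p.2 - conj p.2 = 2 * I * (p.2.im : ℂ) := by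
    rw [Complex.sub_conj]; push_cast; ring
  push_cast
  have e4 : ((‖p.1‖ : ℂ)) ^ 4 = (p.1 * conj p.1) ^ 2 := by rw [← a1]; ring
  have e6 : ((‖p.1‖ : ℂ)) ^ 6 = (p.1 * conj p.1) ^ 3 := by rw [← a1]; ring
  rw [e4, e6, a2, a3, a4]
  ring

/-- complexified normal form function -/
noncomputable def Wf (A : ℂ × ℂ × ℂ → ℂ) (p : ℂ × ℂ × ℂ) : ℂ :=
  p.1 * p.2.1 + (1 / 2) * (p.1 ^ 4 * p.2.1 ^ 2 * A p
    + p.2.1 ^ 4 * p.1 ^ 2 * star (A (star (p.2.1, p.1, p.2.2))))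

lemma Wf_real (A : ℂ × ℂ × ℂ → ℂ) (z : ℂ) (u : ℝ) :
    Wf A (z, conj z, (u : ℂ)) =
      ((‖z‖ ^ 2 + (z ^ 4 * conj z ^ 2 * A (z, conj z, (u : ℂ))).re : ℝ) : ℂ) := by
  simp only [Wf]
  have h1 : star (conj z, z, (u : ℂ)) = (z, conj z, (u : ℂ)) := by
    ext <;> simp
  rw [h1]
  have h2 : ∀ w : ℂ, ((w.re : ℝ) : ℂ) = (w + conj w) / 2 := fun w => Complex.re_eq_add_conj w
  push_cast
  rw [h2, ← Complex.mul_conj']
  simp only [map_mul, map_pow, Complex.conj_conj, Complex.star_def]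
  ring

lemma eventually_differentiableAt_star {E : Type*} [NormedAddCommGroup E] [NormedSpace ℂ E]
    [StarAddMonoid E] [StarModule ℂ E] [ContinuousStar E]
    {F : Type*} [NormedAddCommGroup F] [NormedSpace ℂ F]
    [StarAddMonoid F] [StarModule ℂ F] [ContinuousStar F] {f : E → F}
    (hf : ∀ᶠ p in 𝓝 (0 : E), DifferentiableAt ℂ f p) :
    ∀ᶠ p in 𝓝 (0 : E), DifferentiableAt ℂ (fun q => star (f (star q))) p := by
  have ht : Tendsto (star : E → E) (𝓝 0) (𝓝 0) := by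
    have := (continuous_star (R := E)).tendsto 0
    simpa using this
  filter_upwards [ht.eventually hf] with p hp
  have := hp.star_star
  rw [star_star] at this
  exact this

/-- The complexified identity. -/
theorem E_zero {β : ℝ} {Φ : ℂ × ℂ → ℂ × ℂ} {N : ℂ × ℝ → ℝ} {A : ℂ × ℂ × ℂ → ℂ}
    (hΦ : AnalyticAt ℂ Φ 0) (hA : AnalyticAt ℂ A 0)
    (hN : ∀ᶠ p in 𝓝 (0 : ℂ × ℝ),
      N p = ‖p.1‖ ^ 2 + (p.1 ^ 4 * conj p.1 ^ 2 * A (p.1, conj p.1, (p.2 : ℂ))).re)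
    (hM : ∀ᶠ p in 𝓝 (0 : ℂ × ℂ), (Φ p ∈ {p | rb β p = 0} ↔ p.2.im = N (p.1, p.2.re))) :
    ∀ᶠ p in 𝓝 (0 : ℂ × ℂ × ℂ), RR β (Φ (p.1, p.2.2 + I * Wf A p))
      (star (Φ (star (p.2.1, p.2.2 - I * Wf A p)))) = 0 := by
  have hΦd : ∀ᶠ p in 𝓝 (0 : ℂ × ℂ), DifferentiableAt ℂ Φ p :=
    hΦ.eventually_analyticAt.mono fun p hp => hp.differentiableAt
  have hAd : ∀ᶠ p in 𝓝 (0 : ℂ × ℂ × ℂ), DifferentiableAt ℂ A p :=
    hA.eventually_analyticAt.mono fun p hp => hp.differentiableAt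
  have hΦs := eventually_differentiableAt_star hΦd
  have hAs := eventually_differentiableAt_star hAd
  -- W differentiable near 0
  have hWd : ∀ᶠ p in 𝓝 (0 : ℂ × ℂ × ℂ), DifferentiableAt ℂ (Wf A) p := by
    have hperm : Tendsto (fun p : ℂ × ℂ × ℂ => ((p.2.1, p.1, p.2.2) : ℂ × ℂ × ℂ)) (𝓝 0) (𝓝 0) := by
      have : Continuous (fun p : ℂ × ℂ × ℂ => ((p.2.1, p.1, p.2.2) : ℂ × ℂ × ℂ)) := by fun_prop
      exact this.tendsto' 0 0 rfl
    filter_upwards [hAd, hperm.eventually hAs] with p h1 h2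
    have h3 : DifferentiableAt ℂ
        (fun p : ℂ × ℂ × ℂ => star (A (star ((p.2.1, p.1, p.2.2) : ℂ × ℂ × ℂ)))) p :=
      DifferentiableAt.comp (g := fun q => star (A (star q)))
        (f := fun p : ℂ × ℂ × ℂ => ((p.2.1, p.1, p.2.2) : ℂ × ℂ × ℂ)) p h2 (by fun_prop)
    unfold Wf
    fun_prop
  have hWc : ContinuousAt (Wf A) 0 := (hWd.self_of_nhds).continuousAt
  have hW0 : Wf A 0 = 0 := by simp [Wf]
  have hWt : Tendsto (Wf A) (𝓝 0) (𝓝 0) := by simpa [hW0] using hWc.tendsto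
  set a : ℂ × ℂ × ℂ → ℂ × ℂ := fun p => (p.1, p.2.2 + I * Wf A p) with ha
  set b : ℂ × ℂ × ℂ → ℂ × ℂ := fun p => (p.2.1, p.2.2 - I * Wf A p) with hb
  have hat : Tendsto a (𝓝 0) (𝓝 0) := by
    have h1 : Tendsto (fun p : ℂ × ℂ × ℂ => p.1) (𝓝 0) (𝓝 0) := by
      simpa using (continuous_fst.tendsto (0 : ℂ × ℂ × ℂ))
    have h2 : Tendsto (fun p : ℂ × ℂ × ℂ => p.2.2) (𝓝 0) (𝓝 0) :=
      (continuous_snd.comp continuous_snd).tendsto' (0 : ℂ × ℂ × ℂ) 0 rfl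
    have h3 := h2.add (hWt.const_mul I)
    simp only [mul_zero, add_zero] at h3
    exact h1.prodMk_nhds h3
  have hbt : Tendsto b (𝓝 0) (𝓝 0) := by
    have h1 : Tendsto (fun p : ℂ × ℂ × ℂ => p.2.1) (𝓝 0) (𝓝 0) :=
      (continuous_fst.comp continuous_snd).tendsto' (0 : ℂ × ℂ × ℂ) 0 rfl
    have h2 : Tendsto (fun p : ℂ × ℂ × ℂ => p.2.2) (𝓝 0) (𝓝 0) :=
      (continuous_snd.comp continuous_snd).tendsto' (0 : ℂ × ℂ × ℂ) 0 rfl
    have h3 := h2.sub (hWt.const_mul I)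
    simp only [mul_zero, sub_zero] at h3
    exact h1.prodMk_nhds h3
  have hEd : ∀ᶠ p in 𝓝 (0 : ℂ × ℂ × ℂ),
      DifferentiableAt ℂ (fun p => RR β (Φ (a p)) (star (Φ (star (b p))))) p := by
    filter_upwards [hWd, hat.eventually hΦd, hbt.eventually hΦs] with p h1 h2 h3
    have had : DifferentiableAt ℂ a p := by
      rw [ha]; fun_prop
    have hbd : DifferentiableAt ℂ b p := by
      rw [hb]; fun_prop
    have h4 : DifferentiableAt ℂ (fun p => Φ (a p)) p := DifferentiableAt.comp p h2 had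
    have h5 : DifferentiableAt ℂ (fun p => star (Φ (star (b p)))) p :=
      DifferentiableAt.comp (g := fun q => star (Φ (star q))) p h3 hbd
    have h6 := h4.fst
    have h7 := h4.snd
    have h8 := h5.fst
    have h9 := h5.snd
    simp only [RR, Aa, Bb]
    fun_prop
  refine tot_real hEd ?_
  -- vanishing on the totally real space
  have hq : Tendsto (fun p : ℂ × ℝ => ((p.1, conj p.1, (p.2 : ℂ)) : ℂ × ℂ × ℂ)) (𝓝 0) (𝓝 0) := by
    have : Continuous (fun p : ℂ × ℝ => ((p.1, conj p.1, (p.2 : ℂ)) : ℂ × ℂ × ℂ)) := by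
      refine Continuous.prodMk continuous_fst (Continuous.prodMk ?_ ?_)
      · exact Complex.continuous_conj.comp continuous_fst
      · exact Complex.continuous_ofReal.comp continuous_snd
    exact this.tendsto' 0 0 (by ext <;> simp)
  filter_upwards [hN, (hat.comp hq).eventually hM] with p h1 h2
  simp only [Function.comp] at h2
  have hW : Wf A (p.1, conj p.1, (p.2 : ℂ)) = (N p : ℂ) := by
    rw [Wf_real, h1]
  have ha' : a (p.1, conj p.1, (p.2 : ℂ)) = (p.1, (p.2 : ℂ) + I * (N p : ℂ)) := by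
    simp only [ha, hW]
  have hb' : b (p.1, conj p.1, (p.2 : ℂ)) = star (p.1, (p.2 : ℂ) + I * (N p : ℂ)) := by
    simp only [hb, hW]
    ext
    · simp
    · simp [sub_eq_add_neg]
  show RR β (Φ (a (p.1, conj p.1, (p.2 : ℂ)))) (star (Φ (star (b (p.1, conj p.1, (p.2 : ℂ)))))) = 0
  rw [ha'] at h2 ⊢
  rw [hb', star_star, RR_star]
  have hr : rb β (Φ (p.1, (p.2 : ℂ) + I * (N p : ℂ))) = 0 := by
    have : (p.1, (p.2 : ℂ) + I * (N p : ℂ)).2.im
        = N ((p.1, (p.2 : ℂ) + I * (N p : ℂ)).1, (p.1, (p.2 : ℂ) + I * (N p : ℂ)).2.re) := by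
      simp
    exact h2.2 this
  rw [hr]; simp

end MP8eabdf
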