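import Pool.Agent.Lib.MP_8eabdf_an.CE2

/-! restriction to `u = -i z χ` -/

namespace MP8eabdf

open Complex Filter Topology Asymptotics Set
open scoped ComplexConjugate

/-- The bound `|R(Φ(z,0), Φ̄(χ,-2izχ))| ≤ C |χ|² (|z|⁴ + |χ|²)`. -/
theorem F_bound {β : ℝ} {Φ : ℂ × ℂ → ℂ × ℂ} {N : ℂ × ℝ → ℝ}
    (hΦ : AnalyticAt ℂ Φ 0) (hN : IsNormalForm N)
    (hM : ∀ᶠ p in 𝓝 (0 : ℂ × ℂ), (Φ p ∈ {p | rb β p = 0} ↔ p.2.im = N (p.1, p.2.re))) :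
    ∃ C : ℝ, 0 ≤ C ∧ ∀ᶠ p in 𝓝 (0 : ℂ × ℂ),
      ‖RR β (Φ (p.1, 0)) (star (Φ (star (p.2, -2 * I * p.1 * p.2))))‖
        ≤ C * ‖p.2‖ ^ 2 * (‖p.1‖ ^ 4 + ‖p.2‖ ^ 2) := by
  obtain ⟨A, hA, hN⟩ := hN
  have hE := E_zero hΦ hA hN hM
  -- Lipschitz
  set Hf : (ℂ × ℂ) × (ℂ × ℂ) → ℂ := fun q => RR β (Φ q.1) (star (Φ (star q.2))) with hHf
  have hΦR : ContDiffAt ℝ 1 Φ 0 := hΦ.restrictScalars.contDiffAt
  have hst : ContDiff ℝ 1 (star : ℂ × ℂ → ℂ × ℂ) := (starL' ℝ : (ℂ × ℂ) ≃L[ℝ] (ℂ × ℂ)).contDiff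
  have hΦs : ContDiffAt ℝ 1 (fun q : ℂ × ℂ => star (Φ (star q))) 0 := by
    refine hst.contDiffAt.comp (0 : ℂ × ℂ) ?_
    refine ContDiffAt.comp (0 : ℂ × ℂ) ?_ hst.contDiffAt
    simpa using hΦR
  have hHfc : ContDiffAt ℝ 1 Hf 0 := by
    have h1 : ContDiffAt ℝ 1 (fun q : (ℂ × ℂ) × (ℂ × ℂ) => Φ q.1) 0 :=
      ContDiffAt.comp (0 : (ℂ × ℂ) × (ℂ × ℂ)) (g := Φ) (f := Prod.fst) hΦR contDiffAt_fst
    have h2 : ContDiffAt ℝ 1 (fun q : (ℂ × ℂ) × (ℂ × ℂ) => star (Φ (star q.2))) 0 :=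
      ContDiffAt.comp (0 : (ℂ × ℂ) × (ℂ × ℂ)) (g := fun q : ℂ × ℂ => star (Φ (star q)))
        (f := Prod.snd) hΦs contDiffAt_snd
    have h3 := h1.fst
    have h4 := h1.snd
    have h5 := h2.fst
    have h6 := h2.snd
    rw [hHf]
    simp only [RR, Aa, Bb]
    fun_prop
  obtain ⟨K, s, hs, hK⟩ := hHfc.exists_lipschitzOnWith
  -- bound for A
  obtain ⟨M, hM0, hMb⟩ : ∃ M : ℝ, 0 ≤ M ∧ ∀ᶠ p in 𝓝 (0 : ℂ × ℂ × ℂ), ‖A p‖ ≤ M := by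
    refine ⟨‖A 0‖ + 1, by positivity, ?_⟩
    have := hA.continuousAt.norm
    exact (this.eventually (gt_mem_nhds (show ‖A 0‖ < ‖A 0‖ + 1 by linarith))).mono
      fun p hp => le_of_lt hp
  -- maps
  set g : ℂ × ℂ → ℂ × ℂ × ℂ := fun p => (p.1, p.2, -I * p.1 * p.2) with hg
  have hgt : Tendsto g (𝓝 0) (𝓝 0) := by
    have : Continuous g := by rw [hg]; fun_prop
    exact this.tendsto' 0 0 (by simp [hg])
  have hgt2 : Tendsto (fun p => star ((g p).2.1, (g p).1, (g p).2.2)) (𝓝 (0 : ℂ × ℂ)) (𝓝 0) := by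
    have : Continuous (fun p => star ((g p).2.1, (g p).1, (g p).2.2)) := by
      rw [hg]; fun_prop
    exact this.tendsto' 0 0 (by simp [hg])
  set w1 : ℂ × ℂ → ℂ := fun p => I * (Wf A (g p) - p.1 * p.2) with hw1
  have hw1b : ∀ᶠ p in 𝓝 (0 : ℂ × ℂ), ‖w1 p‖ ≤ M * ‖p.2‖ ^ 2 * (‖p.1‖ ^ 4 + ‖p.2‖ ^ 2) := by
    filter_upwards [hgt.eventually hMb, hgt2.eventually hMb,
      Metric.ball_mem_nhds (0 : ℂ × ℂ) one_pos] with p h1 h2 h3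
    rw [mem_ball_zero_iff] at h3
    simp only [Prod.norm_def, sup_lt_iff] at h3
    have e1 : w1 p = I * ((1 / 2) * (p.1 ^ 4 * p.2 ^ 2 * A (g p)
        + p.2 ^ 4 * p.1 ^ 2 * star (A (star ((g p).2.1, (g p).1, (g p).2.2))))) := by
      simp only [hw1, Wf, hg]; ring
    rw [e1, norm_mul, norm_mul, Complex.norm_I, one_mul]
    have e2 : ‖(1 / 2 : ℂ)‖ = 1 / 2 := by simp
    rw [e2]
    have e3 : ‖p.1 ^ 4 * p.2 ^ 2 * A (g p)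
        + p.2 ^ 4 * p.1 ^ 2 * star (A (star ((g p).2.1, (g p).1, (g p).2.2)))‖
        ≤ ‖p.1‖ ^ 4 * ‖p.2‖ ^ 2 * M + ‖p.2‖ ^ 4 * ‖p.1‖ ^ 2 * M := by
      refine (norm_add_le _ _).trans (add_le_add ?_ ?_)
      · rw [norm_mul, norm_mul, norm_pow, norm_pow]; gcongr
      · rw [norm_mul, norm_mul, norm_pow, norm_pow, norm_star]; gcongr
    have e4 : ‖p.2‖ ^ 4 * ‖p.1‖ ^ 2 * M ≤ ‖p.2‖ ^ 4 * M := by
      have : ‖p.1‖ ^ 2 ≤ 1 := pow_le_one₀ (norm_nonneg _) h3.1.le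
      calc ‖p.2‖ ^ 4 * ‖p.1‖ ^ 2 * M ≤ ‖p.2‖ ^ 4 * 1 * M := by gcongr
        _ = _ := by ring
    have e5 : 0 ≤ M * ‖p.2‖ ^ 2 * (‖p.1‖ ^ 4 + ‖p.2‖ ^ 2) := by positivity
    nlinarith
  have hw1t : Tendsto w1 (𝓝 0) (𝓝 0) := by
    refine squeeze_zero_norm' hw1b ?_
    have : Continuous (fun p : ℂ × ℂ => M * ‖p.2‖ ^ 2 * (‖p.1‖ ^ 4 + ‖p.2‖ ^ 2)) := by fun_prop
    exact this.tendsto' 0 0 (by simp)
  -- the two points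
  have hat : Tendsto (fun p : ℂ × ℂ => ((p.1, (0 : ℂ)), (p.2, -2 * I * p.1 * p.2)))
      (𝓝 0) (𝓝 (0 : (ℂ × ℂ) × (ℂ × ℂ))) := by
    have : Continuous (fun p : ℂ × ℂ => ((p.1, (0 : ℂ)), (p.2, -2 * I * p.1 * p.2))) := by
      fun_prop
    exact this.tendsto' 0 0 (by simp)
  have hbt : Tendsto (fun p : ℂ × ℂ => ((p.1, w1 p), (p.2, -2 * I * p.1 * p.2 - w1 p)))
      (𝓝 0) (𝓝 (0 : (ℂ × ℂ) × (ℂ × ℂ))) := by
    have h1 : Tendsto (fun p : ℂ × ℂ => p.1) (𝓝 0) (𝓝 0) := continuous_fst.tendsto' _ _ rfl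
    have h2 : Tendsto (fun p : ℂ × ℂ => p.2) (𝓝 0) (𝓝 0) := continuous_snd.tendsto' _ _ rfl
    have h3 : Tendsto (fun p : ℂ × ℂ => -2 * I * p.1 * p.2) (𝓝 0) (𝓝 0) := by
      have : Continuous (fun p : ℂ × ℂ => -2 * I * p.1 * p.2) := by fun_prop
      exact this.tendsto' 0 0 (by simp)
    have h4 := h3.sub hw1t
    rw [sub_zero] at h4
    exact (h1.prodMk_nhds hw1t).prodMk_nhds (h2.prodMk_nhds h4)
  refine ⟨K * M, by positivity, ?_⟩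
  filter_upwards [hgt.eventually hE, hw1b, hat.eventually hs, hbt.eventually hs] with p h1 h2 h3 h4
  have hd := hK.dist_le_mul _ h3 _ h4
  have hb0 : Hf ((p.1, w1 p), (p.2, -2 * I * p.1 * p.2 - w1 p)) = 0 := by
    have e1 : ((g p).1, (g p).2.2 + I * Wf A (g p)) = (p.1, w1 p) := by
      simp only [hw1, hg]; ext
      · rfl
      · simp only; ring
    have e2 : ((g p).2.1, (g p).2.2 - I * Wf A (g p)) = (p.2, -2 * I * p.1 * p.2 - w1 p) := by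
      simp only [hw1, hg]; ext
      · rfl
      · simp only; ring
    rw [e1, e2] at h1
    exact h1
  rw [hb0, dist_zero_right] at hd
  refine hd.trans ?_
  have hdist : dist (((p.1, (0 : ℂ)), (p.2, -2 * I * p.1 * p.2)) : (ℂ × ℂ) × (ℂ × ℂ))
      ((p.1, w1 p), (p.2, -2 * I * p.1 * p.2 - w1 p)) = ‖w1 p‖ := by
    simp [Prod.dist_eq, dist_eq_norm]
  rw [hdist]
  calc (K : ℝ) * ‖w1 p‖ ≤ K * (M * ‖p.2‖ ^ 2 * (‖p.1‖ ^ 4 + ‖p.2‖ ^ 2)) := by gcongr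
    _ = _ := by ring

end MP8eabdf
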