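import Pool.Agent.Lib.MP_8eabdf_an.CE3

/-! expansion in `χ` up to order two -/

namespace MP8eabdf

open Complex Filter Topology Asymptotics Set
open scoped ComplexConjugate

lemma exp_star {f : ℂ × ℂ → ℂ} {a10 a01 a20 a11 a02 : ℂ}
    (hf : (fun p : ℂ × ℂ => f p - (f 0 + a10 * p.1 + a01 * p.2 + a20 * p.1 ^ 2 + a11 * (p.1 * p.2)
      + a02 * p.2 ^ 2)) =O[𝓝 0] (fun p => ‖p‖ ^ 3)) :
    (fun p : ℂ × ℂ => conj (f (star (p.2, -2 * I * p.1 * p.2))) - (conj (f 0)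
      + (conj a10 - 2 * I * p.1 * conj a01) * p.2
      + (conj a20 - 2 * I * p.1 * conj a11 - 4 * p.1 ^ 2 * conj a02) * p.2 ^ 2))
      =O[𝓝 0] (fun p => ‖p.2‖ ^ 3) := by
  set m : ℂ × ℂ → ℂ × ℂ := fun p => star (p.2, -2 * I * p.1 * p.2) with hm
  have hmt : Tendsto m (𝓝 0) (𝓝 0) := by
    have : Continuous m := by rw [hm]; fun_prop
    exact this.tendsto' 0 0 (by simp [hm])
  have h1 := hf.comp_tendsto hmt
  have h2 : ((fun p : ℂ × ℂ => ‖p‖ ^ 3) ∘ m) =O[𝓝 0] (fun p : ℂ × ℂ => ‖p.2‖ ^ 3) := by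
    refine IsBigO.of_bound 1 ?_
    filter_upwards [Metric.ball_mem_nhds (0 : ℂ × ℂ) (show (0 : ℝ) < 1 / 2 by norm_num)] with p hp
    rw [mem_ball_zero_iff] at hp
    simp only [Prod.norm_def, sup_lt_iff] at hp
    simp only [Function.comp, hm, norm_star, one_mul, norm_pow, norm_norm]
    have : ‖((p.2, -2 * I * p.1 * p.2) : ℂ × ℂ)‖ ≤ ‖p.2‖ := by
      simp only [Prod.norm_def, sup_le_iff]
      refine ⟨le_rfl, ?_⟩
      simp only [norm_mul, norm_neg, Complex.norm_ofNat, Complex.norm_I]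
      nlinarith [norm_nonneg p.1, norm_nonneg p.2]
    gcongr
  have h3 := h1.trans h2
  refine (IsBigO.of_norm_left ?_)
  refine h3.norm_left.congr_left ?_
  intro p
  simp only [Function.comp]
  rw [← Complex.norm_conj]
  congr 1
  have e1 : conj (m p).1 = p.2 := by simp [hm]
  have e2 : conj (m p).2 = -2 * I * p.1 * p.2 := by
    have : (m p).2 = conj (-2 * I * p.1 * p.2) := rfl
    rw [this, Complex.conj_conj]
  have e0 : star ((p.2, -2 * I * p.1 * p.2) : ℂ × ℂ) = m p := rfl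
  have e3 : (I : ℂ) ^ 2 = -1 := I_sq
  rw [e0]
  simp only [map_sub, map_add, map_mul, map_pow, e1, e2]
  linear_combination (-4 * p.1 ^ 2 * p.2 ^ 2 * conj a02) * e3

lemma extract {c0 c1 c2 : ℂ} {C M r : ℝ} (hr : 0 < r)
    (h : ∀ χ : ℂ, ‖χ‖ < r → ‖c0 + c1 * χ + c2 * χ ^ 2‖ ≤ C * ‖χ‖ ^ 2 * (M + ‖χ‖)) :
    c0 = 0 ∧ c1 = 0 ∧ ‖c2‖ ≤ C * M := by
  have h0 : c0 = 0 := by
    have := h 0 (by simpa using hr)
    simpa using this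
  subst h0
  have hev : ∀ᶠ χ in 𝓝[≠] (0 : ℂ), ‖χ‖ < r ∧ χ ≠ 0 := by
    refine Filter.Eventually.and ?_ self_mem_nhdsWithin
    filter_upwards [nhdsWithin_le_nhds (Metric.ball_mem_nhds (0 : ℂ) hr)] with χ hχ
    simpa using hχ
  have h1 : c1 = 0 := by
    have hl : Tendsto (fun χ : ℂ => ‖c1 + c2 * χ‖) (𝓝[≠] 0) (𝓝 ‖c1‖) := by
      have : Continuous (fun χ : ℂ => ‖c1 + c2 * χ‖) := by fun_prop
      exact (this.tendsto' 0 _ (by simp)).mono_left nhdsWithin_le_nhds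
    have hR : Tendsto (fun χ : ℂ => C * ‖χ‖ * (M + ‖χ‖)) (𝓝[≠] 0) (𝓝 0) := by
      have : Continuous (fun χ : ℂ => C * ‖χ‖ * (M + ‖χ‖)) := by fun_prop
      exact (this.tendsto' 0 _ (by simp)).mono_left nhdsWithin_le_nhds
    have : ‖c1‖ ≤ 0 := by
      refine le_of_tendsto_of_tendsto hl hR ?_
      filter_upwards [hev] with χ hχ
      have := h χ hχ.1
      have e : (0 : ℂ) + c1 * χ + c2 * χ ^ 2 = χ * (c1 + c2 * χ) := by ring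
      rw [e, norm_mul] at this
      have hp : 0 < ‖χ‖ := norm_pos_iff.2 hχ.2
      have e2 : C * ‖χ‖ ^ 2 * (M + ‖χ‖) = ‖χ‖ * (C * ‖χ‖ * (M + ‖χ‖)) := by ring
      rw [e2] at this
      exact le_of_mul_le_mul_left this hp
    simpa using this
  subst h1
  refine ⟨rfl, rfl, ?_⟩
  have hR : Tendsto (fun χ : ℂ => C * (M + ‖χ‖)) (𝓝[≠] 0) (𝓝 (C * M)) := by
    have : Continuous (fun χ : ℂ => C * (M + ‖χ‖)) := by fun_prop
    exact (this.tendsto' 0 _ (by simp)).mono_left nhdsWithin_le_nhds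
  refine ge_of_tendsto hR ?_
  filter_upwards [hev] with χ hχ
  have := h χ hχ.1
  have e : (0 : ℂ) + 0 * χ + c2 * χ ^ 2 = χ ^ 2 * c2 := by ring
  rw [e, norm_mul, norm_pow] at this
  have hp : 0 < ‖χ‖ ^ 2 := pow_pos (norm_pos_iff.2 hχ.2) 2
  have e2 : C * ‖χ‖ ^ 2 * (M + ‖χ‖) = ‖χ‖ ^ 2 * (C * (M + ‖χ‖)) := by ring
  rw [e2] at this
  exact le_of_mul_le_mul_left this hp

/-- coefficients in `χ` of the complexified defining equation -/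
noncomputable def c0f (β x y χ τ : ℂ) : ℂ := y - τ - 2 * I * (Aa x χ + Bb β x χ * y * τ)
noncomputable def c1f (β x y χ τ α b : ℂ) : ℂ :=
  -b * (1 + 2 * I * y * Bb β x χ) - 2 * I * α * (Aa1 x χ + Bb1 β x χ * y * τ)
noncomputable def c2f (β x y χ τ α b a2 b2 : ℂ) : ℂ :=
  -b2 * (1 + 2 * I * y * Bb β x χ) - 2 * I * a2 * (Aa1 x χ + Bb1 β x χ * y * τ)
    - 2 * I * ((1 / 2) * α ^ 2 * (Aa2 x χ + Bb2 β x * y * τ) + Bb1 β x χ * α * b * y)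

lemma RR_expand (β x y χ0 τ0 α b a2 b2 χ X T : ℂ) :
    RR β (x, y) (X, T) - (c0f β x y χ0 τ0 + c1f β x y χ0 τ0 α b * χ
      + c2f β x y χ0 τ0 α b a2 b2 * χ ^ 2)
    = (X - (χ0 + α * χ + a2 * χ ^ 2)) * (-2 * I * (x ^ 2 * (X + (χ0 + α * χ + a2 * χ ^ 2))
          - x ^ 3 * (X ^ 2 + X * (χ0 + α * χ + a2 * χ ^ 2) + (χ0 + α * χ + a2 * χ ^ 2) ^ 2)
          + y * (x + β * x ^ 2) * (τ0 + b * χ + b2 * χ ^ 2)
            * (1 + β * (X + (χ0 + α * χ + a2 * χ ^ 2)))))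
      + (T - (τ0 + b * χ + b2 * χ ^ 2)) * (-1 - 2 * I * y * (x + β * x ^ 2) * (X + β * X ^ 2))
      + χ ^ 3 * (-2 * I * (x ^ 2 * (2 * α * a2 + a2 ^ 2 * χ)
          - x ^ 3 * (3 * χ0 * (2 * α * a2 + a2 ^ 2 * χ) + (α + a2 * χ) ^ 3)
          + y * (x + β * x ^ 2) * ((1 + 2 * β * χ0) * α * b2
            + ((1 + 2 * β * χ0) * a2 + β * α ^ 2) * (b + b2 * χ)
            + β * (2 * α * a2 + a2 ^ 2 * χ) * (τ0 + b * χ + b2 * χ ^ 2)))) := by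
  simp only [RR, c0f, c1f, c2f, Aa, Aa1, Aa2, Bb, Bb1, Bb2]
  ring

lemma contAt_bigO_one {f : ℂ × ℂ → ℂ} (hf : ContinuousAt f 0) :
    f =O[𝓝 0] (fun _ => (1 : ℝ)) := hf.tendsto.isBigO_one ℝ

/-- the coefficient relations -/
theorem coeff_rel {β : ℝ} {Φ : ℂ × ℂ → ℂ × ℂ} {N : ℂ × ℝ → ℝ}
    (hΦ : AnalyticAt ℂ Φ 0) (hN : IsNormalForm N)
    (hM : ∀ᶠ p in 𝓝 (0 : ℂ × ℂ), (Φ p ∈ {p | rb β p = 0} ↔ p.2.im = N (p.1, p.2.re)))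
    {a10 a01 a20 a11 a02 b10 b01 b20 b11 b02 : ℂ}
    (ha : (fun p : ℂ × ℂ => (Φ p).1 - ((Φ 0).1 + a10 * p.1 + a01 * p.2 + a20 * p.1 ^ 2
      + a11 * (p.1 * p.2) + a02 * p.2 ^ 2)) =O[𝓝 0] (fun p => ‖p‖ ^ 3))
    (hb : (fun p : ℂ × ℂ => (Φ p).2 - ((Φ 0).2 + b10 * p.1 + b01 * p.2 + b20 * p.1 ^ 2
      + b11 * (p.1 * p.2) + b02 * p.2 ^ 2)) =O[𝓝 0] (fun p => ‖p‖ ^ 3)) :
    ∃ C : ℝ, ∀ᶠ z in 𝓝 (0 : ℂ),
      c0f β (Φ (z, 0)).1 (Φ (z, 0)).2 (conj (Φ 0).1) (conj (Φ 0).2) = 0 ∧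
      c1f β (Φ (z, 0)).1 (Φ (z, 0)).2 (conj (Φ 0).1) (conj (Φ 0).2)
        (conj a10 - 2 * I * z * conj a01) (conj b10 - 2 * I * z * conj b01) = 0 ∧
      ‖c2f β (Φ (z, 0)).1 (Φ (z, 0)).2 (conj (Φ 0).1) (conj (Φ 0).2)
        (conj a10 - 2 * I * z * conj a01) (conj b10 - 2 * I * z * conj b01)
        (conj a20 - 2 * I * z * conj a11 - 4 * z ^ 2 * conj a02)
        (conj b20 - 2 * I * z * conj b11 - 4 * z ^ 2 * conj b02)‖ ≤ C * ‖z‖ ^ 4 := by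
  obtain ⟨C, hC, hF⟩ := F_bound hΦ hN hM
  have hXe := exp_star (f := fun p => (Φ p).1) ha
  have hTe := exp_star (f := fun p => (Φ p).2) hb
  -- functions
  set x : ℂ × ℂ → ℂ := fun p => (Φ (p.1, 0)).1 with hx
  set y : ℂ × ℂ → ℂ := fun p => (Φ (p.1, 0)).2 with hy
  set X : ℂ × ℂ → ℂ := fun p => conj (Φ (star (p.2, -2 * I * p.1 * p.2))).1 with hX
  set T : ℂ × ℂ → ℂ := fun p => conj (Φ (star (p.2, -2 * I * p.1 * p.2))).2 with hT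
  set χ0 : ℂ := conj (Φ 0).1 with hχ0
  set τ0 : ℂ := conj (Φ 0).2 with hτ0
  set α : ℂ × ℂ → ℂ := fun p => conj a10 - 2 * I * p.1 * conj a01 with hα
  set b : ℂ × ℂ → ℂ := fun p => conj b10 - 2 * I * p.1 * conj b01 with hbb
  set a2 : ℂ × ℂ → ℂ := fun p => conj a20 - 2 * I * p.1 * conj a11 - 4 * p.1 ^ 2 * conj a02
    with ha2
  set b2 : ℂ × ℂ → ℂ := fun p => conj b20 - 2 * I * p.1 * conj b11 - 4 * p.1 ^ 2 * conj b02
    with hb2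
  have cΦ : ContinuousAt Φ 0 := hΦ.continuousAt
  have c1' : ContinuousAt (fun p : ℂ × ℂ => Φ (p.1, 0)) 0 := by
    refine ContinuousAt.comp (g := Φ) (f := fun p : ℂ × ℂ => (p.1, (0 : ℂ))) ?_ (by fun_prop)
    have e : (((0 : ℂ × ℂ).1, (0 : ℂ)) : ℂ × ℂ) = 0 := rfl
    rw [e]; exact cΦ
  have c2' : ContinuousAt (fun p : ℂ × ℂ => Φ (star (p.2, -2 * I * p.1 * p.2))) 0 := by
    refine ContinuousAt.comp (g := Φ)
      (f := fun p : ℂ × ℂ => star (p.2, -2 * I * p.1 * p.2)) ?_ (by fun_prop)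
    have e : star (((0 : ℂ × ℂ).2, -2 * I * (0 : ℂ × ℂ).1 * (0 : ℂ × ℂ).2) : ℂ × ℂ) = 0 := by
      ext <;> simp
    rw [e]; exact cΦ
  have cx : ContinuousAt x 0 := c1'.fst
  have cy : ContinuousAt y 0 := c1'.snd
  have cX : ContinuousAt X 0 := c2'.fst.star
  have cT : ContinuousAt T 0 := c2'.snd.star
  have cα : ContinuousAt α 0 := by rw [hα]; fun_prop
  have cb : ContinuousAt b 0 := by rw [hbb]; fun_prop
  have ca2 : ContinuousAt a2 0 := by rw [ha2]; fun_prop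
  have cb2 : ContinuousAt b2 0 := by rw [hb2]; fun_prop
  have hkey : (fun p : ℂ × ℂ => RR β (x p, y p) (X p, T p) - (c0f β (x p) (y p) χ0 τ0
      + c1f β (x p) (y p) χ0 τ0 (α p) (b p) * p.2
      + c2f β (x p) (y p) χ0 τ0 (α p) (b p) (a2 p) (b2 p) * p.2 ^ 2))
      =O[𝓝 0] (fun p : ℂ × ℂ => ‖p.2‖ ^ 3) := by
    refine IsBigO.congr_left ?_ (fun p => (RR_expand β (x p) (y p) χ0 τ0 (α p) (b p) (a2 p) (b2 p)
      p.2 (X p) (T p)).symm)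
    refine IsBigO.add (IsBigO.add ?_ ?_) ?_
    · have h1 : (fun p : ℂ × ℂ => -2 * I * ((x p) ^ 2 * (X p + (χ0 + α p * p.2 + a2 p * p.2 ^ 2))
          - (x p) ^ 3 * ((X p) ^ 2 + X p * (χ0 + α p * p.2 + a2 p * p.2 ^ 2)
              + (χ0 + α p * p.2 + a2 p * p.2 ^ 2) ^ 2)
          + y p * (x p + β * (x p) ^ 2) * (τ0 + b p * p.2 + b2 p * p.2 ^ 2)
            * (1 + β * (X p + (χ0 + α p * p.2 + a2 p * p.2 ^ 2))))) =O[𝓝 0]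
            (fun _ => (1 : ℝ)) := contAt_bigO_one (by fun_prop)
      have h2 := hXe.mul h1
      simp only [mul_one] at h2
      exact h2
    · have h1 : (fun p : ℂ × ℂ => -1 - 2 * I * y p * (x p + β * (x p) ^ 2)
          * (X p + β * (X p) ^ 2)) =O[𝓝 0] (fun _ => (1 : ℝ)) := contAt_bigO_one (by fun_prop)
      have h2 := hTe.mul h1
      simp only [mul_one] at h2
      exact h2
    · have h1 : (fun p : ℂ × ℂ => -2 * I * ((x p) ^ 2 * (2 * α p * a2 p + (a2 p) ^ 2 * p.2)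
          - (x p) ^ 3 * (3 * χ0 * (2 * α p * a2 p + (a2 p) ^ 2 * p.2) + (α p + a2 p * p.2) ^ 3)
          + y p * (x p + β * (x p) ^ 2) * ((1 + 2 * β * χ0) * α p * b2 p
            + ((1 + 2 * β * χ0) * a2 p + β * (α p) ^ 2) * (b p + b2 p * p.2)
            + β * (2 * α p * a2 p + (a2 p) ^ 2 * p.2) * (τ0 + b p * p.2 + b2 p * p.2 ^ 2))))
            =O[𝓝 0] (fun _ => (1 : ℝ)) := contAt_bigO_one (by fun_prop)
      have h2 : (fun p : ℂ × ℂ => p.2 ^ 3) =O[𝓝 0] (fun p : ℂ × ℂ => ‖p.2‖ ^ 3) :=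
        IsBigO.of_bound 1 (Eventually.of_forall fun p => by simp)
      simpa using h2.mul h1
  obtain ⟨C', hC'0, hC'⟩ := hkey.exists_nonneg
  rw [isBigOWith_iff] at hC'
  obtain ⟨r, hr, hball⟩ := Metric.eventually_nhds_iff_ball.1 (hF.and hC')
  refine ⟨C + C', ?_⟩
  filter_upwards [Metric.ball_mem_nhds (0 : ℂ) hr] with z hz
  have hz' : ‖z‖ < r := by simpa using hz
  refine extract (r := min r 1) (C := C + C') (M := ‖z‖ ^ 4) (lt_min hr one_pos) ?_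
  intro χ hχ
  have hmem : ((z, χ) : ℂ × ℂ) ∈ Metric.ball (0 : ℂ × ℂ) r := by
    rw [mem_ball_zero_iff]
    simp only [Prod.norm_def, sup_lt_iff]
    exact ⟨hz', hχ.trans_le (min_le_left _ _)⟩
  obtain ⟨h1, h2⟩ := hball _ hmem
  have hχ1 : ‖χ‖ ≤ 1 := (hχ.trans_le (min_le_right _ _)).le
  simp only [norm_pow, norm_norm] at h2
  have h1' : ‖RR β (x (z, χ), y (z, χ)) (X (z, χ), T (z, χ))‖
      ≤ C * ‖χ‖ ^ 2 * (‖z‖ ^ 4 + ‖χ‖ ^ 2) := h1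
  have h3 := norm_sub_norm_le (c0f β (x (z, χ)) (y (z, χ)) χ0 τ0
      + c1f β (x (z, χ)) (y (z, χ)) χ0 τ0 (α (z, χ)) (b (z, χ)) * χ
      + c2f β (x (z, χ)) (y (z, χ)) χ0 τ0 (α (z, χ)) (b (z, χ)) (a2 (z, χ)) (b2 (z, χ)) * χ ^ 2)
      (RR β (x (z, χ), y (z, χ)) (X (z, χ), T (z, χ)))
  rw [norm_sub_rev (c0f β (x (z, χ)) (y (z, χ)) χ0 τ0
      + c1f β (x (z, χ)) (y (z, χ)) χ0 τ0 (α (z, χ)) (b (z, χ)) * χ
      + c2f β (x (z, χ)) (y (z, χ)) χ0 τ0 (α (z, χ)) (b (z, χ)) (a2 (z, χ)) (b2 (z, χ)) * χ ^ 2)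
      (RR β (x (z, χ), y (z, χ)) (X (z, χ), T (z, χ)))] at h3
  have h4 : ‖c0f β (x (z, χ)) (y (z, χ)) χ0 τ0
      + c1f β (x (z, χ)) (y (z, χ)) χ0 τ0 (α (z, χ)) (b (z, χ)) * χ
      + c2f β (x (z, χ)) (y (z, χ)) χ0 τ0 (α (z, χ)) (b (z, χ)) (a2 (z, χ)) (b2 (z, χ)) * χ ^ 2‖
      ≤ C * ‖χ‖ ^ 2 * (‖z‖ ^ 4 + ‖χ‖ ^ 2) + C' * ‖χ‖ ^ 3 := by
    linarith
  refine le_trans h4 ?_
  have h5 : ‖χ‖ ^ 2 ≤ ‖χ‖ := by nlinarith [norm_nonneg χ]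
  have h6 : C * ‖χ‖ ^ 2 * (‖z‖ ^ 4 + ‖χ‖ ^ 2) ≤ C * ‖χ‖ ^ 2 * (‖z‖ ^ 4 + ‖χ‖) := by gcongr
  have h7 : 0 ≤ C' * ‖χ‖ ^ 2 * ‖z‖ ^ 4 := by positivity
  nlinarith

end MP8eabdf
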