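import Pool.Agent.Lib.MP_8eabdf_an.CE4

/-! algebra and Taylor expansion in `ξ`; the chain equation for the Taylor coefficients of `Φ` -/

namespace MP8eabdf

open Complex Filter Topology Asymptotics Set
open scoped ComplexConjugate

section Ring
open Polynomial
variable {R : Type*} [CommRing R]

/-- value of `GP` -/
def Gv (β x χ g ξ : R) : R :=
  g * (1 - g * (Dd β (x + ξ) χ - Dd β x χ) + (g * (Dd β (x + ξ) χ - Dd β x χ)) ^ 2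
    - (g * (Dd β (x + ξ) χ - Dd β x χ)) ^ 3)

lemma GP_eval (β x χ g ξ : R) : (GP β x χ g).eval ξ = Gv β x χ g ξ := by
  simp [GP, Gv, Dd, Aa, Bb, xx]

lemma hP_eval (i β x χ τ g ξ : R) :
    (hP i β x χ τ g).eval ξ = Hh i β (x + ξ) χ τ * Gv β x χ g ξ := by
  rw [hP, eval_mul, GP_eval]
  simp [Hh, Aa, Aa1, Bb, Bb1, xx]

lemma KP_eval (i β x χ τ g ξ : R) :
    (KP i β x χ τ g).eval ξ = Kk i β (x + ξ) χ τ (Gv β x χ g ξ) := by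
  rw [KP, Kk, Kk, eval_sub, eval_mul, eval_mul, eval_mul, eval_pow, GP_eval]
  simp [Hh, Hh1, Aa, Aa1, Aa2, Bb, Bb1, Bb2, xx]

lemma exists_rem (P : R[X]) : ∃ Q : R[X], ∀ ξ : R, P.eval ξ =
    P.coeff 0 + P.coeff 1 * ξ + P.coeff 2 * ξ ^ 2 + P.coeff 3 * ξ ^ 3 + ξ ^ 4 * Q.eval ξ := by
  refine ⟨P.divX.divX.divX.divX, ?_⟩
  intro ξ
  have h0 := congrArg (eval ξ) (divX_mul_X_add P)
  have h1 := congrArg (eval ξ) (divX_mul_X_add P.divX)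
  have h2 := congrArg (eval ξ) (divX_mul_X_add P.divX.divX)
  have h3 := congrArg (eval ξ) (divX_mul_X_add P.divX.divX.divX)
  simp only [eval_add, eval_mul, eval_X, eval_C, coeff_divX] at h0 h1 h2 h3
  rw [← h0, ← h1, ← h2, ← h3]
  ring

/-- inversion of `s = h₁ ξ + h₂ ξ² + h₃ ξ³` inside `k₀ + k₁ ξ + k₂ ξ² + k₃ ξ³` -/
lemma inv_series (h1 h2 h3 k0 k1 k2 k3 ξ : R) :
    h1 ^ 5 * (k0 + k1 * ξ + k2 * ξ ^ 2 + k3 * ξ ^ 3) =
      h1 ^ 5 * k0 + h1 ^ 4 * k1 * (h1 * ξ + h2 * ξ ^ 2 + h3 * ξ ^ 3)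
      + h1 ^ 2 * (k2 * h1 - k1 * h2) * (h1 * ξ + h2 * ξ ^ 2 + h3 * ξ ^ 3) ^ 2
      + (k3 * h1 ^ 2 - k1 * h1 * h3 - 2 * k2 * h1 * h2 + 2 * k1 * h2 ^ 2)
        * (h1 * ξ + h2 * ξ ^ 2 + h3 * ξ ^ 3) ^ 3
      - ξ ^ 4 * (h1 ^ 2 * (k2 * h1 - k1 * h2) * (2 * h1 * h3 + (h2 + h3 * ξ) ^ 2)
        + (k3 * h1 ^ 2 - k1 * h1 * h3 - 2 * k2 * h1 * h2 + 2 * k1 * h2 ^ 2)
          * (3 * h1 ^ 2 * (h2 + h3 * ξ) + 3 * h1 * ξ * (h2 + h3 * ξ) ^ 2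
            + ξ ^ 2 * (h2 + h3 * ξ) ^ 3)) := by
  ring

end Ring

lemma alg1 {β x y χ τ α b : ℂ} (h0 : c0f β x y χ τ = 0) (h1 : c1f β x y χ τ α b = 0) :
    b * Dd β x χ = α * Hh I β x χ τ := by
  have key : (1 - 2 * I * Bb β x χ * τ) * c1f β x y χ τ α b
      + c0f β x y χ τ * (2 * I * b * Bb β x χ + 2 * I * α * Bb1 β x χ * τ)
      = -(b * Dd β x χ) + α * Hh I β x χ τ := by
    have hI : (I : ℂ) ^ 2 = -1 := I_sq
    simp only [c0f, c1f, Dd, Hh]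
    linear_combination (-4 * b * Aa x χ * Bb β x χ) * hI
  rw [h0, h1] at key
  linear_combination key

lemma alg2 {β x y χ τ α b a2 b2 G : ℂ} (h0 : c0f β x y χ τ = 0) (h1 : c1f β x y χ τ α b = 0)
    (hG : G * Dd β x χ = 1) :
    2 * (b2 * α - a2 * b) - Kk I β x χ τ G * α ^ 3
      = -2 * (1 - 2 * I * Bb β x χ * τ) * G * α * c2f β x y χ τ α b a2 b2 := by
  have hb := alg1 h0 h1
  have hb' : b = α * Hh I β x χ τ * G := by
    calc b = b * (G * Dd β x χ) := by rw [hG, mul_one]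
      _ = (b * Dd β x χ) * G := by ring
      _ = _ := by rw [hb]
  have key : -2 * ((1 - 2 * I * Bb β x χ * τ) * c2f β x y χ τ α b a2 b2) =
      2 * b2 * Dd β x χ - 2 * a2 * Hh I β x χ τ - α ^ 2 * Hh1 I β x χ τ
      + 4 * I * Bb1 β x χ * α * b * (τ + 2 * I * Aa x χ)
      + c0f β x y χ τ * (4 * I * b2 * Bb β x χ + 4 * I * a2 * Bb1 β x χ * τ
        + 2 * I * α ^ 2 * Bb2 β x * τ + 4 * I * Bb1 β x χ * α * b) := by
    have hI : (I : ℂ) ^ 2 = -1 := I_sq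
    simp only [c0f, c2f, Dd, Hh, Hh1]
    linear_combination (8 * b2 * Aa x χ * Bb β x χ) * hI
  rw [h0] at key
  have e : -2 * (1 - 2 * I * Bb β x χ * τ) * G * α * c2f β x y χ τ α b a2 b2
      = G * α * (-2 * ((1 - 2 * I * Bb β x χ * τ) * c2f β x y χ τ α b a2 b2)) := by ring
  rw [e, key]
  simp only [Kk]
  have e1 : G * α * (2 * b2 * Dd β x χ - 2 * a2 * Hh I β x χ τ - α ^ 2 * Hh1 I β x χ τ
      + 4 * I * Bb1 β x χ * α * b * (τ + 2 * I * Aa x χ)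
      + 0 * (4 * I * b2 * Bb β x χ + 4 * I * a2 * Bb1 β x χ * τ
        + 2 * I * α ^ 2 * Bb2 β x * τ + 4 * I * Bb1 β x χ * α * b))
      = 2 * b2 * α * (G * Dd β x χ) - 2 * a2 * (α * Hh I β x χ τ * G)
        - α ^ 3 * G * Hh1 I β x χ τ + G * α * (4 * I * Bb1 β x χ * α * b * (τ + 2 * I * Aa x χ)) := by
    ring
  rw [e1, hG, ← hb']
  linear_combination (-4 * I * Bb1 β x χ * (τ + 2 * I * Aa x χ) * G * α ^ 2) * hb'

end MP8eabdf
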