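import Pool.Agent.Lib.MP_8eabdf_an.CE5

/-! the chain equation for the Taylor coefficients of `Φ` -/

namespace MP8eabdf

open Complex Filter Topology Asymptotics Set
open scoped ComplexConjugate

lemma bigO_step {𝕜 F : Type*} [NontriviallyNormedField 𝕜] [NormedAddCommGroup F] [NormedSpace 𝕜 F]
    {c : F} {f : 𝕜 → F} (hf : ContinuousAt f 0) {n : ℕ}
    (h : (fun z => c + z • f z) =O[𝓝[≠] 0] fun z => z ^ (n + 1)) :
    c = 0 ∧ f =O[𝓝[≠] 0] fun z => z ^ n := by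
  have h1 : Tendsto (fun z => c + z • f z) (𝓝[≠] 0) (𝓝 c) := by
    have : ContinuousAt (fun z => c + z • f z) 0 := by fun_prop
    have := this.tendsto
    simp only [zero_smul, add_zero] at this
    exact this.mono_left nhdsWithin_le_nhds
  have h2 : Tendsto (fun z : 𝕜 => z ^ (n + 1)) (𝓝[≠] 0) (𝓝 0) := by
    have : Continuous (fun z : 𝕜 => z ^ (n + 1)) := by fun_prop
    exact (this.tendsto' 0 _ (by simp)).mono_left nhdsWithin_le_nhds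
  have h3 := h.trans_tendsto h2
  have hc : c = 0 := tendsto_nhds_unique h1 h3
  subst hc
  refine ⟨rfl, ?_⟩
  have h4 : (fun z : 𝕜 => z⁻¹) =O[𝓝[≠] 0] fun z : 𝕜 => z⁻¹ := isBigO_refl _ _
  have h5 := h4.smul h
  refine h5.congr' ?_ ?_
  · filter_upwards [self_mem_nhdsWithin] with z hz
    simp only [zero_add]
    rw [smul_smul, inv_mul_cancel₀ hz, one_smul]
  · filter_upwards [self_mem_nhdsWithin] with z hz
    simp only [smul_eq_mul]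
    rw [pow_succ', ← mul_assoc, inv_mul_cancel₀ hz, one_mul]

lemma cubic_zero {c0 c1 c2 c3 : ℂ}
    (h : (fun z : ℂ => c0 + c1 * z + c2 * z ^ 2 + c3 * z ^ 3) =O[𝓝 0] fun z => z ^ 4) :
    c3 = 0 := by
  have h0 : (fun z : ℂ => c0 + z • (c1 + z • (c2 + z • c3))) =O[𝓝[≠] 0] fun z => z ^ 4 := by
    refine (h.mono nhdsWithin_le_nhds).congr_left ?_
    intro z; simp only [smul_eq_mul]; ring
  have h1 := (bigO_step (by fun_prop) h0).2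
  have h2 := (bigO_step (by fun_prop) h1).2
  have h3 := (bigO_step (by fun_prop) h2).2
  have h4 : (fun z : ℂ => c3 + z • (0 : ℂ)) =O[𝓝[≠] 0] fun z => z ^ (0 + 1) := by
    simpa using h3
  exact (bigO_step (by fun_prop) h4).1

lemma pi_expand {R : Type*} [CommRing R] (H5 k0 Ψ1 Ψ2 Ψ3 S A0 A1 B0 B1 U0 U1 U2 V0 V1 V2 z : R) :
    H5 * (2 * ((V0 + V1 * z + V2 * z ^ 2) * (A0 + A1 * z)
        - (U0 + U1 * z + U2 * z ^ 2) * (B0 + B1 * z)))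
      - (H5 * k0 * (A0 + A1 * z) ^ 3 + Ψ1 * (S * z) * (A0 + A1 * z) ^ 2
        + Ψ2 * (S * z) ^ 2 * (A0 + A1 * z) + Ψ3 * (S * z) ^ 3)
    = (H5 * (2 * (V0 * A0 - U0 * B0)) - H5 * k0 * A0 ^ 3)
      + (H5 * (2 * (V1 * A0 + V0 * A1 - U1 * B0 - U0 * B1))
        - (3 * H5 * k0 * A0 ^ 2 * A1 + Ψ1 * S * A0 ^ 2)) * z
      + (H5 * (2 * (V2 * A0 + V1 * A1 - U2 * B0 - U1 * B1))
        - (3 * H5 * k0 * A0 * A1 ^ 2 + 2 * Ψ1 * S * A0 * A1 + Ψ2 * S ^ 2 * A0)) * z ^ 2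
      + (H5 * (2 * (V2 * A1 - U2 * B1))
        - (H5 * k0 * A1 ^ 3 + Ψ1 * S * A1 ^ 2 + Ψ2 * S ^ 2 * A1 + Ψ3 * S ^ 3)) * z ^ 3 := by
  ring

lemma contAt_bigO_one' {f : ℂ → ℂ} (hf : ContinuousAt f 0) :
    f =O[𝓝 0] (fun _ => (1 : ℂ)) := hf.tendsto.isBigO_one ℂ

lemma diff_bigO {f : ℂ → ℂ} (hf : DifferentiableAt ℂ f 0) (h0 : f 0 = 0) :
    f =O[𝓝 0] (fun z => z) := by
  have := hf.isBigO_sub
  simpa [h0] using this

lemma Gv_alg {G g D D0 : ℂ} (h1 : G * D = 1) (h2 : g * D0 = 1) :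
    G - g * (1 - g * (D - D0) + (g * (D - D0)) ^ 2 - (g * (D - D0)) ^ 3)
      = (g * (D - D0)) ^ 4 * G := by
  have e2 : G * (1 + g * (D - D0)) = g := by
    calc G * (1 + g * (D - D0)) = G * (1 - g * D0) + g * (G * D) := by ring
      _ = g := by rw [h1, h2]; ring
  linear_combination (1 - g * (D - D0) + (g * (D - D0)) ^ 2 - (g * (D - D0)) ^ 3) * e2

lemma E1_alg {H G Gw d x h0 h1 h2 h3 q : ℂ} (hz : G - Gw = d * G)
    (h : H * Gw = h0 + h1 * x + h2 * x ^ 2 + h3 * x ^ 3 + x ^ 4 * q) :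
    d * (H * G) + x ^ 4 * q = H * G - (h0 + h1 * x + h2 * x ^ 2 + h3 * x ^ 3) := by
  linear_combination (-H) * hz - h

lemma E2_alg {H H1 m G Gw d x k0 k1 k2 k3 q : ℂ} (hz : G - Gw = d * G)
    (h : Gw * H1 - m * Gw ^ 2 * H = k0 + k1 * x + k2 * x ^ 2 + k3 * x ^ 3 + x ^ 4 * q) :
    d * (G * (H1 - m * (G + Gw) * H)) + x ^ 4 * q
      = (G * H1 - m * G ^ 2 * H) - (k0 + k1 * x + k2 * x ^ 2 + k3 * x ^ 3) := by
  linear_combination (-(H1 - m * (G + Gw) * H)) * hz - h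

lemma s_alg {z α b HG h0 h1 h2 h3 x A1 A2 B1 B2 : ℂ} (r1 : b = α * HG)
    (hα : α = A1 - 2 * I * z * A2) (hb : b = B1 - 2 * I * z * B2) (h10 : B1 = h0 * A1) :
    α * (h1 * x + h2 * x ^ 2 + h3 * x ^ 3) = (-2 * I * (B2 - h0 * A2)) * z
      - α * (HG - (h0 + h1 * x + h2 * x ^ 2 + h3 * x ^ 3)) := by
  linear_combination -r1 + h10 - h0 * hα + hb

lemma final_alg {h1 h2 h3 k0 k1 k2 k3 x α E1 E2 K c u a2 b2 b σ σ' : ℂ}
    (hs : σ = σ' - α * E1) (hσ : σ = α * (h1 * x + h2 * x ^ 2 + h3 * x ^ 3))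
    (hK : E2 = K - (k0 + k1 * x + k2 * x ^ 2 + k3 * x ^ 3))
    (r2 : 2 * (b2 * α - a2 * b) - K * α ^ 3 = u * c) :
    c * (h1 ^ 5 * u) + E2 * (h1 ^ 5 * α ^ 3)
      + x ^ 4 * (-α ^ 3 * ((h1 ^ 2 * (k2 * h1 - k1 * h2)) * (2 * h1 * h3 + (h2 + h3 * x) ^ 2)
        + (k3 * h1 ^ 2 - k1 * h1 * h3 - 2 * k2 * h1 * h2 + 2 * k1 * h2 ^ 2)
          * (3 * h1 ^ 2 * (h2 + h3 * x) + 3 * h1 * x * (h2 + h3 * x) ^ 2
            + x ^ 2 * (h2 + h3 * x) ^ 3)))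
      + E1 * (-α * ((h1 ^ 4 * k1) * α ^ 2 + (h1 ^ 2 * (k2 * h1 - k1 * h2)) * (σ + σ') * α
        + (k3 * h1 ^ 2 - k1 * h1 * h3 - 2 * k2 * h1 * h2 + 2 * k1 * h2 ^ 2)
          * (σ ^ 2 + σ * σ' + σ' ^ 2)))
    = h1 ^ 5 * (2 * (b2 * α - a2 * b)) - (h1 ^ 5 * k0 * α ^ 3 + (h1 ^ 4 * k1) * σ' * α ^ 2
        + (h1 ^ 2 * (k2 * h1 - k1 * h2)) * σ' ^ 2 * α
        + (k3 * h1 ^ 2 - k1 * h1 * h3 - 2 * k2 * h1 * h2 + 2 * k1 * h2 ^ 2) * σ' ^ 3) := by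
  have hs' : σ' = σ + α * E1 := by rw [hs]; ring
  subst hs'
  subst hσ
  subst hK
  linear_combination (-h1 ^ 5) * r2

theorem chain_germ {β : ℝ} {Φ : ℂ × ℂ → ℂ × ℂ} {N : ℂ × ℝ → ℝ}
    (hΦ : AnalyticAt ℂ Φ 0) (hN : IsNormalForm N)
    (hM : ∀ᶠ p in 𝓝 (0 : ℂ × ℂ), (Φ p ∈ {p | rb β p = 0} ↔ p.2.im = N (p.1, p.2.re)))
    {a10 a01 a20 a11 a02 b10 b01 b20 b11 b02 : ℂ}
    (ha : (fun p : ℂ × ℂ => (Φ p).1 - ((Φ 0).1 + a10 * p.1 + a01 * p.2 + a20 * p.1 ^ 2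
      + a11 * (p.1 * p.2) + a02 * p.2 ^ 2)) =O[𝓝 0] (fun p => ‖p‖ ^ 3))
    (hb : (fun p : ℂ × ℂ => (Φ p).2 - ((Φ 0).2 + b10 * p.1 + b01 * p.2 + b20 * p.1 ^ 2
      + b11 * (p.1 * p.2) + b02 * p.2 ^ 2)) =O[𝓝 0] (fun p => ‖p‖ ^ 3))
    (hD : Dd (β : ℂ) (Φ 0).1 (conj (Φ 0).1) ≠ 0) :
    ChainEq I (β : ℂ) (Φ 0).1 (conj (Φ 0).1) (conj (Φ 0).2)
      (Dd (β : ℂ) (Φ 0).1 (conj (Φ 0).1))⁻¹
      (conj a01) (2 * conj a02) (conj b01) (2 * conj b02) := by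
  obtain ⟨C, hC⟩ := coeff_rel hΦ hN hM ha hb
  set x0 : ℂ := (Φ 0).1 with hx0
  set χ : ℂ := conj x0 with hχ
  set τ : ℂ := conj (Φ 0).2 with hτ
  set g : ℂ := (Dd (β : ℂ) x0 χ)⁻¹ with hg
  have hgD : g * Dd (β : ℂ) x0 χ = 1 := inv_mul_cancel₀ hD
  obtain ⟨Q1, hQ1⟩ := exists_rem (hP I (β : ℂ) x0 χ τ g)
  obtain ⟨Q2, hQ2⟩ := exists_rem (KP I (β : ℂ) x0 χ τ g)
  simp only [hP_eval] at hQ1
  simp only [KP_eval] at hQ2
  unfold ChainEq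
  set h0 := (hP I (β : ℂ) x0 χ τ g).coeff 0
  set h1 := (hP I (β : ℂ) x0 χ τ g).coeff 1
  set h2 := (hP I (β : ℂ) x0 χ τ g).coeff 2
  set h3 := (hP I (β : ℂ) x0 χ τ g).coeff 3
  set k0 := (KP I (β : ℂ) x0 χ τ g).coeff 0
  set k1 := (KP I (β : ℂ) x0 χ τ g).coeff 1
  set k2 := (KP I (β : ℂ) x0 χ τ g).coeff 2
  set k3 := (KP I (β : ℂ) x0 χ τ g).coeff 3
  -- functions of z
  set ξ : ℂ → ℂ := fun z => (Φ (z, 0)).1 - x0 with hξ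
  set α : ℂ → ℂ := fun z => conj a10 - 2 * I * z * conj a01 with hα
  set b : ℂ → ℂ := fun z => conj b10 - 2 * I * z * conj b01 with hbb
  set a2 : ℂ → ℂ := fun z => conj a20 - 2 * I * z * conj a11 - 4 * z ^ 2 * conj a02 with ha2
  set b2 : ℂ → ℂ := fun z => conj b20 - 2 * I * z * conj b11 - 4 * z ^ 2 * conj b02 with hb2
  have hz0 : ((0 : ℂ), (0 : ℂ)) = (0 : ℂ × ℂ) := rfl
  have hξ0 : ξ 0 = 0 := by simp only [hξ, hz0, hx0, sub_self]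
  have dΦ : DifferentiableAt ℂ (fun z : ℂ => Φ (z, 0)) 0 := by
    refine DifferentiableAt.comp (g := Φ) (f := fun z : ℂ => (z, (0 : ℂ))) (0 : ℂ) ?_
      (by fun_prop)
    exact hΦ.differentiableAt
  have dξ : DifferentiableAt ℂ ξ 0 := dΦ.fst.sub_const _
  have cξ : ContinuousAt ξ 0 := dξ.continuousAt
  have oξ : ξ =O[𝓝 0] (fun z => z) := diff_bigO dξ hξ0
  set G : ℂ → ℂ := fun z => (Dd (β : ℂ) (x0 + ξ z) χ)⁻¹ with hGG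
  have dD : DifferentiableAt ℂ (fun z => Dd (β : ℂ) (x0 + ξ z) χ) 0 := by
    simp only [Dd, Aa, Bb]; fun_prop
  have hD0 : Dd (β : ℂ) (x0 + ξ 0) χ ≠ 0 := by rw [hξ0, add_zero]; exact hD
  have hDne : ∀ᶠ z in 𝓝 (0 : ℂ), Dd (β : ℂ) (x0 + ξ z) χ ≠ 0 := dD.continuousAt.eventually_ne hD0
  have cG : ContinuousAt G 0 := dD.continuousAt.inv₀ hD0
  set δ : ℂ → ℂ := fun z => g * (Dd (β : ℂ) (x0 + ξ z) χ - Dd (β : ℂ) x0 χ) with hδ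
  have dδ : DifferentiableAt ℂ δ 0 := (dD.sub_const _).const_mul _
  have oδ : δ =O[𝓝 0] (fun z => z) := diff_bigO dδ (by simp [hδ, hξ0])
  have oδ4 : (fun z => (δ z) ^ 4) =O[𝓝 0] (fun z : ℂ => z ^ 4) := oδ.pow 4
  have oξ4 : (fun z => (ξ z) ^ 4) =O[𝓝 0] (fun z : ℂ => z ^ 4) := oξ.pow 4
  have cα : ContinuousAt α 0 := by rw [hα]; fun_prop
  -- error terms
  set E1 : ℂ → ℂ := fun z => Hh I (β : ℂ) (x0 + ξ z) χ τ * G z
    - (h0 + h1 * ξ z + h2 * (ξ z) ^ 2 + h3 * (ξ z) ^ 3) with hE1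
  set E2 : ℂ → ℂ := fun z => Kk I (β : ℂ) (x0 + ξ z) χ τ (G z)
    - (k0 + k1 * ξ z + k2 * (ξ z) ^ 2 + k3 * (ξ z) ^ 3) with hE2
  set c2 : ℂ → ℂ := fun z => c2f β (Φ (z, 0)).1 (Φ (z, 0)).2 χ τ (α z) (b z) (a2 z) (b2 z) with hc2
  have hGv : ∀ᶠ z in 𝓝 (0 : ℂ), G z - Gv (β : ℂ) x0 χ g (ξ z) = (δ z) ^ 4 * G z := by
    filter_upwards [hDne] with z hz
    exact Gv_alg (inv_mul_cancel₀ hz) hgD
  have cQ1 : ContinuousAt (fun z => Q1.eval (ξ z)) 0 :=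
    (Q1.continuous.continuousAt).comp cξ
  have cQ2 : ContinuousAt (fun z => Q2.eval (ξ z)) 0 :=
    (Q2.continuous.continuousAt).comp cξ
  have cGv : ContinuousAt (fun z => Gv (β : ℂ) x0 χ g (ξ z)) 0 := by
    simp only [Gv, Dd, Aa, Bb]; fun_prop
  have oE1 : E1 =O[𝓝 0] (fun z : ℂ => z ^ 4) := by
    have h := (oδ4.mul (contAt_bigO_one' (f := fun z => Hh I (β : ℂ) (x0 + ξ z) χ τ * G z)
      (by simp only [Hh, Aa, Aa1, Bb, Bb1]; fun_prop))).add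
      (oξ4.mul (contAt_bigO_one' cQ1))
    simp only [mul_one] at h
    refine h.congr' ?_ EventuallyEq.rfl
    filter_upwards [hGv] with z hz
    exact E1_alg hz (hQ1 (ξ z))
  have oE2 : E2 =O[𝓝 0] (fun z : ℂ => z ^ 4) := by
    have h := (oδ4.mul (contAt_bigO_one' (f := fun z => G z * (Hh1 I (β : ℂ) (x0 + ξ z) χ τ
      - 4 * I * Bb1 (β : ℂ) (x0 + ξ z) χ * (τ + 2 * I * Aa (x0 + ξ z) χ)
        * (G z + Gv (β : ℂ) x0 χ g (ξ z)) * Hh I (β : ℂ) (x0 + ξ z) χ τ))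
      (by simp only [Hh, Hh1, Aa, Aa1, Aa2, Bb, Bb1, Bb2]; fun_prop))).add
      (oξ4.mul (contAt_bigO_one' cQ2))
    simp only [mul_one] at h
    refine h.congr' ?_ EventuallyEq.rfl
    filter_upwards [hGv] with z hz
    exact E2_alg hz (hQ2 (ξ z))
  have oc2 : c2 =O[𝓝 0] (fun z : ℂ => z ^ 4) := by
    refine IsBigO.of_bound C ?_
    filter_upwards [hC] with z hz
    rw [norm_pow]
    exact hz.2.2
  -- relations
  have hxx : ∀ z, (Φ (z, 0)).1 = x0 + ξ z := by intro z; simp [hξ]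
  have hrel : ∀ᶠ z in 𝓝 (0 : ℂ), b z = α z * (Hh I (β : ℂ) (x0 + ξ z) χ τ * G z) ∧
      2 * (b2 z * α z - a2 z * b z) - Kk I (β : ℂ) (x0 + ξ z) χ τ (G z) * (α z) ^ 3
        = -2 * (1 - 2 * I * Bb (β : ℂ) (x0 + ξ z) χ * τ) * G z * α z * c2 z := by
    filter_upwards [hC, hDne] with z hz hDz
    obtain ⟨z0, z1, -⟩ := hz
    have e1 : G z * Dd (β : ℂ) (x0 + ξ z) χ = 1 := inv_mul_cancel₀ hDz
    have r1 := alg1 z0 z1
    rw [hxx] at r1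
    constructor
    · calc b z = (b z * Dd (β : ℂ) (x0 + ξ z) χ) * G z := by
            rw [mul_assoc, mul_comm (Dd (β : ℂ) (x0 + ξ z) χ), e1, mul_one]
        _ = _ := by
            simp only [hbb, hα] at r1 ⊢
            rw [r1]; ring
    · have r2 := alg2 (a2 := a2 z) (b2 := b2 z) (G := G z) z0 z1 (by rw [hxx]; exact e1)
      simp only [hc2]
      rw [hxx] at r2 ⊢
      exact r2
  -- value at 0
  set Δ : ℂ := conj b01 - h0 * conj a01 with hΔ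
  have hG0 : G 0 = g := by simp only [hGG, hξ0, add_zero, hg]
  have hh0 : h0 = Hh I (β : ℂ) x0 χ τ * g := by
    have := hQ1 0
    simp only [add_zero, Gv, sub_self, mul_zero] at this
    linear_combination -this
  have hb10 : conj b10 = h0 * conj a10 := by
    have := hrel.self_of_nhds.1
    rw [hξ0, hG0, add_zero, ← hh0] at this
    simp only [hbb, hα] at this
    linear_combination this
  -- Psi
  set Ψ1 : ℂ := h1 ^ 4 * k1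
  set Ψ2 : ℂ := h1 ^ 2 * (k2 * h1 - k1 * h2)
  set Ψ3 : ℂ := k3 * h1 ^ 2 - k1 * h1 * h3 - 2 * k2 * h1 * h2 + 2 * k1 * h2 ^ 2
  set σ : ℂ → ℂ := fun z => α z * (h1 * ξ z + h2 * (ξ z) ^ 2 + h3 * (ξ z) ^ 3) with hσ
  set σ' : ℂ → ℂ := fun z => (-2 * I * Δ) * z with hσ'
  have hPi : (fun z : ℂ => h1 ^ 5 * (2 * (b2 z * α z - a2 z * b z))
      - (h1 ^ 5 * k0 * (α z) ^ 3 + Ψ1 * σ' z * (α z) ^ 2 + Ψ2 * (σ' z) ^ 2 * α z
        + Ψ3 * (σ' z) ^ 3)) =O[𝓝 0] (fun z : ℂ => z ^ 4) := by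
    have o1 := oc2.mul (contAt_bigO_one' (f := fun z => h1 ^ 5 *
      (-2 * (1 - 2 * I * Bb (β : ℂ) (x0 + ξ z) χ * τ) * G z * α z))
      (by simp only [Bb]; fun_prop))
    have o2 := oE2.mul (contAt_bigO_one' (f := fun z => h1 ^ 5 * (α z) ^ 3) (by fun_prop))
    have o3 := oξ4.mul (contAt_bigO_one' (f := fun z => -(α z) ^ 3 *
      (Ψ2 * (2 * h1 * h3 + (h2 + h3 * ξ z) ^ 2)
        + Ψ3 * (3 * h1 ^ 2 * (h2 + h3 * ξ z) + 3 * h1 * ξ z * (h2 + h3 * ξ z) ^ 2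
            + (ξ z) ^ 2 * (h2 + h3 * ξ z) ^ 3))) (by fun_prop))
    have cσ : ContinuousAt σ 0 := by rw [hσ]; fun_prop
    have cσ' : ContinuousAt σ' 0 := by rw [hσ']; fun_prop
    have o4 := oE1.mul (contAt_bigO_one' (f := fun z => -α z * (Ψ1 * (α z) ^ 2
      + Ψ2 * (σ z + σ' z) * α z + Ψ3 * ((σ z) ^ 2 + σ z * σ' z + (σ' z) ^ 2))) (by fun_prop))
    simp only [mul_one] at o1 o2 o3 o4
    refine (((o1.add o2).add o3).add o4).congr' ?_ EventuallyEq.rfl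
    filter_upwards [hrel] with z hz
    obtain ⟨r1, r2⟩ := hz
    have hs : σ z = σ' z - α z * E1 z := s_alg r1 rfl rfl hb10
    exact final_alg hs rfl rfl r2
  have hPi2 := cubic_zero (hPi.congr_left (fun z => by
    have := pi_expand (h1 ^ 5) k0 Ψ1 Ψ2 Ψ3 (-2 * I * Δ) (conj a10) (-2 * I * conj a01) (conj b10)
      (-2 * I * conj b01) (conj a20) (-2 * I * conj a11) (-4 * conj a02) (conj b20)
      (-2 * I * conj b11) (-4 * conj b02) z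
    rw [← this]
    simp only [hα, hbb, ha2, hb2, hσ']
    ring))
  have hI3 : (I : ℂ) ^ 2 = -1 := I_sq
  have hI0 : (8 * I : ℂ) ≠ 0 := by simp
  apply mul_left_cancel₀ hI0
  linear_combination hPi2 - 8 * I * (h1 ^ 5 * k0 * (conj a01) ^ 3 + Ψ1 * (conj a01) ^ 2 * Δ
    + Ψ2 * conj a01 * Δ ^ 2 + Ψ3 * Δ ^ 3) * hI3

end MP8eabdf
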