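import Pool.Agent.Lib.MP_8eabdf_an.CE6

/-! the chain equation along the curve -/

namespace MP8eabdf

open Complex Filter Topology Asymptotics Set
open scoped ComplexConjugate ContDiff

lemma taylor_real {F : Type*} [NormedAddCommGroup F] [NormedSpace ℝ F] [CompleteSpace F]
    {f : ℝ → F} {t : ℝ} (hf : AnalyticAt ℝ f t) :
    (fun h : ℝ => f (t + h) - (f t + h • deriv f t + h ^ 2 • ((1 / 2 : ℝ) • iteratedDeriv 2 f t)))
      =O[𝓝 0] fun h : ℝ => h ^ 3 := by
  obtain ⟨p, hp⟩ := hf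
  have h3 := hp.isBigO_sub_partialSum_pow 3
  obtain ⟨r, hpr⟩ := hp
  have hc : ∀ n, (n.factorial : ℝ) • p.coeff n = iteratedDeriv n f t := by
    intro n
    have h := hpr.factorial_smul (y := 1) (n := n)
    rw [iteratedDeriv_eq_iteratedFDeriv, ← h, Nat.cast_smul_eq_nsmul]
    rfl
  have c0 : p.coeff 0 = f t := by
    have := hc 0
    simpa using this
  have c1 : p.coeff 1 = deriv f t := by
    have := hc 1
    simpa using this
  have c2 : p.coeff 2 = (1 / 2 : ℝ) • iteratedDeriv 2 f t := by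
    rw [← hc 2, smul_smul]
    norm_num
  have hO : (fun h : ℝ => ‖h‖ ^ 3) =O[𝓝 0] fun h : ℝ => h ^ 3 :=
    IsBigO.of_bound 1 (Eventually.of_forall fun h => by simp)
  refine (h3.trans hO).congr_left ?_
  intro h
  rw [FormalMultilinearSeries.partialSum, Finset.sum_range_succ, Finset.sum_range_succ,
    Finset.sum_range_one]
  simp only [FormalMultilinearSeries.apply_eq_pow_smul_coeff, c0, c1, c2, pow_zero, one_smul,
    pow_one]

lemma quad_unique {c0 c1 c2 : ℂ}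
    (h : (fun h : ℝ => c0 + h • c1 + h ^ 2 • c2) =O[𝓝 0] fun h : ℝ => h ^ 3) :
    c1 = 0 ∧ c2 = 0 := by
  have h0 : (fun z : ℝ => c0 + z • (c1 + z • c2)) =O[𝓝[≠] 0] fun z : ℝ => z ^ 3 := by
    refine (h.mono nhdsWithin_le_nhds).congr_left ?_
    intro z
    rw [smul_add, smul_smul, ← pow_two, add_assoc]
  have h1 := (bigO_step (by fun_prop) h0).2
  obtain ⟨e1, h2⟩ := bigO_step (by fun_prop) h1
  have h4 : (fun z : ℝ => c2 + z • (0 : ℂ)) =O[𝓝[≠] 0] fun z : ℝ => z ^ (0 + 1) := by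
    simpa using h2
  exact ⟨e1, (bigO_step (by fun_prop) h4).1⟩

lemma curve_coeff {f : ℝ → ℂ} {t : ℝ} (hf : AnalyticAt ℝ f t) {F : ℂ × ℂ → ℂ}
    {a10 a01 a20 a11 a02 : ℂ}
    (hF : (fun p : ℂ × ℂ => F p - (F 0 + a10 * p.1 + a01 * p.2 + a20 * p.1 ^ 2 + a11 * (p.1 * p.2)
      + a02 * p.2 ^ 2)) =O[𝓝 0] (fun p => ‖p‖ ^ 3))
    {r : ℝ → ℝ} (hr : AnalyticAt ℝ r t) (hr0 : r t = 0)
    (hfr : ∀ᶠ s in 𝓝 t, f s = conj (F (0, (r s : ℂ)))) :
    deriv f t = ((deriv r t : ℝ) : ℂ) * conj a01 ∧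
      iteratedDeriv 2 f t = ((deriv r t : ℝ) : ℂ) ^ 2 * (2 * conj a02)
        + ((iteratedDeriv 2 r t : ℝ) : ℂ) * conj a01 := by
  have ht : Tendsto (fun h : ℝ => t + h) (𝓝 0) (𝓝 t) := by
    have : Continuous (fun h : ℝ => t + h) := by fun_prop
    exact this.tendsto' 0 t (by simp)
  have hrc : Tendsto (fun h : ℝ => r (t + h)) (𝓝 0) (𝓝 0) := by
    have := hr.continuousAt.tendsto.comp ht
    rwa [hr0] at this
  -- r (t+h) = O(h)
  have hid3 : (fun h : ℝ => h ^ 3) =O[𝓝 0] fun h : ℝ => h ^ 3 := isBigO_refl _ _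
  have Tr := taylor_real hr
  have Tf := taylor_real hf
  rw [hr0] at Tr
  set r1 := deriv r t
  set r2 := iteratedDeriv 2 r t
  have or1 : (fun h : ℝ => r (t + h)) =O[𝓝 0] fun h : ℝ => h := by
    have := (hr.differentiableAt.isBigO_sub).comp_tendsto ht
    simpa [hr0, Function.comp_def] using this
  -- composition with F
  have hm : Tendsto (fun h : ℝ => (((0 : ℂ), (r (t + h) : ℂ)) : ℂ × ℂ)) (𝓝 0) (𝓝 0) := by
    have h1 : Tendsto (fun h : ℝ => (r (t + h) : ℂ)) (𝓝 0) (𝓝 0) := by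
      have := (Complex.continuous_ofReal.tendsto 0).comp hrc
      simpa [Function.comp_def] using this
    exact (tendsto_const_nhds (x := (0 : ℂ))).prodMk_nhds h1
  have hFc := hF.comp_tendsto hm
  have hO : ((fun p : ℂ × ℂ => ‖p‖ ^ 3) ∘ fun h : ℝ => (((0 : ℂ), (r (t + h) : ℂ)) : ℂ × ℂ))
      =O[𝓝 0] fun h : ℝ => h ^ 3 := by
    have := (or1.norm_left).pow 3
    refine this.congr_left ?_
    intro h
    simp [Prod.norm_def]
  have hFc2 := hFc.trans hO
  -- conjugate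
  have hFc3 : (fun h : ℝ => conj (F (0, (r (t + h) : ℂ))) - (conj (F 0)
      + conj a01 * (r (t + h) : ℂ) + conj a02 * (r (t + h) : ℂ) ^ 2)) =O[𝓝 0]
      fun h : ℝ => h ^ 3 := by
    refine IsBigO.of_norm_left ?_
    refine hFc2.norm_left.congr_left ?_
    intro h
    rw [← Complex.norm_conj]
    congr 1
    simp only [Function.comp, map_sub, map_add, map_mul, map_pow, map_zero, Complex.conj_ofReal]
    ring
  -- squares
  have hcr : (fun h : ℝ => (r (t + h) : ℂ) - ((h : ℂ) * r1 + (h : ℂ) ^ 2 * (r2 / 2)))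
      =O[𝓝 0] fun h : ℝ => h ^ 3 := by
    refine IsBigO.of_norm_left ?_
    refine Tr.norm_left.congr_left ?_
    intro h
    rw [← Complex.norm_real]
    congr 1
    simp only [smul_eq_mul]
    push_cast
    ring
  have hsq : (fun h : ℝ => (r (t + h) : ℂ) ^ 2 - (h : ℂ) ^ 2 * (r1 : ℂ) ^ 2)
      =O[𝓝 0] fun h : ℝ => h ^ 3 := by
    -- (r - h r1) (r + h r1)
    have e1 : (fun h : ℝ => (r (t + h) : ℂ) - (h : ℂ) * r1) =O[𝓝 0] fun h : ℝ => h ^ 2 := by
      have h2 : (fun h : ℝ => (h : ℂ) ^ 2 * (r2 / 2)) =O[𝓝 0] fun h : ℝ => h ^ 2 := by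
        refine IsBigO.of_bound ‖(r2 : ℂ) / 2‖ (Eventually.of_forall fun h => ?_)
        rw [norm_mul, norm_pow, norm_pow, mul_comm, Complex.norm_real]
      have h3 : (fun h : ℝ => h ^ 3) =O[𝓝 0] fun h : ℝ => h ^ 2 := by
        refine IsBigO.of_bound 1 ?_
        filter_upwards [Metric.ball_mem_nhds (0 : ℝ) one_pos] with h hh
        have h1 : ‖h‖ ≤ 1 := by
          rw [mem_ball_zero_iff] at hh
          exact hh.le
        rw [norm_pow, norm_pow, one_mul]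
        exact pow_le_pow_of_le_one (norm_nonneg _) h1 (by norm_num)
      refine ((hcr.trans h3).add h2).congr_left ?_
      intro h; ring
    have e2 : (fun h : ℝ => (r (t + h) : ℂ) + (h : ℂ) * r1) =O[𝓝 0] fun h : ℝ => h := by
      have h1 : (fun h : ℝ => (r (t + h) : ℂ)) =O[𝓝 0] fun h : ℝ => h := by
        refine IsBigO.of_norm_left ?_
        refine or1.norm_left.congr_left ?_
        intro h
        rw [Complex.norm_real]
      have h2 : (fun h : ℝ => (h : ℂ) * r1) =O[𝓝 0] fun h : ℝ => h := by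
        refine IsBigO.of_bound ‖(r1 : ℂ)‖ (Eventually.of_forall fun h => ?_)
        rw [norm_mul, mul_comm, Complex.norm_real h]
      exact h1.add h2
    have := e1.mul e2
    refine (this.congr_left ?_).congr_right ?_
    · intro h; ring
    · intro h; ring
  -- combine
  have hev : ∀ᶠ h : ℝ in 𝓝 0, f (t + h) = conj (F (0, (r (t + h) : ℂ))) := ht.eventually hfr
  have hall : (fun h : ℝ => (f t - conj (F 0)) + h • (deriv f t - (r1 : ℂ) * conj a01)
      + h ^ 2 • ((1 / 2 : ℝ) • iteratedDeriv 2 f t - ((r2 : ℂ) / 2 * conj a01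
        + (r1 : ℂ) ^ 2 * conj a02))) =O[𝓝 0] fun h : ℝ => h ^ 3 := by
    have hh := ((hFc3.sub Tf).add (hcr.const_mul_left (conj a01))).add
      (hsq.const_mul_left (conj a02))
    refine hh.congr' ?_ EventuallyEq.rfl
    filter_upwards [hev] with h hh
    rw [hh]
    simp only [Complex.real_smul]
    push_cast
    ring
  obtain ⟨u1, u2⟩ := quad_unique hall
  constructor
  · linear_combination u1
  · have : (1 / 2 : ℝ) • iteratedDeriv 2 f t = (1 / 2 : ℂ) * iteratedDeriv 2 f t := by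
      rw [Complex.real_smul]; push_cast; ring
    rw [this] at u2
    linear_combination 2 * u2

/-- INTERFACE (L1-L4): an analytic curve in `M_β` that is a chain at `c t` satisfies the
chain equation at `t`. -/
theorem chain_eq' (β : ℝ) {c : ℝ → ℂ × ℂ} {γ : Set (ℂ × ℂ)} {t : ℝ} (hc : AnalyticAt ℝ c t)
    (hcγ : ∀ᶠ s in 𝓝 t, c s ∈ γ)
    (hD : Dd (β : ℂ) (c t).1 (conj (c t).1) ≠ 0)
    (hchain : IsChainAt {p | rb β p = 0} γ (c t)) :
    ChainEq I (β : ℂ) (c t).1 (conj (c t).1) (conj (c t).2)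
      (Dd (β : ℂ) (c t).1 (conj (c t).1))⁻¹
      (deriv (fun s => conj (c s).1) t) (iteratedDeriv 2 (fun s => conj (c s).1) t)
      (deriv (fun s => conj (c s).2) t) (iteratedDeriv 2 (fun s => conj (c s).2) t) := by
  obtain ⟨Φ, N, hΦ, hΦ0, hbij, hN, hM, hγ⟩ := hchain
  obtain ⟨a10, a01, a20, a11, a02, ha⟩ := taylor2 (f := fun p => (Φ p).1) (analyticAt_fst.comp hΦ)
  obtain ⟨b10, b01, b20, b11, b02, hb⟩ := taylor2 (f := fun p => (Φ p).2) (analyticAt_snd.comp hΦ)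
  have hgerm := chain_germ hΦ hN hM ha hb (by rw [hΦ0]; exact hD)
  rw [hΦ0] at hgerm
  -- the local inverse
  have hker : (fderiv ℂ Φ 0).ker = ⊥ := LinearMap.ker_eq_bot.2 hbij.1
  have hran : (fderiv ℂ Φ 0).range = ⊤ := LinearMap.range_eq_top.2 hbij.2
  set e := ContinuousLinearEquiv.ofBijective (fderiv ℂ Φ 0) hker hran
  have hf' : HasFDerivAt Φ (e : ℂ × ℂ →L[ℂ] ℂ × ℂ) 0 := by
    have he : (e : ℂ × ℂ →L[ℂ] ℂ × ℂ) = fderiv ℂ Φ 0 :=
      ContinuousLinearEquiv.coe_ofBijective _ hker hran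
    rw [he]
    exact hΦ.differentiableAt.hasFDerivAt
  have hcd : ContDiffAt ℂ ω Φ 0 := hΦ.contDiffAt
  have hne : (ω : WithTop ℕ∞) ≠ 0 := by simp
  have hs := hcd.hasStrictFDerivAt' hf' hne
  set Ψ := hcd.localInverse hf' hne with hΨ
  have hΨa : AnalyticAt ℂ Ψ (Φ 0) := (hcd.to_localInverse hf' hne).analyticAt
  have hΨ0 : Ψ (Φ 0) = 0 := hcd.localInverse_apply_image hf' hne
  have hri : ∀ᶠ y in 𝓝 (Φ 0), Φ (Ψ y) = y := hs.eventually_right_inverse
  have hΨt : Tendsto Ψ (𝓝 (Φ 0)) (𝓝 0) := by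
    have := hΨa.continuousAt.tendsto
    rwa [hΨ0] at this
  have hct : Tendsto c (𝓝 t) (𝓝 (Φ 0)) := by
    have := hc.continuousAt.tendsto
    rwa [hΦ0]
  set u : ℝ → ℂ := fun s => (Ψ (c s)).2 with hu
  have hua : AnalyticAt ℝ u t := by
    have h1 : AnalyticAt ℝ Ψ (c t) := by
      rw [← hΦ0]; exact hΨa.restrictScalars
    exact analyticAt_snd.comp (h1.comp hc)
  set r : ℝ → ℝ := fun s => (u s).re with hr
  have hra : AnalyticAt ℝ r t := by
    have h1 : AnalyticAt ℝ (fun z : ℂ => z.re) (u t) := Complex.reCLM.analyticAt _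
    exact h1.comp hua
  have hr0 : r t = 0 := by
    simp only [hr, hu, ← hΦ0, hΨ0]
    simp
  have hcs : ∀ᶠ s in 𝓝 t, c s = Φ (0, (r s : ℂ)) := by
    filter_upwards [hct.eventually hri, (hΨt.comp hct).eventually hγ, hcγ] with s h1 h2 h3
    simp only [Function.comp] at h2
    rw [h1] at h2
    obtain ⟨z0, im0⟩ := h2.1 h3
    have : Ψ (c s) = (0, (r s : ℂ)) := by
      ext
      · simpa using z0
      · have : (Ψ (c s)).2 = (((Ψ (c s)).2.re : ℝ) : ℂ) := by
          apply Complex.ext <;> simp [im0]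
        exact this
    rw [← this, h1]
  have hc1 : AnalyticAt ℝ (fun s => conj (c s).1) t :=
    (Complex.conjCLE.toContinuousLinearMap.analyticAt _).comp (analyticAt_fst.comp hc)
  have hc2 : AnalyticAt ℝ (fun s => conj (c s).2) t :=
    (Complex.conjCLE.toContinuousLinearMap.analyticAt _).comp (analyticAt_snd.comp hc)
  obtain ⟨d1, d2⟩ := curve_coeff hc1 ha hra hr0 (hcs.mono fun s hs => by rw [hs])
  obtain ⟨d3, d4⟩ := curve_coeff hc2 hb hra hr0 (hcs.mono fun s hs => by rw [hs])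
  rw [d1, d2, d3, d4]
  unfold ChainEq at hgerm ⊢
  simp only at hgerm ⊢
  linear_combination ((deriv r t : ℝ) : ℂ) ^ 3 * hgerm

theorem chain_eq (β : ℝ) {c : ℝ → ℂ × ℂ} {γ : Set (ℂ × ℂ)} {t : ℝ} (hc : AnalyticAt ℝ c t)
    (hcγ : ∀ᶠ s in 𝓝 t, c s ∈ γ) (_hr : ∀ᶠ s in 𝓝 t, rb β (c s) = 0)
    (hD : Dd (β : ℂ) (c t).1 (conj (c t).1) ≠ 0)
    (hchain : IsChainAt {p | rb β p = 0} γ (c t)) :
    ChainEq I (β : ℂ) (c t).1 (conj (c t).1) (conj (c t).2)
      (Dd (β : ℂ) (c t).1 (conj (c t).1))⁻¹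
      (deriv (fun s => conj (c s).1) t) (iteratedDeriv 2 (fun s => conj (c s).1) t)
      (deriv (fun s => conj (c s).2) t) (iteratedDeriv 2 (fun s => conj (c s).2) t) :=
  chain_eq' β hc hcγ hD hchain

end MP8eabdf
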