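import Pool.Agent.Lib.MP_8eabdf_an.FDefs

/-! F1 (scaling), F2 (functoriality), F3 (value at `u = 0`) of the scaled chain equation -/

namespace MP8eabdf

section Ring
open Polynomial
variable {R S : Type*} [CommRing R] [CommRing S]

lemma xx_map (f : R →+* S) (x : R) : (xx x).map f = xx (f x) := by simp [xx]

lemma SGP_map (f : R →+* S) (u b x χ g : R) :
    (SGP u b x χ g).map f = SGP (f u) (f b) (f x) (f χ) (f g) := by
  simp [SGP, Sd, Sa, Bb, xx, map_ofNat]

lemma ShP_map (f : R →+* S) (i u b x χ T g : R) :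
    (ShP i u b x χ T g).map f = ShP (f i) (f u) (f b) (f x) (f χ) (f T) (f g) := by
  rw [ShP, Polynomial.map_mul, SGP_map, ShP]
  simp [Sh, Sa, Sa1, Bb, Bb1, xx]

lemma SKP_map (f : R →+* S) (i u b x χ T g : R) :
    (SKP i u b x χ T g).map f = SKP (f i) (f u) (f b) (f x) (f χ) (f T) (f g) := by
  rw [SKP, Sk, SKP, Sk, Polynomial.map_sub, Polynomial.map_mul, Polynomial.map_mul,
    Polynomial.map_mul, Polynomial.map_pow, SGP_map]
  simp [Sh, Sh1, Sa, Sa1, Sa2, Bb, Bb1, Bb2, xx]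

theorem SP_map (f : R →+* S) (i u b ζ η T g e₁ e₂ T₁ T₂ : R) :
    f (SP i u b ζ η T g e₁ e₂ T₁ T₂) =
      SP (f i) (f u) (f b) (f ζ) (f η) (f T) (f g) (f e₁) (f e₂) (f T₁) (f T₂) := by
  simp only [SP, ← ShP_map, ← SKP_map, coeff_map]
  simp only [map_sub, map_add, map_mul, map_pow, map_ofNat]

theorem Sol.map (f : R →+* S) {θ : R → R} {θ' : S → S}
    (hθ : ∀ x, f (θ x) = θ' (f x)) {i u b ζ η ν g : R} (h : Sol i u b θ ζ η ν g) :
    Sol (f i) (f u) (f b) θ' (f ζ) (f η) (f ν) (f g) := by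
  constructor
  · have := congrArg f h.e1
    rw [SP_map] at this
    simp only [map_sub, map_add, map_mul, map_pow, map_one, map_zero, hθ] at this
    exact this
  · have := congrArg f h.e2
    rw [SP_map] at this
    simp only [map_add, map_mul, map_pow, map_one, map_zero, map_neg, hθ] at this
    exact this
  · have := congrArg f h.e3
    simp only [Sa, Bb] at this ⊢
    simp only [map_sub, map_add, map_mul, map_pow, map_one] at this
    exact this
  · have := congrArg f h.e4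
    simp only [Sd, Sa, Bb] at this ⊢
    simp only [map_sub, map_mul, map_add, map_pow, map_one, map_ofNat] at this
    exact this

/-- the four lowest coefficients of a cubic -/
lemma coeff_cubic (a0 a1 a2 a3 : R) :
    (C a0 + C a1 * X + C a2 * X ^ 2 + C a3 * X ^ 3 : R[X]).coeff 0 = a0 ∧
    (C a0 + C a1 * X + C a2 * X ^ 2 + C a3 * X ^ 3 : R[X]).coeff 1 = a1 ∧
    (C a0 + C a1 * X + C a2 * X ^ 2 + C a3 * X ^ 3 : R[X]).coeff 2 = a2 ∧
    (C a0 + C a1 * X + C a2 * X ^ 2 + C a3 * X ^ 3 : R[X]).coeff 3 = a3 := by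
  refine ⟨?_, ?_, ?_, ?_⟩ <;> simp [coeff_X, coeff_X_pow, coeff_C]

theorem SP_zero (i ζ η T e₁ e₂ T₁ T₂ : R) :
    SP i 0 0 ζ η T 1 e₁ e₂ T₁ T₂ = -64 * i ^ 3 * η * T ^ 2 * T₁ ^ 3 := by
  have hG : SGP 0 0 ζ η 1 = (1 : R[X]) := by
    simp [SGP, Sd]
  have hh : ShP i 0 0 ζ η T 1 = C (-2 * i * (2 * ζ ^ 2 * η + ζ * T ^ 2))
      + C (-2 * i * (4 * ζ * η + T ^ 2)) * X + C (-2 * i * (2 * η)) * X ^ 2 + C 0 * X ^ 3 := by
    rw [ShP, hG]
    simp only [Sh, Sa, Sa1, Bb, Bb1, xx, map_mul, map_add, map_neg, map_pow, map_zero, map_ofNat]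
    ring
  have hk : SKP i 0 0 ζ η T 1 = C (-4 * i * ζ ^ 2)
      + C (-8 * i * ζ) * X + C (-4 * i) * X ^ 2 + C 0 * X ^ 3 := by
    rw [SKP, hG]
    simp only [Sk, Sh, Sh1, Sa, Sa1, Sa2, Bb, Bb1, Bb2, xx, map_mul, map_neg, map_pow,
      map_zero, map_ofNat]
    ring
  obtain ⟨h0, h1, h2, h3⟩ := coeff_cubic (-2 * i * (2 * ζ ^ 2 * η + ζ * T ^ 2))
    (-2 * i * (4 * ζ * η + T ^ 2)) (-2 * i * (2 * η)) 0
  obtain ⟨k0, k1, k2, k3⟩ := coeff_cubic (-4 * i * ζ ^ 2) (-8 * i * ζ) (-4 * i) 0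
  simp only [SP, hh, hk, h0, h1, h2, h3, k0, k1, k2, k3]
  ring

lemma Dd_scale (β u X χ : R) : Dd β (u * X) (u * χ) = Sd u (β * u) X χ := by
  simp only [Dd, Sd, Aa, Sa, Bb]; ring

lemma Hh_scale (i β u X χ T : R) :
    Hh i β (u * X) (u * χ) (u * T) = u ^ 3 * Sh i u (β * u) X χ T := by
  simp only [Hh, Sh, Aa, Aa1, Sa, Sa1, Bb, Bb1]; ring

lemma Kk_scale (i β u X χ T G : R) :
    Kk i β (u * X) (u * χ) (u * T) G = u ^ 2 * Sk i u (β * u) X χ T G := by
  simp only [Kk, Hh, Hh1, Sk, Sh, Sh1, Aa, Aa1, Aa2, Sa, Sa1, Sa2, Bb, Bb1, Bb2]; ring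

lemma xx_comp (u x : R) : (xx (u * x)).comp (C u * X) = C u * xx x := by
  simp [xx]; ring

lemma GP_comp (β u x χ g : R) :
    (GP β (u * x) (u * χ) g).comp (C u * X) = SGP u (β * u) x χ g := by
  have h1 : (Dd (C β) (xx (u * x)) (C (u * χ))).comp (C u * X)
      = Sd (C u) (C (β * u)) (xx x) (C χ) := by
    have : (Dd (C β) (xx (u * x)) (C (u * χ))).comp (C u * X)
        = Dd (C β) ((xx (u * x)).comp (C u * X)) (C (u * χ)) := by
      simp [Dd, Aa, Bb]
    rw [this, xx_comp, C_mul, Dd_scale, C_mul]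
  simp only [GP, SGP]
  simp only [mul_comp, sub_comp, add_comp, pow_comp, one_comp, C_comp, h1, Dd_scale]

lemma hP_comp (i β u x χ T g : R) :
    (hP i β (u * x) (u * χ) (u * T) g).comp (C u * X) = C (u ^ 3) * ShP i u (β * u) x χ T g := by
  have h1 : (Hh (C i) (C β) (xx (u * x)) (C (u * χ)) (C (u * T))).comp (C u * X)
      = C (u ^ 3) * Sh (C i) (C u) (C (β * u)) (xx x) (C χ) (C T) := by
    have : (Hh (C i) (C β) (xx (u * x)) (C (u * χ)) (C (u * T))).comp (C u * X)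
        = Hh (C i) (C β) ((xx (u * x)).comp (C u * X)) (C (u * χ)) (C (u * T)) := by
      simp [Hh, Aa, Aa1, Bb, Bb1]
    rw [this, xx_comp, C_mul, C_mul, Hh_scale, C_mul, C_pow]
  rw [hP, mul_comp, h1, GP_comp, ShP, mul_assoc]

lemma KP_comp (i β u x χ T g : R) :
    (KP i β (u * x) (u * χ) (u * T) g).comp (C u * X) = C (u ^ 2) * SKP i u (β * u) x χ T g := by
  have : (KP i β (u * x) (u * χ) (u * T) g).comp (C u * X)
      = Kk (C i) (C β) ((xx (u * x)).comp (C u * X)) (C (u * χ)) (C (u * T))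
        ((GP β (u * x) (u * χ) g).comp (C u * X)) := by
    rw [KP]
    simp only [Kk, Hh, Hh1, Aa, Aa1, Aa2, Bb, Bb1, Bb2, mul_comp, sub_comp, add_comp, pow_comp,
      one_comp, C_comp, neg_comp, ofNat_comp, Nat.cast_ofNat]
  rw [this, xx_comp, GP_comp, C_mul, C_mul, Kk_scale, SKP, C_mul, C_pow]

/-- F1 -/
theorem SP_of_chainEq [IsDomain R] {i β u ζ η T g e₁ e₂ T₁ T₂ : R}
    (hu : u ≠ 0)
    (h : ChainEq i β (u * ζ) (u * η) (u * T) g (u * e₁) (u * (e₁ + e₂)) (u * T₁) (u * (T₁ + T₂))) :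
    SP i u (β * u) ζ η T g e₁ e₂ T₁ T₂ = 0 := by
  have hh : ∀ j, (hP i β (u * ζ) (u * η) (u * T) g).coeff j * u ^ j
      = u ^ 3 * (ShP i u (β * u) ζ η T g).coeff j := by
    intro j
    rw [← comp_C_mul_X_coeff, hP_comp, coeff_C_mul]
  have hk : ∀ j, (KP i β (u * ζ) (u * η) (u * T) g).coeff j * u ^ j
      = u ^ 2 * (SKP i u (β * u) ζ η T g).coeff j := by
    intro j
    rw [← comp_C_mul_X_coeff, KP_comp, coeff_C_mul]
  unfold ChainEq at h
  simp only at h
  unfold SP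
  simp only
  have h0 := hh 0
  have h1 := hh 1
  have h2 := hh 2
  have h3 := hh 3
  have k0 := hk 0
  have k1 := hk 1
  have k2 := hk 2
  have k3 := hk 3
  generalize (hP i β (u * ζ) (u * η) (u * T) g).coeff 0 = H0 at *
  generalize (hP i β (u * ζ) (u * η) (u * T) g).coeff 1 = H1 at *
  generalize (hP i β (u * ζ) (u * η) (u * T) g).coeff 2 = H2 at *
  generalize (hP i β (u * ζ) (u * η) (u * T) g).coeff 3 = H3 at *
  generalize (KP i β (u * ζ) (u * η) (u * T) g).coeff 0 = K0 at *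
  generalize (KP i β (u * ζ) (u * η) (u * T) g).coeff 1 = K1 at *
  generalize (KP i β (u * ζ) (u * η) (u * T) g).coeff 2 = K2 at *
  generalize (KP i β (u * ζ) (u * η) (u * T) g).coeff 3 = K3 at *
  generalize (ShP i u (β * u) ζ η T g).coeff 0 = a0 at *
  generalize (ShP i u (β * u) ζ η T g).coeff 1 = a1 at *
  generalize (ShP i u (β * u) ζ η T g).coeff 2 = a2 at *
  generalize (ShP i u (β * u) ζ η T g).coeff 3 = a3 at *
  generalize (SKP i u (β * u) ζ η T g).coeff 0 = b0 at *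
  generalize (SKP i u (β * u) ζ η T g).coeff 1 = b1 at *
  generalize (SKP i u (β * u) ζ η T g).coeff 2 = b2 at *
  generalize (SKP i u (β * u) ζ η T g).coeff 3 = b3 at *
  have e0 : H0 = u ^ 3 * a0 := by simpa using h0
  have e1 : H1 = u ^ 2 * a1 := by
    apply mul_right_cancel₀ hu; linear_combination h1
  have e2 : H2 = u * a2 := by
    apply mul_right_cancel₀ (pow_ne_zero 2 hu); linear_combination h2
  have e3 : H3 = a3 := by
    apply mul_right_cancel₀ (pow_ne_zero 3 hu); linear_combination h3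
  have f0 : K0 = u ^ 2 * b0 := by simpa using k0
  have f1 : K1 = u * b1 := by
    apply mul_right_cancel₀ hu; linear_combination k1
  have f2 : K2 = b2 := by
    apply mul_right_cancel₀ (pow_ne_zero 2 hu); linear_combination k2
  have f3 : K3 * u = b3 := by
    apply mul_right_cancel₀ (pow_ne_zero 2 hu); linear_combination k3
  apply mul_left_cancel₀ (pow_ne_zero 6 hu)
  rw [mul_zero]
  subst e0 e1 e2 e3 f0 f1 f2 f3
  linear_combination h

end Ring

end MP8eabdf
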