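import Pool.Agent.Lib.MP_8eabdf_an.TH

/-! the chain equation in `ℂ⟦X⟧` and the derivation `θ` -/

namespace MP8eabdf

open Complex Filter Topology Asymptotics Set
open scoped ComplexConjugate PowerSeries

section Ring
open Polynomial
variable {R S : Type*} [CommRing R] [CommRing S]

/-- difference of the two sides of the chain equation -/
noncomputable def CE (i β x χ τ g χ₁ χ₂ τ₁ τ₂ : R) : R :=
  let h : ℕ → R := fun j => (hP i β x χ τ g).coeff j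
  let K : ℕ → R := fun j => (KP i β x χ τ g).coeff j
  let Δ : R := τ₁ - h 0 * χ₁
  h 1 ^ 5 * (χ₁ * τ₂ - τ₁ * χ₂) -
    (h 1 ^ 5 * K 0 * χ₁ ^ 3 + h 1 ^ 4 * K 1 * χ₁ ^ 2 * Δ
    + h 1 ^ 2 * (K 2 * h 1 - K 1 * h 2) * χ₁ * Δ ^ 2
    + (K 3 * h 1 ^ 2 - K 1 * h 1 * h 3 - 2 * K 2 * h 1 * h 2 + 2 * K 1 * h 2 ^ 2) * Δ ^ 3)

lemma chainEq_iff (i β x χ τ g χ₁ χ₂ τ₁ τ₂ : R) :
    ChainEq i β x χ τ g χ₁ χ₂ τ₁ τ₂ ↔ CE i β x χ τ g χ₁ χ₂ τ₁ τ₂ = 0 := by
  unfold ChainEq CE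
  exact sub_eq_zero.symm

lemma GP_map (f : R →+* S) (b x χ g : R) :
    (GP b x χ g).map f = GP (f b) (f x) (f χ) (f g) := by
  simp [GP, Dd, Aa, Bb, xx, map_ofNat]

lemma hP_map (f : R →+* S) (i b x χ T g : R) :
    (hP i b x χ T g).map f = hP (f i) (f b) (f x) (f χ) (f T) (f g) := by
  rw [hP, Polynomial.map_mul, GP_map, hP]
  simp [Hh, Aa, Aa1, Bb, Bb1, xx]

lemma KP_map (f : R →+* S) (i b x χ T g : R) :
    (KP i b x χ T g).map f = KP (f i) (f b) (f x) (f χ) (f T) (f g) := by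
  rw [KP, Kk, KP, Kk, Polynomial.map_sub, Polynomial.map_mul, Polynomial.map_mul,
    Polynomial.map_mul, Polynomial.map_pow, GP_map]
  simp [Hh, Hh1, Aa, Aa1, Aa2, Bb, Bb1, Bb2, xx]

theorem CE_map (f : R →+* S) (i β x χ τ g χ₁ χ₂ τ₁ τ₂ : R) :
    f (CE i β x χ τ g χ₁ χ₂ τ₁ τ₂) =
      CE (f i) (f β) (f x) (f χ) (f τ) (f g) (f χ₁) (f χ₂) (f τ₁) (f τ₂) := by
  simp only [CE, ← hP_map, ← KP_map, coeff_map]
  simp only [map_sub, map_add, map_mul, map_pow, map_ofNat]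

lemma chainEq_repar {i β x χ τ g χ₁ χ₂ τ₁ τ₂ : R} (l m : R)
    (h : ChainEq i β x χ τ g χ₁ χ₂ τ₁ τ₂) :
    ChainEq i β x χ τ g (l * χ₁) (l ^ 2 * χ₂ + m * χ₁) (l * τ₁) (l ^ 2 * τ₂ + m * τ₁) := by
  unfold ChainEq at h ⊢
  simp only at h ⊢
  linear_combination l ^ 3 * h

end Ring

/-- `θ = (X/b) d/dX` -/
noncomputable def thb (b : ℕ) : ℂ⟦X⟧ → ℂ⟦X⟧ := thetaS fun n => (n : ℂ) / b

lemma thb_eq {b : ℕ} (_hb : 0 < b) (f : ℂ⟦X⟧) :
    thb b f = PowerSeries.C ((b : ℂ)⁻¹) * PowerSeries.X * PowerSeries.derivative ℂ f := by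
  ext n
  rw [thb, thetaS, PowerSeries.coeff_mk, mul_assoc, PowerSeries.coeff_C_mul]
  rcases n with _ | n
  · simp
  · rw [PowerSeries.coeff_succ_X_mul, PowerSeries.coeff_derivative]
    push_cast
    field_simp

lemma thb_mul {b : ℕ} (hb : 0 < b) (f g : ℂ⟦X⟧) :
    thb b (f * g) = f * thb b g + thb b f * g := by
  rw [thb_eq hb, thb_eq hb, thb_eq hb, Derivation.leibniz]
  simp only [smul_eq_mul]
  ring

lemma thb_U {b : ℕ} (hb : 0 < b) (ε : ℂ) :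
    thb b (PowerSeries.C ε * PowerSeries.X ^ b) = PowerSeries.C ε * PowerSeries.X ^ b := by
  ext n
  rw [thb, thetaS, PowerSeries.coeff_mk, PowerSeries.coeff_C_mul, PowerSeries.coeff_X_pow]
  split_ifs with h
  · subst h
    have : (n : ℂ) ≠ 0 := by exact_mod_cast hb.ne'
    field_simp
  · simp

lemma thb_Umul {b : ℕ} (hb : 0 < b) (ε : ℂ) (f : ℂ⟦X⟧) :
    thb b (PowerSeries.C ε * PowerSeries.X ^ b * f)
      = PowerSeries.C ε * PowerSeries.X ^ b * (f + thb b f) := by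
  rw [thb_mul hb, thb_U hb]; ring

lemma thb_thb {b : ℕ} (hb : 0 < b) (f : ℂ⟦X⟧) :
    thb b (thb b f) = (PowerSeries.C ((b : ℂ)⁻¹) * PowerSeries.X) ^ 2
        * PowerSeries.derivative ℂ (PowerSeries.derivative ℂ f)
      + (PowerSeries.C ((b : ℂ)⁻¹) * PowerSeries.X * PowerSeries.C ((b : ℂ)⁻¹))
        * PowerSeries.derivative ℂ f := by
  rw [thb_eq hb, thb_eq hb, Derivation.leibniz, Derivation.leibniz]
  simp only [smul_eq_mul, PowerSeries.derivative_X, PowerSeries.derivative_C]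
  ring

/-- the chain equation in `ℂ⟦X⟧` implies the scaled one -/
theorem SP_of_CE {b : ℕ} (hb : 0 < b) {i β ε : ℂ} (hε : ε ≠ 0) {ζ η T g : ℂ⟦X⟧}
    (h : ChainEq (PowerSeries.C i) (PowerSeries.C β)
      (PowerSeries.C ε * PowerSeries.X ^ b * ζ) (PowerSeries.C ε * PowerSeries.X ^ b * η)
      (PowerSeries.C ε * PowerSeries.X ^ b * T) g
      (PowerSeries.derivative ℂ (PowerSeries.C ε * PowerSeries.X ^ b * η))
      (PowerSeries.derivative ℂ
        (PowerSeries.derivative ℂ (PowerSeries.C ε * PowerSeries.X ^ b * η)))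
      (PowerSeries.derivative ℂ (PowerSeries.C ε * PowerSeries.X ^ b * T))
      (PowerSeries.derivative ℂ
        (PowerSeries.derivative ℂ (PowerSeries.C ε * PowerSeries.X ^ b * T)))) :
    SP (PowerSeries.C i) (PowerSeries.C ε * PowerSeries.X ^ b)
      (PowerSeries.C (β * ε) * PowerSeries.X ^ b) ζ η T g (η + thb b η) (thb b (η + thb b η))
      (T + thb b T) (thb b (T + thb b T)) = 0 := by
  set U : ℂ⟦X⟧ := PowerSeries.C ε * PowerSeries.X ^ b with hU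
  have hU0 : U ≠ 0 := by
    rw [hU]
    refine mul_ne_zero ?_ (pow_ne_zero _ PowerSeries.X_ne_zero)
    intro h0
    apply hε
    have := congrArg PowerSeries.constantCoeff h0
    simpa using this
  have h2 := chainEq_repar (PowerSeries.C ((b : ℂ)⁻¹) * PowerSeries.X)
    (PowerSeries.C ((b : ℂ)⁻¹) * PowerSeries.X * PowerSeries.C ((b : ℂ)⁻¹)) h
  rw [← thb_eq hb, ← thb_eq hb, ← thb_thb hb, ← thb_thb hb, thb_Umul hb, thb_Umul hb,
    thb_Umul hb, thb_Umul hb] at h2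
  rw [← hU] at h2
  have h3 := SP_of_chainEq hU0 h2
  have h4 : PowerSeries.C β * U = PowerSeries.C (β * ε) * PowerSeries.X ^ b := by
    rw [hU, map_mul, mul_assoc]
  rw [h4] at h3
  exact h3

/-- transfer of the chain equation from functions to Taylor series -/
theorem chainEq_tay {i β : ℂ} {x χ τ g : AnR}
    (h : ∀ᶠ s in 𝓝[≠] (0 : ℝ), ChainEq i β ((x : ℝ → ℂ) s) ((χ : ℝ → ℂ) s) ((τ : ℝ → ℂ) s)
      ((g : ℝ → ℂ) s) (deriv (χ : ℝ → ℂ) s) (iteratedDeriv 2 (χ : ℝ → ℂ) s)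
      (deriv (τ : ℝ → ℂ) s) (iteratedDeriv 2 (τ : ℝ → ℂ) s)) :
    ChainEq (PowerSeries.C i) (PowerSeries.C β) (tay x) (tay χ) (tay τ) (tay g)
      (PowerSeries.derivative ℂ (tay χ))
      (PowerSeries.derivative ℂ (PowerSeries.derivative ℂ (tay χ)))
      (PowerSeries.derivative ℂ (tay τ))
      (PowerSeries.derivative ℂ (PowerSeries.derivative ℂ (tay τ))) := by
  rw [chainEq_iff]
  have h1 : tay (CE (cR i) (cR β) x χ τ g (dR χ) (dR (dR χ)) (dR τ) (dR (dR τ))) = tay 0 := by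
    apply tay_eq_of_eventually
    filter_upwards [h] with s hs
    rw [chainEq_iff] at hs
    rw [CE_map, map_zero]
    rw [iteratedDeriv_succ, iteratedDeriv_one, iteratedDeriv_succ, iteratedDeriv_one] at hs
    exact hs
  rw [CE_map, map_zero] at h1
  simp only [tay_cR, tay_dR] at h1
  exact h1

end MP8eabdf
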