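import Pool.Agent.Lib.MP_8eabdf_an.RegPO

/-!
# Leading term calculus `f = c t^k + O(t^(k+1))`, and analytic functions
-/

namespace MP8eabdf
namespace Reg

open Filter Asymptotics Topology Set

/-- `f = c t^k + O(t^(k+1))` as `t → 0+` -/
def AE (f : ℝ → ℂ) (c : ℂ) (k : ℕ) : Prop := FO (fun t => f t - c * (t : ℂ) ^ k) (k + 1)

theorem FO.ctpow (c : ℂ) (k : ℕ) : FO (fun t => c * (t : ℂ) ^ k) k := (FO.tpow k).const_mul c

theorem AE.fo {f : ℝ → ℂ} {c : ℂ} {k : ℕ} (h : AE f c k) : FO f k :=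
  ((FO.mono h (Nat.le_succ k)).add (FO.ctpow c k)).congr fun t => by ring

theorem AE.of_fo {f : ℝ → ℂ} {k m : ℕ} (h : FO f m) (hm : k + 1 ≤ m) : AE f 0 k :=
  (h.mono hm).congr fun t => by ring

theorem AE.to_fo {f : ℝ → ℂ} {k : ℕ} (h : AE f 0 k) : FO f (k + 1) :=
  FO.congr h fun t => by ring

theorem AE.add_fo {f g : ℝ → ℂ} {c : ℂ} {k m : ℕ} (h : AE f c k) (hg : FO g m)
    (hm : k + 1 ≤ m) : AE (fun t => f t + g t) c k :=
  (FO.add h (hg.mono hm)).congr fun t => by ring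

theorem AE.add {f g : ℝ → ℂ} {c c' : ℂ} {k : ℕ} (h : AE f c k) (hg : AE g c' k) :
    AE (fun t => f t + g t) (c + c') k :=
  (FO.add h hg).congr fun t => by ring

theorem AE.sub {f g : ℝ → ℂ} {c c' : ℂ} {k : ℕ} (h : AE f c k) (hg : AE g c' k) :
    AE (fun t => f t - g t) (c - c') k :=
  (FO.sub h hg).congr fun t => by ring

theorem AE.const_mul {f : ℝ → ℂ} {c : ℂ} {k : ℕ} (b : ℂ) (h : AE f c k) :
    AE (fun t => b * f t) (b * c) k :=
  (FO.const_mul b h).congr fun t => by ring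

theorem AE.mul {f g : ℝ → ℂ} {c c' : ℂ} {k l : ℕ} (hf : AE f c k) (hg : AE g c' l) :
    AE (fun t => f t * g t) (c * c') (k + l) := by
  have h1 : FO (fun t => (f t - c * (t : ℂ) ^ k) * g t) (k + l + 1) :=
    FO.mul' hf hg.fo (by omega)
  have h2 : FO (fun t => (c * (t : ℂ) ^ k) * (g t - c' * (t : ℂ) ^ l)) (k + l + 1) :=
    FO.mul' (FO.ctpow c k) hg (by omega)
  refine (h1.add h2).congr fun t => ?_
  rw [pow_add]; ring

theorem AE.pow {f : ℝ → ℂ} {c : ℂ} {k : ℕ} (hf : AE f c k) (n : ℕ) :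
    AE (fun t => f t ^ n) (c ^ n) (k * n) := by
  induction n with
  | zero =>
    refine (FO.zero _).congr fun t => ?_
    simp
  | succ n ih =>
    have := ih.mul hf
    simpa [pow_succ, Nat.mul_succ] using this

theorem AE.congr {f g : ℝ → ℂ} {c : ℂ} {k : ℕ} (hf : AE f c k) (h : ∀ t, f t = g t) :
    AE g c k := by
  have : f = g := funext h
  rwa [← this]

theorem AE.congr' {f g : ℝ → ℂ} {c : ℂ} {k : ℕ} (hf : AE f c k) (h : ∀ᶠ t in L0, f t = g t) :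
    AE g c k := by
  refine FO.congr' hf ?_
  filter_upwards [h] with t ht
  rw [ht]

theorem AE.cast {f : ℝ → ℂ} {c c' : ℂ} {k k' : ℕ} (hf : AE f c k) (hc : c = c') (hk : k = k') :
    AE f c' k' := by subst hc hk; exact hf

theorem const_zero_of_fo {c : ℂ} {k : ℕ} (h : FO (fun t => c * (t : ℂ) ^ k) (k + 1)) :
    c = 0 := by
  have h2 := h.div_pow (m := k) (n := k + 1) (f := fun _ => c) (Nat.le_succ k)
  rw [Nat.add_sub_cancel_left] at h2
  have h3 : Tendsto (fun t : ℝ => t ^ 1) L0 (𝓝 0) := by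
    have : Tendsto (fun t : ℝ => t ^ 1) (𝓝 0) (𝓝 (0 ^ 1)) := (continuous_pow 1).tendsto 0
    rw [zero_pow one_ne_zero] at this
    exact this.mono_left nhdsWithin_le_nhds
  have h4 : Tendsto (fun _ : ℝ => c) L0 (𝓝 0) := IsBigO.trans_tendsto h2 h3
  exact (tendsto_nhds_unique h4 tendsto_const_nhds).symm

theorem AE.unique {f : ℝ → ℂ} {c c' : ℂ} {k : ℕ} (h : AE f c k) (h' : AE f c' k) : c = c' := by
  have h1 : FO (fun t => (c' - c) * (t : ℂ) ^ k) (k + 1) :=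
    (FO.sub h h').congr fun t => by ring
  have := const_zero_of_fo h1
  exact (sub_eq_zero.1 this).symm

/-- a lower bound from a nonzero leading coefficient -/
theorem AE.lower {g : ℝ → ℂ} {c : ℂ} {k : ℕ} (hg : AE g c k) (hc : c ≠ 0) :
    ∀ᶠ t in L0, ‖c‖ / 2 * t ^ k ≤ ‖g t‖ := by
  obtain ⟨C, hC⟩ := IsBigO.bound hg
  have hsmall : ∀ᶠ t : ℝ in L0, |C| * t < ‖c‖ / 2 := by
    have h1 : Tendsto (fun t : ℝ => |C| * t) (𝓝 0) (𝓝 (|C| * 0)) :=
      (continuous_const.mul continuous_id).tendsto 0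
    rw [mul_zero] at h1
    have h2 : (0 : ℝ) < ‖c‖ / 2 := by positivity
    exact (h1.mono_left nhdsWithin_le_nhds).eventually (gt_mem_nhds h2)
  filter_upwards [hC, hsmall, pos_L0] with t ht hs ht0
  have h1 : ‖c * (t : ℂ) ^ k‖ = ‖c‖ * t ^ k := by
    rw [norm_mul, norm_pow, Complex.norm_real, Real.norm_of_nonneg ht0.le]
  have h2 : ‖c * (t : ℂ) ^ k‖ ≤ ‖g t‖ + ‖g t - c * (t : ℂ) ^ k‖ := by
    have := norm_sub_le (g t) (g t - c * (t : ℂ) ^ k)
    simpa using this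
  rw [Real.norm_of_nonneg (by positivity), pow_succ] at ht
  have h3 : C * (t ^ k * t) ≤ (|C| * t) * t ^ k := by
    have : C ≤ |C| := le_abs_self C
    have hp : 0 ≤ t ^ k * t := by positivity
    nlinarith
  have h4 : (|C| * t) * t ^ k ≤ ‖c‖ / 2 * t ^ k :=
    mul_le_mul_of_nonneg_right hs.le (by positivity)
  rw [h1] at h2
  linarith

theorem FO.div_ae {f g : ℝ → ℂ} {c : ℂ} {k m n : ℕ} (h : FO (fun t => f t * g t) n)
    (hg : AE g c k) (hc : c ≠ 0) (hn : n = m + k) : FO f m := by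
  obtain ⟨C, hC⟩ := IsBigO.bound h
  refine IsBigO.of_bound (C / (‖c‖ / 2)) ?_
  filter_upwards [hC, hg.lower hc, pos_L0] with t ht hl ht0
  have hcp : 0 < ‖c‖ / 2 := by positivity
  rw [norm_mul, Real.norm_of_nonneg (by positivity : (0 : ℝ) ≤ t ^ n), hn, pow_add] at ht
  rw [Real.norm_of_nonneg (by positivity)]
  have h1 : ‖f t‖ * (‖c‖ / 2 * t ^ k) ≤ C * (t ^ m * t ^ k) :=
    (mul_le_mul_of_nonneg_left hl (norm_nonneg _)).trans ht
  have h2 : 0 < t ^ k := by positivity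
  have h3 : ‖f t‖ * (‖c‖ / 2) ≤ C * t ^ m := by
    have : (‖f t‖ * (‖c‖ / 2)) * t ^ k ≤ (C * t ^ m) * t ^ k := by linarith
    exact le_of_mul_le_mul_right this h2
  rw [div_mul_eq_mul_div, le_div_iff₀ hcp]
  exact h3

/-! ### Analytic functions -/

theorem fo_of_analytic {φ : ℝ → ℂ} (hφ : AnalyticAt ℝ φ 0) : FO φ 0 := by
  unfold FO
  simp only [pow_zero]
  exact (hφ.continuousAt.isBigO_one ℝ).mono nhdsWithin_le_nhds

theorem fo_sub_of_analytic {φ : ℝ → ℂ} (hφ : AnalyticAt ℝ φ 0) : FO (fun t => φ t - φ 0) 1 := by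
  unfold FO
  simp only [pow_one]
  have := hφ.differentiableAt.isBigO_sub
  simp only [sub_zero] at this
  exact this.mono nhdsWithin_le_nhds

theorem ae_of_analytic {f φ : ℝ → ℂ} {k : ℕ} (hφ : AnalyticAt ℝ φ 0)
    (hf : ∀ᶠ t : ℝ in 𝓝 (0 : ℝ), f t = (t : ℂ) ^ k * φ t) : AE f (φ 0) k := by
  have h1 : FO (fun t => (t : ℂ) ^ k * (φ t - φ 0)) (k + 1) :=
    (FO.tpow k).mul (fo_sub_of_analytic hφ)
  refine h1.congr' ?_
  filter_upwards [hf.filter_mono nhdsWithin_le_nhds] with t ht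
  rw [ht]; ring

/-- Euler derivative of an analytic function with a factorisation -/
theorem euler_factor {f φ : ℝ → ℂ} {k : ℕ} (hφ : AnalyticAt ℝ φ 0)
    (hf : ∀ᶠ t : ℝ in 𝓝 (0 : ℝ), f t = (t : ℂ) ^ k * φ t) :
    ∀ᶠ t : ℝ in 𝓝 (0 : ℝ), (t : ℂ) * deriv f t = (t : ℂ) ^ k * (k * φ t + t * deriv φ t) := by
  filter_upwards [hf.eventually_nhds, hφ.eventually_analyticAt] with t ht hφt
  have h1 : f =ᶠ[𝓝 t] fun s => (s : ℂ) ^ k * φ s := ht
  rw [h1.deriv_eq]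
  have h2 : HasDerivAt (fun s : ℝ => (s : ℂ) ^ k) (k * (t : ℂ) ^ (k - 1)) t := by
    have h3 : HasDerivAt (fun s : ℝ => (s : ℂ)) 1 t := Complex.ofRealCLM.hasDerivAt
    have := h3.pow k
    rw [mul_one] at this
    exact this
  have h4 := (h2.mul hφt.differentiableAt.hasDerivAt).deriv
  have h5 : deriv (fun s : ℝ => (s : ℂ) ^ k * φ s) t =
      k * (t : ℂ) ^ (k - 1) * φ t + (t : ℂ) ^ k * deriv φ t := h4
  rw [h5]
  rcases Nat.eq_zero_or_pos k with rfl | hk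
  · simp
  · obtain ⟨m, rfl⟩ : ∃ m, k = m + 1 := ⟨k - 1, by omega⟩
    rw [Nat.add_sub_cancel, pow_succ]
    ring

theorem euler_analytic {φ : ℝ → ℂ} {k : ℕ} (hφ : AnalyticAt ℝ φ 0) :
    AnalyticAt ℝ (fun t : ℝ => (k : ℂ) * φ t + t * deriv φ t) 0 := by
  have h1 : AnalyticAt ℝ (fun t : ℝ => (t : ℂ)) 0 := Complex.ofRealCLM.analyticAt 0
  exact (analyticAt_const.mul hφ).add (h1.mul hφ.deriv)

theorem ae_euler {f φ : ℝ → ℂ} {k : ℕ} (hφ : AnalyticAt ℝ φ 0)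
    (hf : ∀ᶠ t : ℝ in 𝓝 (0 : ℝ), f t = (t : ℂ) ^ k * φ t) :
    AE (fun t => (t : ℂ) * deriv f t) (k * φ 0) k := by
  have := ae_of_analytic (euler_analytic (k := k) hφ) (euler_factor hφ hf)
  simpa using this

theorem ae_euler2 {f φ : ℝ → ℂ} {k : ℕ} (hφ : AnalyticAt ℝ φ 0)
    (hf : ∀ᶠ t : ℝ in 𝓝 (0 : ℝ), f t = (t : ℂ) ^ k * φ t) (hfa : AnalyticAt ℝ f 0) :
    AE (fun t => (t : ℂ) ^ 2 * iteratedDeriv 2 f t) ((k * k - k) * φ 0) k := by
  have h1 := euler_factor hφ hf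
  have h2 := ae_euler (euler_analytic (k := k) hφ) h1
  have h3 := ae_euler hφ hf
  have h4 := h2.sub h3
  refine (h4.cast (c' := (k * k - k) * φ 0) (by simp; ring) rfl).congr' ?_
  filter_upwards [(hfa.eventually_analyticAt).filter_mono nhdsWithin_le_nhds] with t ht
  have h5 : HasDerivAt (fun s : ℝ => (s : ℂ)) 1 t := Complex.ofRealCLM.hasDerivAt
  have h6 := (h5.mul ht.deriv.differentiableAt.hasDerivAt).deriv
  have h7 : deriv (fun s : ℝ => (s : ℂ) * deriv f s) t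
      = 1 * deriv f t + (t : ℂ) * deriv (deriv f) t := h6
  rw [h7, iteratedDeriv_succ, iteratedDeriv_one]
  ring

end Reg
end MP8eabdf
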