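import Pool.Agent.Lib.MP_8eabdf_an.F10a
import Pool.Agent.Lib.MP_8eabdf_an.RegAE
import Pool.Agent.Lib.MP_8eabdf_an.LV

/-! F10: from an analytic chain curve to a solution of the formal system -/

namespace MP8eabdf

open Complex Filter Topology Asymptotics Set
open scoped ComplexConjugate PowerSeries

/-- division of an analytic function by `s^b` -/
lemma exists_factor {z : ℝ → ℂ} {b : ℕ} (hz : AnalyticAt ℝ z 0)
    (hO : z =O[𝓝 0] fun s : ℝ => s ^ b) :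
    ∃ g : ℝ → ℂ, AnalyticAt ℝ g 0 ∧ ∀ᶠ s in 𝓝 (0 : ℝ), z s = (s : ℂ) ^ b * g s := by
  by_cases h0 : ∀ᶠ t in 𝓝 (0 : ℝ), z t = 0
  · exact ⟨fun _ => 0, analyticAt_const, by simpa using h0⟩
  · obtain ⟨m, φ, hφ, hφ0, hf⟩ := hz.exists_eventuallyEq_pow_smul_nonzero_iff.2 h0
    have hf' : ∀ᶠ t : ℝ in 𝓝 (0 : ℝ), z t = (t : ℂ) ^ m * φ t := by
      filter_upwards [hf] with t ht
      rw [ht, sub_zero, Complex.real_smul]; push_cast; ring
    have hmn : b ≤ m := by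
      by_contra hcon
      push Not at hcon
      have h1 := Reg.ae_of_analytic hφ hf'
      have h2 : Reg.FO z b := hO.mono nhdsWithin_le_nhds
      exact hφ0 (Reg.AE.unique h1 (Reg.AE.of_fo h2 hcon))
    refine ⟨fun s => (s : ℂ) ^ (m - b) * φ s, ?_, ?_⟩
    · exact ((Complex.ofRealCLM.analyticAt 0).pow (m - b)).mul hφ
    · filter_upwards [hf'] with s hs
      rw [hs, ← mul_assoc, ← pow_add, Nat.add_sub_cancel' hmn]

/-- local inverse in `AnR` -/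
noncomputable def invR (f : AnR) (h : (f : ℝ → ℂ) 0 ≠ 0) : AnR :=
  ⟨fun s => ((f : ℝ → ℂ) s)⁻¹, (anR f).inv h⟩

lemma evR_invR (f : AnR) (h : (f : ℝ → ℂ) 0 ≠ 0) (s : ℝ) : evR s (invR f h) = (evR s f)⁻¹ := rfl

lemma evR_ne (f : AnR) (h : (f : ℝ → ℂ) 0 ≠ 0) : ∀ᶠ s in 𝓝 (0 : ℝ), evR s f ≠ 0 :=
  (anR f).continuousAt.eventually_ne h

lemma tay_mul_invR (f : AnR) (h : (f : ℝ → ℂ) 0 ≠ 0) : tay (invR f h) * tay f = 1 := by
  rw [← map_mul, ← map_one tay]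
  apply tay_eq_of_eventually
  filter_upwards [nhdsWithin_le_nhds (evR_ne f h)] with s hs
  rw [map_mul, evR_invR, map_one, inv_mul_cancel₀ hs]

lemma analytic_conj {f : ℝ → ℂ} {s : ℝ} (hf : AnalyticAt ℝ f s) :
    AnalyticAt ℝ (fun t => conj (f t)) s :=
  (Complex.conjCLE.toContinuousLinearMap.analyticAt (f s)).comp hf

lemma deriv_conj' {f : ℝ → ℂ} {s : ℝ} (hf : DifferentiableAt ℝ f s) :
    deriv (fun t => conj (f t)) s = conj (deriv f s) := by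
  have h1 := Complex.conjCLE.toContinuousLinearMap.hasFDerivAt.comp_hasDerivAt s hf.hasDerivAt
  exact h1.deriv

lemma deriv2_conj' {f : ℝ → ℂ} {s : ℝ} (hf : AnalyticAt ℝ f s) :
    iteratedDeriv 2 (fun t => conj (f t)) s = conj (iteratedDeriv 2 f s) := by
  rw [iteratedDeriv_succ, iteratedDeriv_one, iteratedDeriv_succ, iteratedDeriv_one]
  have h1 : deriv (fun t => conj (f t)) =ᶠ[𝓝 s] fun t => conj (deriv f t) := by
    filter_upwards [hf.eventually_analyticAt] with t ht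
    exact deriv_conj' ht.differentiableAt
  rw [h1.deriv_eq]
  exact deriv_conj' hf.deriv.differentiableAt

theorem curve_to_sol {β : ℝ} {c : ℝ → ℂ × ℂ} {b : ℕ} {ε : ℝ} (hb : 0 < b) (hε : ε = 1 ∨ ε = -1)
    (hc : AnalyticAt ℝ c 0) (hr : ∀ᶠ s in 𝓝 (0 : ℝ), rb β (c s) = 0)
    (hu : ∀ᶠ s in 𝓝 (0 : ℝ), (c s).2.re = ε * s ^ b)
    (hz : (fun s => (c s).1) =O[𝓝 0] fun s : ℝ => s ^ b)
    (hch : ∀ᶠ s in 𝓝[≠] (0 : ℝ),
      ChainEq I (β : ℂ) (c s).1 (conj (c s).1) (conj (c s).2)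
        (Dd (β : ℂ) (c s).1 (conj (c s).1))⁻¹
        (deriv (fun s => conj (c s).1) s) (iteratedDeriv 2 (fun s => conj (c s).1) s)
        (deriv (fun s => conj (c s).2) s) (iteratedDeriv 2 (fun s => conj (c s).2) s)) :
    ∃ ζ η ν g : PowerSeries ℂ,
      Sol (PowerSeries.C I) (PowerSeries.C (ε : ℂ) * PowerSeries.X ^ b)
        (PowerSeries.C ((β : ℂ) * ε) * PowerSeries.X ^ b)
        (thetaS fun n => (n : ℂ) / b) ζ η ν g ∧
      ∃ M : ℝ, ∀ n, ‖PowerSeries.coeff n η‖ ≤ M ^ (n + 1) := by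
  have hε2 : (ε : ℂ) * ε = 1 := by
    rcases hε with h | h <;> rw [h] <;> simp
  have hε0 : (ε : ℂ) ≠ 0 := by
    intro h; rw [h] at hε2; simp at hε2
  have hIs : (I : ℂ) ^ 2 = -1 := I_sq
  have hza : AnalyticAt ℝ (fun s => (c s).1) 0 := analyticAt_fst.comp hc
  have hwa : AnalyticAt ℝ (fun s => (c s).2) 0 := analyticAt_snd.comp hc
  obtain ⟨ζ0, hζ0, hzf⟩ := exists_factor hza hz
  have hζa : AnalyticAt ℝ (fun s => (ε : ℂ) * ζ0 s) 0 := analyticAt_const.mul hζ0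
  obtain ⟨uR, huR⟩ : ∃ y : AnR, y = cR ε * idR ^ b := ⟨_, rfl⟩
  obtain ⟨ζR, hζR⟩ : ∃ y : AnR, y = ⟨fun s => (ε : ℂ) * ζ0 s, hζa⟩ := ⟨_, rfl⟩
  obtain ⟨ηR, hηR⟩ : ∃ y : AnR, y = ⟨fun s => conj ((ε : ℂ) * ζ0 s), analytic_conj hζa⟩ := ⟨_, rfl⟩
  have hFa : AnalyticAt ℝ (fun s => (((c s).2.im : ℝ) : ℂ)) 0 := by
    have h1 : AnalyticAt ℝ (fun s => (c s).2.im) 0 := (Complex.imCLM.analyticAt _).comp hwa
    exact (Complex.ofRealCLM.analyticAt _).comp h1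
  obtain ⟨FR, hFR⟩ : ∃ y : AnR, y = ⟨fun s => (((c s).2.im : ℝ) : ℂ), hFa⟩ := ⟨_, rfl⟩
  obtain ⟨bR, hbR⟩ : ∃ y : AnR, y = cR β * uR := ⟨_, rfl⟩
  have eu : ∀ s, evR s uR = (ε : ℂ) * (s : ℂ) ^ b := by
    intro s; rw [huR, map_mul, map_pow]; rfl
  have eb : ∀ s, evR s bR = (β : ℂ) * evR s uR := by
    intro s; rw [hbR, map_mul]; rfl
  have eζ : ∀ s, evR s ζR = (ε : ℂ) * ζ0 s := by intro s; rw [hζR]; rfl
  have eη : ∀ s, evR s ηR = conj (evR s ζR) := by intro s; rw [hηR, hζR]; rfl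
  have eF : ∀ s, evR s FR = (((c s).2.im : ℝ) : ℂ) := by intro s; rw [hFR]; rfl
  have eu_conj : ∀ s, conj (evR s uR) = evR s uR := by
    intro s; rw [eu]; simp
  have eF_conj : ∀ s, conj (evR s FR) = evR s FR := by
    intro s
    rw [eF, Complex.conj_ofReal]
  have eu0 : evR 0 uR = 0 := by
    rw [eu]; simp [hb.ne']
  -- values of `z`, `w`
  have hz1 : ∀ᶠ s in 𝓝 (0 : ℝ), (c s).1 = evR s uR * evR s ζR := by
    filter_upwards [hzf] with s hs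
    rw [hs, eu, eζ]
    linear_combination (-(s : ℂ) ^ b * ζ0 s) * hε2
  have hw1 : ∀ᶠ s in 𝓝 (0 : ℝ), (c s).2 = evR s uR + I * evR s FR := by
    filter_upwards [hu] with s hs
    rw [eu, eF]
    conv_lhs => rw [← Complex.re_add_im (c s).2]
    rw [hs]
    push_cast
    ring
  -- `Sa`, `Sb`
  obtain ⟨SaR, hSaR⟩ : ∃ y : AnR, y = Sa uR ζR ηR := ⟨_, rfl⟩
  obtain ⟨SbR, hSbR⟩ : ∃ y : AnR, y = Bb bR ζR ηR := ⟨_, rfl⟩
  have eSa : ∀ s, evR s SaR = Sa (evR s uR) (evR s ζR) (evR s ηR) := by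
    intro s; simp only [hSaR, Sa, map_sub, map_mul, map_pow]
  have eSb : ∀ s, evR s SbR = Bb (evR s bR) (evR s ζR) (evR s ηR) := by
    intro s; simp only [hSbR, Bb, map_add, map_mul, map_pow]
  have hF1 : ∀ᶠ s in 𝓝 (0 : ℝ), evR s FR = (evR s uR) ^ 4 * evR s SaR
      + ((evR s uR) ^ 2 + (evR s FR) ^ 2) * ((evR s uR) ^ 2 * evR s SbR) := by
    filter_upwards [hr, hz1, hw1] with s h1 h2 h3
    have h4 := rb_cast β (c s)
    rw [h1] at h4
    have h5 : conj (c s).1 = evR s uR * evR s ηR := by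
      rw [h2, map_mul, eu_conj, eη]
    have h6 : conj (c s).2 = evR s uR - I * evR s FR := by
      rw [h3, map_add, map_mul, eu_conj, eF_conj, Complex.conj_I]; ring
    rw [h5, h6, h2, h3] at h4
    rw [eSa, eSb, eb]
    simp only [Sa, Bb]
    push_cast at h4
    generalize evR s uR = u at *
    generalize evR s ζR = ζ at *
    generalize evR s ηR = η at *
    generalize evR s FR = F at *
    linear_combination h4 + (F - F ^ 2 * u ^ 2 * ((ζ + β * u * ζ ^ 2) * (η + β * u * η ^ 2))) * hIs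
  have hd0 : ((1 - uR ^ 2 * SbR * FR : AnR) : ℝ → ℂ) 0 ≠ 0 := by
    have : evR 0 (1 - uR ^ 2 * SbR * FR) ≠ 0 := by
      rw [map_sub, map_mul, map_mul, map_pow, eu0, map_one]; simp
    exact this
  obtain ⟨νR, hνR⟩ : ∃ y : AnR, y = (SaR + SbR) * invR (1 - uR ^ 2 * SbR * FR) hd0 := ⟨_, rfl⟩
  have hSd0 : ((Sd uR bR ζR ηR : AnR) : ℝ → ℂ) 0 ≠ 0 := by
    have : evR 0 (Sd uR bR ζR ηR) ≠ 0 := by
      simp only [Sd]
      rw [map_sub, map_mul, map_mul, map_mul, map_pow, eu0, map_one]; simp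
    exact this
  obtain ⟨gR, hgR⟩ : ∃ y : AnR, y = invR (Sd uR bR ζR ηR) hSd0 := ⟨_, rfl⟩
  have hν1 : ∀ᶠ s in 𝓝 (0 : ℝ),
      evR s νR * (1 - (evR s uR) ^ 2 * evR s SbR * evR s FR) = evR s SaR + evR s SbR := by
    filter_upwards [evR_ne _ hd0] with s hs
    rw [hνR, map_mul, evR_invR, map_add]
    have e : evR s (1 - uR ^ 2 * SbR * FR) = 1 - (evR s uR) ^ 2 * evR s SbR * evR s FR := by
      rw [map_sub, map_mul, map_mul, map_pow, map_one]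
    rw [e] at hs ⊢
    rw [mul_assoc, inv_mul_cancel₀ hs, mul_one]
  have hF2 : ∀ᶠ s in 𝓝 (0 : ℝ), evR s FR = (evR s uR) ^ 4 * evR s νR := by
    filter_upwards [hF1, hν1, evR_ne _ hd0] with s h1 h2 h3
    have e : evR s (1 - uR ^ 2 * SbR * FR) = 1 - (evR s uR) ^ 2 * evR s SbR * evR s FR := by
      rw [map_sub, map_mul, map_mul, map_pow, map_one]
    rw [e] at h3
    apply mul_right_cancel₀ h3
    linear_combination h1 - (evR s uR) ^ 4 * h2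
  have hν2 : ∀ᶠ s in 𝓝 (0 : ℝ),
      evR s νR = evR s (Sa uR ζR ηR + Bb bR ζR ηR * (1 + uR ^ 6 * νR ^ 2)) := by
    filter_upwards [hF2, hν1] with s h1 h2
    rw [← hSaR, ← hSbR, map_add, map_mul, map_add, map_mul, map_pow, map_pow, map_one]
    rw [h1] at h2
    linear_combination h2
  -- the four functions
  obtain ⟨TR, hTR⟩ : ∃ y : AnR, y = 1 - cR I * uR ^ 3 * νR := ⟨_, rfl⟩
  obtain ⟨TR', hTR'⟩ : ∃ y : AnR, y = 1 + cR I * uR ^ 3 * νR := ⟨_, rfl⟩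
  have eT : ∀ s, evR s TR = 1 - I * (evR s uR) ^ 3 * evR s νR := by
    intro s; rw [hTR, map_sub, map_mul, map_mul, map_pow, map_one]; rfl
  have eT' : ∀ s, evR s TR' = 1 + I * (evR s uR) ^ 3 * evR s νR := by
    intro s; rw [hTR', map_add, map_mul, map_mul, map_pow, map_one]; rfl
  have hx : ∀ᶠ s in 𝓝 (0 : ℝ), (c s).1 = ((uR * ζR : AnR) : ℝ → ℂ) s := hz1
  have hχ : ∀ᶠ s in 𝓝 (0 : ℝ), conj (c s).1 = ((uR * ηR : AnR) : ℝ → ℂ) s := by
    filter_upwards [hz1] with s hs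
    show _ = evR s (uR * ηR)
    rw [hs, map_mul, map_mul, eu_conj, eη]
  have hτ : ∀ᶠ s in 𝓝 (0 : ℝ), conj (c s).2 = ((uR * TR : AnR) : ℝ → ℂ) s := by
    filter_upwards [hw1, hF2] with s h1 h2
    show _ = evR s (uR * TR)
    rw [h1, map_add, map_mul, eu_conj, eF_conj, Complex.conj_I, map_mul, eT, h2]; ring
  have hw : ∀ᶠ s in 𝓝 (0 : ℝ), (c s).2 = ((uR * TR' : AnR) : ℝ → ℂ) s := by
    filter_upwards [hw1, hF2] with s h1 h2
    show _ = evR s (uR * TR')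
    rw [h1, map_mul, eT', h2]; ring
  have hg : ∀ᶠ s in 𝓝 (0 : ℝ), (Dd (β : ℂ) (c s).1 (conj (c s).1))⁻¹ = (gR : ℝ → ℂ) s := by
    filter_upwards [hx, hχ] with s h1 h2
    have h3 : ((uR * ζR : AnR) : ℝ → ℂ) s = evR s uR * evR s ζR := rfl
    have h4 : ((uR * ηR : AnR) : ℝ → ℂ) s = evR s uR * evR s ηR := rfl
    rw [h2, h1, h3, h4, Dd_scale, ← eb, hgR]
    show _ = (evR s (Sd uR bR ζR ηR))⁻¹
    simp only [Sd, Sa, Bb, map_sub, map_mul, map_add, map_pow, map_one, map_ofNat]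
  have hE1 : ∀ᶠ s in 𝓝[≠] (0 : ℝ), ChainEq I (β : ℂ) (((uR * ζR : AnR) : ℝ → ℂ) s)
      (((uR * ηR : AnR) : ℝ → ℂ) s) (((uR * TR : AnR) : ℝ → ℂ) s) ((gR : ℝ → ℂ) s)
      (deriv ((uR * ηR : AnR) : ℝ → ℂ) s) (iteratedDeriv 2 ((uR * ηR : AnR) : ℝ → ℂ) s)
      (deriv ((uR * TR : AnR) : ℝ → ℂ) s) (iteratedDeriv 2 ((uR * TR : AnR) : ℝ → ℂ) s) := by
    filter_upwards [hch, nhdsWithin_le_nhds hx, nhdsWithin_le_nhds hχ,
      nhdsWithin_le_nhds hτ, nhdsWithin_le_nhds hg, nhdsWithin_le_nhds hχ.eventually_nhds,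
      nhdsWithin_le_nhds hτ.eventually_nhds] with s h0 h1 h2 h3 h4 h5 h6
    have e5 : (fun s => conj (c s).1) =ᶠ[𝓝 s] ((uR * ηR : AnR) : ℝ → ℂ) := h5
    have e6 : (fun s => conj (c s).2) =ᶠ[𝓝 s] ((uR * TR : AnR) : ℝ → ℂ) := h6
    rw [h4, e5.deriv_eq, e6.deriv_eq, e5.iteratedDeriv_eq 2, e6.iteratedDeriv_eq 2, h2, h1, h3]
      at h0
    exact h0
  have hE2 : ∀ᶠ s in 𝓝[≠] (0 : ℝ), ChainEq (-I) (β : ℂ) (((uR * ηR : AnR) : ℝ → ℂ) s)
      (((uR * ζR : AnR) : ℝ → ℂ) s) (((uR * TR' : AnR) : ℝ → ℂ) s) ((gR : ℝ → ℂ) s)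
      (deriv ((uR * ζR : AnR) : ℝ → ℂ) s) (iteratedDeriv 2 ((uR * ζR : AnR) : ℝ → ℂ) s)
      (deriv ((uR * TR' : AnR) : ℝ → ℂ) s) (iteratedDeriv 2 ((uR * TR' : AnR) : ℝ → ℂ) s) := by
    filter_upwards [hch, nhdsWithin_le_nhds hx, nhdsWithin_le_nhds hχ,
      nhdsWithin_le_nhds hw, nhdsWithin_le_nhds hg, nhdsWithin_le_nhds hx.eventually_nhds,
      nhdsWithin_le_nhds hw.eventually_nhds, nhdsWithin_le_nhds hza.eventually_analyticAt,
      nhdsWithin_le_nhds hwa.eventually_analyticAt] with s h0 h1 h2 h3 h4 h5 h6 h7 h8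
    have e5 : (fun s => (c s).1) =ᶠ[𝓝 s] ((uR * ζR : AnR) : ℝ → ℂ) := h5
    have e6 : (fun s => (c s).2) =ᶠ[𝓝 s] ((uR * TR' : AnR) : ℝ → ℂ) := h6
    rw [deriv_conj' (f := fun s => (c s).1) h7.differentiableAt,
      deriv_conj' (f := fun s => (c s).2) h8.differentiableAt,
      deriv2_conj' (f := fun s => (c s).1) h7, deriv2_conj' (f := fun s => (c s).2) h8,
      e5.deriv_eq, e6.deriv_eq, e5.iteratedDeriv_eq 2, e6.iteratedDeriv_eq 2] at h0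
    rw [chainEq_iff] at h0 ⊢
    have h9 := congrArg (starRingEnd ℂ) h0
    rw [CE_map, map_zero] at h9
    have h10 : conj (Dd (β : ℂ) (c s).1 (conj (c s).1))⁻¹ = (gR : ℝ → ℂ) s := by
      rw [← h4, map_inv₀]
      congr 1
      simp only [Dd, Aa, Bb, map_sub, map_mul, map_add, map_pow, map_one, map_ofNat,
        Complex.conj_conj, Complex.conj_ofReal]
      ring
    rw [h10] at h9
    simp only [Complex.conj_I, Complex.conj_ofReal, Complex.conj_conj] at h9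
    rw [h2, h1, h3] at h9
    exact h9
  have hTE1 := chainEq_tay hE1
  have hTE2 := chainEq_tay hE2
  have tu : tay uR = PowerSeries.C (ε : ℂ) * PowerSeries.X ^ b := by
    rw [huR, map_mul, map_pow, tay_cR, tay_idR]
  have tb : tay bR = PowerSeries.C ((β : ℂ) * ε) * PowerSeries.X ^ b := by
    rw [hbR, map_mul, tay_cR, tu, map_mul, mul_assoc]
  have tT : tay TR = 1 - PowerSeries.C I * (PowerSeries.C (ε : ℂ) * PowerSeries.X ^ b) ^ 3
      * tay νR := by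
    rw [hTR, map_sub, map_mul, map_mul, map_pow, map_one, tay_cR, tu]
  have tT' : tay TR' = 1 + PowerSeries.C I * (PowerSeries.C (ε : ℂ) * PowerSeries.X ^ b) ^ 3
      * tay νR := by
    rw [hTR', map_add, map_mul, map_mul, map_pow, map_one, tay_cR, tu]
  simp only [map_mul tay, tu] at hTE1 hTE2
  have s1 := SP_of_CE hb hε0 hTE1
  have s2 := SP_of_CE hb hε0 hTE2
  rw [tT] at s1
  rw [tT', map_neg] at s2
  refine ⟨tay ζR, tay ηR, tay νR, tay gR, ⟨s1, s2, ?_, ?_⟩, tay_growth ηR⟩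
  · have h1 := tay_eq_of_eventually (f := νR)
      (g := Sa uR ζR ηR + Bb bR ζR ηR * (1 + uR ^ 6 * νR ^ 2)) (nhdsWithin_le_nhds hν2)
    rw [← tu, ← tb]
    conv_lhs => rw [h1]
    simp only [Sa, Bb, map_sub, map_mul, map_add, map_pow, map_one]
  · have h1 := tay_mul_invR (Sd uR bR ζR ηR) hSd0
    rw [← hgR] at h1
    rw [← tu, ← tb]
    simp only [Sd, Sa, Bb, map_sub, map_mul, map_add, map_pow, map_one, map_ofNat] at h1 ⊢
    exact h1

end MP8eabdf
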