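import Pool.Agent.Lib.MP_8eabdf_an.RegOut

/-!
# MP_8eabdf_an, F11: the outer regimes, in the form used by the assembly
-/

namespace MP8eabdf

open Complex Filter Topology Asymptotics Set
open scoped ComplexConjugate

/-- F11: the outer regimes.  `c` analytic at `0`, `c 0 = 0`, `c` not locally constant,
and not (`c.1 = O(c.2)`): impossible. -/
theorem reg_out' {β : ℝ} (_hβ : β ∈ Icc (1 : ℝ) 2) {c : ℝ → ℂ × ℂ} (hc : AnalyticAt ℝ c 0)
    (h0 : c 0 = 0) (hne : ∃ᶠ s in 𝓝[≠] (0 : ℝ), (c s).1 ≠ 0)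
    (hr : ∀ᶠ s in 𝓝 (0 : ℝ), rb β (c s) = 0)
    (hout : (fun s => (c s).2) =o[𝓝 0] fun s => (c s).1)
    (hch : ∀ᶠ s in 𝓝[≠] (0 : ℝ),
      ChainEq I (β : ℂ) (c s).1 (conj (c s).1) (conj (c s).2)
        (Dd (β : ℂ) (c s).1 (conj (c s).1))⁻¹
        (deriv (fun s => conj (c s).1) s) (iteratedDeriv 2 (fun s => conj (c s).1) s)
        (deriv (fun s => conj (c s).2) s) (iteratedDeriv 2 (fun s => conj (c s).2) s)) :
    False := by
  refine reg_out β hc h0 hr (fun h => ?_) (hout.mono nhdsWithin_le_nhds)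
    (hch.filter_mono (nhdsWithin_mono _ fun x hx => ne_of_gt hx))
  exact hne ((h.filter_mono nhdsWithin_le_nhds).mono fun s hs => not_not.2 hs)

end MP8eabdf
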