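import Pool.Agent.Lib.MP_8eabdf_an.F1

/-! F3: the scaled chain equation at `u = b = 0` -/

namespace MP8eabdf
variable {R S : Type*} [CommRing R] [CommRing S]
open Polynomial

theorem coeff4 {a b c d : R} {P : R[X]} (h : P = C a + C b * X + C c * X ^ 2 + C d * X ^ 3) :
    P.coeff 0 = a ∧ P.coeff 1 = b ∧ P.coeff 2 = c ∧ P.coeff 3 = d := by
  subst h
  refine ⟨?_, ?_, ?_, ?_⟩ <;> simp [coeff_X, coeff_C, coeff_X_pow]

theorem SGP_zero (x χ g : R) : SGP 0 0 x χ g = C g := by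
  simp [SGP, Sd]

theorem ShP_zero (i x χ T g : R) : ShP i 0 0 x χ T g
    = C (-2 * i * g * (2 * x ^ 2 * χ + x * T ^ 2)) + C (-2 * i * g * (4 * x * χ + T ^ 2)) * X
      + C (-2 * i * g * (2 * χ)) * X ^ 2 + C 0 * X ^ 3 := by
  simp only [ShP, SGP_zero, Sh, Sa1, Bb, Bb1, Sa, xx, C_0, map_mul, map_add, map_neg, map_pow, C_ofNat]
  ring

theorem SKP_zero (i x χ T g : R) : SKP i 0 0 x χ T g
    = C (-4 * i * g * x ^ 2) + C (-8 * i * g * x) * X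
      + C (-4 * i * g) * X ^ 2 + C 0 * X ^ 3 := by
  simp only [SKP, SGP_zero, Sk, Sh1, Sh, Sa2, Sa1, Bb, Bb1, Bb2, Sa, xx, C_0, map_mul, map_neg, map_pow, C_ofNat]
  ring

theorem SP_zero' (i ζ η T g e₁ e₂ T₁ T₂ : R) :
    SP i 0 0 ζ η T g e₁ e₂ T₁ T₂ = -64 * i ^ 3 * g ^ 3 * η * T ^ 2 * T₁ ^ 3 := by
  obtain ⟨h0, h1, h2, h3⟩ := coeff4 (ShP_zero i ζ η T g)
  obtain ⟨k0, k1, k2, k3⟩ := coeff4 (SKP_zero i ζ η T g)
  simp only [SP, h0, h1, h2, h3, k0, k1, k2, k3]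
  ring

end MP8eabdf
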