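import Pool.Agent.Lib.MP_8eabdf_an.F4

/-! F5: existence of the formal solution, degree bound -/

namespace MP8eabdf

open PowerSeries

section gen
variable {A : Type*} [CommRing A]

theorem FF_mem {R : Type*} [CommRing R] (D : Subring R) {θ : R → R} (hθ : ∀ x ∈ D, θ x ∈ D)
    {i u b ζ η ν g : R} (hi : i ∈ D) (hu : u ∈ D) (hb : b ∈ D) (hζ : ζ ∈ D) (hη : η ∈ D)
    (hν : ν ∈ D) (hg : g ∈ D) : FF i u b θ ζ η ν g ∈ D := by
  have hT : 1 - i * u ^ 3 * ν ∈ D := D.sub_mem D.one_mem (D.mul_mem (D.mul_mem hi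
    (D.pow_mem hu 3)) hν)
  have hη' : η + θ η ∈ D := D.add_mem hη (hθ _ hη)
  have hT' := D.add_mem hT (hθ _ hT)
  exact SP_mem D hi hu hb hζ hη hT hg hη' (hθ _ hη') hT' (hθ _ hT')

def V4.Mem {R : Type*} [CommRing R] (D : Subring R) (v : V4 R) : Prop :=
  v.z ∈ D ∧ v.e ∈ D ∧ v.n ∈ D ∧ v.g ∈ D

theorem Ph_mem {R : Type*} [CommRing R] (D : Subring R) {θ : R → R} (hθ : ∀ x ∈ D, θ x ∈ D)
    {κ i u b : R} (hκ : κ ∈ D) (hi : i ∈ D) (hu : u ∈ D) (hb : b ∈ D) {v : V4 R}
    (hv : v.Mem D) : (Ph κ i u b θ v).Mem D := by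
  obtain ⟨h1, h2, h3, h4⟩ := hv
  have h2' : (2 : R) ∈ D := ofNat_mem D 2
  have h4' : (4 : R) ∈ D := ofNat_mem D 4
  have hS : Sa u v.z v.e ∈ D := by
    unfold Sa
    exact D.sub_mem (D.mul_mem (D.pow_mem h1 _) (D.pow_mem h2 _))
      (D.mul_mem (D.mul_mem (D.pow_mem hu _) (D.pow_mem h1 _)) (D.pow_mem h2 _))
  have hB : Bb b v.z v.e ∈ D := by
    unfold Bb
    exact D.mul_mem (D.add_mem h1 (D.mul_mem hb (D.pow_mem h1 _)))
      (D.add_mem h2 (D.mul_mem hb (D.pow_mem h2 _)))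
  have hD : Sd u b v.z v.e ∈ D := by
    unfold Sd
    exact D.sub_mem D.one_mem (D.mul_mem (D.mul_mem (D.mul_mem h4' (D.pow_mem hu _)) hS) hB)
  refine ⟨?_, ?_, ?_, ?_⟩
  · exact D.sub_mem h1 (D.mul_mem hκ (FF_mem D hθ (D.neg_mem hi) hu hb h2 h1 h3 h4))
  · exact D.add_mem h2 (D.mul_mem hκ (FF_mem D hθ hi hu hb h1 h2 h3 h4))
  · exact D.add_mem hS (D.mul_mem hB (D.add_mem D.one_mem (D.mul_mem (D.pow_mem hu _)
      (D.pow_mem h3 _))))
  · exact D.sub_mem (D.add_mem D.one_mem h4) (D.mul_mem h4 hD)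

/-- the iteration -/
noncomputable def iter (κ i : A) (u b : A⟦X⟧) (c : ℕ → A) : ℕ → V4 A⟦X⟧
  | 0 => ⟨0, 0, 0, 1⟩
  | n + 1 => Ph (C κ) (C i) u b (thetaS c) (iter κ i u b c n)

/-- diagonal limit -/
noncomputable def dlim (v : ℕ → V4 A⟦X⟧) : V4 A⟦X⟧ :=
  ⟨mk fun n => coeff n (v n).z, mk fun n => coeff n (v n).e, mk fun n => coeff n (v n).n,
    mk fun n => coeff n (v n).g⟩

theorem cong_dlim {v : ℕ → V4 A⟦X⟧} (h : ∀ n, Cong (n + 1) (v n) (v (n + 1))) (n : ℕ) :
    Cong (n + 1) (v n) (dlim v) := by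
  have h' : ∀ m n, Cong (m + 1) (v m) (v (m + n)) := by
    intro m n
    induction n with
    | zero => exact ⟨by simp, by simp, by simp, by simp⟩
    | succ n ih => exact ih.trans ((h (m + n)).mono (by omega))
  have key : ∀ (f : V4 A⟦X⟧ → A⟦X⟧) (_ : ∀ k v w, Cong k v w → X ^ k ∣ f w - f v),
      X ^ (n + 1) ∣ (mk fun j => coeff j (f (v j))) - f (v n) := by
    intro f hf
    rw [X_pow_dvd_iff]
    intro m hm
    rw [map_sub, coeff_mk, sub_eq_zero]
    obtain ⟨d, rfl⟩ : ∃ d, n = m + d := ⟨n - m, by omega⟩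
    have := X_pow_dvd_iff.mp (hf _ _ _ (h' m d)) m (by omega)
    rw [map_sub, sub_eq_zero] at this
    exact this.symm
  exact ⟨key V4.z fun _ _ _ h => h.1, key V4.e fun _ _ _ h => h.2.1,
    key V4.n fun _ _ _ h => h.2.2.1, key V4.g fun _ _ _ h => h.2.2.2⟩

theorem exists_fix {c : ℕ → A} (hc : c 0 = 0) {κ i : A} (hi : i ^ 2 = -1) (hκ : 64 * κ = i)
    {u b : A⟦X⟧} (hu : constantCoeff u = 0) (hb : constantCoeff b = 0) :
    Ph (C κ) (C i) u b (thetaS c) (dlim (iter κ i u b c)) = dlim (iter κ i u b c) := by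
  have hconst : ∀ n, (iter κ i u b c n).map (constantCoeff (R := A)) = ⟨0, 0, 0, 1⟩ := by
    intro n
    induction n with
    | zero => simp [iter, V4.map]
    | succ n ih => exact Ph_const hc hi hκ hu hb ih
  have hstep : ∀ n, Cong (n + 1) (iter κ i u b c n) (iter κ i u b c (n + 1)) := by
    intro n
    induction n with
    | zero => exact cong_one (by rw [hconst, hconst])
    | succ n ih => exact contract hc hi hκ hu hb (by omega) (hconst n) ih
  have hl := cong_dlim hstep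
  refine Cong.eq fun k hk => ?_
  obtain ⟨n, rfl⟩ : ∃ n, k = n + 1 := ⟨k - 1, by omega⟩
  have h1 := contract hc hi hκ hu hb (by omega) (hconst n) (hl n)
  exact (h1.symm.trans (hl (n + 1))).mono (by omega)

end gen

/-- coefficients of degree `≤ k` -/
noncomputable def degRing : Subring (Polynomial ℂ)⟦X⟧ where
  carrier := {f | ∀ k, (coeff k f).natDegree ≤ k}
  mul_mem' := by
    intro f g hf hg k
    rw [coeff_mul]
    refine Polynomial.natDegree_sum_le_of_forall_le _ _ fun p hp => ?_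
    rw [Finset.HasAntidiagonal.mem_antidiagonal] at hp
    exact Polynomial.natDegree_mul_le.trans (by have := hf p.1; have := hg p.2; omega)
  one_mem' := by
    intro k
    rw [coeff_one]
    split_ifs <;> simp
  add_mem' := by
    intro f g hf hg k
    rw [map_add]
    exact (Polynomial.natDegree_add_le _ _).trans (max_le (hf k) (hg k))
  zero_mem' := by
    intro k
    simp
  neg_mem' := by
    intro f hf k
    rw [map_neg, Polynomial.natDegree_neg]
    exact hf k

open Complex in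
theorem sol_exists : ∃ ζ η ν g : PowerSeries (Polynomial ℂ),
    Sol (PowerSeries.C (Polynomial.C I)) PowerSeries.X (PowerSeries.C Polynomial.X * PowerSeries.X)
      (thetaS fun n => (n : Polynomial ℂ)) ζ η ν g ∧
    ∀ k, (PowerSeries.coeff k η).natDegree ≤ k := by
  have hi : (Polynomial.C I : Polynomial ℂ) ^ 2 = -1 := by
    rw [← Polynomial.C_pow, I_sq, Polynomial.C_neg, Polynomial.C_1]
  have hκ : 64 * (Polynomial.C (I / 64) : Polynomial ℂ) = Polynomial.C I := by
    have : (64 : Polynomial ℂ) = Polynomial.C 64 := (map_ofNat Polynomial.C 64).symm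
    rw [this, ← Polynomial.C_mul]
    congr 1
    ring
  have hκu : IsUnit (C (Polynomial.C (I / 64)) : (Polynomial ℂ)⟦X⟧) := by
    apply IsUnit.map
    rw [Polynomial.isUnit_C]
    exact (isUnit_iff_ne_zero.mpr (by simp))
  have hfix := exists_fix (c := fun n => (n : Polynomial ℂ)) Nat.cast_zero hi hκ
    (u := X) (b := C Polynomial.X * X) (by simp) (by simp)
  set v := iter (Polynomial.C (I / 64)) (Polynomial.C I) (X : (Polynomial ℂ)⟦X⟧)
    (C Polynomial.X * X) (fun n => (n : Polynomial ℂ)) with hv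
  refine ⟨(dlim v).z, (dlim v).e, (dlim v).n, (dlim v).g, Sol.of_fix hκu hfix, ?_⟩
  have hC : ∀ a : ℂ, (C (Polynomial.C a) : (Polynomial ℂ)⟦X⟧) ∈ degRing := by
    intro a k
    rw [coeff_C]
    split_ifs <;> simp
  have hX : (X : (Polynomial ℂ)⟦X⟧) ∈ degRing := by
    intro k
    rw [coeff_X]
    split_ifs <;> simp
  have hbX : (C Polynomial.X * X : (Polynomial ℂ)⟦X⟧) ∈ degRing := by
    intro k
    rw [coeff_C_mul, coeff_X]
    split_ifs with h
    · simp [h]
    · simp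
  have hθ : ∀ x ∈ degRing, thetaS (fun n => (n : Polynomial ℂ)) x ∈ degRing := by
    intro x hx k
    rw [coeff_thetaS]
    refine Polynomial.natDegree_mul_le.trans ?_
    simpa using hx k
  have hmem : ∀ n, (v n).Mem degRing := by
    intro n
    induction n with
    | zero => exact ⟨degRing.zero_mem, degRing.zero_mem, degRing.zero_mem, degRing.one_mem⟩
    | succ n ih => exact Ph_mem degRing hθ (hC _) (hC _) hX hbX ih
  intro k
  have := (hmem k).2.1 k
  simpa [dlim] using this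

end MP8eabdf
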