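import Pool.Agent.Lib.MP_8eabdf_an.CDefs

/-!
# MP_8eabdf_an: the scaled chain equation and the formal system

`x = u ζ`, `χ = u η`, `τ = u T`, `b = β u`.
-/

namespace MP8eabdf

section Ring
open Polynomial
variable {R : Type*} [CommRing R]

def Sa (u X χ : R) : R := X ^ 2 * χ ^ 2 - u ^ 2 * X ^ 3 * χ ^ 3
def Sa1 (u X χ : R) : R := 2 * X ^ 2 * χ - 3 * u ^ 2 * X ^ 3 * χ ^ 2
def Sa2 (u X χ : R) : R := 2 * X ^ 2 - 6 * u ^ 2 * X ^ 3 * χ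
/-- `D = 1 - 4 A B`, scaled -/
def Sd (u b X χ : R) : R := 1 - 4 * u ^ 6 * Sa u X χ * Bb b X χ
def Sh (i u b X χ T : R) : R :=
  -2 * i * (Sa1 u X χ * (1 - 2 * i * u ^ 3 * Bb b X χ * T)
    + Bb1 b X χ * T * (T + 2 * i * u ^ 3 * Sa u X χ))
def Sh1 (i u b X χ T : R) : R :=
  -2 * i * (Sa2 u X χ * (1 - 2 * i * u ^ 3 * Bb b X χ * T)
    + Bb2 b X * T * (T + 2 * i * u ^ 3 * Sa u X χ))
def Sk (i u b X χ T G : R) : R :=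
  G * Sh1 i u b X χ T
    - 4 * i * u ^ 3 * Bb1 b X χ * (T + 2 * i * u ^ 3 * Sa u X χ) * G ^ 2 * Sh i u b X χ T

noncomputable def SGP (u b x χ g : R) : R[X] :=
  let δ : R[X] := C g * (Sd (C u) (C b) (xx x) (C χ) - C (Sd u b x χ))
  C g * (1 - δ + δ ^ 2 - δ ^ 3)
noncomputable def ShP (i u b x χ T g : R) : R[X] :=
  Sh (C i) (C u) (C b) (xx x) (C χ) (C T) * SGP u b x χ g
noncomputable def SKP (i u b x χ T g : R) : R[X] :=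
  Sk (C i) (C u) (C b) (xx x) (C χ) (C T) (SGP u b x χ g)

/-- the scaled chain equation (`= 0`); `e₁ = η + θη`, `e₂ = θ e₁`, `T₁ = T + θT`, `T₂ = θ T₁` -/
noncomputable def SP (i u b ζ η T g e₁ e₂ T₁ T₂ : R) : R :=
  let h : ℕ → R := fun j => (ShP i u b ζ η T g).coeff j
  let k : ℕ → R := fun j => (SKP i u b ζ η T g).coeff j
  let D : R := T₁ - u ^ 3 * h 0 * e₁
  h 1 ^ 5 * u ^ 6 * (e₁ * T₂ - T₁ * e₂) -
    (u ^ 9 * h 1 ^ 5 * k 0 * e₁ ^ 3 + u ^ 6 * h 1 ^ 4 * k 1 * e₁ ^ 2 * D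
    + u ^ 3 * h 1 ^ 2 * (k 2 * h 1 - k 1 * h 2) * e₁ * D ^ 2
    + (k 3 * h 1 ^ 2 - k 1 * h 1 * h 3 - 2 * k 2 * h 1 * h 2 + 2 * k 1 * h 2 ^ 2) * D ^ 3)

/-- The formal system for `(ζ, η, ν, g)`: `w = u (1 + i u³ ν)`, `w̄ = u (1 - i u³ ν)`. -/
structure Sol (i u b : R) (θ : R → R) (ζ η ν g : R) : Prop where
  e1 : SP i u b ζ η (1 - i * u ^ 3 * ν) g (η + θ η) (θ (η + θ η))
    ((1 - i * u ^ 3 * ν) + θ (1 - i * u ^ 3 * ν))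
    (θ ((1 - i * u ^ 3 * ν) + θ (1 - i * u ^ 3 * ν))) = 0
  e2 : SP (-i) u b η ζ (1 + i * u ^ 3 * ν) g (ζ + θ ζ) (θ (ζ + θ ζ))
    ((1 + i * u ^ 3 * ν) + θ (1 + i * u ^ 3 * ν))
    (θ ((1 + i * u ^ 3 * ν) + θ (1 + i * u ^ 3 * ν))) = 0
  e3 : ν = Sa u ζ η + Bb b ζ η * (1 + u ^ 6 * ν ^ 2)
  e4 : g * Sd u b ζ η = 1

end Ring

open PowerSeries in
/-- diagonal operator on power series: `θ (X^n) = c n X^n` -/
noncomputable def thetaS {A : Type*} [CommRing A] (c : ℕ → A) (f : A⟦X⟧) : A⟦X⟧ :=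
  PowerSeries.mk fun n => c n * PowerSeries.coeff n f

end MP8eabdf
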