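import Pool.Agent.Lib.MP_8eabdf_an.RegF

/-!
# Coefficients of the main parts; the chain equation in terms of `F`
-/

namespace MP8eabdf
namespace Reg

open Polynomial Filter Asymptotics Topology Set

set_option linter.unusedSectionVars false

theorem coeff_cubic (a b c d : ℂ) (j : ℕ) :
    (C a + C b * X + C c * X ^ 2 + C d * X ^ 3 : ℂ[X]).coeff j =
      if j = 0 then a else if j = 1 then b else if j = 2 then c else if j = 3 then d else 0 := by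
  simp only [coeff_add, coeff_C, coeff_C_mul, coeff_X, coeff_X_pow]
  rcases j with _ | _ | _ | _ | j <;> simp

theorem Hm_eq (x χ τ : ℂ) : Hm x χ τ =
    C (-2 * Complex.I * (2 * x ^ 2 * χ - 3 * x ^ 3 * χ ^ 2 + x * τ ^ 2))
    + C (-2 * Complex.I * (4 * x * χ - 9 * x ^ 2 * χ ^ 2 + τ ^ 2)) * X
    + C (-2 * Complex.I * (2 * χ - 9 * x * χ ^ 2)) * X ^ 2
    + C (-2 * Complex.I * (-3 * χ ^ 2)) * X ^ 3 := by
  unfold Hm xx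
  simp only [C_mul, C_add, C_sub, C_pow, C_neg, map_ofNat]
  ring

theorem Fm_eq (β x χ τ : ℂ) : Fm β x χ τ =
    C (2 * Complex.I * (3 * x ^ 3 * χ ^ 2 + (x + β * x ^ 2) * τ ^ 2) - 20 * x ^ 3 * χ ^ 2 * τ)
    + C (2 * Complex.I * (9 * x ^ 2 * χ ^ 2 + (1 + 2 * β * x) * τ ^ 2)
        - 60 * x ^ 2 * χ ^ 2 * τ) * X
    + C (2 * Complex.I * (9 * x * χ ^ 2 + β * τ ^ 2) - 60 * x * χ ^ 2 * τ) * X ^ 2
    + C (2 * Complex.I * (3 * χ ^ 2) - 20 * χ ^ 2 * τ) * X ^ 3 := by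
  unfold Fm xx
  simp only [C_mul, C_add, C_sub, C_pow, map_ofNat, C_1]
  ring

theorem Hm_coeff (x χ τ : ℂ) (j : ℕ) : (Hm x χ τ).coeff j =
    if j = 0 then -2 * Complex.I * (2 * x ^ 2 * χ - 3 * x ^ 3 * χ ^ 2 + x * τ ^ 2)
    else if j = 1 then -2 * Complex.I * (4 * x * χ - 9 * x ^ 2 * χ ^ 2 + τ ^ 2)
    else if j = 2 then -2 * Complex.I * (2 * χ - 9 * x * χ ^ 2)
    else if j = 3 then -2 * Complex.I * (-3 * χ ^ 2) else 0 := by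
  rw [Hm_eq, coeff_cubic]

theorem Fm_coeff (β x χ τ : ℂ) (j : ℕ) : (Fm β x χ τ).coeff j =
    if j = 0 then 2 * Complex.I * (3 * x ^ 3 * χ ^ 2 + (x + β * x ^ 2) * τ ^ 2)
        - 20 * x ^ 3 * χ ^ 2 * τ
    else if j = 1 then 2 * Complex.I * (9 * x ^ 2 * χ ^ 2 + (1 + 2 * β * x) * τ ^ 2)
        - 60 * x ^ 2 * χ ^ 2 * τ
    else if j = 2 then 2 * Complex.I * (9 * x * χ ^ 2 + β * τ ^ 2) - 60 * x * χ ^ 2 * τ
    else if j = 3 then 2 * Complex.I * (3 * χ ^ 2) - 20 * χ ^ 2 * τ else 0 := by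
  rw [Fm_eq, coeff_cubic]

/-- The chain equation multiplied by `χ`, in terms of `F_j = χ K_j - h_j`. -/
theorem chainEq_F {i β x χ τ g χ₁ χ₂ τ₁ τ₂ : ℂ} (hE : ChainEq i β x χ τ g χ₁ χ₂ τ₁ τ₂)
    (h : ℕ → ℂ) (hh : h = fun j => (hP i β x χ τ g).coeff j)
    (F : ℕ → ℂ) (hF : F = fun j => χ * (KP i β x χ τ g).coeff j - (hP i β x χ τ g).coeff j) :
    h 1 ^ 5 * (χ * (χ₁ * τ₂ - τ₁ * χ₂) - χ₁ ^ 2 * τ₁) =
      h 1 ^ 5 * F 0 * χ₁ ^ 3 + h 1 ^ 4 * F 1 * χ₁ ^ 2 * (τ₁ - h 0 * χ₁)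
      + h 1 ^ 2 * (F 2 * h 1 - F 1 * h 2) * χ₁ * (τ₁ - h 0 * χ₁) ^ 2
      + (F 3 * h 1 ^ 2 - F 1 * h 1 * h 3 - 2 * F 2 * h 1 * h 2 + 2 * F 1 * h 2 ^ 2)
        * (τ₁ - h 0 * χ₁) ^ 3 := by
  unfold ChainEq at hE
  subst hh hF
  simp only at hE ⊢
  linear_combination χ * hE

end Reg
end MP8eabdf
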