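import Pool.Agent.Lib.MP_8eabdf_an.RegPO

/-!
# Expansion of the coefficients of the chain equation, outer region
-/

namespace MP8eabdf
namespace Reg

open Polynomial Filter Asymptotics Topology Set

set_option linter.unusedSectionVars false

theorem PO.ofNat {a : ℕ} (n : ℕ) [n.AtLeastTwo] :
    PO a (fun _ => (OfNat.ofNat n : ℂ[X])) 0 := by
  have := PO.nat (a := a) (OfNat.ofNat n)
  simpa only [Nat.cast_ofNat] using this

section
variable {a d e : ℕ} {β : ℂ} {x χ τ g : ℝ → ℂ}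

theorem PO_Aa (hx : FO x a) (hχ : FO χ a) :
    PO a (fun t => Aa (xx (x t)) (C (χ t))) (4 * a) := by
  have hX := PO.xx hx
  have hC := PO.C (a := a) hχ
  unfold Aa
  refine PO.sub ?_ ?_
  · exact (hX.pow 2).mul' (hC.pow 2) (by omega)
  · exact (hX.pow 3).mul' (hC.pow 3) (by omega)

theorem PO_Aa1 (hx : FO x a) (hχ : FO χ a) :
    PO a (fun t => Aa1 (xx (x t)) (C (χ t))) (3 * a) := by
  have hX := PO.xx hx
  have hC := PO.C (a := a) hχ
  unfold Aa1
  refine PO.sub ?_ ?_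
  · exact (((PO.ofNat 2).mul (hX.pow 2)).mul' hC (by omega))
  · exact (((PO.ofNat 3).mul (hX.pow 3)).mul' (hC.pow 2) (by omega))

theorem PO_P (hx : FO x a) :
    PO a (fun t => xx (x t) + C β * xx (x t) ^ 2) a := by
  have hX := PO.xx hx
  exact hX.add ((PO.const β).mul' (hX.pow 2) (by omega))

theorem PO_Bb (hx : FO x a) (hχ : FO χ a) :
    PO a (fun t => Bb (C β) (xx (x t)) (C (χ t))) (2 * a) := by
  have hC := PO.C (a := a) hχ
  unfold Bb
  have h1 : PO a (fun t => C (χ t) + C β * C (χ t) ^ 2) a :=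
    hC.add ((PO.const β).mul' (hC.pow 2) (by omega))
  exact (PO_P hx).mul' h1 (by omega)

theorem PO_Bb1_sub (hx : FO x a) (hχ : FO χ a) :
    PO a (fun t => Bb1 (C β) (xx (x t)) (C (χ t)) - xx (x t)) (2 * a) := by
  have hX := PO.xx hx
  have hC := PO.C (a := a) hχ
  have h1 : PO a (fun t => C β * xx (x t) ^ 2 + 2 * C β * C (χ t) *
      (xx (x t) + C β * xx (x t) ^ 2)) (2 * a) := by
    refine PO.add ((PO.const β).mul' (hX.pow 2) (by omega)) ?_
    exact (((PO.ofNat 2).mul (PO.const β)).mul hC).mul' (PO_P hx) (by omega)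
  refine h1.congr fun t => ?_
  unfold Bb1
  ring

theorem PO_Bb1 (hx : FO x a) (hχ : FO χ a) :
    PO a (fun t => Bb1 (C β) (xx (x t)) (C (χ t))) a := by
  have := ((PO_Bb1_sub (β := β) hx hχ).mono (by omega : a ≤ 2 * a)).add (PO.xx hx)
  exact this.congr fun t => by ring

theorem PO_Dd (hx : FO x a) (hχ : FO χ a) :
    PO a (fun t => Dd (C β) (xx (x t)) (C (χ t)) - 1) (6 * a) := by
  have h1 := (((PO.ofNat 4).mul (PO_Aa hx hχ)).mul' (PO_Bb (β := β) hx hχ)
    (by omega : 6 * a ≤ 0 + 4 * a + 2 * a)).neg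
  refine h1.congr fun t => ?_
  unfold Dd
  ring

theorem FO_Dd (hx : FO x a) (hχ : FO χ a) :
    FO (fun t => Dd β (x t) (χ t) - 1) (6 * a) := by
  have h := PO_Dd (β := β) hx hχ 0
  refine h.congr fun t => ?_
  have : (Dd (C β) (xx (x t)) (C (χ t)) - 1).coeff 0 = Dd β (x t) (χ t) - 1 := by
    rw [coeff_zero_eq_eval_zero]
    simp [Dd, Aa, Bb, xx]
  rw [this]
  simp

theorem PO_GP (ha : 1 ≤ a) (hx : FO x a) (hχ : FO χ a) (hg : FO (fun t => g t - 1) (6 * a)) :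
    PO a (fun t => GP β (x t) (χ t) (g t) - 1) (6 * a) := by
  have hg0 : FO g 0 := by
    have := (hg.mono (Nat.zero_le _)).add (FO.const 1)
    exact this.congr fun t => by ring
  have hδ : PO a (fun t => C (g t) * (Dd (C β) (xx (x t)) (C (χ t)) - C (Dd β (x t) (χ t))))
      (6 * a) := by
    have h1 := (PO_Dd (β := β) hx hχ).sub (PO.C (a := a) (FO_Dd (β := β) hx hχ))
    have h2 := (PO.C (a := a) hg0).mul' h1 (by omega : 6 * a ≤ 0 + 6 * a)
    refine h2.congr fun t => ?_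
    rw [C_sub, C_1]
    ring
  have hG : PO a (fun t => C (g t)) 0 := PO.C hg0
  have h1 : PO a (fun t => C (g t - 1)) (6 * a) := PO.C hg
  have h2 : PO a (fun t => C (g t - 1) - C (g t) *
      (C (g t) * (Dd (C β) (xx (x t)) (C (χ t)) - C (Dd β (x t) (χ t))))
      + C (g t) * (C (g t) * (Dd (C β) (xx (x t)) (C (χ t)) - C (Dd β (x t) (χ t)))) ^ 2
      - C (g t) * (C (g t) * (Dd (C β) (xx (x t)) (C (χ t)) - C (Dd β (x t) (χ t)))) ^ 3)
      (6 * a) := by
    refine PO.sub (PO.add (PO.sub h1 ?_) ?_) ?_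
    · exact hG.mul' hδ (by omega)
    · exact hG.mul' (hδ.pow 2) (by omega)
    · exact hG.mul' (hδ.pow 3) (by omega)
  refine h2.congr fun t => ?_
  unfold GP
  simp only [C_sub, C_1]
  ring

/-- the main part of `h̄` -/
noncomputable def Hm (x χ τ : ℂ) : ℂ[X] :=
  -2 * C Complex.I * (2 * xx x ^ 2 * C χ - 3 * xx x ^ 3 * C χ ^ 2 + xx x * C τ ^ 2)

/-- the main part of `F = χ K - h̄` -/
noncomputable def Fm (β x χ τ : ℂ) : ℂ[X] :=
  2 * C Complex.I * (3 * xx x ^ 3 * C χ ^ 2 + (xx x + C β * xx x ^ 2) * C τ ^ 2)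
    - 20 * xx x ^ 3 * C χ ^ 2 * C τ

variable (he : 1 ≤ e) (hea : e ≤ a) (hed : e ≤ d)
  (hx : FO x a) (hχ : FO χ a) (hτ : FO τ (a + d)) (hg : FO (fun t => g t - 1) (6 * a))

include hea hed hx hχ hτ

theorem PO_Hm : PO a (fun t => Hm (x t) (χ t) (τ t)) (3 * a) := by
  have hX := PO.xx hx
  have hC := PO.C (a := a) hχ
  have hT := PO.C (a := a) hτ
  unfold Hm
  have h2 : PO a (fun _ => (-2 * C Complex.I : ℂ[X])) 0 :=
    ((PO.ofNat 2).neg).mul' (PO.const Complex.I) (by omega)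
  refine h2.mul' (PO.add (PO.sub ?_ ?_) ?_) (n := 3 * a) (by omega)
  · exact ((PO.ofNat 2).mul (hX.pow 2)).mul' hC (by omega)
  · exact ((PO.ofNat 3).mul (hX.pow 3)).mul' (hC.pow 2) (by omega)
  · exact hX.mul' (hT.pow 2) (by omega)

theorem PO_tauA : PO a (fun t => C (τ t) + 2 * C Complex.I * Aa (xx (x t)) (C (χ t)))
    (a + e) := by
  have hT := PO.C (a := a) hτ
  refine PO.add (hT.mono (by omega)) ?_
  exact ((PO.ofNat 2).mul (PO.const Complex.I)).mul' (PO_Aa hx hχ) (by omega)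

theorem PO_Hh_sub : PO a (fun t => Hh (C Complex.I) (C β) (xx (x t)) (C (χ t)) (C (τ t))
    - Hm (x t) (χ t) (τ t)) (3 * a + 3 * e) := by
  have hX := PO.xx hx
  have hC := PO.C (a := a) hχ
  have hT := PO.C (a := a) hτ
  have h2 : PO a (fun _ => (-2 * C Complex.I : ℂ[X])) 0 :=
    ((PO.ofNat 2).neg).mul' (PO.const Complex.I) (by omega)
  have h3 : PO a (fun t => -2 * C Complex.I * (
      -2 * C Complex.I * (Aa1 (xx (x t)) (C (χ t)) * Bb (C β) (xx (x t)) (C (χ t)) * C (τ t))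
      + (Bb1 (C β) (xx (x t)) (C (χ t)) - xx (x t)) * C (τ t) ^ 2
      - (-2 * C Complex.I) * (Bb1 (C β) (xx (x t)) (C (χ t)) * C (τ t)
        * Aa (xx (x t)) (C (χ t))))) (3 * a + 3 * e) := by
    refine h2.mul' (PO.sub (PO.add ?_ ?_) ?_) (n := 3 * a + 3 * e) (by omega)
    · exact h2.mul' (((PO_Aa1 hx hχ).mul (PO_Bb hx hχ)).mul hT) (by omega)
    · exact (PO_Bb1_sub hx hχ).mul' (hT.pow 2) (by omega)
    · exact h2.mul' (((PO_Bb1 hx hχ).mul hT).mul (PO_Aa hx hχ)) (by omega)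
  refine h3.congr fun t => ?_
  unfold Hh Hm Aa1
  ring

theorem PO_Hh : PO a (fun t => Hh (C Complex.I) (C β) (xx (x t)) (C (χ t)) (C (τ t)))
    (3 * a) := by
  have := ((PO_Hh_sub (β := β) hea hed hx hχ hτ).mono (by omega : 3 * a ≤ 3 * a + 3 * e)).add
    (PO_Hm hea hed hx hχ hτ)
  exact this.congr fun t => by ring

include he hg

theorem PO_hP_sub : PO a (fun t => hP Complex.I β (x t) (χ t) (τ t) (g t)
    - Hm (x t) (χ t) (τ t)) (3 * a + 3 * e) := by
  have hG := PO_GP (β := β) (he.trans hea) hx hχ hg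
  have h1 := (PO_Hh_sub (β := β) hea hed hx hχ hτ).add
    ((PO_Hh (β := β) hea hed hx hχ hτ).mul' hG (by omega : 3 * a + 3 * e ≤ 3 * a + 6 * a))
  refine h1.congr fun t => ?_
  unfold hP
  ring

theorem PO_hP : PO a (fun t => hP Complex.I β (x t) (χ t) (τ t) (g t)) (3 * a) := by
  have := ((PO_hP_sub (β := β) he hea hed hx hχ hτ hg).mono
    (by omega : 3 * a ≤ 3 * a + 3 * e)).add (PO_Hm hea hed hx hχ hτ)
  exact this.congr fun t => by ring

end

end Reg
end MP8eabdf
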