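import Pool.Agent.Lib.MP_8eabdf_an.RegExp

/-!
# Expansion of `F = χ K - h̄`, outer region
-/

namespace MP8eabdf
namespace Reg

open Polynomial Filter Asymptotics Topology Set

set_option linter.unusedSectionVars false

section
variable {a d e : ℕ} {β : ℂ} {x χ τ g : ℝ → ℂ}
variable (he : 1 ≤ e) (hea : e ≤ a) (hed : e ≤ d)
  (hx : FO x a) (hχ : FO χ a) (hτ : FO τ (a + d)) (hg : FO (fun t => g t - 1) (6 * a))

include he hea hed hx hχ hτ hg

theorem PO_G : PO a (fun t => GP β (x t) (χ t) (g t)) 0 := by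
  have := ((PO_GP (β := β) (he.trans hea) hx hχ hg).mono (Nat.zero_le _)).add PO.one
  exact this.congr fun t => by ring

theorem PO_Hh_sub0 : PO a (fun t => Hh (C Complex.I) (C β) (xx (x t)) (C (χ t)) (C (τ t))
    - (-4) * C Complex.I * xx (x t) ^ 2 * C (χ t)) (3 * a + 2 * e) := by
  have hX := PO.xx hx
  have hC := PO.C (a := a) hχ
  have hT := PO.C (a := a) hτ
  have h2 : PO a (fun _ => (-2 * C Complex.I : ℂ[X])) 0 :=
    ((PO.ofNat 2).neg).mul' (PO.const Complex.I) (by omega)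
  have h3 : PO a (fun t => -2 * C Complex.I * (xx (x t) * C (τ t) ^ 2 -
      3 * xx (x t) ^ 3 * C (χ t) ^ 2)) (3 * a + 2 * e) := by
    refine h2.mul' (PO.sub ?_ ?_) (n := 3 * a + 2 * e) (by omega)
    · exact hX.mul' (hT.pow 2) (by omega)
    · exact ((PO.ofNat 3).mul (hX.pow 3)).mul' (hC.pow 2) (by omega)
  have h4 := ((PO_Hh_sub (β := β) hea hed hx hχ hτ).mono
    (by omega : 3 * a + 2 * e ≤ 3 * a + 3 * e)).add h3
  refine h4.congr fun t => ?_
  unfold Hm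
  ring

theorem PO_F_sub : PO a (fun t => C (χ t) * KP Complex.I β (x t) (χ t) (τ t) (g t)
    - hP Complex.I β (x t) (χ t) (τ t) (g t) - Fm β (x t) (χ t) (τ t)) (3 * a + 5 * e) := by
  have hX := PO.xx hx
  have hC := PO.C (a := a) hχ
  have hT := PO.C (a := a) hτ
  have hI : PO a (fun _ => (C Complex.I : ℂ[X])) 0 := PO.const _
  have h2 := PO.ofNat (a := a) 2
  have h4 := PO.ofNat (a := a) 4
  have h2I : PO a (fun _ => (2 * C Complex.I : ℂ[X])) 0 := h2.mul' hI (by omega)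
  have h4I : PO a (fun _ => (4 * C Complex.I : ℂ[X])) 0 := h4.mul' hI (by omega)
  have hA := PO_Aa hx hχ
  have hB := PO_Bb (β := β) hx hχ
  have hB1 := PO_Bb1 (β := β) hx hχ
  have hB1s := PO_Bb1_sub (β := β) hx hχ
  have hPp := PO_P (β := β) hx
  have hW := PO_tauA hea hed hx hχ hτ
  have hG := PO_G (β := β) he hea hed hx hχ hτ hg
  have hG1 := PO_GP (β := β) (he.trans hea) hx hχ hg
  have hHh := PO_Hh (β := β) hea hed hx hχ hτ
  have hHs := PO_Hh_sub0 (β := β) he hea hed hx hχ hτ hg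
  have hG2 : PO a (fun t => GP β (x t) (χ t) (g t) ^ 2) 0 := (hG.pow 2).mono (by omega)
  have hG21 : PO a (fun t => GP β (x t) (χ t) (g t) ^ 2 - 1) (6 * a) := by
    have := hG1.mul' (hG.add PO.one) (by omega : 6 * a ≤ 6 * a + 0)
    exact this.congr fun t => by ring
  have h3 : PO a (fun t => 3 * xx (x t) ^ 3 * C (χ t) ^ 2) (5 * a) :=
    ((PO.ofNat 3).mul (hX.pow 3)).mul' (hC.pow 2) (by omega)
  -- the bracket
  have hBr : PO a (fun t => 3 * xx (x t) ^ 3 * C (χ t) ^ 2 *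
      (1 - 2 * C Complex.I * Bb (C β) (xx (x t)) (C (χ t)) * C (τ t))
      + (xx (x t) + C β * xx (x t) ^ 2) * C (τ t) *
        (C (τ t) + 2 * C Complex.I * Aa (xx (x t)) (C (χ t)))) (3 * a + 2 * e) := by
    refine PO.add ?_ ?_
    · have h1 : PO a (fun t => 1 - 2 * C Complex.I * Bb (C β) (xx (x t)) (C (χ t)) * C (τ t)) 0 := by
        refine PO.sub PO.one ?_
        exact ((h2I.mul hB).mul' hT (by omega))
      exact h3.mul' h1 (by omega)
    · exact (hPp.mul hT).mul' hW (by omega)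
  -- `P A - x³χ²`
  have hPA : PO a (fun t => (xx (x t) + C β * xx (x t) ^ 2) * Aa (xx (x t)) (C (χ t))
      - xx (x t) ^ 3 * C (χ t) ^ 2) (6 * a) := by
    have h5 : PO a (fun t => C β * xx (x t) ^ 2 * Aa (xx (x t)) (C (χ t))
        - xx (x t) * (xx (x t) ^ 3 * C (χ t) ^ 3)) (6 * a) := by
      refine PO.sub ?_ ?_
      · exact ((PO.const β).mul (hX.pow 2)).mul' hA (by omega)
      · exact hX.mul' ((hX.pow 3).mul (hC.pow 3)) (by omega)
    refine h5.congr fun t => ?_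
    unfold Aa
    ring
  have T1 := h2I.mul' (hG1.mul hBr) (by omega : 3 * a + 5 * e ≤ 0 + (6 * a + (3 * a + 2 * e)))
  have T2 := (h2I.mul h2I).mul' (h3.mul (hB.mul hT))
    (by omega : 3 * a + 5 * e ≤ 0 + 0 + (5 * a + (2 * a + (a + d))))
  have T3 := (h2I.mul h2I).mul' (hT.mul hPA)
    (by omega : 3 * a + 5 * e ≤ 0 + 0 + (a + d + 6 * a))
  have T4 := (h4I.mul hC).mul' (((hB1s.mul hW).mul hG2).mul hHh)
    (by omega : 3 * a + 5 * e ≤ 0 + a + (2 * a + (a + e) + 0 + 3 * a))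
  have T5 := (h4I.mul hC).mul' (((hX.mul (h2I.mul hA)).mul hG2).mul hHh)
    (by omega : 3 * a + 5 * e ≤ 0 + a + (a + (0 + 4 * a) + 0 + 3 * a))
  have T6 := (h4I.mul hC).mul' (((hX.mul hT).mul hG21).mul hHh)
    (by omega : 3 * a + 5 * e ≤ 0 + a + (a + (a + d) + 6 * a + 3 * a))
  have T7 := (h4I.mul hC).mul' ((hX.mul hT).mul hHs)
    (by omega : 3 * a + 5 * e ≤ 0 + a + (a + (a + d) + (3 * a + 2 * e)))
  have hsum := ((((((T1.sub T2).add T3).sub T4).sub T5).sub T6).sub T7)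
  refine hsum.congr fun t => ?_
  have hJ : (C Complex.I : ℂ[X]) ^ 2 = -1 := by
    rw [← C_pow, Complex.I_sq]; simp
  have key : C (χ t) * Hh1 (C Complex.I) (C β) (xx (x t)) (C (χ t)) (C (τ t))
      = Hh (C Complex.I) (C β) (xx (x t)) (C (χ t)) (C (τ t))
      + 2 * C Complex.I * (3 * xx (x t) ^ 3 * C (χ t) ^ 2 *
      (1 - 2 * C Complex.I * Bb (C β) (xx (x t)) (C (χ t)) * C (τ t))
      + (xx (x t) + C β * xx (x t) ^ 2) * C (τ t) *
        (C (τ t) + 2 * C Complex.I * Aa (xx (x t)) (C (χ t)))) := by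
    unfold Hh1 Hh Bb2 Bb1 Aa1 Aa2
    ring
  simp only [KP, Kk, MP8eabdf.hP, Fm]
  revert key hJ
  generalize GP β (x t) (χ t) (g t) = G
  generalize Hh1 (C Complex.I) (C β) (xx (x t)) (C (χ t)) (C (τ t)) = H1
  generalize Hh (C Complex.I) (C β) (xx (x t)) (C (χ t)) (C (τ t)) = H
  generalize Bb (C β) (xx (x t)) (C (χ t)) = B
  generalize Bb1 (C β) (xx (x t)) (C (χ t)) = B1
  generalize Aa (xx (x t)) (C (χ t)) = A
  generalize xx (x t) = X
  generalize (C (χ t) : ℂ[X]) = c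
  generalize (C (τ t) : ℂ[X]) = s
  generalize (C β : ℂ[X]) = b
  generalize (C Complex.I : ℂ[X]) = J
  intro hJ key
  linear_combination (-G) * key + (-20 * X ^ 3 * c ^ 2 * s) * hJ

end

end Reg
end MP8eabdf
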