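import Pool.Agent.Lib.MP_8eabdf_an.RegW
import Pool.Agent.Lib.MP_8eabdf_an.RegAE

/-!
# Regimes II and IV: contradiction from the leading terms
-/

namespace MP8eabdf
namespace Reg

open Filter Asymptotics Topology Set

set_option linter.unusedSectionVars false

/-- the scaled chain equation (`y₁ = t χ'`, `y₂ = t² χ''`, `s₁ = t τ'`, `s₂ = t² τ''`) -/
def ScaledEq (β : ℂ) (x χ τ g y₁ y₂ s₁ s₂ : ℝ → ℂ) : Prop :=
  ∀ᶠ t in L0,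
    hc β x χ τ g 1 t ^ 5 * (χ t * (y₁ t * s₂ t - s₁ t * y₂ t) - y₁ t ^ 2 * s₁ t) =
      hc β x χ τ g 1 t ^ 5 * Fc β x χ τ g 0 t * y₁ t ^ 3
      + hc β x χ τ g 1 t ^ 4 * Fc β x χ τ g 1 t * y₁ t ^ 2 * (s₁ t - hc β x χ τ g 0 t * y₁ t)
      + hc β x χ τ g 1 t ^ 2 * (Fc β x χ τ g 2 t * hc β x χ τ g 1 t
          - Fc β x χ τ g 1 t * hc β x χ τ g 2 t) * y₁ t * (s₁ t - hc β x χ τ g 0 t * y₁ t) ^ 2
      + (Fc β x χ τ g 3 t * hc β x χ τ g 1 t ^ 2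
          - Fc β x χ τ g 1 t * hc β x χ τ g 1 t * hc β x χ τ g 3 t
          - 2 * Fc β x χ τ g 2 t * hc β x χ τ g 1 t * hc β x χ τ g 2 t
          + 2 * Fc β x χ τ g 1 t * hc β x χ τ g 2 t ^ 2)
        * (s₁ t - hc β x χ τ g 0 t * y₁ t) ^ 3

theorem scaledEq_of_chainEq {β : ℂ} {x χ τ g χ₁ χ₂ τ₁ τ₂ : ℝ → ℂ}
    (hE : ∀ᶠ t in L0, ChainEq Complex.I β (x t) (χ t) (τ t) (g t) (χ₁ t) (χ₂ t) (τ₁ t) (τ₂ t)) :
    ScaledEq β x χ τ g (fun t => t * χ₁ t) (fun t => (t : ℂ) ^ 2 * χ₂ t) (fun t => t * τ₁ t)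
      (fun t => (t : ℂ) ^ 2 * τ₂ t) := by
  filter_upwards [hE] with t ht
  have h := chainEq_F ht _ rfl _ rfl
  simp only [hc, Fc]
  linear_combination (t : ℂ) ^ 3 * h

section
variable {a d e : ℕ} {β : ℂ} {x χ τ g y₁ y₂ s₁ s₂ : ℝ → ℂ} {X0 Y0 T0 : ℂ}
variable (ha : 1 ≤ a) (hd : 1 ≤ d) (hX0 : X0 ≠ 0) (hY0 : Y0 ≠ 0) (hT0 : T0 ≠ 0)
  (hx : AE x X0 a) (hχ : AE χ Y0 a) (hτ : AE τ T0 (a + d)) (hg : FO (fun t => g t - 1) (6 * a))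
  (hy1 : AE y₁ (a * Y0) a) (hy2 : AE y₂ ((a * a - a) * Y0) a)
  (hs1 : AE s₁ ((a + d : ℕ) * T0) (a + d))
  (hs2 : AE s₂ (((a + d : ℕ) * (a + d : ℕ) - (a + d : ℕ)) * T0) (a + d))
  (hE : ScaledEq β x χ τ g y₁ y₂ s₁ s₂)

include ha hd hX0 hY0 hT0 hx hχ hτ hg hy1 hy2 hs1 hs2 hE

/-- Regime II: `a < ω < 2a`. -/
theorem regimeII (hda : d < a) : False := by
  have hhe := h_est (β := β) (e := d) hd hda.le le_rfl hx.fo hχ.fo hτ.fo hg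
  have hFe := F_est (β := β) (e := d) hd hda.le le_rfl hx.fo hχ.fo hτ.fo hg
  have hV2 := V2_est (β := β) (e := d) hd hda.le le_rfl hx.fo hχ.fo hτ.fo hg
  have hV3 := V3_est (β := β) (e := d) hd hda.le le_rfl hx.fo hχ.fo hτ.fo hg
  obtain ⟨h0, h1s⟩ := hhe
  obtain ⟨F0, F1⟩ := hFe
  have h1 : FO (hc β x χ τ g 1) (2 * a) := by
    have m := FO_mon hx.fo hχ.fo hτ.fo (-8 * Complex.I) 1 1 0 (2 * a) (by omega)
    exact ((h1s.mono (by omega : 2 * a ≤ 2 * a + 2 * d)).add m).congr fun t => by ring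
  -- `Δ`
  have hΔ : AE (fun t => s₁ t - hc β x χ τ g 0 t * y₁ t) ((a + d : ℕ) * T0) (a + d) := by
    have h2 : FO (fun t => - (hc β x χ τ g 0 t * y₁ t)) (3 * a + a) := (h0.mul hy1.fo).neg
    exact (hs1.add_fo h2 (by omega)).congr fun t => by ring
  -- `V2`
  have hV2' : FO (fun t => Fc β x χ τ g 2 t * hc β x χ τ g 1 t
      - Fc β x χ τ g 1 t * hc β x χ τ g 2 t) (3 * a + 2 * d) := by
    have m1 := FO_mon hx.fo hχ.fo hτ.fo 72 2 3 0 (3 * a + 2 * d) (by omega)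
    have m2 := FO_mon hx.fo hχ.fo hτ.fo (-8) 0 1 2 (3 * a + 2 * d) (by omega)
    refine ((hV2.mono (by omega : 3 * a + 2 * d ≤ 3 * a + 3 * d)).add (m1.add m2)).congr
      fun t => ?_
    unfold V2m; ring
  -- `V3`
  have hV3' : AE (fun t => Fc β x χ τ g 3 t * hc β x χ τ g 1 t ^ 2
          - Fc β x χ τ g 1 t * hc β x χ τ g 1 t * hc β x χ τ g 3 t
          - 2 * Fc β x χ τ g 2 t * hc β x χ τ g 1 t * hc β x χ τ g 2 t
          + 2 * Fc β x χ τ g 1 t * hc β x χ τ g 2 t ^ 2)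
      (-64 * Complex.I * (Y0 ^ 2 * T0 ^ 2)) (a * 2 + (a + d) * 2) := by
    have m0 := ((hχ.pow 2).mul (hτ.pow 2)).const_mul (-64 * Complex.I)
    have m1 := FO_mon hx.fo hχ.fo hτ.fo (192 * Complex.I) 2 4 0 (a * 2 + (a + d) * 2 + 1)
      (by omega)
    have m2 := FO_mon hx.fo hχ.fo hτ.fo (-640) 2 4 1 (a * 2 + (a + d) * 2 + 1) (by omega)
    have m3 := FO_mon hx.fo hχ.fo hτ.fo (576 * Complex.I) 1 3 2 (a * 2 + (a + d) * 2 + 1)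
      (by omega)
    have m4 := FO_mon hx.fo hχ.fo hτ.fo (-1728 * Complex.I) 3 5 0 (a * 2 + (a + d) * 2 + 1)
      (by omega)
    refine (m0.add_fo (((hV3.mono (by omega : a * 2 + (a + d) * 2 + 1 ≤ 4 * a + 5 * d)).add
      ((m1.add m2).add (m3.add m4)))) le_rfl).congr fun t => ?_
    unfold V3m; ring
  -- assemble
  have K3 := hV3'.mul (hΔ.pow 3)
  have L : FO (fun t => hc β x χ τ g 1 t ^ 5 *
      (χ t * (y₁ t * s₂ t - s₁ t * y₂ t) - y₁ t ^ 2 * s₁ t)) (12 * a + (a + d)) := by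
    have l1 : FO (fun t => χ t * (y₁ t * s₂ t - s₁ t * y₂ t) - y₁ t ^ 2 * s₁ t)
        (2 * a + (a + d)) := by
      refine FO.sub ?_ ?_
      · refine FO.mul' hχ.fo (FO.sub (hy1.fo.mul hs2.fo) ?_) (by omega)
        exact (hs1.fo.mul' hy2.fo (by omega))
      · exact (hy1.fo.pow 2).mul' hs1.fo (by omega)
    exact (h1.pow 5).mul' l1 (by omega)
  have k0 : FO (fun t => hc β x χ τ g 1 t ^ 5 * Fc β x χ τ g 0 t * y₁ t ^ 3)
      (2 * a * 5 + (3 * a + 2 * d) + a * 3) := ((h1.pow 5).mul F0).mul (hy1.fo.pow 3)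
  have k1 := (((h1.pow 4).mul F1).mul (hy1.fo.pow 2)).mul hΔ.fo
  have k2 := (((h1.pow 2).mul hV2').mul hy1.fo).mul (hΔ.fo.pow 2)
  have hz : AE (fun t => (Fc β x χ τ g 3 t * hc β x χ τ g 1 t ^ 2
          - Fc β x χ τ g 1 t * hc β x χ τ g 1 t * hc β x χ τ g 3 t
          - 2 * Fc β x χ τ g 2 t * hc β x χ τ g 1 t * hc β x χ τ g 2 t
          + 2 * Fc β x χ τ g 1 t * hc β x χ τ g 2 t ^ 2)
        * (s₁ t - hc β x χ τ g 0 t * y₁ t) ^ 3) 0 (a * 2 + (a + d) * 2 + (a + d) * 3) := by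
    have h5 : FO (fun t => hc β x χ τ g 1 t ^ 5 *
      (χ t * (y₁ t * s₂ t - s₁ t * y₂ t) - y₁ t ^ 2 * s₁ t)
      - hc β x χ τ g 1 t ^ 5 * Fc β x χ τ g 0 t * y₁ t ^ 3
      - hc β x χ τ g 1 t ^ 4 * Fc β x χ τ g 1 t * y₁ t ^ 2 * (s₁ t - hc β x χ τ g 0 t * y₁ t)
      - hc β x χ τ g 1 t ^ 2 * (Fc β x χ τ g 2 t * hc β x χ τ g 1 t
          - Fc β x χ τ g 1 t * hc β x χ τ g 2 t) * y₁ t
          * (s₁ t - hc β x χ τ g 0 t * y₁ t) ^ 2) (a * 2 + (a + d) * 2 + (a + d) * 3 + 1) := by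
      refine (((L.mono ?_).sub (k0.mono ?_)).sub (k1.mono ?_)).sub (k2.mono ?_) <;> omega
    refine AE.of_fo (h5.congr' ?_) le_rfl
    filter_upwards [hE] with t ht
    rw [ht]; ring
  have := AE.unique K3 hz
  have h6 : (-64 * Complex.I * (Y0 ^ 2 * T0 ^ 2)) * (((a + d : ℕ) : ℂ) * T0) ^ 3 ≠ 0 := by
    have : ((a + d : ℕ) : ℂ) ≠ 0 := by
      have : a + d ≠ 0 := by omega
      exact_mod_cast this
    refine mul_ne_zero (mul_ne_zero (mul_ne_zero (by norm_num) Complex.I_ne_zero)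
      (mul_ne_zero (pow_ne_zero _ hY0) (pow_ne_zero _ hT0))) (pow_ne_zero _ (mul_ne_zero this hT0))
  exact h6 this

end

end Reg
end MP8eabdf
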