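import Pool.Agent.Lib.MP_8eabdf_an.RegIV

/-!
# Regime III: `ω = 2a`
-/

namespace MP8eabdf
namespace Reg

open Filter Asymptotics Topology Set
open scoped ComplexConjugate

set_option linter.unusedSectionVars false

theorem FO.re {f : ℝ → ℂ} {n : ℕ} (h : FO f n) : FO (fun t => ((f t).re : ℂ)) n := by
  refine IsBigO.trans (IsBigO.of_bound 1 ?_) h
  filter_upwards with t
  rw [Complex.norm_real, one_mul, Real.norm_eq_abs]
  exact Complex.abs_re_le_norm _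

theorem FO.im {f : ℝ → ℂ} {n : ℕ} (h : FO f n) : FO (fun t => ((f t).im : ℂ)) n := by
  refine IsBigO.trans (IsBigO.of_bound 1 ?_) h
  filter_upwards with t
  rw [Complex.norm_real, one_mul, Real.norm_eq_abs]
  exact Complex.abs_im_le_norm _

/-- the bracket of Regime III -/
noncomputable def Bk (x χ τ : ℂ) : ℂ :=
  τ ^ 2 - 3 * x ^ 2 * χ ^ 2 - 10 * Complex.I * x ^ 2 * χ ^ 2 * τ - 9 * x * χ * τ ^ 2
    + 27 * x ^ 3 * χ ^ 3

theorem V3m_eq (x χ τ : ℂ) : V3m x χ τ = -64 * Complex.I * χ ^ 2 * Bk x χ τ := by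
  unfold V3m Bk
  linear_combination (-640 * x ^ 2 * χ ^ 4 * τ) * Complex.I_sq

section
variable {a e : ℕ} {β : ℂ} {x χ τ g y₁ y₂ s₁ s₂ : ℝ → ℂ} {X0 Y0 T0 : ℂ}

theorem regimeIII (ha : 1 ≤ a) (hX0 : X0 ≠ 0) (hY0 : Y0 ≠ 0) (hT0 : T0 ≠ 0)
    (hx : AE x X0 a) (hχ : AE χ Y0 a) (hτ : AE τ T0 (a + a))
    (hg : FO (fun t => g t - 1) (6 * a))
    (hy1 : AE y₁ (a * Y0) a) (hy2 : AE y₂ ((a * a - a) * Y0) a)
    (hs1 : AE s₁ ((a + a : ℕ) * T0) (a + a))
    (hs2 : AE s₂ (((a + a : ℕ) * (a + a : ℕ) - (a + a : ℕ)) * T0) (a + a))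
    (hE : ScaledEq β x χ τ g y₁ y₂ s₁ s₂)
    (hconj : ∀ᶠ t in L0, x t = conj (χ t))
    (hF : FO (fun t => ((τ t).im : ℂ) + (x t * χ t) ^ 2) (6 * a))
    (hs1i : FO (fun t => ((s₁ t).im : ℂ)) (4 * a)) : False := by
  obtain ⟨h0, h1s⟩ := h_est (β := β) (e := a) ha le_rfl le_rfl hx.fo hχ.fo hτ.fo hg
  obtain ⟨F0, F1⟩ := F_est (β := β) (e := a) ha le_rfl le_rfl hx.fo hχ.fo hτ.fo hg
  have hV2 := V2_est (β := β) (e := a) ha le_rfl le_rfl hx.fo hχ.fo hτ.fo hg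
  have hV3 := V3_est (β := β) (e := a) ha le_rfl le_rfl hx.fo hχ.fo hτ.fo hg
  have h1 := h1_ae (β := β) ha ha hX0 hY0 hT0 hx hχ hτ hg hy1 hy2 hs1 hs2 ha le_rfl le_rfl
  have hbr := bracket_ae ha ha hX0 hY0 hT0 hx hχ hτ hg hy1 hy2 hs1 hs2
  have hbr0 : FO (fun t => χ t * (y₁ t * s₂ t - s₁ t * y₂ t) - y₁ t ^ 2 * s₁ t)
      (2 * a + (a + a) + 1) := by
    have := hbr.cast (c' := 0) (by ring) rfl
    exact this.to_fo
  have hΔ : AE (fun t => s₁ t - hc β x χ τ g 0 t * y₁ t) ((a + a : ℕ) * T0) (a + a) := by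
    have h2 : FO (fun t => - (hc β x χ τ g 0 t * y₁ t)) (3 * a + a) := (h0.mul hy1.fo).neg
    exact (hs1.add_fo h2 (by omega)).congr fun t => by ring
  have haa : ((a + a : ℕ) : ℂ) ≠ 0 := by
    have : a + a ≠ 0 := by omega
    exact_mod_cast this
  have hV2' : FO (fun t => Fc β x χ τ g 2 t * hc β x χ τ g 1 t
      - Fc β x χ τ g 1 t * hc β x χ τ g 2 t) (5 * a) := by
    have m1 := FO_mon hx.fo hχ.fo hτ.fo 72 2 3 0 (5 * a) (by omega)
    have m2 := FO_mon hx.fo hχ.fo hτ.fo (-8) 0 1 2 (5 * a) (by omega)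
    refine ((hV2.mono (by omega : 5 * a ≤ 3 * a + 3 * a)).add (m1.add m2)).congr
      fun t => ?_
    unfold V2m; ring
  have L : FO (fun t => hc β x χ τ g 1 t ^ 5 *
      (χ t * (y₁ t * s₂ t - s₁ t * y₂ t) - y₁ t ^ 2 * s₁ t)) (14 * a + 1) :=
    (h1.fo.pow 5).mul' hbr0 (by omega)
  have k0 : FO (fun t => hc β x χ τ g 1 t ^ 5 * Fc β x χ τ g 0 t * y₁ t ^ 3) (18 * a) :=
    ((h1.fo.pow 5).mul F0).mul' (hy1.fo.pow 3) (by omega)
  have k1 : FO (fun t => hc β x χ τ g 1 t ^ 4 * Fc β x χ τ g 1 t * y₁ t ^ 2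
      * (s₁ t - hc β x χ τ g 0 t * y₁ t)) (16 * a) :=
    (((h1.fo.pow 4).mul F1).mul (hy1.fo.pow 2)).mul' hΔ.fo (by omega)
  have k2 : FO (fun t => hc β x χ τ g 1 t ^ 2 * (Fc β x χ τ g 2 t * hc β x χ τ g 1 t
          - Fc β x χ τ g 1 t * hc β x χ τ g 2 t) * y₁ t
          * (s₁ t - hc β x χ τ g 0 t * y₁ t) ^ 2) (14 * a) :=
    (((h1.fo.pow 2).mul hV2').mul hy1.fo).mul' (hΔ.fo.pow 2) (by omega)
  have k3 := hV3.mul' (hΔ.fo.pow 3) (by omega : 15 * a ≤ 4 * a + 5 * a + (a + a) * 3)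
  -- Step 1
  have hBk : FO (fun t => Bk (x t) (χ t) (τ t)) (6 * a) := by
    have h5 : FO (fun t => Bk (x t) (χ t) (τ t) *
        ((-64 * Complex.I) * (χ t ^ 2 * (s₁ t - hc β x χ τ g 0 t * y₁ t) ^ 3))) (14 * a) := by
      refine (((((L.mono ?_).sub (k0.mono ?_)).sub (k1.mono ?_)).sub (k2.mono ?_)).sub
        (k3.mono (n := 14 * a) ?_)).congr' ?_
      · omega
      · omega
      · omega
      · omega
      · omega
      · filter_upwards [hE] with t ht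
        rw [ht, V3m_eq]; ring
    refine h5.div_ae (((hχ.pow 2).mul (hΔ.pow 3)).const_mul (-64 * Complex.I)) ?_
      (by omega)
    exact mul_ne_zero (mul_ne_zero (by norm_num) Complex.I_ne_zero)
      (mul_ne_zero (pow_ne_zero _ hY0) (pow_ne_zero _ (mul_ne_zero haa hT0)))
  -- Step 2
  have hS : FO (fun t => τ t ^ 2 - 3 * x t ^ 2 * χ t ^ 2) (6 * a) := by
    have m1 := FO_mon hx.fo hχ.fo hτ.fo (10 * Complex.I) 2 2 1 (6 * a) (by omega)
    have m2 := FO_mon hx.fo hχ.fo hτ.fo 9 1 1 2 (6 * a) (by omega)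
    have m3 := FO_mon hx.fo hχ.fo hτ.fo (-27) 3 3 0 (6 * a) (by omega)
    refine (hBk.add (m1.add (m2.add m3))).congr fun t => ?_
    unfold Bk; ring
  -- Step 3
  have hV2c : FO (fun t => (Fc β x χ τ g 2 t * hc β x χ τ g 1 t
      - Fc β x χ τ g 1 t * hc β x χ τ g 2 t) - 48 * x t ^ 2 * χ t ^ 3) (6 * a) := by
    have m := (hχ.fo.mul' hS (by omega : 6 * a ≤ a + 6 * a)).const_mul (-8)
    refine ((hV2.mono (by omega : 6 * a ≤ 3 * a + 3 * a)).add m).congr fun t => ?_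
    unfold V2m; ring
  have hh1 : FO (fun t => hc β x χ τ g 1 t ^ 2 + 64 * x t ^ 2 * χ t ^ 2) (6 * a) := by
    have m := FO_mon hx.fo hχ.fo hτ.fo (-8 * Complex.I) 1 1 0 (2 * a) (by omega)
    have := h1s.mul' (h1.fo.add m) (by omega : 6 * a ≤ 2 * a + 2 * a + 2 * a)
    refine this.congr fun t => ?_
    linear_combination (-64 * x t ^ 2 * χ t ^ 2) * Complex.I_sq
  have hy : FO (fun t => y₁ t - a * χ t) (a + 1) := by
    have := FO.sub hy1 (FO.const_mul (a : ℂ) hχ)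
    exact this.congr fun t => by ring
  have hk2c : FO (fun t => hc β x χ τ g 1 t ^ 2 * (Fc β x χ τ g 2 t * hc β x χ τ g 1 t
          - Fc β x χ τ g 1 t * hc β x χ τ g 2 t) * y₁ t + 3072 * a * x t ^ 4 * χ t ^ 6)
      (10 * a + 1) := by
    have m1 := (hh1.mul hV2').mul' hy1.fo (by omega : 10 * a + 1 ≤ 6 * a + 5 * a + a)
    have n2 := FO_mon hx.fo hχ.fo hτ.fo (-64) 2 2 0 (4 * a) (by omega)
    have m2 := (n2.mul hV2c).mul' hy1.fo (by omega : 10 * a + 1 ≤ 4 * a + 6 * a + a)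
    have n3 := FO_mon hx.fo hχ.fo hτ.fo (-3072) 4 5 0 (9 * a) (by omega)
    have m3 := n3.mul' hy (by omega : 10 * a + 1 ≤ 9 * a + (a + 1))
    refine ((m1.add m2).add m3).congr fun t => ?_
    ring
  -- Step 4
  have hP : FO (fun t => Bk (x t) (χ t) (τ t) * (s₁ t - hc β x χ τ g 0 t * y₁ t)
      - 48 * Complex.I * a * x t ^ 4 * χ t ^ 4) (8 * a + 1) := by
    have k4 := hk2c.mul' (hΔ.fo.pow 2) (by omega : 14 * a + 1 ≤ 10 * a + 1 + (a + a) * 2)
    have h5 : FO (fun t => (Bk (x t) (χ t) (τ t) * (s₁ t - hc β x χ τ g 0 t * y₁ t)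
      - 48 * Complex.I * a * x t ^ 4 * χ t ^ 4) *
        ((-64 * Complex.I) * (χ t ^ 2 * (s₁ t - hc β x χ τ g 0 t * y₁ t) ^ 2)))
        (14 * a + 1) := by
      refine (((((L.mono ?_).sub (k0.mono ?_)).sub (k1.mono ?_)).sub (k4.mono ?_)).sub
        (k3.mono (n := 14 * a + 1) ?_)).congr' ?_
      · omega
      · omega
      · omega
      · omega
      · omega
      · filter_upwards [hE] with t ht
        rw [ht, V3m_eq]
        linear_combination (-3072 * (a : ℂ) * x t ^ 4 * χ t ^ 6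
          * (s₁ t - hc β x χ τ g 0 t * y₁ t) ^ 2) * Complex.I_sq
    refine h5.div_ae (((hχ.pow 2).mul (hΔ.pow 2)).const_mul (-64 * Complex.I)) ?_
      (by omega)
    exact mul_ne_zero (mul_ne_zero (by norm_num) Complex.I_ne_zero)
      (mul_ne_zero (pow_ne_zero _ hY0) (pow_ne_zero _ (mul_ne_zero haa hT0)))
  -- Step 5: imaginary parts
  have hu : FO (fun t => ((τ t).re : ℂ)) (2 * a) := hτ.fo.re.mono (by omega)
  have hρ : FO (fun t => x t * χ t) (2 * a) := hx.fo.mul' hχ.fo (by omega)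
  have hv : FO (fun t => ((τ t).im : ℂ)) (4 * a) := by
    have := (hρ.pow 2)
    exact ((hF.mono (by omega : 4 * a ≤ 6 * a)).sub (this.mono (by omega))).congr
      fun t => by ring
  have hΔr : FO (fun t => ((s₁ t - hc β x χ τ g 0 t * y₁ t).re : ℂ)) (2 * a) :=
    hΔ.fo.re.mono (by omega)
  have hR1 : FO (fun t => ((s₁ t - hc β x χ τ g 0 t * y₁ t).re : ℂ)
      - (2 * a) * ((τ t).re : ℂ)) (2 * a + 1) := by
    have h3 : FO (fun t => (s₁ t - hc β x χ τ g 0 t * y₁ t) - ((2 * a : ℝ) : ℂ) * τ t)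
        (2 * a + 1) := by
      have h4 := FO.sub hΔ (FO.const_mul ((2 * a : ℝ) : ℂ) hτ)
      refine (h4.mono (by omega)).congr fun t => ?_
      push_cast
      ring
    refine h3.re.congr fun t => ?_
    rw [Complex.sub_re, Complex.re_ofReal_mul]
    push_cast
    ring
  have hΔi : FO (fun t => ((s₁ t - hc β x χ τ g 0 t * y₁ t).im : ℂ)) (4 * a) := by
    have h3 : FO (fun t => ((hc β x χ τ g 0 t * y₁ t).im : ℂ)) (4 * a) :=
      ((h0.mul hy1.fo).im).mono (by omega)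
    refine (hs1i.sub h3).congr fun t => ?_
    rw [Complex.sub_im]; push_cast; ring
  have hBr := hBk.re
  have hU : FO (fun t => ((τ t).re : ℂ) ^ 2 - 3 * (x t * χ t) ^ 2) (6 * a) := by
    have h3 := hS.re
    have h4 := (hv.pow 2).mono (by omega : 6 * a ≤ 4 * a * 2)
    refine (h3.add h4).congr' ?_
    filter_upwards [hconj] with t ht
    have e1 : x t * χ t = ((‖χ t‖ ^ 2 : ℝ) : ℂ) := by
      rw [ht, Complex.conj_mul']; push_cast; ring
    have e2 : τ t ^ 2 - 3 * x t ^ 2 * χ t ^ 2 = τ t ^ 2 - ((3 * (‖χ t‖ ^ 2) ^ 2 : ℝ) : ℂ) := by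
      have : 3 * x t ^ 2 * χ t ^ 2 = 3 * (x t * χ t) ^ 2 := by ring
      rw [this, e1]; push_cast; ring
    rw [e2, e1, Complex.sub_re, Complex.ofReal_re]
    have e3 : (τ t ^ 2).re = (τ t).re ^ 2 - (τ t).im ^ 2 := by
      rw [sq, Complex.mul_re]; ring
    rw [e3]; push_cast; ring
  have hfin : FO (fun t => (120 * a : ℂ) * (x t * χ t) ^ 4) (8 * a + 1) := by
    have hPi := hP.im
    have t1 := hBr.mul' hΔi (by omega : 8 * a + 1 ≤ 6 * a + 4 * a)
    have t2 := ((hu.mul (hρ.pow 2)).mul hR1).const_mul (-12)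
    have t3 := ((hu.mul hF).mul hΔr).const_mul 2
    have t4 := (((hρ.mul hu).mul hv).mul hΔr).const_mul (-18)
    have t5 := ((hρ.pow 2).mul hU).const_mul (-24 * a)
    refine (((((t1.add (t2.mono ?_)).add (t3.mono (n := 8 * a + 1) ?_)).add
      (t4.mono (n := 8 * a + 1) ?_)).add (t5.mono (n := 8 * a + 1) ?_)).sub hPi).congr' ?_
    · omega
    · omega
    · omega
    · omega
    · filter_upwards [hconj] with t ht
      have e1 : x t * χ t = ((‖χ t‖ ^ 2 : ℝ) : ℂ) := by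
        rw [ht, Complex.conj_mul']; push_cast; ring
      set R : ℝ := ‖χ t‖ ^ 2 with hR
      set D : ℂ := s₁ t - hc β x χ τ g 0 t * y₁ t with hD
      have e2 : Bk (x t) (χ t) (τ t) = τ t ^ 2 - 3 * (R : ℂ) ^ 2
          - 10 * Complex.I * (R : ℂ) ^ 2 * τ t - 9 * (R : ℂ) * τ t ^ 2 + 27 * (R : ℂ) ^ 3 := by
        rw [← e1]; unfold Bk; ring
      have e3 : (Bk (x t) (χ t) (τ t)).im = 2 * (τ t).re * (τ t).im - 10 * R ^ 2 * (τ t).re
          - 18 * R * (τ t).re * (τ t).im := by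
        rw [e2]
        simp [pow_succ, Complex.mul_re, Complex.mul_im, Complex.ofReal_re, Complex.ofReal_im]
        ring
      have e4 : 48 * Complex.I * a * x t ^ 4 * χ t ^ 4 = ((48 * a * R ^ 4 : ℝ) : ℂ) * Complex.I := by
        have : 48 * Complex.I * a * x t ^ 4 * χ t ^ 4 = 48 * a * (x t * χ t) ^ 4 * Complex.I := by
          ring
        rw [this, e1]; push_cast; ring
      have e5 : (Bk (x t) (χ t) (τ t) * D - 48 * Complex.I * a * x t ^ 4 * χ t ^ 4).im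
          = (Bk (x t) (χ t) (τ t)).re * D.im + (Bk (x t) (χ t) (τ t)).im * D.re
            - 48 * a * R ^ 4 := by
        rw [e4, Complex.sub_im, Complex.mul_im, Complex.im_ofReal_mul, Complex.I_im]
        ring
      rw [e5, e3, e1]
      push_cast
      ring
  have hρ4 := (((hx.mul hχ).pow 4).const_mul (120 * a : ℂ)).cast (k' := 8 * a) rfl (by omega)
  have h0' := AE.unique hρ4 (AE.of_fo hfin le_rfl)
  have ha0 : (a : ℂ) ≠ 0 := by
    have : a ≠ 0 := by omega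
    exact_mod_cast this
  exact mul_ne_zero (mul_ne_zero (by norm_num) ha0) (pow_ne_zero _ (mul_ne_zero hX0 hY0)) h0'

end

end Reg
end MP8eabdf
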