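import Pool.Agent.Lib.MP_8eabdf_an.RegII

/-!
# Regime IV: `2a < ω ≤ 4a`
-/

namespace MP8eabdf
namespace Reg

open Filter Asymptotics Topology Set

set_option linter.unusedSectionVars false

section
variable {a d e : ℕ} {β : ℂ} {x χ τ g y₁ y₂ s₁ s₂ : ℝ → ℂ} {X0 Y0 T0 : ℂ}
variable (ha : 1 ≤ a) (hd : 1 ≤ d) (hX0 : X0 ≠ 0) (hY0 : Y0 ≠ 0) (hT0 : T0 ≠ 0)
  (hx : AE x X0 a) (hχ : AE χ Y0 a) (hτ : AE τ T0 (a + d)) (hg : FO (fun t => g t - 1) (6 * a))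
  (hy1 : AE y₁ (a * Y0) a) (hy2 : AE y₂ ((a * a - a) * Y0) a)
  (hs1 : AE s₁ ((a + d : ℕ) * T0) (a + d))
  (hs2 : AE s₂ (((a + d : ℕ) * (a + d : ℕ) - (a + d : ℕ)) * T0) (a + d))

include ha hd hX0 hY0 hT0 hx hχ hτ hg hy1 hy2 hs1 hs2

/-- the leading term of the left bracket -/
theorem bracket_ae : AE (fun t => χ t * (y₁ t * s₂ t - s₁ t * y₂ t) - y₁ t ^ 2 * s₁ t)
    (Y0 ^ 2 * T0 * (a * (a + d) * ((d : ℂ) - a))) (2 * a + (a + d)) := by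
  have h1 := hy1.mul hs2
  have h2 := (hs1.mul hy2).cast (k' := a + (a + d)) rfl (by omega)
  have h3 := hχ.mul (h1.sub h2)
  have h4 := ((hy1.pow 2).mul hs1).cast (k' := a + (a + (a + d))) rfl (by omega)
  refine (h3.sub h4).cast ?_ (by omega)
  push_cast
  ring

/-- leading term of `h₁` -/
theorem h1_ae (he : 1 ≤ e) (hea : e ≤ a) (hed : e ≤ d) :
    AE (hc β x χ τ g 1) (-8 * Complex.I * (X0 * Y0)) (2 * a) := by
  obtain ⟨-, h1s⟩ := h_est (β := β) he hea hed hx.fo hχ.fo hτ.fo hg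
  have m := ((hx.mul hχ).const_mul (-8 * Complex.I)).cast (k' := 2 * a) rfl (by omega)
  refine (m.add_fo h1s (by omega)).congr fun t => ?_
  ring

variable (hE : ScaledEq β x χ τ g y₁ y₂ s₁ s₂)
include hE

theorem V2_fo_IV (hda : a < d) : FO (fun t => Fc β x χ τ g 2 t * hc β x χ τ g 1 t
      - Fc β x χ τ g 1 t * hc β x χ τ g 2 t) (5 * a) := by
  have hV2 := V2_est (β := β) (e := a) ha le_rfl hda.le hx.fo hχ.fo hτ.fo hg
  have m1 := FO_mon hx.fo hχ.fo hτ.fo 72 2 3 0 (5 * a) (by omega)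
  have m2 := FO_mon hx.fo hχ.fo hτ.fo (-8) 0 1 2 (5 * a) (by omega)
  refine ((hV2.mono (by omega : 5 * a ≤ 3 * a + 3 * a)).add (m1.add m2)).congr
    fun t => ?_
  unfold V2m; ring

theorem V3_ae_IV (hda : a < d) : AE (fun t => Fc β x χ τ g 3 t * hc β x χ τ g 1 t ^ 2
          - Fc β x χ τ g 1 t * hc β x χ τ g 1 t * hc β x χ τ g 3 t
          - 2 * Fc β x χ τ g 2 t * hc β x χ τ g 1 t * hc β x χ τ g 2 t
          + 2 * Fc β x χ τ g 1 t * hc β x χ τ g 2 t ^ 2)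
      (192 * Complex.I * (X0 ^ 2 * Y0 ^ 4)) (6 * a) := by
  have hV3 := V3_est (β := β) (e := a) ha le_rfl hda.le hx.fo hχ.fo hτ.fo hg
  have m0 := (((hx.pow 2).mul (hχ.pow 4)).const_mul (192 * Complex.I)).cast (k' := 6 * a)
    rfl (by omega)
  have m1 := FO_mon hx.fo hχ.fo hτ.fo (-64 * Complex.I) 0 2 2 (6 * a + 1) (by omega)
  have m2 := FO_mon hx.fo hχ.fo hτ.fo (-640) 2 4 1 (6 * a + 1) (by omega)
  have m3 := FO_mon hx.fo hχ.fo hτ.fo (576 * Complex.I) 1 3 2 (6 * a + 1) (by omega)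
  have m4 := FO_mon hx.fo hχ.fo hτ.fo (-1728 * Complex.I) 3 5 0 (6 * a + 1) (by omega)
  refine (m0.add_fo (((hV3.mono (by omega : 6 * a + 1 ≤ 4 * a + 5 * a)).add
    ((m1.add m2).add (m3.add m4)))) le_rfl).congr fun t => ?_
  unfold V3m; ring

theorem regimeIV_aux (hda : a < d) (hd3 : d ≤ 3 * a) :
    FO (hc β x χ τ g 0) (3 * a) ∧ FO (hc β x χ τ g 1) (2 * a) ∧
    FO (fun t => s₁ t - hc β x χ τ g 0 t * y₁ t) (a + d) ∧
    FO (fun t => hc β x χ τ g 1 t ^ 5 * Fc β x χ τ g 0 t * y₁ t ^ 3) (18 * a) ∧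
    FO (fun t => hc β x χ τ g 1 t ^ 4 * Fc β x χ τ g 1 t * y₁ t ^ 2
      * (s₁ t - hc β x χ τ g 0 t * y₁ t)) (14 * a + (a + d)) ∧
    FO (fun t => hc β x χ τ g 1 t ^ 2 * (Fc β x χ τ g 2 t * hc β x χ τ g 1 t
          - Fc β x χ τ g 1 t * hc β x χ τ g 2 t) * y₁ t
          * (s₁ t - hc β x χ τ g 0 t * y₁ t) ^ 2) (10 * a + 2 * (a + d)) ∧
    AE (fun t => hc β x χ τ g 1 t ^ 5 *
      (χ t * (y₁ t * s₂ t - s₁ t * y₂ t) - y₁ t ^ 2 * s₁ t))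
      ((-8 * Complex.I * (X0 * Y0)) ^ 5 * (Y0 ^ 2 * T0 * (a * (a + d) * ((d : ℂ) - a))))
      (12 * a + (a + d)) := by
  obtain ⟨h0, h1s⟩ := h_est (β := β) (e := a) ha le_rfl hda.le hx.fo hχ.fo hτ.fo hg
  obtain ⟨F0, F1⟩ := F_est (β := β) (e := a) ha le_rfl hda.le hx.fo hχ.fo hτ.fo hg
  have h1 := h1_ae (β := β) ha hd hX0 hY0 hT0 hx hχ hτ hg hy1 hy2 hs1 hs2 ha le_rfl hda.le
  have hbr := bracket_ae ha hd hX0 hY0 hT0 hx hχ hτ hg hy1 hy2 hs1 hs2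
  have hV2 := V2_fo_IV (β := β) ha hd hX0 hY0 hT0 hx hχ hτ hg hy1 hy2 hs1 hs2 hE hda
  have hΔ : FO (fun t => s₁ t - hc β x χ τ g 0 t * y₁ t) (a + d) :=
    hs1.fo.sub (h0.mul' hy1.fo (by omega))
  refine ⟨h0, h1.fo, hΔ, ?_, ?_, ?_, ?_⟩
  · exact ((h1.fo.pow 5).mul F0).mul' (hy1.fo.pow 3) (by omega)
  · exact (((h1.fo.pow 4).mul F1).mul (hy1.fo.pow 2)).mul' hΔ (by omega)
  · exact (((h1.fo.pow 2).mul hV2).mul hy1.fo).mul' (hΔ.pow 2) (by omega)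
  · exact ((h1.pow 5).mul hbr).cast rfl (by omega)

/-- Regime IV, `ω < 3a`. -/
theorem regimeIVa (hda : a < d) (hd2 : d < 2 * a) : False := by
  obtain ⟨h0, h1, hΔf, k0, k1, k2, L⟩ := regimeIV_aux (β := β) ha hd hX0 hY0 hT0 hx hχ hτ hg
    hy1 hy2 hs1 hs2 hE hda (by omega)
  have hV3 := V3_ae_IV (β := β) ha hd hX0 hY0 hT0 hx hχ hτ hg hy1 hy2 hs1 hs2 hE hda
  have hΔ : AE (fun t => s₁ t - hc β x χ τ g 0 t * y₁ t) ((a + d : ℕ) * T0) (a + d) := by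
    have h2 : FO (fun t => - (hc β x χ τ g 0 t * y₁ t)) (3 * a + a) := (h0.mul hy1.fo).neg
    exact (hs1.add_fo h2 (by omega)).congr fun t => by ring
  have K3 := hV3.mul (hΔ.pow 3)
  have hz : AE (fun t => (Fc β x χ τ g 3 t * hc β x χ τ g 1 t ^ 2
          - Fc β x χ τ g 1 t * hc β x χ τ g 1 t * hc β x χ τ g 3 t
          - 2 * Fc β x χ τ g 2 t * hc β x χ τ g 1 t * hc β x χ τ g 2 t
          + 2 * Fc β x χ τ g 1 t * hc β x χ τ g 2 t ^ 2)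
        * (s₁ t - hc β x χ τ g 0 t * y₁ t) ^ 3) 0 (6 * a + (a + d) * 3) := by
    have h5 : FO (fun t => hc β x χ τ g 1 t ^ 5 *
      (χ t * (y₁ t * s₂ t - s₁ t * y₂ t) - y₁ t ^ 2 * s₁ t)
      - hc β x χ τ g 1 t ^ 5 * Fc β x χ τ g 0 t * y₁ t ^ 3
      - hc β x χ τ g 1 t ^ 4 * Fc β x χ τ g 1 t * y₁ t ^ 2 * (s₁ t - hc β x χ τ g 0 t * y₁ t)
      - hc β x χ τ g 1 t ^ 2 * (Fc β x χ τ g 2 t * hc β x χ τ g 1 t
          - Fc β x χ τ g 1 t * hc β x χ τ g 2 t) * y₁ t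
          * (s₁ t - hc β x χ τ g 0 t * y₁ t) ^ 2) (6 * a + (a + d) * 3 + 1) := by
      refine (((L.fo.mono ?_).sub (k0.mono ?_)).sub (k1.mono ?_)).sub (k2.mono ?_) <;> omega
    refine AE.of_fo (h5.congr' ?_) le_rfl
    filter_upwards [hE] with t ht
    rw [ht]; ring
  have := AE.unique K3 hz
  have h6 : (192 * Complex.I * (X0 ^ 2 * Y0 ^ 4)) * (((a + d : ℕ) : ℂ) * T0) ^ 3 ≠ 0 := by
    have : ((a + d : ℕ) : ℂ) ≠ 0 := by
      have : a + d ≠ 0 := by omega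
      exact_mod_cast this
    exact mul_ne_zero (mul_ne_zero (mul_ne_zero (by norm_num) Complex.I_ne_zero)
      (mul_ne_zero (pow_ne_zero _ hX0) (pow_ne_zero _ hY0))) (pow_ne_zero _ (mul_ne_zero this hT0))
  exact h6 this

/-- Regime IV, `3a < ω ≤ 4a`. -/
theorem regimeIVc (hda : 2 * a < d) (hd3 : d ≤ 3 * a) : False := by
  obtain ⟨h0, h1, hΔf, k0, k1, k2, L⟩ := regimeIV_aux (β := β) ha hd hX0 hY0 hT0 hx hχ hτ hg
    hy1 hy2 hs1 hs2 hE (by omega) (by omega)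
  have hV3 := V3_ae_IV (β := β) ha hd hX0 hY0 hT0 hx hχ hτ hg hy1 hy2 hs1 hs2 hE (by omega)
  have k3 := hV3.fo.mul (hΔf.pow 3)
  have hz : AE (fun t => hc β x χ τ g 1 t ^ 5 *
      (χ t * (y₁ t * s₂ t - s₁ t * y₂ t) - y₁ t ^ 2 * s₁ t)) 0 (12 * a + (a + d)) := by
    refine AE.of_fo (FO.congr' (FO.add (FO.add (FO.add (k0.mono ?_) (k1.mono ?_)) (k2.mono ?_))
      (k3.mono (n := 12 * a + (a + d) + 1) ?_)) ?_) le_rfl
    · omega
    · omega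
    · omega
    · omega
    · filter_upwards [hE] with t ht
      rw [ht]
  have := AE.unique L hz
  have h6 : (-8 * Complex.I * (X0 * Y0)) ^ 5 * (Y0 ^ 2 * T0 * (a * (a + d) * ((d : ℂ) - a)))
      ≠ 0 := by
    have h1 : (a : ℂ) ≠ 0 := by
      have : a ≠ 0 := by omega
      exact_mod_cast this
    have h2 : ((a : ℂ) + d) ≠ 0 := by
      have : a + d ≠ 0 := by omega
      exact_mod_cast this
    have h3 : ((d : ℂ) - a) ≠ 0 := by
      intro h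
      have : (d : ℂ) = a := by linear_combination h
      have : d = a := by exact_mod_cast this
      omega
    exact mul_ne_zero (pow_ne_zero _ (mul_ne_zero (mul_ne_zero (by norm_num) Complex.I_ne_zero)
      (mul_ne_zero hX0 hY0))) (mul_ne_zero (mul_ne_zero (pow_ne_zero _ hY0) hT0)
      (mul_ne_zero (mul_ne_zero h1 h2) h3))
  exact h6 this

/-- Regime IV, `ω = 3a`. -/
theorem regimeIVb (hda : d = 2 * a) {r s : ℝ} (hr : X0 * Y0 = r) (hr0 : 0 < r) (hs : T0 = s) :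
    False := by
  obtain ⟨h0, h1, hΔf, k0, k1, k2, L⟩ := regimeIV_aux (β := β) ha hd hX0 hY0 hT0 hx hχ hτ hg
    hy1 hy2 hs1 hs2 hE (by omega) (by omega)
  have hV3 := V3_ae_IV (β := β) ha hd hX0 hY0 hT0 hx hχ hτ hg hy1 hy2 hs1 hs2 hE (by omega)
  have hΔ : AE (fun t => s₁ t - hc β x χ τ g 0 t * y₁ t) ((a + d : ℕ) * T0) (a + d) := by
    have h2 : FO (fun t => - (hc β x χ τ g 0 t * y₁ t)) (3 * a + a) := (h0.mul hy1.fo).neg
    exact (hs1.add_fo h2 (by omega)).congr fun t => by ring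
  have K3 := (hV3.mul (hΔ.pow 3)).cast (k' := 12 * a + (a + d)) rfl (by omega)
  have hz : AE (fun t => hc β x χ τ g 1 t ^ 5 *
      (χ t * (y₁ t * s₂ t - s₁ t * y₂ t) - y₁ t ^ 2 * s₁ t))
      ((192 * Complex.I * (X0 ^ 2 * Y0 ^ 4)) * (((a + d : ℕ) : ℂ) * T0) ^ 3)
      (12 * a + (a + d)) := by
    have h5 := K3.add_fo (FO.add (FO.add (k0.mono ?_) (k1.mono ?_))
      (k2.mono (n := 12 * a + (a + d) + 1) ?_)) le_rfl
    · refine h5.congr' ?_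
      filter_upwards [hE] with t ht
      rw [ht]; ring
    · omega
    · omega
    · omega
  have h7 := AE.unique L hz
  subst hda
  push_cast at h7
  have h8 : (-8 * Complex.I * (X0 * Y0)) ^ 5 = -32768 * Complex.I * (X0 * Y0) ^ 5 := by
    have : Complex.I ^ 5 = Complex.I := by
      have : Complex.I ^ 5 = (Complex.I ^ 2) ^ 2 * Complex.I := by ring
      rw [this, Complex.I_sq]; ring
    calc (-8 * Complex.I * (X0 * Y0)) ^ 5 = -32768 * Complex.I ^ 5 * (X0 * Y0) ^ 5 := by ring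
      _ = _ := by rw [this]
  rw [h8] at h7
  have ha0 : (a : ℂ) ≠ 0 := by
    have : a ≠ 0 := by omega
    exact_mod_cast this
  -- cancel common factors
  have h9 : (Complex.I * (X0 ^ 2 * Y0 ^ 4) * T0 * (a : ℂ) ^ 3) *
      (98304 * (X0 * Y0) ^ 3 + 5184 * T0 ^ 2) = 0 := by
    linear_combination (-1) * h7
  have h10 : 98304 * (X0 * Y0) ^ 3 + 5184 * T0 ^ 2 = 0 := by
    refine (mul_eq_zero.1 h9).resolve_left ?_
    exact mul_ne_zero (mul_ne_zero (mul_ne_zero Complex.I_ne_zero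
      (mul_ne_zero (pow_ne_zero _ hX0) (pow_ne_zero _ hY0))) hT0) (pow_ne_zero _ ha0)
  rw [hr, hs] at h10
  have h11 : 98304 * r ^ 3 + 5184 * s ^ 2 = 0 := by exact_mod_cast h10
  have : 0 < r ^ 3 := by positivity
  nlinarith [sq_nonneg s]

end

end Reg
end MP8eabdf
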