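import Pool.Agent.Lib.MP_8eabdf_an.CDefs

/-!
# Scaled big-O calculus for polynomials with coefficients depending on a real parameter
-/

namespace MP8eabdf
namespace Reg

open Polynomial Filter Asymptotics Topology Set

/-- the filter `t → 0+` -/
abbrev L0 : Filter ℝ := 𝓝[>] (0 : ℝ)

/-- `f = O(t^n)` as `t → 0+` -/
def FO (f : ℝ → ℂ) (n : ℕ) : Prop := f =O[L0] (fun t : ℝ => t ^ n)

theorem pos_L0 : ∀ᶠ t : ℝ in L0, 0 < t := eventually_mem_nhdsWithin

theorem pow_isBigO {m n : ℕ} (h : n ≤ m) :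
    (fun t : ℝ => t ^ m) =O[L0] (fun t : ℝ => t ^ n) := by
  have h1 : ∀ᶠ t : ℝ in L0, t < 1 := by
    have : Iio (1 : ℝ) ∈ 𝓝[>] (0 : ℝ) := mem_nhdsWithin_of_mem_nhds (Iio_mem_nhds one_pos)
    exact this
  refine IsBigO.of_bound 1 ?_
  filter_upwards [h1, pos_L0] with t ht1 ht2
  rw [one_mul, Real.norm_of_nonneg (by positivity), Real.norm_of_nonneg (by positivity)]
  exact pow_le_pow_of_le_one ht2.le ht1.le h

theorem pow_isLittleO {m n : ℕ} (h : n < m) :
    (fun t : ℝ => t ^ m) =o[L0] (fun t : ℝ => t ^ n) :=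
  ((isLittleO_pow_pow h : (fun t : ℝ => t ^ m) =o[𝓝 0] fun t : ℝ => t ^ n).mono
    nhdsWithin_le_nhds)

theorem FO.mono {f : ℝ → ℂ} {m n : ℕ} (h : FO f m) (hmn : n ≤ m) : FO f n :=
  IsBigO.trans h (pow_isBigO hmn)

theorem FO.add {f g : ℝ → ℂ} {n : ℕ} (hf : FO f n) (hg : FO g n) : FO (fun t => f t + g t) n :=
  IsBigO.add hf hg

theorem FO.sub {f g : ℝ → ℂ} {n : ℕ} (hf : FO f n) (hg : FO g n) : FO (fun t => f t - g t) n :=
  IsBigO.sub hf hg

theorem FO.neg {f : ℝ → ℂ} {n : ℕ} (hf : FO f n) : FO (fun t => - f t) n :=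
  IsBigO.neg_left hf

theorem FO.mul {f g : ℝ → ℂ} {m n : ℕ} (hf : FO f m) (hg : FO g n) :
    FO (fun t => f t * g t) (m + n) := by
  have := IsBigO.mul hf hg
  refine this.congr_right ?_
  intro t; ring

theorem FO.mul' {f g : ℝ → ℂ} {m n k : ℕ} (hf : FO f m) (hg : FO g n) (hk : k ≤ m + n) :
    FO (fun t => f t * g t) k := (hf.mul hg).mono hk

theorem FO.const (c : ℂ) : FO (fun _ => c) 0 := by
  unfold FO
  simp only [pow_zero]
  exact isBigO_const_const c one_ne_zero _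

theorem FO.const_mul {f : ℝ → ℂ} {n : ℕ} (c : ℂ) (hf : FO f n) : FO (fun t => c * f t) n :=
  IsBigO.const_mul_left hf c

theorem FO.congr {f g : ℝ → ℂ} {n : ℕ} (hf : FO f n) (h : ∀ t, f t = g t) : FO g n :=
  hf.congr_left h

theorem FO.congr' {f g : ℝ → ℂ} {n : ℕ} (hf : FO f n) (h : ∀ᶠ t in L0, f t = g t) : FO g n :=
  IsBigO.congr' hf h EventuallyEq.rfl

theorem FO.pow {f : ℝ → ℂ} {m : ℕ} (hf : FO f m) (k : ℕ) : FO (fun t => f t ^ k) (m * k) := by
  have := IsBigO.pow hf k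
  refine this.congr_right ?_
  intro t; rw [pow_mul]

theorem FO.pow' {f : ℝ → ℂ} {m : ℕ} (hf : FO f m) (k : ℕ) {n : ℕ} (hn : n ≤ m * k) :
    FO (fun t => f t ^ k) n := (hf.pow k).mono hn

theorem FO.zero (n : ℕ) : FO (fun _ => (0 : ℂ)) n := isBigO_zero _ _

theorem FO.sum {ι : Type*} (s : Finset ι) {f : ι → ℝ → ℂ} {n : ℕ} (h : ∀ i ∈ s, FO (f i) n) :
    FO (fun t => ∑ i ∈ s, f i t) n := by
  have h2 : (∑ i ∈ s, f i) =O[L0] (fun t : ℝ => t ^ n) := IsBigO.sum h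
  exact h2.congr_left fun t => by simp


/-- divide out a power -/
theorem FO.div_pow {f : ℝ → ℂ} {m n : ℕ} (h : FO (fun t => f t * (t : ℂ) ^ m) n) (hmn : m ≤ n) :
    FO f (n - m) := by
  unfold FO at h ⊢
  obtain ⟨C, hC⟩ := h.bound
  refine IsBigO.of_bound C ?_
  filter_upwards [hC, pos_L0] with t ht ht0
  rw [norm_mul, norm_pow, Complex.norm_real, Real.norm_of_nonneg ht0.le,
    Real.norm_of_nonneg (by positivity)] at ht
  rw [Real.norm_of_nonneg (by positivity)]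
  have h1 : t ^ n = t ^ (n - m) * t ^ m := by rw [← pow_add]; congr 1; omega
  rw [h1] at ht
  have h2 : 0 < t ^ m := by positivity
  have : ‖f t‖ * t ^ m ≤ (C * t ^ (n - m)) * t ^ m := by linarith
  exact le_of_mul_le_mul_right this h2

/-- `t^m` itself -/
theorem FO.tpow (m : ℕ) : FO (fun t => (t : ℂ) ^ m) m := by
  unfold FO
  refine IsBigO.of_bound 1 ?_
  filter_upwards with t
  simp

/-- the scaled calculus for polynomials: `coeff_j = O(t^(n - a j))` -/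
def PO (a : ℕ) (Q : ℝ → ℂ[X]) (n : ℕ) : Prop :=
  ∀ j, FO (fun t => (Q t).coeff j * (t : ℂ) ^ (a * j)) n

variable {a : ℕ}

theorem PO.mono {Q : ℝ → ℂ[X]} {m n : ℕ} (h : PO a Q m) (hmn : n ≤ m) : PO a Q n :=
  fun j => (h j).mono hmn

theorem PO.add {P Q : ℝ → ℂ[X]} {n : ℕ} (hP : PO a P n) (hQ : PO a Q n) :
    PO a (fun t => P t + Q t) n := fun j => by
  refine ((hP j).add (hQ j)).congr ?_
  intro t; rw [coeff_add]; ring

theorem PO.sub {P Q : ℝ → ℂ[X]} {n : ℕ} (hP : PO a P n) (hQ : PO a Q n) :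
    PO a (fun t => P t - Q t) n := fun j => by
  refine ((hP j).sub (hQ j)).congr ?_
  intro t; rw [coeff_sub]; ring

theorem PO.neg {P : ℝ → ℂ[X]} {n : ℕ} (hP : PO a P n) :
    PO a (fun t => - P t) n := fun j => by
  refine ((hP j).neg).congr ?_
  intro t; rw [coeff_neg]; ring

theorem PO.mul {P Q : ℝ → ℂ[X]} {m n : ℕ} (hP : PO a P m) (hQ : PO a Q n) :
    PO a (fun t => P t * Q t) (m + n) := fun j => by
  have : FO (fun t => ∑ p ∈ Finset.HasAntidiagonal.antidiagonal j,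
      ((P t).coeff p.1 * (t : ℂ) ^ (a * p.1)) * ((Q t).coeff p.2 * (t : ℂ) ^ (a * p.2)))
      (m + n) := FO.sum _ fun p _ => (hP p.1).mul (hQ p.2)
  refine this.congr ?_
  intro t
  rw [coeff_mul, Finset.sum_mul]
  refine Finset.sum_congr rfl ?_
  rintro ⟨k, l⟩ hkl
  rw [Finset.HasAntidiagonal.mem_antidiagonal] at hkl
  subst hkl
  rw [Nat.mul_add, pow_add]
  ring

theorem PO.mul' {P Q : ℝ → ℂ[X]} {m n k : ℕ} (hP : PO a P m) (hQ : PO a Q n) (hk : k ≤ m + n) :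
    PO a (fun t => P t * Q t) k := (hP.mul hQ).mono hk

theorem PO.C {f : ℝ → ℂ} {n : ℕ} (hf : FO f n) : PO a (fun t => C (f t)) n := fun j => by
  rcases Nat.eq_zero_or_pos j with rfl | hj
  · simpa using hf
  · refine (FO.zero n).congr ?_
    intro t
    rw [coeff_C, if_neg (by omega), zero_mul]

theorem PO.const (c : ℂ) : PO a (fun _ => Polynomial.C c) 0 := PO.C (FO.const c)

theorem PO.one : PO a (fun _ => (1 : ℂ[X])) 0 := by
  simpa using PO.const (a := a) 1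

theorem PO.nat (k : ℕ) : PO a (fun _ => (k : ℂ[X])) 0 := by
  simpa using PO.const (a := a) (k : ℂ)

theorem PO.X : PO a (fun _ => (Polynomial.X : ℂ[X])) a := fun j => by
  by_cases hj : j = 1
  · subst hj
    refine (FO.tpow a).congr ?_
    intro t; simp
  · refine (FO.zero a).congr ?_
    intro t
    rw [coeff_X, if_neg (fun h => hj h.symm), zero_mul]

theorem PO.xx {x : ℝ → ℂ} (hx : FO x a) : PO a (fun t => MP8eabdf.xx (x t)) a :=
  (PO.C hx).add PO.X

theorem PO.pow {P : ℝ → ℂ[X]} {m : ℕ} (hP : PO a P m) (k : ℕ) :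
    PO a (fun t => P t ^ k) (m * k) := by
  induction k with
  | zero => simpa using PO.one (a := a)
  | succ k ih =>
    have := ih.mul hP
    simpa [pow_succ, Nat.mul_succ] using this

theorem PO.pow' {P : ℝ → ℂ[X]} {m : ℕ} (hP : PO a P m) (k : ℕ) {n : ℕ} (hn : n ≤ m * k) :
    PO a (fun t => P t ^ k) n := (hP.pow k).mono hn

theorem PO.congr {P Q : ℝ → ℂ[X]} {n : ℕ} (hP : PO a P n) (h : ∀ t, P t = Q t) : PO a Q n := by
  have : P = Q := funext h
  rwa [← this]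

/-- extract a coefficient -/
theorem PO.coeff {Q : ℝ → ℂ[X]} {n : ℕ} (h : PO a Q n) (j : ℕ) (hj : a * j ≤ n) :
    FO (fun t => (Q t).coeff j) (n - a * j) := (h j).div_pow hj

end Reg
end MP8eabdf
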