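import Pool.Agent.Lib.MP_8eabdf_an.RegCoef

/-!
# Expansion of the four coefficient functions of the chain equation, outer region
-/

namespace MP8eabdf
namespace Reg

open Polynomial Filter Asymptotics Topology Set

set_option linter.unusedSectionVars false

/-- the main part of the coefficient of `Δ³` -/
noncomputable def V3m (x χ τ : ℂ) : ℂ :=
  -64 * Complex.I * χ ^ 2 * τ ^ 2 + 192 * Complex.I * x ^ 2 * χ ^ 4 - 640 * x ^ 2 * χ ^ 4 * τ
    + 576 * Complex.I * x * χ ^ 3 * τ ^ 2 - 1728 * Complex.I * x ^ 3 * χ ^ 5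

/-- the main part of the coefficient of `Δ²` -/
noncomputable def V2m (x χ τ : ℂ) : ℂ := 72 * x ^ 2 * χ ^ 3 - 8 * χ * τ ^ 2

section
variable {a d e : ℕ} {β : ℂ} {x χ τ g : ℝ → ℂ}
variable (he : 1 ≤ e) (hea : e ≤ a) (hed : e ≤ d)
  (hx : FO x a) (hχ : FO χ a) (hτ : FO τ (a + d)) (hg : FO (fun t => g t - 1) (6 * a))

/-- coefficient `h_j` -/
noncomputable def hc (β : ℂ) (x χ τ g : ℝ → ℂ) (j : ℕ) (t : ℝ) : ℂ :=
  (hP Complex.I β (x t) (χ t) (τ t) (g t)).coeff j

/-- coefficient `F_j = χ K_j - h_j` -/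
noncomputable def Fc (β : ℂ) (x χ τ g : ℝ → ℂ) (j : ℕ) (t : ℝ) : ℂ :=
  χ t * (KP Complex.I β (x t) (χ t) (τ t) (g t)).coeff j
    - (hP Complex.I β (x t) (χ t) (τ t) (g t)).coeff j

/-- monomials -/
theorem FO_mon (hx : FO x a) (hχ : FO χ a) (hτ : FO τ (a + d)) (c : ℂ) (m n k r : ℕ)
    (hr : r ≤ a * m + a * n + (a + d) * k) :
    FO (fun t => c * (x t ^ m * χ t ^ n * τ t ^ k)) r :=
  ((((hx.pow m).mul (hχ.pow n)).mul (hτ.pow k)).const_mul c).mono hr

include he hea hed hx hχ hτ hg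

theorem FO_h (j : ℕ) (hj : j ≤ 3) :
    FO (fun t => hc β x χ τ g j t - (Hm (x t) (χ t) (τ t)).coeff j) (3 * a + 3 * e - a * j) := by
  have h := (PO_hP_sub (β := β) he hea hed hx hχ hτ hg).coeff j (by
    have : a * j ≤ a * 3 := Nat.mul_le_mul_left _ hj
    omega)
  refine h.congr fun t => ?_
  rw [coeff_sub]; rfl

theorem FO_F (j : ℕ) (hj : j ≤ 3) :
    FO (fun t => Fc β x χ τ g j t - (Fm β (x t) (χ t) (τ t)).coeff j)
      (3 * a + 5 * e - a * j) := by
  have h := (PO_F_sub (β := β) he hea hed hx hχ hτ hg).coeff j (by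
    have : a * j ≤ a * 3 := Nat.mul_le_mul_left _ hj
    omega)
  refine h.congr fun t => ?_
  rw [coeff_sub, coeff_sub, coeff_C_mul]; rfl

/-- the four estimates for `h` -/
theorem h_est :
    FO (hc β x χ τ g 0) (3 * a) ∧
    FO (fun t => hc β x χ τ g 1 t - (-8 * Complex.I * x t * χ t)) (2 * a + 2 * e) := by
  have h0 := FO_h (β := β) he hea hed hx hχ hτ hg 0 (by omega)
  have h1 := FO_h (β := β) he hea hed hx hχ hτ hg 1 (by omega)
  simp only [Hm_coeff, if_true, one_ne_zero, if_false] at h0 h1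
  constructor
  · have m1 := FO_mon hx hχ hτ (-4 * Complex.I) 2 1 0 (3 * a) (by omega)
    have m2 := FO_mon hx hχ hτ (6 * Complex.I) 3 2 0 (3 * a) (by omega)
    have m3 := FO_mon hx hχ hτ (-2 * Complex.I) 1 0 2 (3 * a) (by omega)
    refine (((h0.mono (by omega : 3 * a ≤ 3 * a + 3 * e - a * 0)).add m1).add
      (m2.add m3)).congr fun t => ?_
    ring
  · have m2 := FO_mon hx hχ hτ (18 * Complex.I) 2 2 0 (2 * a + 2 * e) (by omega)
    have m3 := FO_mon hx hχ hτ (-2 * Complex.I) 0 0 2 (2 * a + 2 * e) (by omega)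
    refine ((h1.mono (by omega : 2 * a + 2 * e ≤ 3 * a + 3 * e - a * 1)).add
      (m2.add m3)).congr fun t => ?_
    ring

theorem F_est :
    FO (Fc β x χ τ g 0) (3 * a + 2 * e) ∧ FO (Fc β x χ τ g 1) (2 * a + 2 * e) := by
  have h0 := FO_F (β := β) he hea hed hx hχ hτ hg 0 (by omega)
  have h1 := FO_F (β := β) he hea hed hx hχ hτ hg 1 (by omega)
  simp only [Fm_coeff, if_true, one_ne_zero, if_false] at h0 h1
  constructor
  · have m1 := FO_mon hx hχ hτ (6 * Complex.I) 3 2 0 (3 * a + 2 * e) (by omega)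
    have m2 := FO_mon hx hχ hτ (2 * Complex.I) 1 0 2 (3 * a + 2 * e) (by omega)
    have m3 := FO_mon hx hχ hτ (2 * Complex.I * β) 2 0 2 (3 * a + 2 * e) (by omega)
    have m4 := FO_mon hx hχ hτ (-20) 3 2 1 (3 * a + 2 * e) (by omega)
    refine (((h0.mono (by omega : 3 * a + 2 * e ≤ 3 * a + 5 * e - a * 0)).add m1).add
      ((m2.add m3).add m4)).congr fun t => ?_
    ring
  · have m1 := FO_mon hx hχ hτ (18 * Complex.I) 2 2 0 (2 * a + 2 * e) (by omega)
    have m2 := FO_mon hx hχ hτ (2 * Complex.I) 0 0 2 (2 * a + 2 * e) (by omega)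
    have m3 := FO_mon hx hχ hτ (4 * Complex.I * β) 1 0 2 (2 * a + 2 * e) (by omega)
    have m4 := FO_mon hx hχ hτ (-60) 2 2 1 (2 * a + 2 * e) (by omega)
    refine (((h1.mono (by omega : 2 * a + 2 * e ≤ 3 * a + 5 * e - a * 1)).add m1).add
      ((m2.add m3).add m4)).congr fun t => ?_
    ring

end

end Reg
end MP8eabdf
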