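import Pool.Agent.Lib.MP_8eabdf_an.RegV

/-!
# Expansion of the coefficients of `Δ²` and `Δ³`, outer region
-/

namespace MP8eabdf
namespace Reg

open Polynomial Filter Asymptotics Topology Set

set_option linter.unusedSectionVars false

section
variable {a d e : ℕ} {β : ℂ} {x χ τ g : ℝ → ℂ}
variable (he : 1 ≤ e) (hea : e ≤ a) (hed : e ≤ d)
  (hx : FO x a) (hχ : FO χ a) (hτ : FO τ (a + d)) (hg : FO (fun t => g t - 1) (6 * a))

include he hea hed hx hχ hτ hg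

theorem V2_est :
    FO (fun t => (Fc β x χ τ g 2 t * hc β x χ τ g 1 t - Fc β x χ τ g 1 t * hc β x χ τ g 2 t)
      - V2m (x t) (χ t) (τ t)) (3 * a + 3 * e) := by
  have h1 := FO_h (β := β) he hea hed hx hχ hτ hg 1 (by omega)
  have h2 := FO_h (β := β) he hea hed hx hχ hτ hg 2 (by omega)
  have F1 := FO_F (β := β) he hea hed hx hχ hτ hg 1 (by omega)
  have F2 := FO_F (β := β) he hea hed hx hχ hτ hg 2 (by omega)
  obtain ⟨-, h1s⟩ := h_est (β := β) he hea hed hx hχ hτ hg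
  obtain ⟨-, F1s⟩ := F_est (β := β) he hea hed hx hχ hτ hg
  simp only [Hm_coeff, Fm_coeff, if_true, one_ne_zero, if_false,
    show (2 : ℕ) ≠ 0 by norm_num, show (2 : ℕ) ≠ 1 by norm_num] at h1 h2 F1 F2
  have h1' : FO (hc β x χ τ g 1) (2 * a) := by
    have m := FO_mon hx hχ hτ (-8 * Complex.I) 1 1 0 (2 * a) (by omega)
    exact ((h1s.mono (by omega : 2 * a ≤ 2 * a + 2 * e)).add m).congr fun t => by ring
  have hF2 : FO (fun t => 2 * Complex.I * (9 * x t * χ t ^ 2 + β * τ t ^ 2)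
      - 60 * x t * χ t ^ 2 * τ t) (a + 2 * e) := by
    have m1 := FO_mon hx hχ hτ (18 * Complex.I) 1 2 0 (a + 2 * e) (by omega)
    have m2 := FO_mon hx hχ hτ (2 * Complex.I * β) 0 0 2 (a + 2 * e) (by omega)
    have m3 := FO_mon hx hχ hτ (-60) 1 2 1 (a + 2 * e) (by omega)
    exact ((m1.add m2).add m3).congr fun t => by ring
  have hh2 : FO (fun t => -2 * Complex.I * (2 * χ t - 9 * x t * χ t ^ 2)) a := by
    have m1 := FO_mon hx hχ hτ (-4 * Complex.I) 0 1 0 a (by omega)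
    have m2 := FO_mon hx hχ hτ (18 * Complex.I) 1 2 0 a (by omega)
    exact (m1.add m2).congr fun t => by ring
  have T1 := F2.mul' h1' (by omega : 3 * a + 3 * e ≤ 3 * a + 5 * e - a * 2 + 2 * a)
  have T2 := hF2.mul' h1 (by omega : 3 * a + 3 * e ≤ a + 2 * e + (3 * a + 3 * e - a * 1))
  have T3 := F1s.mul' h2 (by omega : 3 * a + 3 * e ≤ 2 * a + 2 * e + (3 * a + 3 * e - a * 2))
  have T4 := F1.mul' hh2 (by omega : 3 * a + 3 * e ≤ 3 * a + 5 * e - a * 1 + a)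
  have m1 := FO_mon hx hχ hτ 72 1 2 2 (3 * a + 3 * e) (by omega)
  have m2 := FO_mon hx hχ hτ (240 * Complex.I) 2 3 1 (3 * a + 3 * e) (by omega)
  have m3 := FO_mon hx hχ hτ (36 * β) 2 2 2 (3 * a + 3 * e) (by omega)
  have m4 := FO_mon hx hχ hτ (4 * β) 0 0 4 (3 * a + 3 * e) (by omega)
  have m5 := FO_mon hx hχ hτ (120 * Complex.I) 1 2 3 (3 * a + 3 * e) (by omega)
  have hsum := (((T1.add T2).sub T3).sub T4).add ((((m1.add m2).add m3).add m4).add m5)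
  refine hsum.congr fun t => ?_
  unfold V2m
  linear_combination (4 * ((9 * x t * χ t ^ 2 + β * τ t ^ 2) *
    (4 * x t * χ t - 9 * x t ^ 2 * χ t ^ 2 + τ t ^ 2) -
    (9 * x t ^ 2 * χ t ^ 2 + (1 + 2 * β * x t) * τ t ^ 2) * (2 * χ t - 9 * x t * χ t ^ 2)))
    * Complex.I_sq

theorem V3_est :
    FO (fun t => (Fc β x χ τ g 3 t * hc β x χ τ g 1 t ^ 2
        - Fc β x χ τ g 1 t * hc β x χ τ g 1 t * hc β x χ τ g 3 t
        - 2 * Fc β x χ τ g 2 t * hc β x χ τ g 1 t * hc β x χ τ g 2 t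
        + 2 * Fc β x χ τ g 1 t * hc β x χ τ g 2 t ^ 2)
      - V3m (x t) (χ t) (τ t)) (4 * a + 5 * e) := by
  have h1 := FO_h (β := β) he hea hed hx hχ hτ hg 1 (by omega)
  have h2 := FO_h (β := β) he hea hed hx hχ hτ hg 2 (by omega)
  have h3 := FO_h (β := β) he hea hed hx hχ hτ hg 3 (by omega)
  have F1 := FO_F (β := β) he hea hed hx hχ hτ hg 1 (by omega)
  have F2 := FO_F (β := β) he hea hed hx hχ hτ hg 2 (by omega)
  have F3 := FO_F (β := β) he hea hed hx hχ hτ hg 3 (by omega)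
  obtain ⟨-, h1s⟩ := h_est (β := β) he hea hed hx hχ hτ hg
  obtain ⟨-, F1s⟩ := F_est (β := β) he hea hed hx hχ hτ hg
  simp only [Hm_coeff, Fm_coeff, if_true, one_ne_zero, if_false,
    show (2 : ℕ) ≠ 0 by norm_num, show (2 : ℕ) ≠ 1 by norm_num,
    show (3 : ℕ) ≠ 0 by norm_num, show (3 : ℕ) ≠ 1 by norm_num,
    show (3 : ℕ) ≠ 2 by norm_num] at h1 h2 h3 F1 F2 F3
  have h1' : FO (hc β x χ τ g 1) (2 * a) := by
    have m := FO_mon hx hχ hτ (-8 * Complex.I) 1 1 0 (2 * a) (by omega)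
    exact ((h1s.mono (by omega : 2 * a ≤ 2 * a + 2 * e)).add m).congr fun t => by ring
  have hh1 : FO (fun t => -2 * Complex.I * (4 * x t * χ t - 9 * x t ^ 2 * χ t ^ 2 + τ t ^ 2))
      (2 * a) := by
    have m1 := FO_mon hx hχ hτ (-8 * Complex.I) 1 1 0 (2 * a) (by omega)
    have m2 := FO_mon hx hχ hτ (18 * Complex.I) 2 2 0 (2 * a) (by omega)
    have m3 := FO_mon hx hχ hτ (-2 * Complex.I) 0 0 2 (2 * a) (by omega)
    exact ((m1.add m2).add m3).congr fun t => by ring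
  have hh2 : FO (fun t => -2 * Complex.I * (2 * χ t - 9 * x t * χ t ^ 2)) a := by
    have m1 := FO_mon hx hχ hτ (-4 * Complex.I) 0 1 0 a (by omega)
    have m2 := FO_mon hx hχ hτ (18 * Complex.I) 1 2 0 a (by omega)
    exact (m1.add m2).congr fun t => by ring
  have hh3 : FO (fun t => -2 * Complex.I * (-3 * χ t ^ 2)) (2 * e) := by
    have m1 := FO_mon hx hχ hτ (6 * Complex.I) 0 2 0 (2 * e) (by omega)
    exact m1.congr fun t => by ring
  have h2' : FO (hc β x χ τ g 2) a :=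
    ((h2.mono (by omega : a ≤ 3 * a + 3 * e - a * 2)).add hh2).congr fun t => by ring
  have h3' : FO (hc β x χ τ g 3) (2 * e) :=
    ((h3.mono (by omega : 2 * e ≤ 3 * a + 3 * e - a * 3)).add hh3).congr fun t => by ring
  have hF1 : FO (fun t => 2 * Complex.I * (9 * x t ^ 2 * χ t ^ 2 + (1 + 2 * β * x t) * τ t ^ 2)
        - 60 * x t ^ 2 * χ t ^ 2 * τ t) (2 * a + 2 * e) := by
    have m1 := FO_mon hx hχ hτ (18 * Complex.I) 2 2 0 (2 * a + 2 * e) (by omega)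
    have m2 := FO_mon hx hχ hτ (2 * Complex.I) 0 0 2 (2 * a + 2 * e) (by omega)
    have m3 := FO_mon hx hχ hτ (4 * Complex.I * β) 1 0 2 (2 * a + 2 * e) (by omega)
    have m4 := FO_mon hx hχ hτ (-60) 2 2 1 (2 * a + 2 * e) (by omega)
    exact (((m1.add m2).add m3).add m4).congr fun t => by ring
  have hF2 : FO (fun t => 2 * Complex.I * (9 * x t * χ t ^ 2 + β * τ t ^ 2)
      - 60 * x t * χ t ^ 2 * τ t) (a + 2 * e) := by
    have m1 := FO_mon hx hχ hτ (18 * Complex.I) 1 2 0 (a + 2 * e) (by omega)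
    have m2 := FO_mon hx hχ hτ (2 * Complex.I * β) 0 0 2 (a + 2 * e) (by omega)
    have m3 := FO_mon hx hχ hτ (-60) 1 2 1 (a + 2 * e) (by omega)
    exact ((m1.add m2).add m3).congr fun t => by ring
  have hF3 : FO (fun t => 2 * Complex.I * (3 * χ t ^ 2) - 20 * χ t ^ 2 * τ t) (2 * a) := by
    have m1 := FO_mon hx hχ hτ (6 * Complex.I) 0 2 0 (2 * a) (by omega)
    have m2 := FO_mon hx hχ hτ (-20) 0 2 1 (2 * a) (by omega)
    exact (m1.add m2).congr fun t => by ring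
  -- `F3 h1²`
  have A1 := F3.mul' (h1'.pow 2) (by omega : 4 * a + 5 * e ≤ 3 * a + 5 * e - a * 3 + 2 * a * 2)
  have A2 := (hF3.mul h1).mul' (h1'.add hh1)
    (by omega : 4 * a + 5 * e ≤ 2 * a + (3 * a + 3 * e - a * 1) + 2 * a)
  -- `F1 h1 h3`
  have B1 := (F1.mul h1').mul' h3'
    (by omega : 4 * a + 5 * e ≤ 3 * a + 5 * e - a * 1 + 2 * a + 2 * e)
  have B2 := (hF1.mul h1).mul' h3'
    (by omega : 4 * a + 5 * e ≤ 2 * a + 2 * e + (3 * a + 3 * e - a * 1) + 2 * e)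
  have B3 := (hF1.mul hh1).mul' h3
    (by omega : 4 * a + 5 * e ≤ 2 * a + 2 * e + 2 * a + (3 * a + 3 * e - a * 3))
  -- `F2 h1 h2`
  have C1 := (F2.mul h1').mul' h2'
    (by omega : 4 * a + 5 * e ≤ 3 * a + 5 * e - a * 2 + 2 * a + a)
  have C2 := (hF2.mul h1).mul' h2'
    (by omega : 4 * a + 5 * e ≤ a + 2 * e + (3 * a + 3 * e - a * 1) + a)
  have C3 := (hF2.mul hh1).mul' h2
    (by omega : 4 * a + 5 * e ≤ a + 2 * e + 2 * a + (3 * a + 3 * e - a * 2))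
  -- `F1 h2²`
  have D1 := F1.mul' (h2'.pow 2) (by omega : 4 * a + 5 * e ≤ 3 * a + 5 * e - a * 1 + a * 2)
  have D2 := (hF1.mul h2).mul' (h2'.add hh2)
    (by omega : 4 * a + 5 * e ≤ 2 * a + 2 * e + (3 * a + 3 * e - a * 2) + a)
  have m1 := FO_mon hx hχ hτ (96 * Complex.I * β) 2 3 2 (4 * a + 5 * e) (by omega)
  have m2 := FO_mon hx hχ hτ (32 * Complex.I * β) 0 1 4 (4 * a + 5 * e) (by omega)
  have m3 := FO_mon hx hχ hτ (-2160 * Complex.I) 2 4 2 (4 * a + 5 * e) (by omega)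
  have m4 := FO_mon hx hχ hτ (-48 * Complex.I) 0 2 4 (4 * a + 5 * e) (by omega)
  have m5 := FO_mon hx hχ hτ 5760 3 5 1 (4 * a + 5 * e) (by omega)
  have m6 := FO_mon hx hχ hτ (-320) 1 3 3 (4 * a + 5 * e) (by omega)
  have m7 := FO_mon hx hχ hτ (-864 * Complex.I * β) 3 4 2 (4 * a + 5 * e) (by omega)
  have m8 := FO_mon hx hχ hτ (-192 * Complex.I * β) 1 2 4 (4 * a + 5 * e) (by omega)
  have m9 := FO_mon hx hχ hτ 3600 2 4 3 (4 * a + 5 * e) (by omega)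
  have m10 := FO_mon hx hχ hτ 80 0 2 5 (4 * a + 5 * e) (by omega)
  have hM := ((((((((m1.add m2).add m3).add m4).add m5).add m6).add m7).add m8).add m9).add m10
  have hsum := (((A1.add A2).sub ((B1.add B2).add B3)).sub
    ((((C1.add C2).add C3)).const_mul 2)).add ((D1.add D2).const_mul 2) |>.add hM
  refine hsum.congr fun t => ?_
  unfold V3m
  linear_combination (-4 * (
    (2 * Complex.I * (3 * χ t ^ 2) - 20 * χ t ^ 2 * τ t)
      * (4 * x t * χ t - 9 * x t ^ 2 * χ t ^ 2 + τ t ^ 2) ^ 2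
    - (2 * Complex.I * (9 * x t ^ 2 * χ t ^ 2 + (1 + 2 * β * x t) * τ t ^ 2)
        - 60 * x t ^ 2 * χ t ^ 2 * τ t)
      * (4 * x t * χ t - 9 * x t ^ 2 * χ t ^ 2 + τ t ^ 2) * (-3 * χ t ^ 2)
    - 2 * (2 * Complex.I * (9 * x t * χ t ^ 2 + β * τ t ^ 2) - 60 * x t * χ t ^ 2 * τ t)
      * (4 * x t * χ t - 9 * x t ^ 2 * χ t ^ 2 + τ t ^ 2) * (2 * χ t - 9 * x t * χ t ^ 2)
    + 2 * (2 * Complex.I * (9 * x t ^ 2 * χ t ^ 2 + (1 + 2 * β * x t) * τ t ^ 2)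
        - 60 * x t ^ 2 * χ t ^ 2 * τ t) * (2 * χ t - 9 * x t * χ t ^ 2) ^ 2)) * Complex.I_sq

end

end Reg
end MP8eabdf
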