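import Mathlib

/-!
# MP_8eabdf_an: the definitions used in the statement

`M = {r = 0} ⊂ ℂ²`, Levi form, isolated weakly pseudoconvex points, Chern-Moser normal form,
Chern-Moser chains, and the hypersurfaces `M_β : Im w = |z|⁴ - |z|⁶ + |w|² |z + β z²|²`.
-/

namespace MP8eabdf

open Complex Filter Topology Set
open scoped ComplexConjugate

/-- The complex tangent space `H_q = T_q M ∩ i T_q M` of the hypersurface `{r = 0}`. -/
def complexTangent (r : ℂ × ℂ → ℝ) (q : ℂ × ℂ) : Set (ℂ × ℂ) :=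
  {X | fderiv ℝ r q X = 0 ∧ fderiv ℝ r q (I • X) = 0}

/-- The Levi form of the defining function `r` at `q` in the direction `X`: one quarter of the
Laplacian at `0` of `ζ ↦ r (q + ζ X)`, i.e. `∑ r_{j k̄}(q) X_j conj X_k`. -/
noncomputable def leviForm (r : ℂ × ℂ → ℝ) (q X : ℂ × ℂ) : ℝ :=
  (1 / 4) * (iteratedDeriv 2 (fun s : ℝ => r (q + (s : ℂ) • X)) 0
    + iteratedDeriv 2 (fun s : ℝ => r (q + ((s : ℂ) * I) • X)) 0)

/-- `p` is an isolated weakly pseudoconvex point of the real-analytic hypersurface `{r = 0}`: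
`r` is real-analytic near `p` with `r p = 0`, `dr(p) ≠ 0`; the Levi form vanishes at `p` and it is
positive definite (on the complex tangent space) at all other points of `{r = 0}` near `p`. -/
def IsIsolatedWeaklyPseudoconvex (r : ℂ × ℂ → ℝ) (p : ℂ × ℂ) : Prop :=
  AnalyticAt ℝ r p ∧ r p = 0 ∧ fderiv ℝ r p ≠ 0 ∧
  (∀ X ∈ complexTangent r p, leviForm r p X = 0) ∧
  ∀ᶠ q in 𝓝[≠] p, r q = 0 → ∀ X ∈ complexTangent r q, X ≠ 0 → 0 < leviForm r q X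

/-- Chern-Moser normal form in `ℂ²` at the origin:
`v = N(z,u) = |z|² + ∑_{k,l ≥ 2} N_{kl}(u) z^k z̄^l` (real-analytic) with
`N_{22} = N_{23} = N_{32} = N_{33} = 0`.  Every pair `(k,l)` with `k,l ≥ 2` other than these four
has `max(k,l) ≥ 4`, so this is the same as `N = |z|² + Re(z⁴ z̄² A(z,z̄,u))` with a convergent
power series `A`. -/
def IsNormalForm (N : ℂ × ℝ → ℝ) : Prop :=
  ∃ A : ℂ × ℂ × ℂ → ℂ, AnalyticAt ℂ A 0 ∧
    ∀ᶠ p in 𝓝 (0 : ℂ × ℝ),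
      N p = ‖p.1‖ ^ 2 + (p.1 ^ 4 * conj p.1 ^ 2 * A (p.1, conj p.1, (p.2 : ℂ))).re

/-- The curve `γ` is, near its point `q`, an arc of a Chern-Moser chain of the hypersurface `M`:
there are Chern-Moser normal coordinates centred at `q` (a biholomorphic germ `Φ`, `Φ 0 = q`,
taking the hypersurface `v = N(z,u)` in normal form to `M`) in which `γ` is `{z = 0, Im w = 0}`. -/
def IsChainAt (M γ : Set (ℂ × ℂ)) (q : ℂ × ℂ) : Prop :=
  ∃ (Φ : ℂ × ℂ → ℂ × ℂ) (N : ℂ × ℝ → ℝ), AnalyticAt ℂ Φ 0 ∧ Φ 0 = q ∧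
    Function.Bijective (fderiv ℂ Φ 0) ∧ IsNormalForm N ∧
    (∀ᶠ p in 𝓝 (0 : ℂ × ℂ), (Φ p ∈ M ↔ p.2.im = N (p.1, p.2.re))) ∧
    (∀ᶠ p in 𝓝 (0 : ℂ × ℂ), (Φ p ∈ γ ↔ p.1 = 0 ∧ p.2.im = 0))

/-- `γ = c((-ε,ε))`, with `c : (-ε,ε) → M` real-analytic and nonconstant, `c(0) = p`, is a curve in
`M` through `p` (it may be singular at `p`) that is a Chern-Moser chain of `M` at all of its points
other than `p`. -/
def IsChainCurveThrough (M : Set (ℂ × ℂ)) (p : ℂ × ℂ) (ε : ℝ) (c : ℝ → ℂ × ℂ) : Prop :=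
  0 < ε ∧ (∀ t ∈ Ioo (-ε) ε, AnalyticAt ℝ c t) ∧ c 0 = p ∧ (∃ t ∈ Ioo (-ε) ε, c t ≠ p) ∧
    (∀ t ∈ Ioo (-ε) ε, c t ∈ M) ∧
    ∀ t ∈ Ioo (-ε) ε, c t ≠ p → IsChainAt M (c '' Ioo (-ε) ε) (c t)

/-- defining function of `M_β` -/
noncomputable def rb (β : ℝ) (p : ℂ × ℂ) : ℝ :=
  ‖p.1‖ ^ 4 - ‖p.1‖ ^ 6 + ‖p.2‖ ^ 2 * ‖p.1 + β * p.1 ^ 2‖ ^ 2 - p.2.im

end MP8eabdf
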