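import Pool.Agent.Lib.MP_8eabdf_an.F1

/-! the Taylor homomorphism from functions analytic at `0` to power series -/

namespace MP8eabdf

open Complex Filter Topology Asymptotics Set
open scoped ComplexConjugate PowerSeries

/-- functions `ℝ → ℂ` that are analytic at `0` -/
def AnR : Subring (ℝ → ℂ) where
  carrier := {f | AnalyticAt ℝ f 0}
  mul_mem' := fun ha hb => AnalyticAt.mul ha hb
  one_mem' := analyticAt_const
  add_mem' := fun ha hb => AnalyticAt.add ha hb
  zero_mem' := analyticAt_const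
  neg_mem' := fun ha => AnalyticAt.neg ha

lemma anR (f : AnR) : AnalyticAt ℝ (f : ℝ → ℂ) 0 := f.2

/-- Taylor series at `0` -/
noncomputable def tayS (f : ℝ → ℂ) : ℂ⟦X⟧ :=
  PowerSeries.mk fun n => iteratedDeriv n f 0 / (n.factorial : ℂ)

lemma coeff_tayS (f : ℝ → ℂ) (n : ℕ) :
    PowerSeries.coeff n (tayS f) = iteratedDeriv n f 0 / (n.factorial : ℂ) := by
  simp [tayS]

lemma tayS_const (c : ℂ) : tayS (fun _ => c) = PowerSeries.C c := by
  ext n
  rw [coeff_tayS, iteratedDeriv_const, PowerSeries.coeff_C]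
  split_ifs with h
  · subst h; simp
  · simp

lemma tayS_add {f g : ℝ → ℂ} (hf : AnalyticAt ℝ f 0) (hg : AnalyticAt ℝ g 0) :
    tayS (f + g) = tayS f + tayS g := by
  ext n
  rw [map_add, coeff_tayS, coeff_tayS, coeff_tayS, iteratedDeriv_add hf.contDiffAt hg.contDiffAt]
  ring

lemma tayS_mul {f g : ℝ → ℂ} (hf : AnalyticAt ℝ f 0) (hg : AnalyticAt ℝ g 0) :
    tayS (f * g) = tayS f * tayS g := by
  ext n
  rw [PowerSeries.coeff_mul, coeff_tayS, iteratedDeriv_mul hf.contDiffAt hg.contDiffAt,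
    Finset.Nat.sum_antidiagonal_eq_sum_range_succ
      (fun i j => PowerSeries.coeff i (tayS f) * PowerSeries.coeff j (tayS g)), Finset.sum_div]
  refine Finset.sum_congr rfl fun i hi => ?_
  have hi' : i ≤ n := Nat.lt_succ_iff.1 (Finset.mem_range.1 hi)
  rw [coeff_tayS, coeff_tayS]
  have h := Nat.choose_mul_factorial_mul_factorial hi'
  have h1 : (n.factorial : ℂ) = (n.choose i : ℂ) * i.factorial * (n - i).factorial := by
    rw [← h]; push_cast; ring
  have h2 : (i.factorial : ℂ) ≠ 0 := by exact_mod_cast i.factorial_ne_zero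
  have h3 : ((n - i).factorial : ℂ) ≠ 0 := by exact_mod_cast (n - i).factorial_ne_zero
  have h4 : (n.choose i : ℂ) ≠ 0 := by
    exact_mod_cast (Nat.choose_pos hi').ne'
  rw [h1]
  field_simp

/-- the Taylor homomorphism -/
noncomputable def tay : AnR →+* ℂ⟦X⟧ where
  toFun f := tayS f
  map_one' := by
    have := tayS_const 1
    rw [map_one] at this
    exact this
  map_mul' f g := tayS_mul (anR f) (anR g)
  map_zero' := by
    have := tayS_const 0
    rw [map_zero] at this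
    exact this
  map_add' f g := tayS_add (anR f) (anR g)

lemma tay_apply (f : AnR) : tay f = tayS f := rfl

/-- evaluation -/
def evR (s : ℝ) : AnR →+* ℂ := (Pi.evalRingHom (fun _ : ℝ => ℂ) s).comp AnR.subtype

lemma evR_apply (s : ℝ) (f : AnR) : evR s f = (f : ℝ → ℂ) s := rfl

lemma tayS_congr {f g : ℝ → ℂ} (h : f =ᶠ[𝓝 0] g) : tayS f = tayS g := by
  ext n
  rw [coeff_tayS, coeff_tayS, h.iteratedDeriv_eq n]

lemma eventually_nhds_of_punctured {f g : ℝ → ℂ} (hf : ContinuousAt f 0) (hg : ContinuousAt g 0)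
    (h : ∀ᶠ s in 𝓝[≠] (0 : ℝ), f s = g s) : f =ᶠ[𝓝 0] g := by
  have h0 : f 0 = g 0 := by
    have h1 : Tendsto f (𝓝[≠] 0) (𝓝 (f 0)) := hf.tendsto.mono_left nhdsWithin_le_nhds
    have h2 : Tendsto g (𝓝[≠] 0) (𝓝 (g 0)) := hg.tendsto.mono_left nhdsWithin_le_nhds
    exact tendsto_nhds_unique (h1.congr' h) h2
  rw [EventuallyEq, eventually_nhdsWithin_iff] at *
  filter_upwards [h] with s hs
  by_cases h1 : s = 0
  · rw [h1, h0]
  · exact hs h1

lemma tay_eq_of_eventually {f g : AnR} (h : ∀ᶠ s in 𝓝[≠] (0 : ℝ), evR s f = evR s g) :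
    tay f = tay g :=
  tayS_congr (eventually_nhds_of_punctured (anR f).continuousAt (anR g).continuousAt h)

/-- derivation on `AnR` -/
noncomputable def dR (f : AnR) : AnR := ⟨deriv f, (anR f).deriv⟩

lemma coeff_tay_dR (f : AnR) (n : ℕ) :
    PowerSeries.coeff n (tay (dR f)) = ((n : ℂ) + 1) * PowerSeries.coeff (n + 1) (tay f) := by
  rw [tay_apply, tay_apply, coeff_tayS, coeff_tayS, iteratedDeriv_succ', Nat.factorial_succ]
  have h2 : (n.factorial : ℂ) ≠ 0 := by exact_mod_cast n.factorial_ne_zero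
  have h3 : ((n : ℂ) + 1) ≠ 0 := by exact_mod_cast n.succ_ne_zero
  show iteratedDeriv n (deriv (f : ℝ → ℂ)) 0 / _ = _
  push_cast
  field_simp

lemma tay_dR (f : AnR) : tay (dR f) = PowerSeries.derivative ℂ (tay f) := by
  ext n
  rw [coeff_tay_dR, PowerSeries.coeff_derivative]
  ring

/-- the identity function -/
noncomputable def idR : AnR := ⟨fun s => (s : ℂ), Complex.ofRealCLM.analyticAt 0⟩

/-- constants -/
def cR (c : ℂ) : AnR := ⟨fun _ => c, analyticAt_const⟩

lemma tay_cR (c : ℂ) : tay (cR c) = PowerSeries.C c := tayS_const c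

lemma tay_idR : tay idR = PowerSeries.X := by
  ext n
  rw [tay_apply, coeff_tayS, PowerSeries.coeff_X]
  have hd : deriv (fun s : ℝ => (s : ℂ)) = fun _ => 1 := by
    funext s
    exact (Complex.ofRealCLM.hasDerivAt (x := s)).deriv
  rcases n with _ | _ | n
  · simp [idR]
  · simp only [zero_add, iteratedDeriv_one]
    show deriv (fun s : ℝ => (s : ℂ)) 0 / _ = _
    rw [hd]; simp
  · rw [iteratedDeriv_succ']
    show iteratedDeriv (n + 1) (deriv fun s : ℝ => (s : ℂ)) 0 / _ = _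
    rw [hd, iteratedDeriv_const]
    simp

lemma tay_growth (f : AnR) : ∃ M : ℝ, ∀ n, ‖PowerSeries.coeff n (tay f)‖ ≤ M ^ (n + 1) := by
  obtain ⟨p, r, hp⟩ := anR f
  have hr := hp.r_pos
  obtain ⟨r', hr'0, hr'⟩ := ENNReal.lt_iff_exists_nnreal_btwn.1 (hr.trans_le hp.r_le)
  have hr'1 : (0 : ℝ) < r' := by exact_mod_cast hr'0
  obtain ⟨C, hC, hCn⟩ := p.norm_mul_pow_le_of_lt_radius hr'
  refine ⟨max C 1 / min (r' : ℝ) 1, fun n => ?_⟩
  have hcoef : PowerSeries.coeff n (tay f) = p.coeff n := by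
    rw [tay_apply, coeff_tayS]
    have h := hp.factorial_smul (y := 1) (n := n)
    rw [iteratedDeriv_eq_iteratedFDeriv, ← h]
    have h2 : (n.factorial : ℂ) ≠ 0 := by exact_mod_cast n.factorial_ne_zero
    rw [nsmul_eq_mul, mul_div_assoc, mul_comm, div_mul_cancel₀ _ h2]
    rfl
  rw [hcoef]
  have h1 : ‖p.coeff n‖ ≤ ‖p n‖ := by
    have h := (p n).le_opNorm (fun _ => (1 : ℝ))
    rw [norm_one, Finset.prod_const_one, mul_one] at h
    exact h
  have h2 := hCn n
  set m := min (r' : ℝ) 1 with hm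
  have hm0 : 0 < m := lt_min hr'1 one_pos
  have hm1 : m ≤ 1 := min_le_right _ _
  have hmr : m ≤ r' := min_le_left _ _
  have h3 : ‖p n‖ * m ^ n ≤ C := le_trans (by gcongr) h2
  rw [div_pow, le_div_iff₀ (by positivity)]
  calc ‖p.coeff n‖ * m ^ (n + 1) ≤ ‖p n‖ * m ^ (n + 1) := by gcongr
    _ = ‖p n‖ * m ^ n * m := by ring
    _ ≤ C * 1 := by gcongr
    _ ≤ max C 1 := by rw [mul_one]; exact le_max_left _ _
    _ ≤ max C 1 ^ (n + 1) := by
      exact le_self_pow₀ (le_max_right _ _) (Nat.succ_ne_zero n)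

end MP8eabdf
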